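import Mathlib

/-! The abstract part of the Hoermander method: approximate solvability of `lam - box` for one
`lam` and the basic inequality give almost closed elements near a given one. -/

namespace Pool.Agent.Lib.MP_813db1_ag.AN

section Bun

variable {D : Type} [AddCommGroup D] [Module ℝ D]

/-- the data of the abstract method, bundled. -/
structure HB (p0 p1 : LinearMap.BilinForm ℝ D) (box : D →ₗ[ℝ] D) (c : ℝ) : Prop where
  s0 : ∀ x y, p0 x y = p0 y x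
  s1 : ∀ x y, p1 x y = p1 y x
  n0 : ∀ x, 0 ≤ p0 x x
  n1 : ∀ x, 0 ≤ p1 x x
  green : ∀ x y, p0 (box x) y = -p1 x y
  bk : ∀ x, c * p1 x x ≤ p0 (box x) (box x)
  cpos : 0 < c

theorem cs_form (p : LinearMap.BilinForm ℝ D) (hs : ∀ x y, p x y = p y x) (hn : ∀ x, 0 ≤ p x x)
    (x y : D) : |p x y| ≤ √(p x x) * √(p y y) := by
  have h := LinearMap.BilinForm.apply_mul_apply_le_of_forall_zero_le p hn x y
  rw [hs y x] at h
  rw [← Real.sqrt_mul (hn x)]
  exact Real.abs_le_sqrt (by nlinarith)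

theorem tri_form (p : LinearMap.BilinForm ℝ D) (hs : ∀ x y, p x y = p y x) (hn : ∀ x, 0 ≤ p x x)
    (x y : D) : √(p (x + y) (x + y)) ≤ √(p x x) + √(p y y) := by
  have h := (abs_le.1 (cs_form p hs hn x y)).2
  have hx := Real.sq_sqrt (hn x)
  have hy := Real.sq_sqrt (hn y)
  refine Real.sqrt_le_iff.2 ⟨by positivity, ?_⟩
  simp only [map_add, LinearMap.add_apply]
  rw [hs y x]
  nlinarith

theorem smul_form (p : LinearMap.BilinForm ℝ D) (a : ℝ) (x : D) :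
    √(p (a • x) (a • x)) = |a| * √(p x x) := by
  simp only [map_smul, LinearMap.smul_apply, smul_eq_mul]
  rw [← mul_assoc, Real.sqrt_mul (mul_self_nonneg a), Real.sqrt_mul_self_eq_abs]

theorem neg_form (p : LinearMap.BilinForm ℝ D) (x : D) : p (-x) (-x) = p x x := by simp

variable {p0 p1 : LinearMap.BilinForm ℝ D} {box : D →ₗ[ℝ] D} {c : ℝ}

theorem le_of_sq_le {a b : ℝ} (ha : 0 ≤ a) (hb : 0 ≤ b) (h : a * a ≤ b * a) : a ≤ b := by
  rcases ha.eq_or_lt with h0 | h0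
  · rw [← h0]; exact hb
  · exact le_of_mul_le_mul_right h h0

theorem HB.low (H : HB p0 p1 box c) {η : ℝ} (w : D) :
    η * √(p0 w w) ≤ √(p0 (η • w - box w) (η • w - box w)) := by
  have h := (abs_le.1 (cs_form p0 H.s0 H.n0 (η • w - box w) w)).2
  have h2 : p0 (η • w - box w) w = η * p0 w w + p1 w w := by
    simp only [map_sub, map_smul, LinearMap.sub_apply, LinearMap.smul_apply, smul_eq_mul, H.green]
    ring
  have hw := Real.mul_self_sqrt (H.n0 w)
  have h1 := H.n1 w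
  rcases (Real.sqrt_nonneg (p0 w w)).eq_or_lt with h0 | h0
  · rw [← h0, mul_zero]; exact Real.sqrt_nonneg _
  · refine le_of_mul_le_mul_right ?_ h0
    rw [mul_assoc, hw]; linarith

/-- approximate solvability of `η - box` with relative error `θ`. -/
def Apx (p0 : LinearMap.BilinForm ℝ D) (box : D →ₗ[ℝ] D) (η θ : ℝ) : Prop :=
  ∀ f, ∃ w, √(p0 (η • w - box w - f) (η • w - box w - f)) ≤ θ * √(p0 f f)

theorem Apx.pow {η θ : ℝ} (h : Apx p0 box η θ) (hθ : 0 ≤ θ) (k : ℕ) : Apx p0 box η (θ ^ k) := by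
  induction k with
  | zero => intro f; exact ⟨0, by simp⟩
  | succ k ih =>
    intro f
    obtain ⟨w, hw⟩ := ih f
    obtain ⟨w', hw'⟩ := h (η • w - box w - f)
    refine ⟨w - w', ?_⟩
    have e : η • (w - w') - box (w - w') - f = -(η • w' - box w' - (η • w - box w - f)) := by
      rw [map_sub, smul_sub]; abel
    rw [e, neg_form]
    calc _ ≤ θ * (θ ^ k * √(p0 f f)) := hw'.trans (mul_le_mul_of_nonneg_left hw hθ)
      _ = _ := by ring

theorem Apx.small {η θ : ℝ} (h : Apx p0 box η θ) (hθ : 0 ≤ θ) (h1 : θ < 1) {δ : ℝ} (hδ : 0 < δ) :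
    Apx p0 box η δ := by
  obtain ⟨k, hk⟩ := exists_pow_lt_of_lt_one hδ h1
  intro f
  obtain ⟨w, hw⟩ := h.pow hθ k f
  exact ⟨w, hw.trans (mul_le_mul_of_nonneg_right hk.le (Real.sqrt_nonneg _))⟩

theorem HB.down (H : HB p0 p1 box c) {lam θ η δ : ℝ} (h : Apx p0 box lam θ) (hθ : 0 ≤ θ)
    (h1 : θ < 1) (hη : 0 < η) (hl : η ≤ lam) (hδ : 0 < δ) : Apx p0 box η δ := by
  have hlam : 0 < lam := hη.trans_le hl
  set s := η / lam with hs
  have hs0 : 0 < s := div_pos hη hlam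
  have hs1 : s ≤ 1 := (div_le_one hlam).2 hl
  have h2 := h.small hθ h1 (δ := s / 4) (by positivity)
  refine Apx.small (θ := 1 - s / 2) ?_ (by linarith) (by linarith) hδ
  intro f
  obtain ⟨w, hw⟩ := h2 f
  refine ⟨w, ?_⟩
  have hN := Real.sqrt_nonneg (p0 f f)
  have a1 := H.low (η := lam) w
  have a2 := tri_form p0 H.s0 H.n0 (lam • w - box w - f) f
  rw [sub_add_cancel] at a2
  have a3 := tri_form p0 H.s0 H.n0 (lam • w - box w - f) ((η - lam) • w)
  have e : lam • w - box w - f + (η - lam) • w = η • w - box w - f := by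
    rw [sub_smul]; abel
  rw [e, smul_form, abs_of_nonpos (by linarith)] at a3
  have e2 : -(η - lam) = (1 - s) * lam := by rw [hs]; field_simp; ring
  rw [e2, mul_assoc] at a3
  have a4 : (1 - s) * (lam * √(p0 w w)) ≤ (1 - s) * ((s / 4 + 1) * √(p0 f f)) :=
    mul_le_mul_of_nonneg_left (by linarith) (by linarith)
  have a5 : 0 ≤ s * s * √(p0 f f) := by positivity
  nlinarith

theorem HB.main (H : HB p0 p1 box c) {lam θ : ℝ} (h : Apx p0 box lam θ) (hθ : 0 ≤ θ)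
    (h1 : θ < 1) (hlam : 0 < lam) (u : D) {ε : ℝ} (hε : 0 < ε) :
    ∃ v, √(p1 v v) ≤ ε ∧ √(p0 (u - v) (u - v)) ≤ √(p1 u u / c) + ε := by
  have hc := H.cpos
  set B := √(p1 u u / c) + ε / 2 with hB
  have hB0 : 0 < B := by positivity
  set η := min lam (ε ^ 2 / B ^ 2) with hηd
  have hη : 0 < η := lt_min hlam (by positivity)
  have hN := Real.sqrt_nonneg (p0 u u)
  obtain ⟨w, hw⟩ := H.down h hθ h1 hη (min_le_left _ _)
    (δ := ε / 2 / (√(p0 u u) + 1)) (by positivity) u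
  set r := η • w - box w - u with hr
  have hr2 : √(p0 r r) ≤ ε / 2 := by
    refine hw.trans ?_
    rw [div_mul_eq_mul_div, div_le_iff₀ (by positivity)]
    nlinarith
  have e1 : η * p1 w w + p0 (box w) (box w) = p1 w u - p0 r (box w) := by
    have g1 : p0 w (box w) = -p1 w w := by rw [H.s0, H.green]
    have g2 : p0 u (box w) = -p1 w u := by rw [H.s0, H.green]
    simp only [hr, map_sub, map_smul, LinearMap.sub_apply, LinearMap.smul_apply, smul_eq_mul, g1, g2]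
    ring
  have c1 := (abs_le.1 (cs_form p1 H.s1 H.n1 w u)).2
  have c2 := (abs_le.1 (cs_form p0 H.s0 H.n0 r (box w))).1
  set b := √(p0 (box w) (box w)) with hb
  have hb0 : 0 ≤ b := Real.sqrt_nonneg _
  have hbb : b * b = p0 (box w) (box w) := Real.mul_self_sqrt (H.n0 _)
  have c3 : √(p1 w w) * √(p1 u u) ≤ √(p1 u u / c) * b := by
    rw [hb, ← Real.sqrt_mul (H.n1 w), ← Real.sqrt_mul (div_nonneg (H.n1 u) hc.le)]
    refine Real.sqrt_le_sqrt ?_
    rw [div_mul_eq_mul_div, le_div_iff₀ hc]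
    nlinarith [H.bk w, H.n1 u]
  have c4 : √(p0 r r) * b ≤ ε / 2 * b := mul_le_mul_of_nonneg_right hr2 hb0
  have c5 : η * p1 w w + b * b ≤ B * b := by rw [hbb, e1, hB]; linarith
  have hηw : 0 ≤ η * p1 w w := mul_nonneg hη.le (H.n1 w)
  have c6 : b ≤ B := le_of_sq_le hb0 hB0.le (by linarith)
  refine ⟨η • w, ?_, ?_⟩
  · refine Real.sqrt_le_iff.2 ⟨hε.le, ?_⟩
    simp only [map_smul, LinearMap.smul_apply, smul_eq_mul]
    have d1 : η * p1 w w ≤ B ^ 2 := by nlinarith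
    have d2 : η * B ^ 2 ≤ ε ^ 2 := (le_div_iff₀ (by positivity)).1 (min_le_right _ _)
    nlinarith
  · have e : u - η • w = -(box w + r) := by rw [hr]; abel
    rw [e, neg_form]
    have := tri_form p0 H.s0 H.n0 (box w) r
    linarith

theorem HB.seq (H : HB p0 p1 box c) {lam θ : ℝ} (h : Apx p0 box lam θ) (hθ : 0 ≤ θ)
    (h1 : θ < 1) (hlam : 0 < lam) (u : D) {ε : ℝ} (hε : 0 < ε) :
    ∃ v : ℕ → D, √(p0 (u - v 0) (u - v 0)) ≤ √(p1 u u / c) + ε ∧
      ∀ m, √(p1 (v m) (v m)) ≤ ε / 2 ^ m ∧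
        √(p0 (v m - v (m + 1)) (v m - v (m + 1))) ≤ ε / 2 ^ m := by
  have hc := H.cpos
  set κ := min (1 / 2) (√c / 2) with hκ
  have hκ0 : 0 < κ := lt_min (by norm_num) (by positivity)
  have hκ1 : κ ≤ 1 / 2 := min_le_left _ _
  have hκ2 : κ ≤ √c / 2 := min_le_right _ _
  choose F hF1 hF2 using fun (m : ℕ) (x : D) =>
    H.main h hθ h1 hlam x (ε := κ * (ε / 2 ^ m)) (by positivity)
  let v : ℕ → D := fun m => Nat.rec (F 0 u) (fun k x => F (k + 1) x) m
  have hv : ∀ m, √(p1 (v m) (v m)) ≤ κ * (ε / 2 ^ m) := by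
    intro m
    cases m with
    | zero => exact hF1 0 u
    | succ k => exact hF1 (k + 1) (v k)
  refine ⟨v, (hF2 0 u).trans ?_, fun m => ⟨(hv m).trans ?_, (hF2 (m + 1) (v m)).trans ?_⟩⟩
  · simp only [pow_zero, div_one]; nlinarith
  · have : 0 < ε / 2 ^ m := by positivity
    nlinarith
  · have h0 : 0 < ε / 2 ^ m := by positivity
    have a1 : √(p1 (v m) (v m) / c) ≤ ε / 2 ^ m / 2 := by
      rw [Real.sqrt_div (H.n1 _), div_le_iff₀ (by positivity)]
      refine (hv m).trans ?_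
      nlinarith
    have a2 : ε / 2 ^ (m + 1) = ε / 2 ^ m / 2 := by rw [pow_succ, div_div]
    rw [a2]
    nlinarith

end Bun

variable {E : Type} [AddCommGroup E] [Module ℝ E]

/-- `p` is a symmetric nonnegative bilinear form on the subspace `D`. -/
structure IsForm (D : Submodule ℝ E) (p : E → E → ℝ) : Prop where
  add : ∀ x ∈ D, ∀ y ∈ D, ∀ z ∈ D, p (x + y) z = p x z + p y z
  smul : ∀ (a : ℝ), ∀ x ∈ D, ∀ z ∈ D, p (a • x) z = a * p x z
  symm : ∀ x ∈ D, ∀ y ∈ D, p x y = p y x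
  nonneg : ∀ x ∈ D, 0 ≤ p x x

/-- the bilinear form on the subspace. -/
def IsForm.bil {D : Submodule ℝ E} {p : E → E → ℝ} (h : IsForm D p) : LinearMap.BilinForm ℝ D :=
  LinearMap.mk₂ ℝ (fun x y => p x y) (fun x y z => h.add _ x.2 _ y.2 _ z.2)
    (fun a x z => h.smul a _ x.2 _ z.2)
    (fun x y z => by
      show p x ((y + z : D) : E) = _
      rw [h.symm _ x.2 _ (y + z).2, h.symm _ x.2 _ y.2, h.symm _ x.2 _ z.2]
      exact h.add _ y.2 _ z.2 _ x.2)
    (fun a x z => by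
      show p x ((a • z : D) : E) = _
      rw [h.symm _ x.2 _ (a • z).2, h.symm _ x.2 _ z.2]
      exact h.smul a _ z.2 _ x.2)

theorem IsForm.cs {D : Submodule ℝ E} {p : E → E → ℝ} (h : IsForm D p) {x y : E} (hx : x ∈ D)
    (hy : y ∈ D) : |p x y| ≤ √(p x x) * √(p y y) :=
  cs_form h.bil (fun a b => h.symm _ a.2 _ b.2) (fun a => h.nonneg _ a.2) ⟨x, hx⟩ ⟨y, hy⟩

theorem IsForm.tri {D : Submodule ℝ E} {p : E → E → ℝ} (h : IsForm D p) {x y : E} (hx : x ∈ D)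
    (hy : y ∈ D) : √(p (x + y) (x + y)) ≤ √(p x x) + √(p y y) :=
  tri_form h.bil (fun a b => h.symm _ a.2 _ b.2) (fun a => h.nonneg _ a.2) ⟨x, hx⟩ ⟨y, hy⟩

/-- the data of the abstract method on a subspace `D`. -/
structure HAbs (D : Submodule ℝ E) (p0 p1 : E → E → ℝ) (box : E → E) (c : ℝ) : Prop where
  f0 : IsForm D p0
  f1 : IsForm D p1
  mem : ∀ x ∈ D, box x ∈ D
  add : ∀ x ∈ D, ∀ y ∈ D, box (x + y) = box x + box y
  smul : ∀ (a : ℝ), ∀ x ∈ D, box (a • x) = a • box x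
  green : ∀ x ∈ D, ∀ y ∈ D, p0 (box x) y = -p1 x y
  bk : ∀ x ∈ D, c * p1 x x ≤ p0 (box x) (box x)
  cpos : 0 < c
  par : ∃ lam : ℝ, 0 < lam ∧ ∀ f ∈ D, ∃ w ∈ D,
    4 * p0 (lam • w - box w - f) (lam • w - box w - f) ≤ p0 f f

/-- almost closed elements: a sequence in `D` with geometric steps and `p1` tending to zero. -/
theorem HAbs.seq {D : Submodule ℝ E} {p0 p1 : E → E → ℝ} {box : E → E} {c : ℝ}
    (H : HAbs D p0 p1 box c) {u : E} (hu : u ∈ D) {ε : ℝ} (hε : 0 < ε) :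
    ∃ v : ℕ → E, (∀ m, v m ∈ D) ∧ √(p0 (u - v 0) (u - v 0)) ≤ √(p1 u u / c) + ε ∧
      ∀ m, √(p1 (v m) (v m)) ≤ ε / 2 ^ m ∧
        √(p0 (v m - v (m + 1)) (v m - v (m + 1))) ≤ ε / 2 ^ m := by
  let bx : D →ₗ[ℝ] D :=
    { toFun := fun x => ⟨box x, H.mem _ x.2⟩
      map_add' := fun x y => Subtype.ext (H.add _ x.2 _ y.2)
      map_smul' := fun a x => Subtype.ext (H.smul a _ x.2) }
  have HB' : HB H.f0.bil H.f1.bil bx c :=
    ⟨fun a b => H.f0.symm _ a.2 _ b.2, fun a b => H.f1.symm _ a.2 _ b.2,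
      fun a => H.f0.nonneg _ a.2, fun a => H.f1.nonneg _ a.2, fun a b => H.green _ a.2 _ b.2,
      fun a => H.bk _ a.2, H.cpos⟩
  obtain ⟨lam, hlam, hp⟩ := H.par
  have hA : Apx H.f0.bil bx lam (1 / 2) := by
    intro f
    obtain ⟨w, hw, h⟩ := hp f f.2
    refine ⟨⟨w, hw⟩, Real.sqrt_le_iff.2 ⟨by positivity, ?_⟩⟩
    rw [mul_pow, Real.sq_sqrt (HB'.n0 f)]
    show p0 (lam • w - box w - f) (lam • w - box w - f) ≤ (1 / 2) ^ 2 * p0 f f
    linarith
  obtain ⟨v, h0, hv⟩ := HB'.seq hA (by norm_num) (by norm_num) hlam ⟨u, hu⟩ hε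
  exact ⟨fun m => v m, fun m => (v m).2, h0, hv⟩

end Pool.Agent.Lib.MP_813db1_ag.AN
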