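import Pool.Agent.Lib.MP_813db1_ag.AN.FinStmt

/-! The functions of one real variable. -/

namespace Pool.Agent.Lib.MP_813db1_ag.AN

open Set Real
open scoped ContDiff

namespace FF

theorem prim {f : ℝ → ℝ} (hf : ContDiff ℝ ∞ f) (a v : ℝ) : ∃ F : ℝ → ℝ, ContDiff ℝ ∞ F ∧
    deriv F = f ∧ F a = v ∧ (∀ x y c, (∀ t ∈ uIcc y x, f t = c) → F x = F y + c * (x - y)) ∧
    ∀ c d, (∀ t, c ≤ f t ∧ f t ≤ d) → ∀ x y, y ≤ x →
      c * (x - y) ≤ F x - F y ∧ F x - F y ≤ d * (x - y) := by
  have hc := hf.continuous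
  have hd : ∀ x, HasDerivAt (fun x => (∫ t in a..x, f t) + v) (f x) x := fun x =>
    (hc.integral_hasStrictDerivAt a x).hasDerivAt.add_const v
  have he : deriv (fun x => (∫ t in a..x, f t) + v) = f := funext fun x => (hd x).deriv
  have df : Differentiable ℝ fun x => (∫ t in a..x, f t) + v := fun x => (hd x).differentiableAt
  refine ⟨_, contDiff_infty_iff_deriv.2 ⟨df, he.symm ▸ hf⟩, he, by simp, fun x y c h => ?_,
    fun c d h x y hy => ⟨?_, ?_⟩⟩
  · have := intervalIntegral.integral_eq_sub_of_hasDerivAt (a := y) (b := x) (fun t _ => hd t)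
      (hc.intervalIntegrable _ _)
    rw [intervalIntegral.integral_congr (g := fun _ => c) h, intervalIntegral.integral_const,
      smul_eq_mul] at this
    linarith
  · exact mul_sub_le_image_sub_of_le_deriv df (fun t => he.symm ▸ (h t).1) hy
  · exact image_sub_le_mul_sub_of_deriv_le df (fun t => he.symm ▸ (h t).2) hy

theorem flat {k : ℝ → ℝ} {c : ℝ} {s : Set ℝ} (hk : ContDiff ℝ ∞ k) (hs : IsOpen s)
    (h : ∀ x ∈ s, k x = c) : ∀ x ∈ closure s, deriv k x = 0 := fun x hx =>
  closure_minimal (t := {x | deriv k x = 0}) (fun y hy => by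
      have : k =ᶠ[nhds y] fun _ => c := Filter.eventually_of_mem (hs.mem_nhds hy) h
      exact this.deriv_eq.trans (deriv_const _ _))
    (isClosed_eq (hk.continuous_deriv (by simp)) continuous_const) hx

end FF

open FF in
theorem finFun : FinFun where
  rho := by
    have hs : ContDiff ℝ ∞ fun x : ℝ => smoothTransition ((x + 1) / 2) :=
      smoothTransition.contDiff.comp ((contDiff_id.add contDiff_const).div_const 2)
    obtain ⟨ρ, h1, h2, h3, h4, h5⟩ := prim hs (-1) 0
    have z : ∀ x ≤ (-1 : ℝ), ρ x = 0 := fun x hx => by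
      rw [h4 x (-1) 0 fun t ht => smoothTransition.zero_of_nonpos ?_, h3, zero_mul, add_zero]
      rw [uIcc_of_ge hx] at ht
      linarith [ht.2]
    refine ⟨ρ, 1 - ρ 1, h1, z, fun x hx => ?_, fun x => ?_⟩
    · rw [h4 x 1 1 fun t ht => smoothTransition.one_of_one_le ?_]
      · ring
      rw [uIcc_of_le hx] at ht
      linarith [ht.1]
    rw [h2]
    refine ⟨smoothTransition.nonneg _, smoothTransition.le_one _,
      Monotone.deriv_nonneg fun a b hab => smoothTransition.monotone (by linarith), ?_⟩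
    rcases le_total x (-1) with hx | hx
    · rw [z x hx]
      exact ⟨le_rfl, by positivity⟩
    · have := h5 0 1 (fun t => ⟨smoothTransition.nonneg _, smoothTransition.le_one _⟩) x (-1) hx
      constructor <;> linarith [this.1, this.2, le_max_left x 0]
  lam := by
    have hk : ContDiff ℝ ∞ fun x : ℝ => 1 - smoothTransition (x + 2) :=
      contDiff_const.sub (smoothTransition.contDiff.comp (contDiff_id.add contDiff_const))
    have k1 : ∀ x ≤ (-2 : ℝ), 1 - smoothTransition (x + 2) = 1 := fun x hx => by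
      rw [smoothTransition.zero_of_nonpos (by linarith), sub_zero]
    have k0 : ∀ x ≥ (-1 : ℝ), 1 - smoothTransition (x + 2) = 0 := fun x hx => by
      rw [smoothTransition.one_of_one_le (by linarith), sub_self]
    have d1 := flat hk isOpen_Iio fun x (hx : x < -2) => k1 x hx.le
    have d0 := flat hk isOpen_Ioi fun x (hx : -1 < x) => k0 x hx.le
    rw [closure_Iio] at d1
    rw [closure_Ioi] at d0
    obtain ⟨p, p1, p2, p3, p4, -⟩ := prim ((contDiff_infty_iff_deriv.1 hk).2.pow 2) (-2) 0
    obtain ⟨l, l1, l2, l3, l4, -⟩ := prim p1 (-1) (-p (-1))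
    have pm : Monotone p := monotone_of_deriv_nonneg (p1.differentiable (by simp)) fun x => by
      rw [p2]
      positivity
    have q1 : ∀ x ≤ (-2 : ℝ), p x = 0 := fun x hx => by
      rw [p4 x (-2) 0 fun t ht => ?_, p3, zero_mul, add_zero]
      rw [uIcc_of_ge hx] at ht
      rw [d1 t ht.2, zero_pow two_ne_zero]
    have q0 : ∀ x ≥ (-1 : ℝ), p x = p (-1) := fun x hx => by
      rw [p4 x (-1) 0 fun t ht => ?_, zero_mul, add_zero]
      rw [uIcc_of_le hx] at ht
      rw [d0 t ht.1, zero_pow two_ne_zero]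
    refine ⟨_, l, p (-1), hk, l1, k1, fun x hx => ⟨k0 x hx, ?_⟩, fun x => ?_⟩
    · rw [l4 x (-1) (p (-1)) fun t ht => q0 t ?_, l3]
      · ring
      rw [uIcc_of_le hx] at ht
      exact ht.1
    rw [l2, p2]
    refine ⟨sub_nonneg.2 (smoothTransition.le_one _), sub_le_self _ (smoothTransition.nonneg _),
      ?_, ?_, le_rfl⟩
    · exact (q1 _ (min_le_right x _)).ge.trans (pm (min_le_left _ _))
    · exact (pm (le_max_left x _)).trans (q0 _ (le_max_right _ _)).le

end Pool.Agent.Lib.MP_813db1_ag.AN
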