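import Pool.Agent.Lib.MP_813db1_ag.HS.Calc2
import Pool.Agent.Lib.MP_813db1_ag.HS.Mat

/-! Logarithmic poles: Levi forms, determinant inequalities and the mass at a point. -/

namespace Pool.Agent.Lib.MP_813db1_ag.HS.Pole

open MeasureTheory Complex Matrix Filter Topology Set Metric
open scoped ContDiff ComplexOrder

noncomputable section

set_option linter.unusedSectionVars false

variable {ι : Type} [Fintype ι] [DecidableEq ι]

/-! ### determinants -/

theorem det_sim {T : Mat ι} (d : ι → ℝ) :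
    (Tᴴ * diagonal (fun i => (d i : ℂ)) * T).det.re = (Tᴴ * T).det.re * ∏ i, d i := by
  rw [det_mul, det_mul, det_mul, det_diagonal, ← ofReal_prod, mul_right_comm, re_mul_ofReal]

theorem one_add {κ : Type} (s : Finset κ) (d : κ → ℝ) (h0 : ∀ i, 0 ≤ d i) :
    1 + ∑ i ∈ s, d i ≤ ∏ i ∈ s, (1 + d i) := by
  classical
  induction s using Finset.induction_on with
  | empty => simp
  | insert a s ha ih =>
    rw [Finset.sum_insert ha, Finset.prod_insert ha]
    have s0 : 0 ≤ ∑ i ∈ s, d i := Finset.sum_nonneg fun i _ => h0 i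
    nlinarith [mul_le_mul_of_nonneg_left ih (add_nonneg zero_le_one (h0 a)), h0 a]

theorem det_add {H B : Mat ι} (hH : H.PosDef) (hB : B.PosSemidef) :
    H.det.re * (1 + trm H B) ≤ (H + B).det.re := by
  have h0 := (Mat.det' hH).1
  obtain ⟨T, d, hT, hd, rfl, rfl⟩ := Mat.sim hH hB
  have e : Tᴴ * T + Tᴴ * diagonal (fun i => (d i : ℂ)) * T =
      Tᴴ * diagonal (fun i => ((1 + d i : ℝ) : ℂ)) * T := by
    have : (diagonal fun i => ((1 + d i : ℝ) : ℂ)) = 1 + diagonal fun i => (d i : ℂ) := by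
      rw [← diagonal_one, diagonal_add]; simp
    rw [this, mul_add, add_mul, mul_one]
  rw [e, det_sim, Mat.trm_diag hT]
  exact mul_le_mul_of_nonneg_left (one_add _ d hd) h0.le

theorem det_mono {H B : Mat ι} (hH : H.PosDef) (hB : B.PosSemidef) :
    H.det.re ≤ (H + B).det.re :=
  le_trans (le_mul_of_one_le_right (Mat.det' hH).1.le
    (le_add_of_nonneg_right (Mat.trm_nonneg hH hB))) (det_add hH hB)

theorem weier {κ : Type} (s : Finset κ) (d : κ → ℝ) (h0 : ∀ i ∈ s, 0 ≤ d i)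
    (h1 : ∀ i ∈ s, d i ≤ 1) : 1 - ∑ i ∈ s, d i ≤ ∏ i ∈ s, (1 - d i) := by
  classical
  induction s using Finset.induction_on with
  | empty => simp
  | insert a s ha ih =>
    rw [Finset.sum_insert ha, Finset.prod_insert ha]
    have k := ih (fun i hi => h0 i (Finset.mem_insert_of_mem hi))
      fun i hi => h1 i (Finset.mem_insert_of_mem hi)
    have a0 := h0 a (Finset.mem_insert_self _ _)
    have a1 := h1 a (Finset.mem_insert_self _ _)
    have s0 : 0 ≤ ∑ i ∈ s, d i := Finset.sum_nonneg fun i hi => h0 i (Finset.mem_insert_of_mem hi)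
    nlinarith [mul_le_mul_of_nonneg_left k (sub_nonneg.2 a1)]

theorem det_sub {H B : Mat ι} (hH : H.PosDef) (hB : B.PosSemidef) (h : (H - B).PosSemidef) :
    H.det.re ≤ (H - B).det.re + trm H B * H.det.re := by
  have h0 := (Mat.det' hH).1
  obtain ⟨T, d, hT, hd, rfl, rfl⟩ := Mat.sim hH hB
  have e : Tᴴ * T - Tᴴ * diagonal (fun i => (d i : ℂ)) * T =
      Tᴴ * diagonal (fun i => ((1 - d i : ℝ) : ℂ)) * T := by
    have : (diagonal fun i => ((1 - d i : ℝ) : ℂ)) = 1 - diagonal fun i => (d i : ℂ) := by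
      rw [← diagonal_one, diagonal_sub]; simp
    rw [this, mul_sub, sub_mul, mul_one]
  rw [e] at h ⊢
  have hT' : IsUnit Tᴴ.det := by rw [det_conjTranspose]; exact hT.star
  have h2 := h.conjTranspose_mul_mul_same T⁻¹
  rw [conjTranspose_nonsing_inv, mul_assoc, mul_assoc, mul_assoc, mul_nonsing_inv _ hT, mul_one,
    nonsing_inv_mul_cancel_left _ _ hT'] at h2
  have h3 : ∀ i, d i ≤ 1 := fun i => by
    have := h2.diag_nonneg (i := i)
    rw [diagonal_apply_eq, zero_le_real] at this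
    linarith
  rw [det_sim, Mat.trm_diag hT]
  nlinarith [mul_le_mul_of_nonneg_left (weier Finset.univ d (fun i _ => hd i) fun i _ => h3 i) h0.le]

theorem det_nonneg {B : Mat ι} (hB : B.PosSemidef) : 0 ≤ B.det.re :=
  (Complex.nonneg_iff.1 hB.det_nonneg).1

/-- a Hermitian matrix with nonnegative form. -/
theorem psd {H : Mat ι} (hH : H.IsHermitian) (h : ∀ v : V ι, 0 ≤ nV H v) : H.PosSemidef :=
  PosSemidef.of_dotProduct_mulVec_nonneg hH fun x => Complex.nonneg_iff.2
    ⟨Mat.nv_eq H x ▸ h _, (hH.im_star_dotProduct_mulVec_self x).symm⟩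

/-! ### the squared distance -/

/-- the squared Euclidean distance. -/
def nq (c z : V ι) : ℝ := ∑ i, ‖z i - c i‖ ^ 2

theorem nq_nonneg (c z : V ι) : 0 ≤ nq c z := Finset.sum_nonneg fun _ _ => sq_nonneg _

theorem nq_c (c z : V ι) : (nq c z : ℂ) = ∑ i, (z i - c i) * star (z i - c i) := by
  rw [nq, ofReal_sum]
  exact Finset.sum_congr rfl fun i _ => by rw [star_def, mul_conj, normSq_eq_norm_sq]

theorem cd_co (c : V ι) (i : ι) : ContDiff ℝ ∞ fun w : V ι => w i - c i :=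
  (contDiff_apply ℝ ℂ i).sub contDiff_const

theorem cd_cos (c : V ι) (i : ι) : ContDiff ℝ ∞ fun w : V ι => star (w i - c i) :=
  conjCLE.contDiff.comp (cd_co c i)

theorem cd_nq (c : V ι) : ContDiff ℝ ∞ (nq c) :=
  ContDiff.sum fun i _ => (cd_co c i).norm_sq ℝ

theorem le_nq (c z : V ι) : ‖z - c‖ ^ 2 ≤ nq c z := by
  rw [← Real.le_sqrt (norm_nonneg _) (nq_nonneg c z), pi_norm_le_iff_of_nonneg (Real.sqrt_nonneg _)]
  intro i
  rw [Real.le_sqrt (norm_nonneg _) (nq_nonneg c z)]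
  exact Finset.single_le_sum (f := fun i => ‖z i - c i‖ ^ 2) (fun _ _ => sq_nonneg _)
    (Finset.mem_univ i)

theorem nq_le (c z : V ι) : nq c z ≤ Fintype.card ι * ‖z - c‖ ^ 2 := by
  have := Finset.sum_le_card_nsmul Finset.univ (fun i => ‖z i - c i‖ ^ 2) (‖z - c‖ ^ 2)
    fun i _ => pow_le_pow_left₀ (norm_nonneg _) (norm_le_pi_norm (z - c) i) 2
  rwa [nsmul_eq_mul] at this

theorem dz_co (c : V ι) (i k : ι) (z : V ι) :
    dz (fun w => w i - c i) k z = if i = k then 1 else 0 := by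
  rw [dz_sub (differentiableAt_apply i z) (differentiableAt_const _), dz_coord, dz_const, sub_zero]

theorem dzb_co (c : V ι) (i k : ι) (z : V ι) : dzb (fun w => w i - c i) k z = 0 := by
  rw [dzb_sub (differentiableAt_apply i z) (differentiableAt_const _), dzb_coord, dzb_const,
    sub_zero]

theorem dzb_nq (c z : V ι) (j : ι) : dzb (fun w => (nq c w : ℂ)) j z = z j - c j := by
  have d1 := fun i => ((cd_co c i).differentiable (by simp)) z
  have d2 := fun i => ((cd_cos c i).differentiable (by simp)) z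
  simp only [nq_c]
  rw [dzb_sum _ fun i _ => (d1 i).fun_mul (d2 i)]
  simp only [dzb_mul (d1 _) (d2 _), dzb_star, dz_co, dzb_co]
  simp [apply_ite star]

theorem dz_nq (c z : V ι) (j : ι) : dz (fun w => (nq c w : ℂ)) j z = star (z j - c j) := by
  rw [← dzb_nq, dzb_ofReal, star_star]

theorem levi_nq (c z : V ι) : levi (fun w => (nq c w : ℂ)) z = 1 := by
  ext i j
  rw [levi_apply, show dzb (fun w => (nq c w : ℂ)) j = fun w => w j - c j from
    funext fun w => dzb_nq c w j, dz_co, one_apply]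
  simp only [eq_comm]

/-- the form of a rank one matrix. -/
theorem nV_rank (a v : V ι) :
    nV (Matrix.of fun i j => a i * star (a j)) v = ‖∑ i, a i * v i‖ ^ 2 := by
  rw [nV, ipV, ← normSq_eq_norm_sq, ← ofReal_re (normSq _), ← mul_conj, map_sum, Finset.sum_mul_sum]
  congr 1
  refine Finset.sum_congr rfl fun i _ => Finset.sum_congr rfl fun j _ => ?_
  simp only [of_apply, map_mul, star_def]; ring

theorem nV_one (v : V ι) : nV 1 v = ∑ i, ‖v i‖ ^ 2 := by
  rw [nV, Mat.ip_eq, one_mulVec, dotProduct, re_sum]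
  refine Finset.sum_congr rfl fun i _ => ?_
  rw [Pi.star_apply, star_def, mul_conj, normSq_eq_norm_sq, ofReal_re]

theorem cs (a v : V ι) : ‖∑ i, a i * v i‖ ^ 2 ≤ (∑ i, ‖a i‖ ^ 2) * ∑ i, ‖v i‖ ^ 2 := by
  refine le_trans ?_ (Finset.sum_mul_sq_le_sq_mul_sq Finset.univ (fun i => ‖a i‖) fun i => ‖v i‖)
  refine pow_le_pow_left₀ (norm_nonneg _) ((norm_sum_le _ _).trans (le_of_eq ?_)) 2
  simp only [norm_mul]

theorem herm_rank (a : V ι) : (Matrix.of fun i j => a i * star (a j)).IsHermitian := by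
  ext i j
  simp [mul_comm]

theorem psd_rank (a : V ι) : (Matrix.of fun i j => a i * star (a j)).PosSemidef :=
  psd (herm_rank a) fun v => by rw [nV_rank]; exact sq_nonneg _

theorem nV_add (A B : Mat ι) (v : V ι) : nV (A + B) v = nV A v + nV B v := by
  simpa using (Mat.nv_lin 1 A B v).1

theorem nV_smul (t : ℝ) (A : Mat ι) (v : V ι) : nV ((t : ℂ) • A) v = t * nV A v := by
  have h := (Mat.nv_lin t A 0 v).1
  simpa [nV, ipV] using h

/-- the chain rule for the Levi form, as matrices. -/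
theorem levi_chain {Φ : ℝ → ℝ} {u : V ι → ℝ} {z : V ι} (hΦ : ContDiffAt ℝ 2 Φ (u z))
    (hu : ContDiffAt ℝ 2 u z) : levi (fun w => (Φ (u w) : ℂ)) z =
      ((deriv Φ (u z) : ℝ) : ℂ) • levi (fun w => (u w : ℂ)) z +
        ((deriv (deriv Φ) (u z) : ℝ) : ℂ) • Matrix.of fun i j =>
          dz (fun w => (u w : ℂ)) i z * star (dz (fun w => (u w : ℂ)) j z) := by
  ext i j
  have h1 : ∀ᶠ t in 𝓝 (u z), HasDerivAt Φ (deriv Φ t) t :=
    (hΦ.eventually (by simp)).mono fun t e => (e.differentiableAt two_ne_zero).hasDerivAt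
  have h2 : HasDerivAt (deriv Φ) (deriv (deriv Φ) (u z)) (u z) :=
    ((hΦ.derivWithin (m := 1) le_rfl).differentiableAt one_ne_zero).hasDerivAt
  rw [levi_real_comp h1 h2 hu, dzb_ofReal]
  simp

/-! ### the regularised pole -/

/-- the regularised logarithmic pole. -/
def lp (c : V ι) (δ : ℝ) (z : V ι) : ℝ := Real.log (nq c z + δ)

variable {c z : V ι} {δ : ℝ}

theorem nq_pos (c z : V ι) (hδ : 0 < δ) : 0 < nq c z + δ :=
  add_pos_of_nonneg_of_pos (nq_nonneg c z) hδ

theorem cd_lp (c : V ι) (hδ : 0 < δ) : ContDiff ℝ ∞ (lp c δ) :=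
  ((cd_nq c).add contDiff_const).log fun z => (nq_pos c z hδ).ne'

theorem hd_log {s : ℝ} (h : 0 < s + δ) : HasDerivAt (fun t => Real.log (t + δ)) (s + δ)⁻¹ s := by
  simpa using ((hasDerivAt_id s).add_const δ).log h.ne'

theorem dz_lp (c z : V ι) (hδ : 0 < δ) (i : ι) :
    dz (fun w => (lp c δ w : ℂ)) i z = ((nq c z + δ)⁻¹ : ℝ) * star (z i - c i) := by
  rw [← dz_nq]
  exact dz_real_comp (hd_log (nq_pos c z hδ)) ((cd_nq c).differentiable (by simp) z) i

theorem levi_lp (c z : V ι) (hδ : 0 < δ) : levi (fun w => (lp c δ w : ℂ)) z =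
    (((nq c z + δ)⁻¹ : ℝ) : ℂ) • (1 : Mat ι) + ((-((nq c z + δ)⁻¹) ^ 2 : ℝ) : ℂ) •
      Matrix.of fun i j => star (z i - c i) * star (star (z j - c j)) := by
  ext i j
  have h0 := nq_pos c z hδ
  have h1 : ∀ᶠ t in 𝓝 (nq c z), HasDerivAt (fun t => Real.log (t + δ)) (t + δ)⁻¹ t :=
    ((continuous_add_const δ).continuousAt.eventually (lt_mem_nhds h0)).mono fun t e => hd_log e
  have h2 : HasDerivAt (fun t : ℝ => (t + δ)⁻¹) (-((nq c z + δ)⁻¹) ^ 2) (nq c z) := by
    have := ((hasDerivAt_id' (nq c z)).add_const δ).fun_inv h0.ne'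
    rwa [neg_div, one_div, ← inv_pow] at this
  have := levi_real_comp h1 h2 ((cd_nq c).contDiffAt.of_le (by norm_cast)) i j
  rw [levi_nq, dz_nq, dzb_nq] at this
  simpa [lp] using this

theorem nV_lp (c z : V ι) (hδ : 0 < δ) (v : V ι) :
    δ / (nq c z + δ) ^ 2 * ∑ i, ‖v i‖ ^ 2 ≤ nV (levi (fun w => (lp c δ w : ℂ)) z) v := by
  have h0 := nq_pos c z hδ
  have h1 := cs (fun i => star (z i - c i)) v
  simp only [norm_star] at h1
  rw [levi_lp c z hδ, nV_add, nV_smul, nV_smul, nV_rank (fun i => star (z i - c i)), nV_one]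
  change _ ≤ nq c z * _ at h1
  have e : δ / (nq c z + δ) ^ 2 = (nq c z + δ)⁻¹ - (nq c z + δ)⁻¹ ^ 2 * nq c z := by
    field_simp; ring
  rw [e]
  nlinarith [mul_le_mul_of_nonneg_left h1 (sq_nonneg (nq c z + δ)⁻¹)]

theorem herm_lp (c z : V ι) (hδ : 0 < δ) : (levi (fun w => (lp c δ w : ℂ)) z).IsHermitian :=
  levi_herm_ofReal (contDiffAt_ofReal.2 ((cd_lp c hδ).contDiffAt.of_le (by norm_cast)))

theorem psd_lp (c z : V ι) (hδ : 0 < δ) : (levi (fun w => (lp c δ w : ℂ)) z).PosSemidef :=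
  psd (herm_lp c z hδ) fun v => le_trans (by positivity) (nV_lp c z hδ v)

theorem herm_smul (t : ℝ) {A : Mat ι} (hA : A.IsHermitian) : ((t : ℂ) • A).IsHermitian := by
  rw [IsHermitian, conjTranspose_smul, hA.eq, star_def, conj_ofReal]

theorem nV_sub (A B : Mat ι) (v : V ι) : nV (A - B) v = nV A v - nV B v := by
  simpa using (Mat.nv_lin 1 A B v).2

/-- the density of the mass near the pole. -/
theorem det_low {κ τ : ℝ} (hκ : 0 < κ) (hτ : 0 < τ) (hz : z ∈ closedBall c τ) {B : Mat ι}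
    (hB : (B - (κ : ℂ) • levi (fun w => (lp c (τ ^ 2) w : ℂ)) z).PosSemidef) :
    (κ / ((Fintype.card ι + 1) ^ 2 * τ ^ 2)) ^ Fintype.card ι ≤ B.det.re := by
  set a := κ / ((Fintype.card ι + 1) ^ 2 * τ ^ 2) with ha
  have a0 : 0 < a := by positivity
  have t0 : 0 < τ ^ 2 := by positivity
  have h1 : ((a : ℂ) • (1 : Mat ι)).PosDef := PosDef.one.smul (zero_lt_real.2 a0)
  have h2 : ((κ : ℂ) • levi (fun w => (lp c (τ ^ 2) w : ℂ)) z - (a : ℂ) • (1 : Mat ι)).PosSemidef := by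
    refine psd ((herm_smul κ (herm_lp c z t0)).sub h1.1) fun v => ?_
    rw [nV_sub, nV_smul, nV_smul, nV_one, sub_nonneg]
    refine le_trans ?_ (mul_le_mul_of_nonneg_left (nV_lp c z t0 v) hκ.le)
    rw [← mul_assoc]
    refine mul_le_mul_of_nonneg_right ?_ (by positivity)
    have n1 : nq c z + τ ^ 2 ≤ (Fintype.card ι + 1) * τ ^ 2 := by
      have := pow_le_pow_left₀ (norm_nonneg _) (mem_closedBall_iff_norm.1 hz) 2
      nlinarith [nq_le c z, mul_le_mul_of_nonneg_left this (Nat.cast_nonneg (Fintype.card ι))]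
    have n2 := pow_le_pow_left₀ (nq_pos c z t0).le n1 2
    calc a = κ * (τ ^ 2 / ((Fintype.card ι + 1) * τ ^ 2) ^ 2) := by rw [ha]; field_simp
      _ ≤ _ := by have := nq_pos c z t0; gcongr
  have h3 := det_mono h1 (hB.add h2)
  rw [sub_add_sub_cancel, add_sub_cancel, det_smul, det_one, mul_one, ← ofReal_pow, ofReal_re] at h3
  exact h3

theorem nq_eq_zero (h : nq c z = 0) : z = c := by
  have := le_nq c z
  rw [h] at this
  exact sub_eq_zero.1 (norm_eq_zero.1 (pow_eq_zero_iff two_ne_zero |>.1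
    (le_antisymm this (sq_nonneg _))))

theorem cont_nq : Continuous fun p : V ι × V ι => nq p.1 p.2 := by
  unfold nq; fun_prop

/-- the error terms of a truncated pole. -/
def er (χ : V ι → ℝ) (p : ℝ × V ι × V ι) : Mat ι := Matrix.of fun i j =>
  levi (fun w => (χ w : ℂ)) p.2.2 i j * (Real.log (nq p.2.1 p.2.2 + p.1) : ℝ) +
    dzb (fun w => (χ w : ℂ)) j p.2.2 *
      (((nq p.2.1 p.2.2 + p.1)⁻¹ : ℝ) * star (p.2.2 i - p.2.1 i)) +
    dz (fun w => (χ w : ℂ)) i p.2.2 *
      star (((nq p.2.1 p.2.2 + p.1)⁻¹ : ℝ) * star (p.2.2 j - p.2.1 j))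

theorem levi_cut {χ : V ι → ℝ} (hχ : ContDiff ℝ ∞ χ) (c z : V ι) (hδ : 0 < δ) :
    levi (fun w => ((χ w * lp c δ w : ℝ) : ℂ)) z =
      er χ (δ, c, z) + (χ z : ℂ) • levi (fun w => (lp c δ w : ℂ)) z := by
  ext i j
  simp only [ofReal_mul]
  rw [levi_mul (contDiffAt_ofReal.2 (hχ.contDiffAt.of_le (by norm_cast)))
    (contDiffAt_ofReal.2 ((cd_lp c hδ).contDiffAt.of_le (by norm_cast))), dzb_ofReal (lp c δ),
    dz_lp c z hδ, dz_lp c z hδ]
  rfl

/-- truncated poles are uniformly almost plurisubharmonic. -/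
theorem pole {χ : V ι → ℝ} (hχ : ContDiff ℝ ∞ χ) (hc : HasCompactSupport χ) (h0 : ∀ z, 0 ≤ χ z)
    {K O : Set (V ι)} (hK : IsCompact K) (hO : IsOpen O) (hKO : K ⊆ O) (h1 : ∀ z ∈ O, χ z = 1) :
    ∃ C ≥ (0 : ℝ), ∀ δ ∈ Ioc (0 : ℝ) 1, ∀ c ∈ K, ∀ z,
      ((C : ℂ) • (1 : Mat ι) + levi (fun w => ((χ w * lp c δ w : ℝ) : ℂ)) z).PosSemidef ∧
      χ z * lp c δ z ≤ C ∧ (z ∉ O → -C ≤ χ z * lp c δ z) := by
  set T := tsupport χ \ O
  have hT : IsCompact T := hc.diff hO
  set Q : Set (ℝ × V ι × V ι) := Icc 0 1 ×ˢ K ×ˢ T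
  have hQ : IsCompact Q := isCompact_Icc.prod (hK.prod hT)
  have hp : ∀ p ∈ Q, nq p.2.1 p.2.2 + p.1 ≠ 0 := fun p hp e => by
    have := nq_nonneg p.2.1 p.2.2
    have h2 := nq_eq_zero (c := p.2.1) (z := p.2.2) (by linarith [hp.1.1])
    exact hp.2.2.2 (h2 ▸ hKO hp.2.1)
  have cN : Continuous fun p : ℝ × V ι × V ι => nq p.2.1 p.2.2 + p.1 :=
    (cont_nq.comp continuous_snd).add continuous_fst
  have cχ : ∀ z, ContDiffAt ℝ ∞ (fun w => (χ w : ℂ)) z := fun z => contDiffAt_ofReal.2 hχ.contDiffAt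
  have c3 : Continuous fun p : ℝ × V ι × V ι => p.2.2 := by fun_prop
  have cL := cN.continuousOn.log hp
  have cI := continuous_ofReal.comp_continuousOn (cN.continuousOn.inv₀ hp)
  have cE : ContinuousOn (fun p => fun i j => er χ p i j) Q := by
    refine continuousOn_pi.2 fun i => continuousOn_pi.2 fun j => ?_
    have a1 := (continuous_iff_continuousAt.2 fun z =>
      (contDiffAt_levi_top (cχ z) i j).continuousAt).comp c3
    have a2 := (continuous_iff_continuousAt.2 fun z =>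
      (contDiffAt_dzb_top (cχ z) j).continuousAt).comp c3
    have a3 := (continuous_iff_continuousAt.2 fun z =>
      (contDiffAt_dz_top (cχ z) i).continuousAt).comp c3
    have a4 : ∀ k, Continuous fun p : ℝ × V ι × V ι => star (p.2.2 k - p.2.1 k) := fun k => by
      fun_prop
    exact ((a1.continuousOn.mul (continuous_ofReal.comp_continuousOn cL)).add
      (a2.continuousOn.mul (cI.mul (a4 i).continuousOn))).add
      (a3.continuousOn.mul (cI.mul (a4 j).continuousOn).star)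
  obtain ⟨L, hL⟩ := hQ.exists_bound_of_continuousOn cE
  obtain ⟨L', hL'⟩ := hQ.exists_bound_of_continuousOn
    ((hχ.continuous.comp c3).continuousOn.mul cL)
  obtain ⟨L2, hL2⟩ := (isCompact_Icc.prod (hK.prod hc)).exists_bound_of_continuousOn
    (s := Icc (0 : ℝ) 1 ×ˢ K ×ˢ tsupport χ) ((hχ.continuous.comp c3).mul cN).continuousOn
  refine ⟨Fintype.card ι ^ 2 * |L| + |L'| + |L2|, by positivity, fun δ hδ c hcK z => ?_⟩
  have q0 : (0 : ℝ) ≤ Fintype.card ι ^ 2 * |L| := by positivity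
  have q1 := abs_nonneg L'
  have q2 := abs_nonneg L2
  have hs : ContDiffAt ℝ 2 (fun w => ((χ w * lp c δ w : ℝ) : ℂ)) z :=
    contDiffAt_ofReal.2 ((hχ.mul (cd_lp c hδ.1)).contDiffAt.of_le (by norm_cast))
  refine ⟨psd ((herm_smul _ isHermitian_one).add (levi_herm_ofReal hs)) fun v => ?_, ?_, ?_⟩
  · have n0 := (sq_nonneg _).trans (Mat.nv_one v)
    rw [nV_add, nV_smul]
    by_cases hz : z ∈ O
    · rw [levi_congr (g := fun w => (lp c δ w : ℂ))
        ((hO.eventually_mem hz).mono fun w hw => by simp only [h1 w hw, one_mul])]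
      exact add_nonneg (by positivity) (Mat.nv_mono (psd_lp c z hδ.1) v)
    by_cases hz' : z ∈ tsupport χ
    · have b1 : Bd L (er χ (δ, c, z)) := fun i j =>
        ((norm_le_pi_norm _ j).trans (norm_le_pi_norm (fun i j => er χ (δ, c, z) i j) i)).trans
          (hL (δ, c, z) ⟨⟨hδ.1.le, hδ.2⟩, hcK, hz', hz⟩)
      have b2 := (abs_le.1 (Mat.nv_le b1 v)).1
      have b3 := mul_nonneg (h0 z) (Mat.nv_mono (psd_lp c z hδ.1) v)
      rw [levi_cut hχ c z hδ.1, nV_add, nV_smul]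
      nlinarith [mul_le_mul_of_nonneg_left (Mat.nv_one v) q0]
    · rw [levi_congr (g := fun _ => 0) ((notMem_tsupport_iff_eventuallyEq.1 hz').mono
        fun w hw => by simp [hw]), levi_const]
      exact add_nonneg (by positivity) (Mat.nv_mono PosSemidef.zero v)
  · by_cases hz' : z ∈ tsupport χ
    · have b1 := (le_abs_self _).trans (hL2 (δ, c, z) ⟨⟨hδ.1.le, hδ.2⟩, hcK, hz'⟩)
      have b2 := mul_le_mul_of_nonneg_left (Real.log_le_self (nq_pos c z hδ.1).le) (h0 z)
      have b3 := le_abs_self L2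
      simp only [Pi.mul_apply, Function.comp_apply] at b1
      rw [lp]; linarith
    · rw [image_eq_zero_of_notMem_tsupport hz', zero_mul]; positivity
  · intro hz
    by_cases hz' : z ∈ tsupport χ
    · have b1 := (abs_le.1 (hL' (δ, c, z) ⟨⟨hδ.1.le, hδ.2⟩, hcK, hz', hz⟩)).1
      have b3 := le_abs_self L'
      simp only [Pi.mul_apply, Function.comp_apply] at b1
      rw [lp]; linarith
    · rw [image_eq_zero_of_notMem_tsupport hz', zero_mul, neg_nonpos]; positivity

end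

end Pool.Agent.Lib.MP_813db1_ag.HS.Pole
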