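import Pool.Agent.Lib.MP_813db1_ag.AN.FinStmt
import Pool.Agent.Lib.MP_813db1_ag.AN.Pole

/-! Inequalities for determinants and for the dual form. -/

namespace Pool.Agent.Lib.MP_813db1_ag.AN

open Pool.Agent.Lib.MP_813db1_ag.HS
open Complex Matrix
open scoped ComplexOrder

namespace FM

variable {ι : Type} [Fintype ι] [DecidableEq ι]

theorem gr_eq (H : Mat ι) (a b : V ι) : grL H a b = star b ⬝ᵥ H⁻¹ *ᵥ a := by
  simp only [grL, dotProduct, mulVec, Finset.mul_sum, Pi.star_apply]
  rw [Finset.sum_comm]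
  exact Finset.sum_congr rfl fun i _ => Finset.sum_congr rfl fun j _ => by ring

theorem gr_symm {H : Mat ι} (hH : H.IsHermitian) (a b : V ι) :
    (grL H b a).re = (grL H a b).re := by
  rw [← conj_re, ← star_def, gr_eq, gr_eq, ← star_dotProduct_star, star_star, star_mulVec,
    hH.inv.eq, ← dotProduct_mulVec, dotProduct_comm]

theorem gr_nonneg {H : Mat ι} (hH : H.PosDef) (a : V ι) : 0 ≤ (grL H a a).re := by
  rw [gr_eq]
  exact hH.inv.posSemidef.re_dotProduct_nonneg a

theorem gr_exp {H : Mat ι} (hH : H.PosDef) (a b : V ι) (t s : ℝ) :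
    0 ≤ t ^ 2 * (grL H a a).re + 2 * t * s * (grL H a b).re + s ^ 2 * (grL H b b).re := by
  have h := gr_nonneg hH ((t : ℂ) • a + (s : ℂ) • b)
  have e := gr_symm hH.1 a b
  simp only [gr_eq] at h e ⊢
  simp only [star_add, star_smul, mulVec_add, mulVec_smul, add_dotProduct, dotProduct_add,
    smul_dotProduct, dotProduct_smul, smul_eq_mul, star_def, conj_ofReal, add_re,
    re_ofReal_mul] at h
  rw [e] at h
  linarith

theorem rk (H : Mat ι) (a : V ι) : trm H (vecMulVec a (star a)) = (grL H a a).re := by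
  rw [trm, gr_eq, vecMulVec_mul, trace_vecMulVec, dotProduct_mulVec, dotProduct_comm]

end FM

open FM in
theorem finMat : FinMat where
  nonneg _ _ _ _ := Pole.det_nonneg
  mono _ _ _ B P hB hP := by
    by_cases h : B.det = 0
    · rw [h, zero_re]
      exact Pole.det_nonneg (hB.add hP)
    · exact Pole.det_mono (hB.posDef_iff_det_ne_zero.2 h) hP
  up _ _ _ B P hB hP h := by
    have := Pole.det_sub h hP (by rwa [add_sub_cancel_right])
    rwa [add_sub_cancel_right] at this
  low _ _ _ H P hH hP := by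
    nlinarith [Pole.det_add hH hP, (Mat.det' hH).1]
  rk _ _ _ H a := ⟨posSemidef_vecMulVec_self_star a, rk H a⟩
  cs _ _ _ H a b t hH ht := by
    rw [← sub_le_iff_le_add', le_div_iff₀ ht]
    rcases abs_cases (grL H a b).re with h | h <;> rw [h.1]
    · nlinarith [gr_exp hH a b t (-1)]
    · nlinarith [gr_exp hH a b t 1]
  dom _ _ _ H G a hH hG := by
    have h := Mat.trm_nonneg hH (Mat.le_trm hG (posSemidef_vecMulVec_self_star a))
    rw [trm, sub_mul, Matrix.smul_mul, trace_sub, trace_smul, smul_eq_mul, sub_re,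
      re_ofReal_mul] at h
    rw [← rk, ← rk]
    exact sub_nonneg.1 h

end Pool.Agent.Lib.MP_813db1_ag.AN
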