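import Pool.Agent.Lib.MP_813db1_ag.AN.IntA
import Pool.Agent.Lib.MP_813db1_ag.HS.RepB1

/-! The invariance of the mass and the Stokes formula for an exact Kaehler form. -/

namespace Pool.Agent.Lib.MP_813db1_ag.AN

open Pool.Agent.Lib.MP_813db1_ag.HS
open MeasureTheory Complex Matrix Filter Topology Set Metric
open scoped ContDiff ComplexOrder ENNReal

namespace IntA

variable {ι Y : Type} [Fintype ι] [DecidableEq ι] [TopologicalSpace Y] {M : Atl ι Y}
  {g : Y → Mat ι}

/-- a covector field read in a chart. -/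
noncomputable def cv (M : Atl ι Y) (a : Y → V ι) (e : Ch ι Y) (w : V ι) : V ι :=
  a (e.symm w) ᵥ* tj e (M.ch (e.symm w)) (e.symm w)

theorem cv_pt (a : Y → V ι) {e : Ch ι Y} {x : Y} (hx : x ∈ e.source) :
    cv M a e (e x) = a x ᵥ* tj e (M.ch x) x := by rw [cv, e.left_inv hx]

/-- local potentials. -/
def LocPot (M : Atl ι Y) (g : Y → Mat ι) (a : Y → V ι) : Prop :=
  ∀ e ∈ M.A, ∀ z ∈ e.target, ∃ G : V ι → ℂ, ContDiffAt ℝ ∞ G z ∧
    levi G z + (levi G z)ᴴ = M.repF g e z ∧ ∀ᶠ w in 𝓝 z, cv M a e w = fun j => star (dzb G j w)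

omit [DecidableEq ι] in
theorem star_vecMul (b : V ι) (J : Mat ι) : star (b ᵥ* J) = star b ᵥ* J.map star := by
  funext j
  simp [vecMul, dotProduct]

theorem locPot (ha : RepA' M) {κ : Type} {e : κ → Ch ι Y} {O : κ → Set (V ι)} {f : κ → V ι → ℂ}
    (h : Pot M g e O f) : ∃ a, LocPot M g a := by
  choose k k1 k2 using h.cov
  have sm : ∀ l, ∀ c ∈ M.A, ∀ x ∈ c.source, x ∈ (e l).source → e l x ∈ O l →
      ContDiffAt ℝ ∞ (f l ∘ (e l ∘ c.symm)) (c x) := fun l c hc x hx h1 h2 =>
    ContDiffAt.comp _ (by rw [RepB.tr_pt hx]; exact h.sm l _ h2)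
      (RepB.an_sm (M.hol c hc _ (h.mem l) x hx h1))
  have key : ∀ l, ∀ c ∈ M.A, ∀ x ∈ c.source, x ∈ (e l).source → e l x ∈ O l →
      (fun j => star (dzb (f (k x) ∘ (e (k x) ∘ (M.ch x).symm)) j (M.ch x x))) ᵥ* tj c (M.ch x) x =
        fun j => star (dzb (f l ∘ (e l ∘ c.symm)) j (c x)) := by
    intro l c hc x hx h1 h2
    have d1 := (sm l _ (M.ch_mem x) x (M.mem x) h1 h2).differentiableAt (by simp)
    have d2 := (sm _ _ (M.ch_mem x) x (M.mem x) (k1 x) (k2 x)).differentiableAt (by simp)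
    have e1 : f l ∘ (e l ∘ c.symm) =ᶠ[𝓝 (c x)]
        (f l ∘ (e l ∘ (M.ch x).symm)) ∘ (M.ch x ∘ c.symm) :=
      (RepB.ev hx (M.mem x)).mono fun w hw => by
        simp only [Function.comp, (M.ch x).left_inv hw.2]
    have e2 : ∀ j, dzb (f (k x) ∘ (e (k x) ∘ (M.ch x).symm)) j (M.ch x x) =
        dzb (f l ∘ (e l ∘ (M.ch x).symm)) j (M.ch x x) := fun j => by
      have d3 := DifferentiableAt.comp (M.ch x x)
        (g := fun z => f (k x) z - f l (e l ((e (k x)).symm z)))
        (by rw [RepB.tr_pt (M.mem x)]; exact h.hol _ l x (k1 x) h1 (k2 x) h2)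
        (M.hol _ (M.ch_mem x) _ (h.mem _) x (M.mem x) (k1 x)).differentiableAt
      rw [← sub_eq_zero, ← dzb_sub d2 d1, ← dzb_hol d3 j]
      refine dzb_congr ((RepB.ev (M.mem x) (k1 x)).mono fun w hw => ?_) j
      simp only [Function.comp, (e (k x)).left_inv hw.2]
    funext j
    rw [dzb_congr e1, RepB.dzb_vec (by rw [RepB.tr_pt hx]; exact d1)
      (M.hol c hc _ (M.ch_mem x) x hx (M.mem x)), RepB.tr_pt hx]
    simp only [e2, vecMul, dotProduct, star_sum, star_mul', map_apply, star_star]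
    rfl
  refine ⟨fun y j => star (dzb (f (k y) ∘ (e (k y) ∘ (M.ch y).symm)) j (M.ch y y)),
    fun c hc z hz => ?_⟩
  obtain ⟨x, hx, rfl⟩ : ∃ x ∈ c.source, c x = z := ⟨_, c.map_target hz, c.right_inv hz⟩
  have an := M.hol c hc _ (h.mem _) x hx (k1 x)
  refine ⟨_, sm _ c hc x hx (k1 x) (k2 x), ?_, ?_⟩
  · rw [levi_comp (by
      rw [RepB.tr_pt hx]
      exact (h.sm _ _ (k2 x)).of_le (by norm_cast)) an, RepB.tr_pt hx,
      ha.repF_tr g c hc _ (h.mem _) x hx (k1 x), ← h.lev _ _ (k2 x)]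
    have m1 : ∀ J : Mat ι, (J.map star)ᴴ = Jᵀ := fun J => by
      ext i j
      simp
    simp only [pull, tj, conjTranspose_mul, Matrix.mul_add, Matrix.add_mul, m1, Matrix.mul_assoc]
    rfl
  · filter_upwards [RepB.ev hx (k1 x), an.continuousAt.eventually_mem ((h.opn _).1.mem_nhds (by
      rw [RepB.tr_pt hx]; exact k2 x))] with w w1 w2
    have := key _ c hc _ (c.map_target w1.1) w1.2 w2
    rwa [c.right_inv w1.1] at this

theorem cv_dfn (hb : RepB' M) {u : Y → ℝ} (hu : M.Ck ∞ u) {e : Ch ι Y} (he : e ∈ M.A) {z : V ι}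
    (hz : z ∈ e.target) : cv M (M.dfn u) e z = fun i => dz (fn u e) i z := by
  have := hb.dfn_rep u e he _ (e.map_target hz) (by
    rw [e.right_inv hz]
    exact (hu e he z hz).differentiableAt (by simp))
  rw [e.right_inv hz] at this
  exact this.symm

/-- continuous covector fields. -/
def CvC (M : Atl ι Y) (a : Y → V ι) : Prop :=
  ∀ e ∈ M.A, ∀ z ∈ e.target, ∀ i, ContDiffAt ℝ ∞ (fun w => cv M a e w i) z

theorem LocPot.cvC {a : Y → V ι} (h : LocPot M g a) : CvC M a := fun e he z hz i => by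
  obtain ⟨G, g1, -, g3⟩ := h e he z hz
  exact (Green.cd_star (contDiffAt_dzb_top g1 i)).congr_of_eventuallyEq
    (g3.mono fun w hw => congrFun hw i)

theorem cvC_dfn (hb : RepB' M) {u : Y → ℝ} (hu : M.Ck ∞ u) : CvC M (M.dfn u) :=
  fun e he z hz i => (contDiffAt_dz_top (hu e he z hz) i).congr_of_eventuallyEq
    (mem_of_superset (e.open_target.mem_nhds hz) fun _ hw => congrFun (cv_dfn hb hu he hw) i)

theorem cont_grL (ha : RepA' M) {h : Y → Mat ι} (hh : M.IsK h) {a b : Y → V ι} (h1 : CvC M a)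
    (h2 : CvC M b) : Continuous fun y => (grL (h y) (a y) (b y)).re := by
  refine continuous_re.comp (Green.cont_of_chart (M := M)
    (fun e z => grL (M.repF h e z) (cv M a e z) (cv M b e z)) (fun e he x hx => ?_)
    fun e he z hz => ?_)
  · rw [cv_pt a hx, cv_pt b hx, Green.repF_eq h hx, grL, grL]
    refine Eq.trans ?_ (RepB.sum_pull (Green.tj_ne ha he hx) (h x) (a x) (star (b x)))
    simp only [← star_vecMul, Pi.star_apply]
  · exact (ContDiffAt.sum (𝕜 := ℝ) (n := ∞) fun i _ => ContDiffAt.sum fun j _ =>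
      ((((hh e he).1.1.cd hz).inv (Green.det_ne ((hh e he).2 z hz)) j i).mul
        (h1 e he z hz i)).mul (Green.cd_star (h2 e he z hz j))).continuousAt

omit [DecidableEq ι] in
theorem fn_zero {K : Set Y} (hK : IsClosed K) {u : Y → ℝ} (h : ∀ y ∉ K, u y = 0) {x : Y}
    (hx : x ∉ K) : fn u (M.ch x) =ᶠ[𝓝 (M.ch x x)] fun _ => 0 := by
  filter_upwards [((M.ch x).continuousAt_symm ((M.ch x).map_source (M.mem x))).eventually_mem
    (hK.isOpen_compl.mem_nhds (by rw [(M.ch x).left_inv (M.mem x)]; exact hx))] with w hw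
  rw [fn, h _ hw, ofReal_zero]

variable [T2Space Y] [MeasurableSpace Y] {K : Set Y} {ν : Measure Y}

theorem inv (ha : RepA' M) (hb : RepB' M) (hm : MatS) (hc : CurvS) (hg : M.IsK g)
    (hK : IsCompact K) (hv : VolK M g K ν) (B : Y → Mat ι) (u : Y → ℝ) (hB : M.ClF B)
    (hu : M.Ck ∞ u) (h0 : ∀ y ∉ K, u y = 0) :
    ∫ y, rat (fun x => B x + M.ddc u x) g y ∂ν = ∫ y, rat B g y ∂ν := by
  have hcl : ∀ t : ℝ, M.ClF fun x => B x + (t : ℂ) • M.ddc u x := fun t =>
    ha.clF_add _ _ hB (ha.clF_smul t _ (hb.ddc_cl u hu))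
  let p : Y → Polynomial ℂ := fun x =>
    Polynomial.C ((g x).det.re : ℂ)⁻¹ * Green.pen (B x) (M.ddc u x)
  have hp : ∀ (t : ℝ) x, (p x).eval (t : ℂ) =
      (rat (fun x => B x + (t : ℂ) • M.ddc u x) g x : ℂ) := fun t x => by
    simp only [p, Polynomial.eval_mul, Polynomial.eval_C, Green.pen_eval, rat, ofReal_div,
      det_re_herm (ha.herm _ (hcl t) x)]
    ring
  have key := Green.poly_const ν p (Fintype.card ι)
    (fun x => (Polynomial.natDegree_C_mul_le _ _).trans
    (Polynomial.natDegree_det_X_add_C_le _ _)) (fun t => by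
      simp only [hp]
      refine hv.intg _ (continuous_ofReal.comp (ha.cont _ fun e he z hz => ?_))
      exact (ha.ck_rat _ g (fun e he => (hcl t e he).1) hg e he z hz).of_le zero_le) fun t => by
    refine (div0 ha hb hm hg hK hv
      (fun e z => (M.repF (fun x => B x + (t : ℂ) • M.ddc u x) e z).adjugateᵀ *ᵥ
        fun j => dzb (fn u e) j z) (fun x => (B x + (t : ℂ) • M.ddc u x).adjugateᵀ *ᵥ
        star (M.dfn u x)) _ (fun e he z hz i => ?_) (fun e he x hx => ?_) (fun x => ?_)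
        fun x hx => ?_).2
    · exact ContDiffAt.sum fun j _ => ((((hcl t e he).1.cd hz).adjugate j i).mul
        (contDiffAt_dzb_top (hu e he z hz) j)).of_le (by norm_cast)
    · have e1 := hb.dfn_rep u e he x hx ((hu e he _ (e.map_source hx)).differentiableAt (by simp))
      have e2 : (fun j => dzb (fn u e) j (e x)) =
          star (M.dfn u x) ᵥ* (tj e (M.ch x) x).map star := by
        funext j
        rw [show dzb (fn u e) j (e x) = star (dz (fn u e) j (e x)) from
          dzb_ofReal (fun z => u (e.symm z)) j _, congrFun e1 j]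
        simp [vecMul, dotProduct]
      rw [Green.repF_eq _ hx, e2, Green.adj_pull]
    · have he := M.ch_mem x
      have hz := (M.ch x).map_source (M.mem x)
      have h3 : ((g x).det.re : ℂ) ≠ 0 :=
        ofReal_ne_zero.2 (Green.det_pos (Green.pd ha hg x)).ne'
      rw [Green.div_adj hc (M.ch x).open_target (hcl t _ he) hz
        ((hu _ he _ hz).of_le (by norm_cast)), ha.repF_self]
      simp only [p, Polynomial.derivative_C_mul, Polynomial.eval_mul, Polynomial.eval_C,
        Green.pen_deriv, mul_inv_cancel_left₀ h3]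
      rfl
    · rw [show M.dfn u x = 0 from funext fun i =>
        (dz_congr (fn_zero hK.isClosed h0 hx) i).trans (dz_const 0 i _), star_zero, mulVec_zero]
  have h1 := hp 1
  have h2 := hp 0
  simp only [ofReal_one, one_smul, ofReal_zero, zero_smul, add_zero] at h1 h2
  simp only [h1, h2, integral_complex_ofReal] at key
  exact ofReal_injective key

theorem st (ha : RepA' M) (hb : RepB' M) (hm : MatS) (hc : CurvS) (hg : M.IsK g)
    (hK : IsCompact K) (hv : VolK M g K ν) {a : Y → V ι} (hl : LocPot M g a) (h : Y → Mat ι)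
    (u : Y → ℝ) (hh : M.IsK h) (hu : M.Ck ∞ u) (h0 : ∀ y ∉ K, u y = 0) :
    ∫ y, (u y * trm (h y) (g y) + 2 * (grL (h y) (M.dfn u y) (a y)).re) * rat h g y ∂ν = 0 := by
  choose G g1 g2 g3 using fun x => hl _ (M.ch_mem x) _ ((M.ch x).map_source (M.mem x))
  refine And.elim (fun c1 c2 => ?_) (div0 ha hb hm hg hK hv
    (fun e z => fn u e z • ((M.repF h e z).adjugateᵀ *ᵥ star (cv M a e z)))
    (fun x => (u x : ℂ) • ((h x).adjugateᵀ *ᵥ star (a x)))
    (fun x => (u x * trace (levi (G x) (M.ch x x) * (h x)⁻¹) + grL (h x) (M.dfn u x) (a x)) *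
      (rat h g x : ℂ)) (fun e he z hz i => ?_) (fun e he x hx => ?_) (fun x => ?_) fun x hx => ?_)
  · have e0 := (reCLM.integral_comp_comm (hv.intg _ c1)).trans (congrArg re c2)
    rw [← mul_zero (2 : ℝ), ← zero_re, ← e0, ← integral_const_mul]
    refine integral_congr_ae (Eventually.of_forall fun x => ?_)
    have e1 : trm (h x) (g x) = 2 * (trace (levi (G x) (M.ch x x) * (h x)⁻¹)).re := by
      have := g2 x
      rw [ha.repF_self] at this
      rw [← this, trm, Matrix.add_mul, trace_add, add_re, two_mul,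
        ← conj_re (trace ((levi (G x) (M.ch x x))ᴴ * (h x)⁻¹)), ← star_def, ← trace_conjTranspose,
        conjTranspose_mul, conjTranspose_conjTranspose, (Green.pd ha hh x).1.inv.eq,
        trace_mul_comm (h x)⁻¹]
    simp only [reCLM_apply, re_mul_ofReal, add_re, re_ofReal_mul, e1]
    ring
  · exact ((hu e he z hz).mul (ContDiffAt.sum fun j _ => (((hh e he).1.1.cd hz).adjugate j i).mul
      (Green.cd_star (hl.cvC e he z hz j)))).of_le (by norm_cast)
  · rw [mulVec_smul, cv_pt a hx, star_vecMul, Green.repF_eq _ hx, Green.adj_pull, smul_comm, fn,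
      e.left_inv hx]
  · have he := M.ch_mem x
    have hz := (M.ch x).map_source (M.mem x)
    have hp := Green.pd ha hh x
    have h3 : ((g x).det.re : ℂ) ≠ 0 := ofReal_ne_zero.2 (Green.det_pos (Green.pd ha hg x)).ne'
    have d1 := (hu _ he _ hz).differentiableAt (by simp)
    have d2 : ∀ i, DifferentiableAt ℝ (fun w => ((M.repF h (M.ch x) w).adjugateᵀ *ᵥ
        fun j => dzb (G x) j w) i) (M.ch x x) := fun i =>
      DifferentiableAt.fun_sum fun j _ => (((hh _ he).1.1.df hz).adjugate j i).fun_mul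
        (differentiableAt_dzb ((g1 x).of_le (by norm_cast)) j)
    have e1 : ∀ i, dz (fun y => (fn u (M.ch x) y • ((M.repF h (M.ch x) y).adjugateᵀ *ᵥ
        star (cv M a (M.ch x) y))) i) i (M.ch x x) =
        M.dfn u x i * ((h x).adjugateᵀ *ᵥ star (a x)) i + u x * dz (fun w =>
          ((M.repF h (M.ch x) w).adjugateᵀ *ᵥ fun j => dzb (G x) j w) i) i (M.ch x x) := fun i => by
      have e2 := (g3 x).self_of_nhds
      rw [cv_pt a (M.mem x), ha.tj_self _ he x (M.mem x), vecMul_one] at e2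
      rw [dz_congr (g := fun y => fn u (M.ch x) y * ((M.repF h (M.ch x) y).adjugateᵀ *ᵥ
        fun j => dzb (G x) j y) i) ((g3 x).mono fun w hw => by
          simp only [hw, Pi.smul_apply, smul_eq_mul]
          congr 3
          funext j
          simp), dz_mul d1 (d2 i), ha.repF_self, e2, fn, (M.ch x).left_inv (M.mem x)]
      congr 4
      funext j
      simp
    have e3 : (h x).adjugate = ((h x).det.re : ℂ) • (h x)⁻¹ := by
      rw [det_re_herm hp.1, Matrix.inv_def, smul_smul, Ring.mul_inverse_cancel _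
        hp.det_pos.ne'.isUnit, one_smul]
    simp only [e1, Finset.sum_add_distrib, ← Finset.mul_sum]
    rw [Green.div_adj hc (M.ch x).open_target (hh _ he).1 hz ((g1 x).of_le (by norm_cast)),
      ha.repF_self, e3, rat, ofReal_div, Matrix.smul_mul, trace_smul, trace_mul_comm (h x)⁻¹]
    have e4 : ∑ i, M.dfn u x i * ((((h x).det.re : ℂ) • (h x)⁻¹)ᵀ *ᵥ star (a x)) i =
        ((h x).det.re : ℂ) * grL (h x) (M.dfn u x) (a x) := by
      simp only [grL, mulVec, dotProduct, transpose_apply, Matrix.smul_apply, smul_eq_mul,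
        Finset.mul_sum, Pi.star_apply]
      exact Finset.sum_congr rfl fun i _ => Finset.sum_congr rfl fun j _ => by ring
    rw [e4, smul_eq_mul]
    field_simp
    ring
  · rw [h0 x hx, ofReal_zero, zero_smul]

end IntA

open IntA in
theorem intKS (ha : RepA) (hb : RepB) (hm : MatS) (hc : CurvS) : IntKS := by
  intro ι Y κ _ _ _ _ _ _ M g e O f K hg hp hK
  obtain ⟨ν, hv⟩ := volK ha hm hg hK
  obtain ⟨a, hl⟩ := locPot (ha ι Y M) hp
  obtain ⟨A, hA⟩ := hK.bddAbove_image (cont_grL (ha ι Y M) hg hl.cvC hl.cvC).continuousOn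
  exact ⟨ν, a, hv.intgR, hv.ae, hv.chartR, inv (ha ι Y M) (hb ι Y M) hm hc hg hK hv,
    ⟨A, fun y hy => hA ⟨y, hy, rfl⟩⟩,
    fun h u hh hu => cont_grL (ha ι Y M) hh (cvC_dfn (hb ι Y M) hu) hl.cvC,
    st (ha ι Y M) (hb ι Y M) hm hc hg hK hv hl⟩

end Pool.Agent.Lib.MP_813db1_ag.AN
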