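import Pool.Agent.Lib.MP_813db1_ag.AN.FinStmt
import Pool.Agent.Lib.MP_813db1_ag.HS.Weight_A

/-! Logarithmic poles at finitely many points. -/

namespace Pool.Agent.Lib.MP_813db1_ag.AN

open Pool.Agent.Lib.MP_813db1_ag.HS
open MeasureTheory Complex Matrix Filter Topology Set Metric Weight
open scoped ContDiff ComplexOrder

noncomputable section

namespace PoleB

variable {ι : Type} [Fintype ι] [DecidableEq ι]

omit [DecidableEq ι] in
theorem nq_nonneg (w : V ι) : 0 ≤ nq w := Finset.sum_nonneg fun _ _ => normSq_nonneg _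

omit [DecidableEq ι] in
theorem nq_le (w : V ι) : nq w ≤ Fintype.card ι * ‖w‖ ^ 2 := by
  refine (Finset.sum_le_card_nsmul _ _ (‖w‖ ^ 2) fun i _ => ?_).trans_eq (by simp)
  rw [normSq_eq_norm_sq]
  exact pow_le_pow_left₀ (norm_nonneg _) (norm_le_pi_norm w i) 2

omit [DecidableEq ι] in
theorem nq_pos {w : V ι} (h : w ≠ 0) : 0 < nq w := by
  obtain ⟨i, hi⟩ := Function.ne_iff.1 h
  exact (normSq_pos.2 hi).trans_le (Finset.single_le_sum (f := fun i => normSq (w i))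
    (fun i _ => normSq_nonneg _) (Finset.mem_univ i))

theorem cd_nq' : ContDiff ℝ ∞ (nq : V ι → ℝ) := by
  refine contDiff_iff_contDiffAt.2 fun z => contDiffAt_ofReal.1 ?_
  rw [nq_eq]
  exact ContDiffAt.sum fun i _ => (contDiff_apply ℝ ℂ i).contDiffAt.mul
    (conjCLE.contDiff.contDiffAt.comp z (contDiff_apply ℝ ℂ i).contDiffAt)

theorem dzb_nq (k : ι) (z : V ι) : dzb (fun w : V ι => (nq w : ℂ)) k z = z k := by
  rw [dzb_ofReal, dz_nq, star_star]

theorem levi_nq (z : V ι) (i j : ι) : levi (fun w : V ι => (nq w : ℂ)) z i j = (1 : Mat ι) i j := by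
  rw [levi_apply, show dzb (fun w : V ι => (nq w : ℂ)) j = fun w => w j from funext (dzb_nq j),
    dz_coord, one_apply]
  simp only [eq_comm]

/-- the pole. -/
def pl (τ : ℝ) (w : V ι) : ℝ := Real.log (nq w + τ ^ 2) / 4

theorem levi_pl {τ : ℝ} (hτ : 0 < τ) (z : V ι) : levi (fun w => (pl τ w : ℂ)) z =
    (((nq z + τ ^ 2)⁻¹ / 4 : ℝ) : ℂ) •
      (1 - (((nq z + τ ^ 2)⁻¹ : ℝ) : ℂ) • vecMulVec (star z) z) := by
  have h0 : 0 < nq z + τ ^ 2 := add_pos_of_nonneg_of_pos (nq_nonneg z) (by positivity)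
  have h1 : ∀ᶠ t in 𝓝 (nq z), HasDerivAt (fun t => Real.log (t + τ ^ 2) / 4)
      ((t + τ ^ 2)⁻¹ / 4) t := by
    filter_upwards [(show ContinuousAt (fun t : ℝ => t + τ ^ 2) (nq z) by fun_prop).eventually_ne
      h0.ne'] with t ht
    simpa using (((hasDerivAt_id t).add_const (τ ^ 2)).log ht).div_const 4
  have h2 : HasDerivAt (fun t => (t + τ ^ 2)⁻¹ / 4) (-((nq z + τ ^ 2)⁻¹ * (nq z + τ ^ 2)⁻¹) / 4)
      (nq z) := by
    have := (((hasDerivAt_id' (nq z)).add_const (τ ^ 2)).fun_inv h0.ne').div_const 4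
    refine this.congr_deriv ?_
    field_simp
  ext i j
  refine (levi_real_comp h1 h2 (cd_nq'.contDiffAt.of_le (by norm_cast)) i j).trans ?_
  rw [levi_nq, dz_nq, dzb_nq]
  simp only [Matrix.smul_apply, Matrix.sub_apply, vecMulVec_apply, smul_eq_mul, Pi.star_apply]
  push_cast
  ring

theorem trm_one (z : V ι) : trm 1 (vecMulVec (star z) z) = nq z := by
  simp [trm, trace, vecMulVec_apply, nq, normSq_apply]

theorem psd_pl (hm : MatS) {τ : ℝ} (hτ : 0 < τ) (z : V ι) :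
    (levi (fun w => (pl τ w : ℂ)) z).PosSemidef := by
  have h0 : 0 < nq z + τ ^ 2 := add_pos_of_nonneg_of_pos (nq_nonneg z) (by positivity)
  have h1 := hm.le_trm ι 1 _ PosDef.one (posSemidef_vecMulVec_star_self z)
  rw [trm_one] at h1
  have h2 := (h1.add (PosSemidef.one.smul (zero_le_real.2 (sq_nonneg τ)))).smul
    (zero_le_real.2 (inv_pos.2 h0).le)
  rw [levi_pl hτ]
  refine PosSemidef.smul ?_ (zero_le_real.2 (by positivity))
  convert h2 using 1
  have h3 : (((nq z + τ ^ 2)⁻¹ : ℝ) : ℂ) * ((nq z : ℂ) + ((τ ^ 2 : ℝ) : ℂ)) = 1 := by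
    rw [← ofReal_add, ← ofReal_mul, inv_mul_cancel₀ h0.ne', ofReal_one]
  rw [sub_add_eq_add_sub, ← add_smul, smul_sub, smul_smul, h3, one_smul]

theorem det_pl {τ : ℝ} (hτ : 0 < τ) (z : V ι) : (levi (fun w => (pl τ w : ℂ)) z).det.re =
    ((nq z + τ ^ 2)⁻¹ / 4) ^ Fintype.card ι * (τ ^ 2 * (nq z + τ ^ 2)⁻¹) := by
  have h0 : 0 < nq z + τ ^ 2 := add_pos_of_nonneg_of_pos (nq_nonneg z) (by positivity)
  have e : ∀ c : ℂ, (1 - c • vecMulVec (star z) z : Mat ι).det = 1 - c * nq z := fun c => by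
    have := det_one_add_replicateCol_mul_replicateRow (ι := Unit) ((-c) • star z) z
    rw [← vecMulVec_eq, smul_vecMulVec, neg_smul, ← sub_eq_add_neg] at this
    rw [this, congrFun nq_eq z]
    simp only [dotProduct, Pi.smul_apply, smul_eq_mul, Finset.mul_sum, Pi.star_apply, sub_eq_add_neg,
      ← Finset.sum_neg_distrib]
    congr 2
    funext i
    ring
  rw [levi_pl hτ, det_smul, e, ← ofReal_pow, ← ofReal_mul, ← ofReal_one, ← ofReal_sub,
    ← ofReal_mul, ofReal_re]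
  congr 1
  field_simp
  ring

theorem det_ge {τ : ℝ} (hτ : 0 < τ) {z : V ι} (hz : z ∈ ball (0 : V ι) τ) :
    (((Fintype.card ι : ℝ) + 1)⁻¹ / 4) ^ Fintype.card ι * ((Fintype.card ι : ℝ) + 1)⁻¹ ≤
      τ ^ (2 * Fintype.card ι) * (levi (fun w => (pl τ w : ℂ)) z).det.re := by
  have h0 : 0 < nq z + τ ^ 2 := add_pos_of_nonneg_of_pos (nq_nonneg z) (by positivity)
  have h1 : nq z ≤ Fintype.card ι * τ ^ 2 := (nq_le z).trans (mul_le_mul_of_nonneg_left
    (pow_le_pow_left₀ (norm_nonneg _) (mem_ball_zero_iff.1 hz).le 2) (Nat.cast_nonneg _))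
  have h2 : ((Fintype.card ι : ℝ) + 1)⁻¹ ≤ τ ^ 2 * (nq z + τ ^ 2)⁻¹ := by
    rw [← div_eq_mul_inv, le_div_iff₀ h0, inv_mul_le_iff₀ (by positivity)]
    linarith
  rw [det_pl hτ, ← mul_assoc, pow_mul, ← mul_pow, mul_div_assoc']
  gcongr

omit [DecidableEq ι] in
theorem par {F : Type} [NormedAddCommGroup F] [NormedSpace ℝ F] {f : ℝ → V ι → F} {p : ℝ × V ι}
    {m n : WithTop ℕ∞} (h : ContDiffAt ℝ n (Function.uncurry f) p) (hm : m + 1 ≤ n) :
    ContDiffAt ℝ m (Function.uncurry fun τ => fderiv ℝ (f τ)) p :=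
  ContDiffAt.fderiv (f := fun (q : ℝ × V ι) => f q.1) (g := fun q => q.2)
    (ContDiffAt.comp (p, p.2) (f := fun r : (ℝ × V ι) × V ι => (r.1.1, r.2)) h
      (contDiffAt_fst.fst.prodMk contDiffAt_snd)) contDiffAt_snd hm

omit [DecidableEq ι] in
theorem bdd {K : Set (V ι)} (hK : IsCompact K) {F : V ι → Mat ι}
    (h : ∀ z ∈ K, ∀ i j, ContinuousAt (fun w => F w i j) z) : ∃ L, ∀ z ∈ K, Bd L (F z) := by
  obtain ⟨L, hL⟩ := hK.exists_bound_of_continuousOn (f := fun z => (fun i j => F z i j : ι → ι → ℂ))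
    fun z hz => (continuousAt_pi.2 fun i => continuousAt_pi.2 fun j => h z hz i j).continuousWithinAt
  exact ⟨L, fun z hz i j =>
    ((norm_le_pi_norm _ j).trans (norm_le_pi_norm (fun i j => F z i j) i)).trans (hL z hz)⟩

theorem dom (hm : MatS) (L : ℝ) : ∃ C : ℝ, ∀ G B : Mat ι, G.PosDef → B.IsHermitian → Bd L G →
    Bd L G⁻¹ → Bd L B → ((C : ℂ) • G + B).PosDef := by
  obtain ⟨C, hC⟩ := hm.dom ι L
  refine ⟨C.re, fun G B hG hB h1 h2 h3 => ?_⟩
  have h := (hC G B hG hB h1 h2 h3).1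
  have e := h.1.eq
  rw [conjTranspose_add, conjTranspose_smul, hG.1.eq, hB.eq, add_left_inj] at e
  have e2 : (C.re : ℂ) • G = C • G := by
    rw [re_eq_add_conj, div_eq_inv_mul, mul_smul, add_smul, show (starRingEnd ℂ) C • G = _ from e,
      ← two_smul ℂ, smul_smul, inv_mul_cancel₀ two_ne_zero, one_smul]
  rwa [e2]

theorem flat (hm : MatS) {ρ : ℝ} (hρ : 0 < ρ) {G : V ι → Mat ι}
    (hG : KOn G (closedBall 0 (2 * ρ))) : ∃ s ≥ (0 : ℝ), ∃ A ≥ (0 : ℝ), ∀ τ ∈ Ioc (0 : ℝ) ρ,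
    ∃ P : V ι → ℝ, ContDiff ℝ ∞ P ∧ (∀ w, P w ≤ A) ∧ (∀ w ∉ ball (0 : V ι) (2 * ρ), P w = 0) ∧
      (∀ w ∈ ball (0 : V ι) ρ, P w = pl τ w) ∧ ∀ w ∈ closedBall (0 : V ι) (2 * ρ),
        ((s : ℂ) • G w + levi (fun w => (P w : ℂ)) w).PosSemidef := by
  let b : ContDiffBump (0 : V ι) := ⟨ρ, 2 * ρ, hρ, by linarith⟩
  have hK := isCompact_closedBall (0 : V ι) (2 * ρ)
  have cd : ∀ p : ℝ × V ι, nq p.2 + p.1 ^ 2 ≠ 0 → ContDiffAt ℝ ∞
      (Function.uncurry fun τ w => ((b w * pl τ w : ℝ) : ℂ)) p := fun p hp =>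
    ofRealCLM.contDiff.contDiffAt.comp p (((b.contDiff (n := ⊤)).contDiffAt.comp p
      contDiffAt_snd).mul ((((cd_nq'.contDiffAt.comp p contDiffAt_snd).add
        (contDiffAt_fst.pow 2)).log hp).div_const 4))
  obtain ⟨L1, h1⟩ := bdd hK fun z hz i j => (hG.1.1 z hz i j).continuousAt
  obtain ⟨L2, h2⟩ := bdd hK fun z hz i j =>
    ((hG.1.1.cd hz).inv (hG.2 z hz).det_pos.ne' i j).continuousAt
  obtain ⟨L3, h3⟩ := ((isCompact_Icc (a := (0 : ℝ)) (b := ρ)).prod
    (hK.diff (isOpen_ball (x := 0) (ε := ρ)))).exists_bound_of_continuousOn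
    (f := Function.uncurry fun τ => fderiv ℝ (fderiv ℝ fun w : V ι => ((b w * pl τ w : ℝ) : ℂ)))
    fun p hp => (par (m := 0) (par (m := 1) (cd p (add_pos_of_pos_of_nonneg (nq_pos fun e =>
      hp.2.2 (e ▸ mem_ball_self hρ)) (sq_nonneg _)).ne') (by norm_cast))
        (by norm_num)).continuousAt.continuousWithinAt
  obtain ⟨C, hC⟩ := dom (ι := ι) hm (max L1 (max L2 L3))
  refine ⟨|C|, abs_nonneg C, |Real.log (Fintype.card ι * (2 * ρ) ^ 2 + ρ ^ 2) / 4|, abs_nonneg _,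
    fun τ hτ => ?_⟩
  have h0 : ∀ w : V ι, 0 < nq w + τ ^ 2 := fun w =>
    add_pos_of_nonneg_of_pos (nq_nonneg w) (pow_pos hτ.1 2)
  have c1 : ∀ w, ContDiffAt ℝ ∞ (fun w : V ι => ((b w * pl τ w : ℝ) : ℂ)) w := fun w =>
    (cd (τ, w) (h0 w).ne').comp w (contDiffAt_const.prodMk contDiffAt_id)
  have z0 : ∀ w ∉ ball (0 : V ι) (2 * ρ), b w * pl τ w = 0 := fun w hw => by
    rw [b.zero_of_le_dist (not_lt.1 hw), zero_mul]
  have o1 : ∀ w ∈ ball (0 : V ι) ρ, b w * pl τ w = pl τ w := fun w hw => by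
    rw [b.one_of_mem_closedBall (ball_subset_closedBall hw), one_mul]
  refine ⟨fun w => b w * pl τ w, contDiff_iff_contDiffAt.2 fun w => contDiffAt_ofReal.1 (c1 w),
    fun w => ?_, z0, o1, fun w hw => ?_⟩
  · by_cases hw : w ∈ ball (0 : V ι) (2 * ρ)
    · have : pl τ w ≤ |Real.log (Fintype.card ι * (2 * ρ) ^ 2 + ρ ^ 2) / 4| := by
        refine le_trans ?_ (le_abs_self _)
        have := (nq_le w).trans (mul_le_mul_of_nonneg_left (pow_le_pow_left₀ (norm_nonneg _)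
          (mem_ball_zero_iff.1 hw).le 2) (Nat.cast_nonneg _))
        have := pow_le_pow_left₀ hτ.1.le hτ.2 2
        exact div_le_div_of_nonneg_right (Real.log_le_log (h0 w) (by linarith)) (by norm_num)
      exact (mul_le_mul_of_nonneg_left this b.nonneg).trans
        (mul_le_of_le_one_left (abs_nonneg _) b.le_one)
    · exact (z0 w hw).trans_le (abs_nonneg _)
  · by_cases hb : w ∈ ball (0 : V ι) ρ
    · rw [levi_congr (g := fun w => (pl τ w : ℂ)) (mem_of_superset (isOpen_ball.mem_nhds hb)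
        fun y hy => congrArg ofReal (o1 y hy))]
      exact ((hG.2 w hw).posSemidef.smul (zero_le_real.2 (abs_nonneg C))).add (psd_pl hm hτ.1 w)
    · have c2 := (c1 w).of_le (show (2 : WithTop ℕ∞) ≤ ∞ by norm_cast)
      have := (hC (G w) _ (hG.2 w hw) (levi_herm_ofReal c2)
        (fun i j => (h1 w hw i j).trans (le_max_left _ _))
        (fun i j => (h2 w hw i j).trans ((le_max_left _ _).trans (le_max_right _ _)))
        fun i j => ((norm_levi_le c2 i j).trans (h3 (τ, w) ⟨⟨hτ.1.le, hτ.2⟩, hw, hb⟩)).trans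
          ((le_max_right _ _).trans (le_max_right _ _))).posSemidef.add
        ((hG.2 w hw).posSemidef.smul (zero_le_real.2 (sub_nonneg.2 (le_abs_self C))))
      convert this using 1
      rw [ofReal_sub, sub_smul]
      abel

variable {Y : Type} [TopologicalSpace Y] {M : Atl ι Y} {g : Y → Mat ι}

omit [Fintype ι] [DecidableEq ι] in
theorem near (e : Ch ι Y) {K : Set Y} (hK : IsClosed K) {u : Y → ℝ} (h : ∀ x ∉ K, u x = 0)
    {z : V ι} (hz : z ∈ e.target) (hx : e.symm z ∉ K) : fn u e =ᶠ[𝓝 z] fun _ => 0 := by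
  filter_upwards [e.continuousAt_symm hz (hK.isOpen_compl.mem_nhds hx)] with w hw
  rw [fn, h _ hw, ofReal_zero]

theorem one [T2Space Y] (ha : RepA' M) (hb : RepB' M) (hm : MatS) (hg : M.IsK g) {e : Ch ι Y}
    (he : e ∈ M.A) {ρ : ℝ} (hρ : 0 < ρ) (hs : closedBall 0 (2 * ρ) ⊆ e.target) :
    ∃ s A : ℝ, ∀ τ ∈ Ioc (0 : ℝ) ρ, ∃ v, M.Ck ∞ v ∧
      (∀ x, v x ≤ A ∧ ((s : ℂ) • g x + M.ddc v x).PosSemidef) ∧
      (∀ x ∉ e.symm '' closedBall 0 (2 * ρ), v x = 0) ∧
      ∀ w ∈ ball (0 : V ι) ρ, v (e.symm w) = pl τ w := by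
  classical
  have k := hg e he
  obtain ⟨s, s0, A, A0, h⟩ := flat hm hρ (G := M.repF g e) ⟨⟨k.1.1.mono hs,
    fun z hz => k.1.2.1 z (hs hz), fun z hz => k.1.2.2 z (hs hz)⟩, fun z hz => k.2 z (hs hz)⟩
  refine ⟨s, A, fun τ hτ => ?_⟩
  obtain ⟨P, p1, p2, p3, p4, p5⟩ := h τ hτ
  have hK : IsClosed (e.symm '' closedBall 0 (2 * ρ)) :=
    ((isCompact_closedBall _ _).image_of_continuousOn (e.continuousOn_symm.mono hs)).isClosed
  have h0 : ∀ x ∉ e.symm '' closedBall 0 (2 * ρ), e.source.indicator (fun y => P (e y)) x = 0 := by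
    intro x hx
    by_cases h : x ∈ e.source
    · rw [indicator_of_mem h]
      exact p3 _ fun c => hx ⟨e x, ball_subset_closedBall c, e.left_inv h⟩
    · exact indicator_of_notMem h _
  have h1 : ∀ z ∈ e.target, fn (e.source.indicator fun y => P (e y)) e =ᶠ[𝓝 z]
      fun w => (P w : ℂ) := fun z hz => by
    filter_upwards [e.open_target.mem_nhds hz] with w hw
    rw [fn, indicator_of_mem (e.map_target hw), e.right_inv hw]
  have h2 : ∀ x ∉ e.symm '' closedBall 0 (2 * ρ), fn (e.source.indicator fun y => P (e y))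
      (M.ch x) =ᶠ[𝓝 (M.ch x x)] fun _ => 0 := fun x hx =>
    near _ hK h0 ((M.ch x).map_source (M.mem x)) (by rwa [(M.ch x).left_inv (M.mem x)])
  have h3 : M.Ck ∞ (e.source.indicator fun y => P (e y)) := ha.ck_loc ⊤ _ fun x => by
    by_cases hx : x ∈ e.symm '' closedBall 0 (2 * ρ)
    · obtain ⟨z, hz, rfl⟩ := hx
      exact ⟨e, he, e.map_target (hs hz), (contDiffAt_ofReal.2 p1.contDiffAt).congr_of_eventuallyEq
        (h1 _ (e.map_source (e.map_target (hs hz))))⟩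
    · exact ⟨M.ch x, M.ch_mem x, M.mem x, contDiffAt_const.congr_of_eventuallyEq (h2 x hx)⟩
  refine ⟨_, h3, fun x => ⟨?_, ?_⟩, h0, fun w hw => ?_⟩
  · by_cases h : x ∈ e.source
    · rw [indicator_of_mem h]
      exact p2 _
    · rwa [indicator_of_notMem h]
  · by_cases hx : x ∈ e.symm '' closedBall 0 (2 * ρ)
    · obtain ⟨z, hz, rfl⟩ := hx
      have hy := e.map_target (hs hz)
      have t := fun B => (ha.repF_self B (e.symm z)).symm.trans
        (ha.repF_tr B _ (M.ch_mem _) e he _ (M.mem _) hy)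
      have d := hb.ddc_rep _ e he _ hy ((h3 e he _ (e.map_source hy)).of_le (by norm_cast))
      rw [t g, t (M.ddc _), d, e.right_inv (hs hz), levi_congr (h1 z (hs hz))]
      convert (hm.pull_pd ι _ _ (ha.tj_det _ (M.ch_mem _) e he _ (M.mem _) hy)).2.1 (p5 z hz)
        using 1
      simp only [pull, Matrix.mul_add, Matrix.add_mul, Matrix.mul_smul, Matrix.smul_mul]
    · rw [Atl.ddc, levi_congr (h2 x hx), levi_const, add_zero]
      exact (((ha.isK_iff g).1 hg).2 x).posSemidef.smul (zero_le_real.2 s0)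
  · have hw' := hs ((ball_subset_closedBall.trans
      (closedBall_subset_closedBall (by linarith))) hw)
    rw [indicator_of_mem (e.map_target hw'), e.right_inv hw', p4 w hw]

theorem sum (hb : RepB' M) {t : Finset Y} {v : Y → Y → ℝ} {s : Y → ℝ}
    (h1 : ∀ y ∈ t, M.Ck ∞ (v y))
    (h2 : ∀ y ∈ t, ∀ x, ((s y : ℂ) • g x + M.ddc (v y) x).PosSemidef) :
    M.Ck ∞ (fun x => ∑ y ∈ t, v y x) ∧ ∀ x, (((∑ y ∈ t, s y : ℝ) : ℂ) • g x +
      M.ddc (fun x => ∑ y ∈ t, v y x) x).PosSemidef := by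
  classical
  induction t using Finset.induction_on with
  | empty =>
    simp only [Finset.sum_empty, hb.ddc_const, ofReal_zero, zero_smul, add_zero]
    exact ⟨fun e _ z _ => contDiffAt_const, fun _ => PosSemidef.zero⟩
  | insert a t ha ih =>
    obtain ⟨i1, i2⟩ := ih (fun y hy => h1 y (Finset.mem_insert_of_mem hy))
      fun y hy => h2 y (Finset.mem_insert_of_mem hy)
    have a1 := h1 a (Finset.mem_insert_self a t)
    simp only [Finset.sum_insert ha]
    refine ⟨(hb.ck_add ⊤ _ _ a1 i1).1, fun x => ?_⟩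
    have := hb.ddc_add _ _ (fun e he z hz => (a1 e he z hz).of_le (by norm_cast))
      (fun e he z hz => (i1 e he z hz).of_le (by norm_cast)) 1 x
    simp only [one_mul, ofReal_one, one_smul] at this
    convert (h2 a (Finset.mem_insert_self a t) x).add (i2 x) using 1
    rw [this, ofReal_add, add_smul]
    abel

end PoleB

open PoleB in
theorem poleS (ha : RepA) (hb : RepB) (hm : MatS) : PoleS := by
  intro ι _ _
  refine ⟨(((Fintype.card ι : ℝ) + 1)⁻¹ / 4) ^ Fintype.card ι * ((Fintype.card ι : ℝ) + 1)⁻¹,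
    by positivity, fun Y _ _ M g t hg => ?_⟩
  classical
  have ha := ha ι Y M
  have hb := hb ι Y M
  obtain ⟨U, u1, u2⟩ := t.finite_toSet.t2_separation
  choose e e1 e2 e3 using ha.center
  have ev : ∀ y, ∀ᶠ ρ in 𝓝[>] (0 : ℝ),
      closedBall 0 (2 * ρ) ⊆ (e y).target ∩ (e y).symm ⁻¹' U y := fun y => by
    obtain ⟨r, hr, hs⟩ := nhds_basis_closedBall.mem_iff.1
      (((e y).isOpen_inter_preimage_symm (u1 y).2).mem_nhds (show (0 : V ι) ∈ _ from
        e3 y ▸ ⟨(e y).map_source (e2 y), by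
          rw [mem_preimage, (e y).left_inv (e2 y)]; exact (u1 y).1⟩))
    filter_upwards [Ioo_mem_nhdsGT (half_pos hr)] with ρ hρ
    exact (closedBall_subset_closedBall (by linarith [hρ.2])).trans hs
  obtain ⟨ρ, hρ, hs⟩ := (eventually_mem_nhdsWithin.and
    ((eventually_all_finset t).2 fun y _ => ev y)).exists
  have hρ : 0 < ρ := hρ
  have b1 : ball (0 : V ι) ρ ⊆ closedBall 0 (2 * ρ) :=
    ball_subset_closedBall.trans (closedBall_subset_closedBall (by linarith))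
  choose! s A h using fun y (hy : y ∈ t) =>
    one ha hb hm hg (e1 y) hρ ((hs y hy).trans inter_subset_left)
  refine ⟨∑ y ∈ t, s y, ∑ y ∈ t, A y, ρ, e, hρ, fun y hy => ⟨e1 y, e2 y, e3 y,
    (closedBall_subset_closedBall (by linarith)).trans ((hs y hy).trans inter_subset_left)⟩,
    fun y hy y' hy' hne => (u2 hy hy' hne).mono ?_ ?_, fun τ hτ => ?_⟩
  · intro x hx
    have := (hs y hy (b1 hx.2)).2
    rwa [mem_preimage, (e y).left_inv hx.1] at this
  · intro x hx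
    have := (hs y' hy' (b1 hx.2)).2
    rwa [mem_preimage, (e y').left_inv hx.1] at this
  choose! v v1 v2 v3 v4 using fun y hy => h y hy τ hτ
  obtain ⟨s1, s2⟩ := sum hb v1 fun y hy x => (v2 y hy x).2
  refine ⟨_, s1, fun x => ⟨Finset.sum_le_sum fun y hy => (v2 y hy x).1, s2 x⟩,
    fun y hy w hw => ?_⟩
  have k : ∀ z ∈ ball (0 : V ι) ρ, ∑ y' ∈ t, v y' ((e y).symm z) = pl τ z := fun z hz => by
    rw [Finset.sum_eq_single_of_mem y hy fun y' hy' hne => v3 y' hy' _ ?_, v4 y hy z hz]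
    rintro ⟨z', hz', q⟩
    exact disjoint_left.1 (u2 hy' hy hne) (q ▸ (hs y' hy' hz').2) (hs y hy (b1 hz)).2
  have hw' := ball_subset_ball hτ.2 hw
  rw [k w hw', levi_congr (f := fn _ _) (g := fun z => (pl τ z : ℂ))
    (mem_of_superset (isOpen_ball.mem_nhds hw') fun z hz => congrArg ofReal (k z hz))]
  refine ⟨?_, psd_pl hm hτ.1 w, det_ge hτ.1 hw⟩
  have := Real.log_le_log (pow_pos hτ.1 2) (le_add_of_nonneg_left (nq_nonneg w))
  rw [Real.log_pow] at this
  unfold pl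
  push_cast at this
  linarith

end

end Pool.Agent.Lib.MP_813db1_ag.AN
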