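import Pool.Agent.Lib.MP_813db1_ag.AN.Fin
import Pool.Agent.Lib.MP_813db1_ag.AN.IntK
import Pool.Agent.Lib.MP_813db1_ag.AN.PoleS
import Pool.Agent.Lib.MP_813db1_ag.AN.FinMat
import Pool.Agent.Lib.MP_813db1_ag.AN.FinFun
import Pool.Agent.Lib.MP_813db1_ag.HS.AYAll

/-! Step 4 without hypotheses. -/

namespace Pool.Agent.Lib.MP_813db1_ag.AN

open Pool.Agent.Lib.MP_813db1_ag.HS Pool.Agent.Lib.MP_813db1_ag.HS.AY

theorem finAll : FinS :=
  finS repA' repB' mat finMat finFun (poleS repA' repB' mat) (intKS repA' repB' mat curvS')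

end Pool.Agent.Lib.MP_813db1_ag.AN
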