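import Pool.Agent.Lib.MP_813db1_ag.AN.Stmt
import Pool.Agent.Lib.MP_813db1_ag.AS.F1
import Pool.Agent.Lib.MP_813db1_ag.HS.RepA
import Pool.Agent.Lib.MP_813db1_ag.HS.Mat

/-! The primitive of the Kaehler form on the covering space. -/

namespace Pool.Agent.Lib.MP_813db1_ag.AN

open Pool.Agent.Lib.MP_813db1_ag.HS Pool.Agent.Lib.MP_813db1_ag.AS
open Complex Matrix Filter Topology Set Metric
open scoped ContDiff

theorem primS : PrimS := by
  intro ι X Y _ _ _ _ _ K MX gX p M g S hA hg hK L ⟨α, h1, h2⟩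
  have ha := repA mat
  have tg : ∀ k, (S.c k).target = (L.e (S.ty k)).target := fun k => (S.tgt k).trans (L.tgt _).symm
  have pr : ∀ k, ∀ w ∈ (S.c k).target, p ((S.c k).symm w) = (L.e (S.ty k)).symm w := fun k w hw =>
    L.pr k w (S.tgt k ▸ hw)
  have pE : ∀ k, ∀ y ∈ (S.c k).source, (L.e (S.ty k)).symm (S.c k y) = p y := fun k y hy => by
    rw [← pr k _ ((S.c k).map_source hy), (S.c k).left_inv hy]
  have src : ∀ y, y ∈ (S.c (S.ch y)).source := fun y => S.ch_eq y ▸ M.mem y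
  have df : ∀ {e e' : Ch ι X} {z}, e ∈ MX.A → e' ∈ MX.A → z ∈ e.target → e.symm z ∈ e'.source →
      DifferentiableAt ℝ (e' ∘ e.symm) z := fun he he' hz hz' =>
    (F1.sm he he' hz hz').differentiableAt (by simp)
  refine ⟨fun y => (α (chartAt (ι → ℂ) (p y)) y).comp (fderiv ℝ (chartAt (ι → ℂ) (p y) ∘
    (L.e (S.ty (S.ch y))).symm) (S.c (S.ch y) y)), F1.prim_loc ha mat fun y _ => ?_⟩
  rw [S.ch_eq y]
  set k := S.ch y
  set c := S.c k
  set E := L.e (S.ty k)
  set e := chartAt (ι → ℂ) (p y)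
  have he : e ∈ atlas (ι → ℂ) X := chart_mem_atlas _ _
  have hE : E ∈ MX.A := L.mem _
  have hz : c y ∈ c.target := c.map_source (src y)
  have hz' : c y ∈ E.target := tg k ▸ hz
  have q : E.symm (c y) = p y := pE k y (src y)
  have hs : E.symm (c y) ∈ e.source := q ▸ mem_chart_source _ _
  have hp : p y ∈ E.source := q ▸ E.map_target hz'
  have q' : E (p y) = c y := by rw [← q, E.right_inv hz']
  have ev : rep1 M (fun y => (α (chartAt (ι → ℂ) (p y)) y).comp (fderiv ℝ (chartAt (ι → ℂ) (p y) ∘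
      (L.e (S.ty (S.ch y))).symm) (S.c (S.ch y) y))) c =ᶠ[𝓝 (c y)] fun w =>
      (α e (c.symm (E (e.symm ((e ∘ E.symm) w))))).comp (fderiv ℝ (e ∘ E.symm) w) := by
    filter_upwards [F1.ev hz' e.open_source hs] with w ⟨w1, w2⟩
    have w3 : w ∈ c.target := tg k ▸ w1
    have w4 : p (c.symm w) = E.symm w := pr k w w3
    have w5 := src (c.symm w)
    have w6 := mem_chart_source (ι → ℂ) (p (c.symm w))
    have w7 := hA (chart_mem_atlas (ι → ℂ) (p (c.symm w)))
    have e1 : chartAt (ι → ℂ) (p (c.symm w)) ∘ E.symm =ᶠ[𝓝 w]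
        (chartAt (ι → ℂ) (p (c.symm w)) ∘ (L.e (S.ty (S.ch (c.symm w)))).symm) ∘
          (S.c (S.ch (c.symm w)) ∘ c.symm) := by
      filter_upwards [F1.ev w3 (S.c (S.ch (c.symm w))).open_source w5] with v ⟨v1, v2⟩
      simp only [Function.comp]
      rw [pE _ _ v2, pr k v v1]
    rw [rep1, Function.comp_apply, e.left_inv w2, E.right_inv w1, S.ch_eq,
      h1 e he _ (chart_mem_atlas _ (p (c.symm w))) _ (w4 ▸ w2) w6,
      ContinuousLinearMap.comp_assoc, ContinuousLinearMap.comp_assoc]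
    congr 1
    refine (fderiv_comp w (df (L.mem _) w7 (tg _ ▸ (S.c _).map_source w5) ?_)
      ((F1.sm (S.mem k) (S.mem _) w3 w5).differentiableAt (by simp))).symm.trans
      (e1.fderiv_eq.symm.trans ((F1.comp_ev _ w1 w2).fderiv_eq.trans ?_))
    · exact (pE _ _ w5).symm ▸ w6
    · rw [w4] at w6 w7 ⊢
      exact fderiv_comp w (df (hA he) w7 (e.map_source w2) ((e.left_inv w2).symm ▸ w6))
        (df hE (hA he) w1 w2)
  have t1 := e.map_source hs
  have t2 : e.symm (e (E.symm (c y))) ∈ E.source := by rwa [e.left_inv hs, q]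
  obtain ⟨a1, a2⟩ := h2 e he _ t1 (fun v => c.symm (E (e.symm v)))
    (ContinuousAt.comp (f := E ∘ e.symm) (c.continuousAt_symm (by
      rwa [Function.comp_apply, e.left_inv hs, E.right_inv hz']))
      (F1.sm (hA he) hE t1 t2).continuousAt) (by
      filter_upwards [F1.ev t1 E.open_source t2] with v ⟨v1, v2⟩
      rw [pr k _ (tg k ▸ E.map_source v2), E.left_inv v2])
  obtain ⟨b1, b2⟩ := F1.d_pull (A := fun v => α e (c.symm (E (e.symm v)))) (φ := e ∘ E.symm) a1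
    (F1.sm hE (hA he) hz' hs)
  refine ⟨b1.congr_of_eventuallyEq ev, fun u v => ?_⟩
  have h5 := (ha ι X MX).repF_tr gX E hE e (hA he) _ hp (q ▸ hs)
  have hd := (ha ι X MX).tj_det E hE e (hA he) _ hp (q ▸ hs)
  have h6 : ∀ u, fderiv ℝ (e ∘ E.symm) (c y) u = tj E e (p y) *ᵥ u := fun u => by
    rw [tj, q', jac_mulVec, (F1.an hE (hA he) hz' hs).differentiableAt.fderiv_restrictScalars ℝ]
    rfl
  rw [q', L.rep _ _ (S.tgt k ▸ hz), hK e he _ (q ▸ t1)] at h5
  rw [ev.fderiv_eq, b2, S.rep_g k _ (S.tgt k ▸ hz), h5, (mat.pull_pd ι _ _ hd).2.2.2.2.2.2, h6, h6,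
    ← q]
  exact a2 _ _

end Pool.Agent.Lib.MP_813db1_ag.AN
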