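import Pool.Agent.Lib.MP_813db1_ag.HS.AYAll
import Pool.Agent.Lib.MP_813db1_ag.HS.BK
import Pool.Agent.Lib.MP_813db1_ag.AS.S2Stmt

/-! Flat integration by parts with a weight: Green, Bochner-Kodaira, energy identity. -/

namespace Pool.Agent.Lib.MP_813db1_ag.AN

open MeasureTheory Complex Matrix Filter Topology Set Metric
open scoped ContDiff ComplexOrder
open HS HS.Div

noncomputable section

namespace Flat

variable {ι : Type} [Fintype ι] [DecidableEq ι] {Φ : V ι → ℝ} {U U' A H' : V ι → V ι}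
  {T F χ : V ι → ℂ} {z : V ι} {O K : Set (V ι)} {H : V ι → Mat ι}

/-- the weight. -/
def ew (Φ : V ι → ℝ) (w : V ι) : ℂ := (Real.exp (-Φ w) : ℝ)

/-- the weighted divergence. -/
def del (Φ : V ι → ℝ) (U : V ι → V ι) (z : V ι) : ℂ :=
  ∑ i, (dz (fun w => U w i) i z - dz (fun w => (Φ w : ℂ)) i z * U z i)

/-- the field of the antiholomorphic derivatives in one direction. -/
def wf (U : V ι → V ι) (i : ι) (w : V ι) : V ι := fun j => dzb (fun y => U y j) i w

/-- the cross term. -/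
def crs (U U' : V ι → V ι) (z : V ι) : ℂ :=
  ∑ i, ∑ j, dzb (fun w => U w i) j z * star (dzb (fun w => U' w j) i z)

/-- the first field. -/
def vA (Φ : V ι → ℝ) (U : V ι → V ι) (T : V ι → ℂ) (w : V ι) : V ι := (ew Φ w * star (T w)) • U w

/-- the second field. -/
def vB (Φ : V ι → ℝ) (U U' : V ι → V ι) (w : V ι) : V ι :=
  ew Φ w • (BK.dm U' w *ᵥ star (U w))

omit [Fintype ι] [DecidableEq ι] in
theorem star_ew (Φ : V ι → ℝ) (w : V ι) : star (ew Φ w) = ew Φ w := conj_ofReal _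

omit [Fintype ι] [DecidableEq ι] in
theorem ew_eq (Φ : V ι → ℝ) : ew Φ = fun w => cexp (-(Φ w : ℂ)) := by
  funext w; simp [ew]

omit [DecidableEq ι] in
theorem cd_ew {n : WithTop ℕ∞} (h : ContDiffAt ℝ n Φ z) : ContDiffAt ℝ n (ew Φ) z :=
  ofRealCLM.contDiff.contDiffAt.comp z h.neg.exp

theorem dz_ew (h : DifferentiableAt ℝ Φ z) (k : ι) :
    dz (ew Φ) k z = -(ew Φ z * dz (fun w => (Φ w : ℂ)) k z) := by
  have e : HasDerivAt (fun c : ℂ => cexp (-c)) (-cexp (-(Φ z : ℂ))) (Φ z : ℂ) := by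
    simpa using (hasDerivAt_neg (Φ z : ℂ)).cexp
  rw [ew_eq, dz_hol_comp (f := fun w => (Φ w : ℂ)) e (differentiableAt_ofReal.2 h) k, neg_mul]

theorem cd_del {m n : WithTop ℕ∞} (hm : m + 1 ≤ n) (hΦ : ContDiffAt ℝ n Φ z)
    (hU : ∀ i, ContDiffAt ℝ n (fun w => U w i) z) : ContDiffAt ℝ m (del Φ U) z :=
  ContDiffAt.sum fun i _ => (contDiffAt_dz (hU i) hm i).sub
    ((contDiffAt_dz (contDiffAt_ofReal.2 hΦ) hm i).mul ((hU i).of_le (le_self_add.trans hm)))

theorem del_congr (h : U =ᶠ[𝓝 z] U') : del Φ U z = del Φ U' z :=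
  Finset.sum_congr rfl fun i _ => by
    rw [dz_congr (h.mono fun _ e => congrFun e i) i, h.self_of_nhds]

theorem del_zero (Φ : V ι → ℝ) (z : V ι) : del Φ (fun _ => 0) z = 0 :=
  Finset.sum_eq_zero fun i _ => by simp [dz_const]

theorem del_smul (hχ : DifferentiableAt ℝ χ z) (hU : ∀ i, DifferentiableAt ℝ (fun w => U w i) z) :
    del Φ (fun w => χ w • U w) z = χ z * del Φ U z + ∑ i, dz χ i z * U z i := by
  simp only [del, Pi.smul_apply, smul_eq_mul, fun i => dz_mul hχ (hU i) i, Finset.mul_sum,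
    ← Finset.sum_add_distrib]
  exact Finset.sum_congr rfl fun i _ => by ring

theorem dv_smul (hχ : DifferentiableAt ℝ χ z) (hA : ∀ i, DifferentiableAt ℝ (fun w => A w i) z) :
    dv (fun w => χ w • A w) z = χ z * dv A z + ∑ i, dz χ i z * A z i := by
  simp only [dv, Pi.smul_apply, smul_eq_mul, fun i => dz_mul hχ (hA i) i, Finset.mul_sum,
    ← Finset.sum_add_distrib]
  exact Finset.sum_congr rfl fun i _ => by ring

/-- the weighted divergence is the divergence of the weighted field. -/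
theorem dv_ew (hΦ : DifferentiableAt ℝ Φ z) (hU : ∀ i, DifferentiableAt ℝ (fun w => U w i) z) :
    dv (fun w => ew Φ w • U w) z = ew Φ z * del Φ U z := by
  have d : DifferentiableAt ℝ (ew Φ) z := ofRealCLM.differentiableAt.comp z hΦ.neg.exp
  rw [dv_smul d hU]
  simp only [dv, del, dz_ew hΦ, Finset.mul_sum, ← Finset.sum_add_distrib]
  exact Finset.sum_congr rfl fun i _ => by ring

/-- Green's formula, pointwise. -/
theorem dv_vA (hΦ : DifferentiableAt ℝ Φ z) (hU : ∀ i, DifferentiableAt ℝ (fun w => U w i) z)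
    (hT : DifferentiableAt ℝ T z) : dv (vA Φ U T) z =
      ew Φ z * (del Φ U z * star (T z) + ∑ i, U z i * star (dzb T i z)) := by
  have e : vA Φ U T = fun w => ew Φ w • (star (T w) • U w) := funext fun w => mul_smul _ _ _
  rw [e, dv_ew (U := fun w => star (T w) • U w) hΦ fun i => hT.star.fun_mul (hU i),
    del_smul hT.star hU]
  simp only [dz_star, mul_comm]

theorem dzb_del (hΦ : ContDiffAt ℝ 2 Φ z) (hU : ∀ i, ContDiffAt ℝ 2 (fun w => U w i) z) (i : ι) :
    dzb (del Φ U) i z =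
      del Φ (wf U i) z - ∑ j, levi (fun w => (Φ w : ℂ)) z j i * U z j := by
  have c := contDiffAt_ofReal.2 hΦ
  have d1 := fun j => differentiableAt_dz (hU j) j
  have d2 := fun j => differentiableAt_dz c j
  have d3 := fun j => (hU j).differentiableAt two_ne_zero
  have e : del Φ U = fun y => ∑ j, (dz (fun w => U w j) j y -
    dz (fun w => (Φ w : ℂ)) j y * U y j) := rfl
  rw [e, dzb_sum _ fun j _ => (d1 j).fun_sub ((d2 j).fun_mul (d3 j)), del,
    ← Finset.sum_sub_distrib]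
  refine Finset.sum_congr rfl fun j _ => ?_
  rw [dzb_sub (d1 j) ((d2 j).fun_mul (d3 j)), dzb_mul (d2 j) (d3 j), ← dz_dzb_comm (hU j),
    ← dz_dzb_comm c, levi_apply]
  simp only [wf]
  ring

theorem vB_eq (Φ : V ι → ℝ) (U U' : V ι → V ι) (w : V ι) (j : ι) :
    vB Φ U U' w j = ∑ i, vA Φ (wf U' i) (fun y => U y i) w j := by
  simp only [vB, vA, wf, BK.dm, Pi.smul_apply, smul_eq_mul, mulVec, dotProduct, of_apply,
    Pi.star_apply, Finset.mul_sum]
  exact Finset.sum_congr rfl fun i _ => by ring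

omit [DecidableEq ι] in
theorem cd_vA {n : WithTop ℕ∞} (hΦ : ContDiffAt ℝ n Φ z)
    (hU : ∀ i, ContDiffAt ℝ n (fun w => U w i) z) (hT : ContDiffAt ℝ n T z) (j : ι) :
    ContDiffAt ℝ n (fun w => vA Φ U T w j) z := ((cd_ew hΦ).mul (Green.cd_star hT)).mul (hU j)

theorem cd_vB {m n : WithTop ℕ∞} (hm : m + 1 ≤ n) (hΦ : ContDiffAt ℝ m Φ z)
    (hU : ∀ i, ContDiffAt ℝ m (fun w => U w i) z) (hU' : ∀ i, ContDiffAt ℝ n (fun w => U' w i) z)
    (j : ι) : ContDiffAt ℝ m (fun w => vB Φ U U' w j) z := by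
  simp only [vB_eq]
  exact ContDiffAt.sum fun i _ => cd_vA hΦ (fun k => contDiffAt_dzb (hU' k) hm i) (hU i) j

theorem dv_vB (hΦ : DifferentiableAt ℝ Φ z) (hU : ∀ i, DifferentiableAt ℝ (fun w => U w i) z)
    (hU' : ∀ i, ContDiffAt ℝ 2 (fun w => U' w i) z) : dv (vB Φ U U') z =
      ew Φ z * (∑ i, del Φ (wf U' i) z * star (U z i) + star (crs U U' z)) := by
  have d : DifferentiableAt ℝ (ew Φ) z := ofRealCLM.differentiableAt.comp z hΦ.neg.exp
  have d1 : ∀ i j, DifferentiableAt ℝ (fun w => wf U' i w j) z := fun i j =>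
    differentiableAt_dzb (hU' j) i
  have e : dv (vB Φ U U') z = ∑ i, dv (vA Φ (wf U' i) fun y => U y i) z := by
    simp only [dv, vB_eq]
    rw [Finset.sum_comm]
    exact Finset.sum_congr rfl fun j _ =>
      dz_sum _ (fun i _ => (d.fun_mul (hU i).star).fun_mul (d1 i j)) j
  rw [e]
  simp only [fun i => dv_vA hΦ (d1 i) (hU i), ← Finset.mul_sum, Finset.sum_add_distrib, crs,
    star_sum, star_mul', star_star, wf, mul_comm]

/-- the Bochner-Kodaira identity, pointwise. -/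
theorem bk_pt (hΦ : ContDiffAt ℝ 2 Φ z) (hU : ∀ i, DifferentiableAt ℝ (fun w => U w i) z)
    (hU' : ∀ i, ContDiffAt ℝ 2 (fun w => U' w i) z) :
    ew Φ z * (del Φ U z * star (del Φ U' z)) =
      ew Φ z * (ipV (levi (fun w => (Φ w : ℂ)) z) (U z) (U' z) + crs U U' z) +
        (dv (vA Φ U (del Φ U')) z - star (dv (vB Φ U U') z)) := by
  have d := hΦ.differentiableAt two_ne_zero
  have hh := levi_herm_ofReal (contDiffAt_ofReal.2 hΦ)
  rw [dv_vA d hU ((cd_del (m := 1) le_rfl hΦ hU').differentiableAt one_ne_zero), dv_vB d hU hU']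
  simp only [dzb_del hΦ hU', star_sub, star_add, star_sum, star_mul', star_star, star_ew,
    hh.apply, ipV, mul_sub, Finset.sum_sub_distrib]
  have e1 : ∑ i, U z i * ∑ j, levi (fun w => (Φ w : ℂ)) z i j * star (U' z j) =
      ∑ i, ∑ j, levi (fun w => (Φ w : ℂ)) z i j * U z i * star (U' z j) :=
    Finset.sum_congr rfl fun i _ => by
      rw [Finset.mul_sum]
      exact Finset.sum_congr rfl fun j _ => by ring
  have e2 : ∑ i, U z i * star (del Φ (wf U' i) z) = ∑ i, star (del Φ (wf U' i) z) * U z i :=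
    Finset.sum_congr rfl fun i _ => mul_comm _ _
  rw [e1, e2]
  ring

/-- the operator `boxG` is the weighted divergence of the dual of `dbar`. -/
theorem box_del (hO : IsOpen O) (hH : KOn H O) (hz : z ∈ O) (hF : ContDiffAt ℝ 2 F z) :
    boxG (fun i w => dz (lg H) i w + dz (fun y => (Φ y : ℂ)) i w) H F z = del Φ (shp H F) z := by
  rw [del, Finset.sum_sub_distrib, Green.div_shp (curvS mat) hO hH hz hF, boxG, sub_sub,
    ← Finset.sum_add_distrib]
  refine congrArg _ (Finset.sum_congr rfl fun i _ => ?_)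
  simp only [shp, Finset.mul_sum, ← Finset.sum_add_distrib]
  exact Finset.sum_congr rfl fun j _ => by ring

theorem crs_shp (hO : IsOpen O) (hH : KOn H O) (hF : ∀ w ∈ O, ContDiffAt ℝ ∞ F w) (hz : z ∈ O) :
    crs (shp H F) (shp H F) z = nD H (shp H F) z := by
  rw [BK.nD_val hO hH hF hz, crs]
  exact Finset.sum_congr rfl fun i _ => Finset.sum_congr rfl fun j _ => mul_comm _ _

theorem crs_smul (hχ : DifferentiableAt ℝ χ z) (hU' : ∀ i, DifferentiableAt ℝ (fun w => U' w i) z) :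
    crs U (fun w => χ w • U' w) z = star (χ z) * crs U U' z +
      ∑ i, star (dzb χ i z) * (BK.dm U z *ᵥ star (U' z)) i := by
  simp only [crs, Pi.smul_apply, smul_eq_mul, fun i j => dzb_mul hχ (hU' j) i, star_add, star_mul',
    BK.dm, mulVec, dotProduct, of_apply, Pi.star_apply, Finset.mul_sum, ← Finset.sum_add_distrib]
  exact Finset.sum_congr rfl fun i _ => Finset.sum_congr rfl fun j _ => by ring

theorem nD_nonneg (h : (H z).PosDef) (U : V ι → V ι) : 0 ≤ nD H U z := by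
  let W : Mat ι := Matrix.of fun l j => star (dzb (fun w => U w j) l z)
  have hB : (W * (H z)ᵀ * Wᴴ).PosSemidef := h.posSemidef.transpose.mul_mul_conjTranspose_same W
  have eB : ∀ l k, (W * (H z)ᵀ * Wᴴ) l k = ∑ i, ∑ j, H z i j * dzb (fun w => U w i) k z *
      star (dzb (fun w => U w j) l z) := by
    intro l k
    simp only [W, mul_apply, transpose_apply, conjTranspose_apply, of_apply, star_star,
      Finset.sum_mul]
    exact Finset.sum_congr rfl fun i _ => Finset.sum_congr rfl fun j _ => by ring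
  have e1 : trm (H z) (W * (H z)ᵀ * Wᴴ) = nD H U z := by
    rw [trm, nD, trace_mul_comm]
    congr 1
    simp only [trace, diag, mul_apply (M := (H z)⁻¹), eB, Finset.mul_sum]
    simp only [mul_assoc]
  exact e1 ▸ mat.trm_nonneg ι _ _ h hB

/-! ### integrals -/

omit [DecidableEq ι] in
theorem intOn {E : Type} [NormedAddCommGroup E] {f : V ι → E} (hO : IsOpen O) (hK : IsCompact K)
    (hs : K ⊆ O) (hf : ∀ z ∈ O, ContinuousAt f z) (h0 : ∀ z ∈ O, z ∉ K → f z = 0) :
    IntegrableOn f O := by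
  have h1 : IntegrableOn f K :=
    ContinuousOn.integrableOn_compact hK fun z hz => (hf z (hs hz)).continuousWithinAt
  exact h1.of_forall_sdiff_eq_zero hO.measurableSet fun z hz => h0 z hz.1 hz.2

omit [Fintype ι] [DecidableEq ι] in
theorem ev0 {E : Type} [Zero E] {f : V ι → E} (hO : IsOpen O) (hK : IsCompact K)
    (h0 : ∀ z ∈ O, z ∉ K → f z = 0) (hz : z ∈ O) (hk : z ∉ K) : f =ᶠ[𝓝 z] fun _ => 0 := by
  filter_upwards [hO.mem_nhds hz, hK.isClosed.isOpen_compl.mem_nhds hk] with w a b using h0 w a b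

theorem cd_dv {m n : WithTop ℕ∞} (hm : m + 1 ≤ n) (hA : ∀ i, ContDiffAt ℝ n (fun w => A w i) z) :
    ContDiffAt ℝ m (dv A) z := ContDiffAt.sum fun i _ => contDiffAt_dz (hA i) hm i

theorem intOn_dv (hO : IsOpen O) (hK : IsCompact K) (hs : K ⊆ O)
    (hA : ∀ z ∈ O, ∀ i, ContDiffAt ℝ 1 (fun w => A w i) z) (h0 : ∀ z ∈ O, z ∉ K → A z = 0) :
    IntegrableOn (dv A) O :=
  intOn hO hK hs (fun z hz => (cd_dv (m := 0) (by norm_num) (hA z hz)).continuousAt)
    fun z hz hk => (dv_congr (ev0 hO hK h0 hz hk)).trans (dv_zero z)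

theorem int_dv' (hO : IsOpen O) (hK : IsCompact K) (hs : K ⊆ O)
    (hA : ∀ z ∈ O, ∀ i, ContDiffAt ℝ 1 (fun w => A w i) z) (h0 : ∀ z ∈ O, z ∉ K → A z = 0) :
    ∫ z in O, dv A z = 0 := int_dv hO hK hs (fun z hz => contDiffAt_pi.2 (hA z hz)) h0

/-- from a pointwise identity to an identity of integrals. -/
theorem int_of_pt {f g : V ι → ℂ} (hO : IsOpen O) (hK : IsCompact K) (hs : K ⊆ O)
    (hA : ∀ z ∈ O, ∀ i, ContDiffAt ℝ 1 (fun w => A w i) z) (h0 : ∀ z ∈ O, z ∉ K → A z = 0)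
    (hg : IntegrableOn g O) (e : ∀ z ∈ O, f z = g z + dv A z) : ∫ z in O, f z = ∫ z in O, g z := by
  rw [setIntegral_congr_fun hO.measurableSet e, integral_add hg (intOn_dv hO hK hs hA h0),
    int_dv' hO hK hs hA h0, add_zero]

/-- integration by parts against a cut-off function. -/
theorem int_chi (hO : IsOpen O) (hK : IsCompact K) (hs : K ⊆ O)
    (hA : ∀ z ∈ O, ∀ i, ContDiffAt ℝ 1 (fun w => A w i) z) (hχ : ∀ z ∈ O, ContDiffAt ℝ 1 χ z)
    (h0 : ∀ z ∈ O, z ∉ K → χ z = 0) :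
    ∫ z in O, χ z * dv A z = -∫ z in O, ∑ i, dz χ i z * A z i := by
  rw [← integral_neg]
  refine int_of_pt (A := fun w => χ w • A w) hO hK hs (fun z hz i => (hχ z hz).mul (hA z hz i))
    (fun z hz hk => by simp [h0 z hz hk]) (intOn hO hK hs (fun z hz => ?_) fun z hz hk => ?_)
    fun z hz => ?_
  · exact (ContDiffAt.sum fun i _ => (contDiffAt_dz (m := 0) (hχ z hz) (by norm_num) i).mul
      ((hA z hz i).of_le zero_le_one)).continuousAt.neg
  · simp [fun i => dz_congr (ev0 hO hK h0 hz hk) i, dz_const]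
  · rw [dv_smul ((hχ z hz).differentiableAt one_ne_zero)
      fun i => (hA z hz i).differentiableAt one_ne_zero]
    ring

/-- Green's formula. -/
theorem greenF (hO : IsOpen O) (hK : IsCompact K) (hs : K ⊆ O)
    (hΦ : ∀ z ∈ O, ContDiffAt ℝ 1 Φ z) (hU : ∀ z ∈ O, ∀ i, ContDiffAt ℝ 1 (fun w => U w i) z)
    (hT : ∀ z ∈ O, ContDiffAt ℝ 1 T z)
    (h0 : (∀ z ∈ O, z ∉ K → T z = 0) ∨ ∀ z ∈ O, z ∉ K → U z = 0) :
    ∫ z in O, ew Φ z * (del Φ U z * star (T z)) =
      -∫ z in O, ew Φ z * ∑ i, U z i * star (dzb T i z) := by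
  rw [← integral_neg]
  refine int_of_pt (A := vA Φ U T) hO hK hs (fun z hz => cd_vA (hΦ z hz) (hU z hz) (hT z hz))
    (fun z hz hk => ?_) (intOn hO hK hs (fun z hz => ?_) fun z hz hk => ?_) fun z hz => ?_
  · rcases h0 with h | h <;> simp [vA, h z hz hk]
  · exact ((cd_ew ((hΦ z hz).of_le zero_le_one)).mul (ContDiffAt.sum fun i _ =>
      ((hU z hz i).of_le zero_le_one).mul (Green.cd_star
        (contDiffAt_dzb (m := 0) (hT z hz) (by norm_num) i)))).continuousAt.neg
  · rcases h0 with h | h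
    · simp [fun i => dzb_congr (ev0 hO hK h hz hk) i, dzb_const]
    · simp [h z hz hk]
  · rw [dv_vA ((hΦ z hz).differentiableAt one_ne_zero)
      (fun i => (hU z hz i).differentiableAt one_ne_zero) ((hT z hz).differentiableAt one_ne_zero)]
    ring

theorem crs_zero (h : (U =ᶠ[𝓝 z] fun _ => 0) ∨ U' =ᶠ[𝓝 z] fun _ => 0) : crs U U' z = 0 := by
  rcases h with h | h
  · simp [crs, fun i j => dzb_congr (f := fun w => U w i) (g := fun _ => 0)
      (h.mono fun _ e => congrFun e i) j, dzb_const]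
  · simp [crs, fun i j => dzb_congr (f := fun w => U' w i) (g := fun _ => 0)
      (h.mono fun _ e => congrFun e i) j, dzb_const]

theorem cd_crs {m n : WithTop ℕ∞} (hm : m + 1 ≤ n) (hU : ∀ i, ContDiffAt ℝ n (fun w => U w i) z)
    (hU' : ∀ i, ContDiffAt ℝ n (fun w => U' w i) z) : ContDiffAt ℝ m (crs U U') z :=
  ContDiffAt.sum fun i _ => ContDiffAt.sum fun j _ =>
    (contDiffAt_dzb (hU i) hm j).mul (Green.cd_star (contDiffAt_dzb (hU' j) hm i))

/-- the flat Bochner-Kodaira identity. -/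
theorem bkF (hO : IsOpen O) (hK : IsCompact K) (hs : K ⊆ O)
    (hΦ : ∀ z ∈ O, ContDiffAt ℝ 2 Φ z) (hU : ∀ z ∈ O, ∀ i, ContDiffAt ℝ 1 (fun w => U w i) z)
    (hU' : ∀ z ∈ O, ∀ i, ContDiffAt ℝ 2 (fun w => U' w i) z)
    (h0 : (∀ z ∈ O, z ∉ K → U z = 0) ∨ ∀ z ∈ O, z ∉ K → U' z = 0) :
    ∫ z in O, ew Φ z * (del Φ U z * star (del Φ U' z)) =
      ∫ z in O, ew Φ z * (ipV (levi (fun w => (Φ w : ℂ)) z) (U z) (U' z) + crs U U' z) := by
  have h1 : ∀ z ∈ O, ContDiffAt ℝ 1 Φ z := fun z hz => (hΦ z hz).of_le one_le_two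
  have ev : ∀ z ∈ O, z ∉ K → (U =ᶠ[𝓝 z] fun _ => 0) ∨ U' =ᶠ[𝓝 z] fun _ => 0 := fun z hz hk =>
    h0.imp (fun h => ev0 hO hK h hz hk) fun h => ev0 hO hK h hz hk
  have cA : ∀ z ∈ O, ∀ i, ContDiffAt ℝ 1 (fun w => vA Φ U (del Φ U') w i) z := fun z hz =>
    cd_vA (h1 z hz) (hU z hz) (cd_del le_rfl (hΦ z hz) (hU' z hz))
  have cB : ∀ z ∈ O, ∀ i, ContDiffAt ℝ 1 (fun w => vB Φ U U' w i) z := fun z hz =>
    cd_vB le_rfl (h1 z hz) (hU z hz) (hU' z hz)
  have zA : ∀ z ∈ O, z ∉ K → vA Φ U (del Φ U') z = 0 := fun z hz hk => by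
    rcases ev z hz hk with h | h
    · simp [vA, h.self_of_nhds]
    · simp [vA, del_congr h, del_zero]
  have zB : ∀ z ∈ O, z ∉ K → vB Φ U U' z = 0 := fun z hz hk => by
    rcases ev z hz hk with h | h
    · simp [vB, h.self_of_nhds]
    · funext j
      simp [vB, BK.dm, mulVec, dotProduct, fun i => dzb_congr (f := fun w => U' w j)
        (g := fun _ => 0) (h.mono fun _ e => congrFun e j) i, dzb_const]
  have ig : IntegrableOn (fun z => ew Φ z *
      (ipV (levi (fun w => (Φ w : ℂ)) z) (U z) (U' z) + crs U U' z)) O := by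
    refine intOn hO hK hs (fun z hz => ?_) fun z hz hk => ?_
    · exact ((cd_ew ((hΦ z hz).of_le (by norm_num))).mul ((Green.cd_ipV
        (fun i j => contDiffAt_levi (contDiffAt_ofReal.2 (hΦ z hz)) (by norm_num) i j)
        (fun i => (hU z hz i).of_le zero_le_one) fun i => (hU' z hz i).of_le (by norm_num)).add
        (cd_crs (n := 1) (by norm_num) (hU z hz)
          fun i => (hU' z hz i).of_le one_le_two))).continuousAt
    · rw [crs_zero (ev z hz hk)]
      rcases h0 with h | h <;> simp [ipV, h z hz hk]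
  have iB : IntegrableOn (fun z => star (dv (vB Φ U U') z)) O :=
    conjCLE.toContinuousLinearMap.integrable_comp (intOn_dv hO hK hs cB zB)
  have jB : ∫ z in O, star (dv (vB Φ U U') z) = 0 := by
    have := integral_conj (μ := volume.restrict O) (f := dv (vB Φ U U'))
    rw [int_dv' hO hK hs cB zB, map_zero] at this
    exact this
  rw [int_of_pt hO hK hs cA zA (ig.sub iB) fun z hz => (bk_pt (hΦ z hz)
    (fun i => (hU z hz i).differentiableAt one_ne_zero) (hU' z hz)).trans (by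
      simp only [Pi.sub_apply]; ring)]
  simp only [Pi.sub_apply]
  rw [integral_sub ig iB, jB, sub_zero]

/-- the energy identity. -/
theorem energy (hO : IsOpen O) (hK : IsCompact K) (hs : K ⊆ O)
    (hΦ : ∀ z ∈ O, ContDiffAt ℝ 2 Φ z) (hF : ∀ z ∈ O, ContDiffAt ℝ 2 F z)
    (h0 : ∀ z ∈ O, z ∉ K → F z = 0) (i : ι) :
    ∫ z in O, Real.exp (-Φ z) * ‖dz F i z - dz (fun w => (Φ w : ℂ)) i z * F z‖ ^ 2 =
      ∫ z in O, Real.exp (-Φ z) *
        ((levi (fun w => (Φ w : ℂ)) z i i).re * ‖F z‖ ^ 2 + ‖dzb F i z‖ ^ 2) := by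
  have e : ∀ j, (fun w => (Pi.single i (F w) : V ι) j) = if j = i then F else fun _ => 0 :=
    fun j => funext fun w => by
      rw [Pi.single_apply]
      split_ifs <;> rfl
  have c : ∀ z ∈ O, ∀ j, ContDiffAt ℝ 2 (fun w => (Pi.single i (F w) : V ι) j) z := fun z hz j => by
    rw [e]
    split_ifs
    · exact hF z hz
    · exact contDiffAt_const
  have e1 : ∀ z, del Φ (fun w => Pi.single i (F w)) z =
      dz F i z - dz (fun w => (Φ w : ℂ)) i z * F z := fun z => by
    rw [del, Finset.sum_eq_single i (fun j _ hj => by simp [hj, dz_const]) (by simp)]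
    simp
  have e2 : ∀ z, crs (fun w => Pi.single i (F w)) (fun w => Pi.single i (F w)) z =
      dzb F i z * star (dzb F i z) := fun z => by
    rw [crs, Finset.sum_eq_single i (fun j _ hj => by simp [hj, dzb_const]) (by simp),
      Finset.sum_eq_single i (fun j _ hj => by simp [hj, dzb_const]) (by simp)]
    simp
  have e3 : ∀ (B : Mat ι) (a : ℂ), ipV B (Pi.single i a) (Pi.single i a) = B i i * (a * star a) :=
    fun B a => by
      rw [ipV, Finset.sum_eq_single i (fun j _ hj => by simp [hj]) (by simp),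
        Finset.sum_eq_single i (fun j _ hj => by simp [hj]) (by simp)]
      simp [mul_assoc]
  have k := bkF (U := fun w => Pi.single i (F w)) hO hK hs hΦ
    (fun z hz j => (c z hz j).of_le one_le_two) c (Or.inl fun z hz hk => by simp [h0 z hz hk])
  simp only [e1, e2, e3, ← Green.nsq] at k
  apply ofReal_injective
  rw [← integral_complex_ofReal, ← integral_complex_ofReal]
  refine (setIntegral_congr_fun hO.measurableSet fun z _ => ?_).trans
    (k.trans (setIntegral_congr_fun hO.measurableSet fun z hz => ?_))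
  · simp [ew]
  · have hr : (((levi (fun w => (Φ w : ℂ)) z i i).re : ℝ) : ℂ) = levi (fun w => (Φ w : ℂ)) z i i :=
      conj_eq_iff_re.1 ((levi_herm_ofReal (contDiffAt_ofReal.2 (hΦ z hz))).apply i i)
    rw [← hr]
    simp [ew]

/-- the identity for the dual of `dbar F`, pointwise: all terms are covariant. -/
theorem bk_shp (hO : IsOpen O) (hH : KOn H O) (hF : ∀ w ∈ O, ContDiffAt ℝ ∞ F w) (hz : z ∈ O)
    (hΦ : ContDiffAt ℝ 2 Φ z) :
    ew Φ z * ((‖del Φ (shp H F) z‖ ^ 2 : ℝ) : ℂ) =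
      ew Φ z * (ipV (levi (fun w => (Φ w : ℂ)) z) (shp H F z) (shp H F z) + nD H (shp H F) z) +
        (dv (vA Φ (shp H F) (del Φ (shp H F))) z - star (dv (vB Φ (shp H F) (shp H F)) z)) := by
  rw [Green.nsq, bk_pt hΦ (fun i => (BK.cd_U hH hF hz i).differentiableAt two_ne_zero)
    (BK.cd_U hH hF hz), crs_shp hO hH hF hz]

/-- the localised Bochner-Kodaira identity. -/
theorem bk_chi (hO : IsOpen O) (hK : IsCompact K) (hs : K ⊆ O) (hH : KOn H O)
    (hF : ∀ w ∈ O, ContDiffAt ℝ ∞ F w) (hΦ : ∀ z ∈ O, ContDiffAt ℝ 2 Φ z) {c : V ι → ℝ}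
    (hc : ∀ z ∈ O, ContDiffAt ℝ 1 c z) (h0 : ∀ z ∈ O, z ∉ K → c z = 0) :
    ∫ z in O, c z * (Real.exp (-Φ z) * ‖del Φ (shp H F) z‖ ^ 2) =
      (∫ z in O, c z * (Real.exp (-Φ z) *
        (nV (levi (fun w => (Φ w : ℂ)) z) (shp H F z) + nD H (shp H F) z))) -
      ∫ z in O, (∑ i, dz (fun w => (c w : ℂ)) i z * (vA Φ (shp H F) (del Φ (shp H F)) z i -
        vB Φ (shp H F) (shp H F) z i)).re := by
  have h1 : ∀ z ∈ O, ContDiffAt ℝ 1 Φ z := fun z hz => (hΦ z hz).of_le one_le_two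
  have cU := fun z (hz : z ∈ O) => BK.cd_U hH hF hz
  let W : V ι → V ι := fun w => vA Φ (shp H F) (del Φ (shp H F)) w - vB Φ (shp H F) (shp H F) w
  have cA : ∀ z ∈ O, ∀ i, ContDiffAt ℝ 1 (fun w => vA Φ (shp H F) (del Φ (shp H F)) w i) z :=
    fun z hz => cd_vA (h1 z hz) (fun i => (cU z hz i).of_le one_le_two)
      (cd_del le_rfl (hΦ z hz) (cU z hz))
  have cB : ∀ z ∈ O, ∀ i, ContDiffAt ℝ 1 (fun w => vB Φ (shp H F) (shp H F) w i) z := fun z hz =>
    cd_vB le_rfl (h1 z hz) (fun i => (cU z hz i).of_le one_le_two) (cU z hz)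
  have cW : ∀ z ∈ O, ∀ i, ContDiffAt ℝ 1 (fun w => W w i) z := fun z hz i =>
    (cA z hz i).sub (cB z hz i)
  have cc : ∀ z ∈ O, ContDiffAt ℝ 1 (fun w => (c w : ℂ)) z := fun z hz =>
    contDiffAt_ofReal.2 (hc z hz)
  have c0 : ∀ z ∈ O, z ∉ K → (c z : ℂ) = 0 := fun z hz hk => by rw [h0 z hz hk, ofReal_zero]
  have dW : ∀ z ∈ O, dv W z = dv (vA Φ (shp H F) (del Φ (shp H F))) z -
      dv (vB Φ (shp H F) (shp H F)) z := fun z hz => by
    rw [dv, dv, dv, ← Finset.sum_sub_distrib]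
    exact Finset.sum_congr rfl fun i _ => dz_sub ((cA z hz i).differentiableAt one_ne_zero)
      ((cB z hz i).differentiableAt one_ne_zero) i
  have i1 : IntegrableOn (fun z => (c z : ℂ) * dv W z) O :=
    intOn hO hK hs (fun z hz => (cc z hz).continuousAt.mul
      (cd_dv (m := 0) (by norm_num) (cW z hz)).continuousAt) fun z hz hk => by
        rw [c0 z hz hk, zero_mul]
  have i2 : IntegrableOn (fun z => ∑ i, dz (fun w => (c w : ℂ)) i z * W z i) O :=
    intOn hO hK hs (fun z hz => (ContDiffAt.sum fun i _ => (contDiffAt_dz (m := 0) (cc z hz)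
      (by norm_num) i).mul ((cW z hz i).of_le zero_le_one)).continuousAt) fun z hz hk => by
        simp [fun i => dz_congr (ev0 hO hK c0 hz hk) i, dz_const]
  have i3 : IntegrableOn (fun z => c z * (Real.exp (-Φ z) *
      (nV (levi (fun w => (Φ w : ℂ)) z) (shp H F z) + nD H (shp H F) z))) O := by
    refine intOn hO hK hs (fun z hz => (hc z hz).continuousAt.mul
      ((h1 z hz).continuousAt.neg.rexp.mul (ContinuousAt.add ?_ ?_))) fun z hz hk => by
        rw [h0 z hz hk, zero_mul]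
    · exact continuous_re.continuousAt.comp (Green.cd_ipV
        (fun i j => contDiffAt_levi (contDiffAt_ofReal.2 (hΦ z hz)) (by norm_num) i j)
        (fun i => (cU z hz i).of_le (by norm_num))
        fun i => (cU z hz i).of_le (by norm_num)).continuousAt
    · exact Green.cont_nD ((hH.1.1.cd hz).of_le (by simp)) (Green.det_ne (hH.2 z hz))
        fun i => (cU z hz i).of_le one_le_two
  have k := congrArg re (int_chi hO hK hs cW cc c0)
  rw [neg_re] at k
  have r1 := (integral_re (𝕜 := ℂ) i1).trans k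
  have r2 := integral_re (𝕜 := ℂ) i2
  simp only [RCLike.re_to_complex] at r1 r2
  change _ = _ - ∫ z in O, (∑ i, dz (fun w => (c w : ℂ)) i z * W z i).re
  have i4 : IntegrableOn (fun z => ((c z : ℂ) * dv W z).re) O := i1.re
  rw [r2, sub_eq_add_neg, ← r1, ← integral_add i3 i4]
  refine setIntegral_congr_fun hO.measurableSet fun z hz => ?_
  have q := congrArg re (bk_shp hO hH hF hz (hΦ z hz))
  simp only [ew, re_ofReal_mul, add_re, sub_re, ofReal_re, RCLike.star_def, conj_re] at q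
  simp only [re_ofReal_mul, dW z hz, sub_re, nV]
  rw [q]
  ring

end Flat

end

end Pool.Agent.Lib.MP_813db1_ag.AN
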