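import Pool.Agent.Lib.MP_813db1_ag.AN.Defs

/-! Statements of the steps. -/

namespace Pool.Agent.Lib.MP_813db1_ag.AN

open Pool.Agent.Lib.MP_813db1_ag.HS Pool.Agent.Lib.MP_813db1_ag.AS
open MeasureTheory Complex Matrix Filter Topology Set Metric
open scoped ContDiff ComplexOrder ENNReal Manifold

/-! ### local and abstract statements -/

/-- parametrices from a compact manifold. -/
def ResS : Prop := ∀ (ι X : Type) [Fintype ι] [DecidableEq ι] [TopologicalSpace X] [T2Space X]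
  [CompactSpace X] (M : Atl ι X) (g : X → Mat ι) (e : Ch ι X) (H : V ι → Mat ι), M.IsK g →
  e ∈ M.A → e.target = ball 0 4 → (∀ z ∈ ball (0 : V ι) 4, M.repF g e z = H z) → ParL H

/-! ### the construction of the sheets -/

/-- the sheets of a covering space. -/
def StS : Prop := ∀ (ι X Y G : Type) [Fintype ι] [DecidableEq ι] [TopologicalSpace X] [T2Space X]
  [CompactSpace X] [TopologicalSpace Y] [ConnectedSpace Y] [Group G] [MulAction G Y]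
  (MX : Atl ι X) (gX : X → Mat ι) (p : Y → X), MX.IsK gX → IsQuotientCoveringMap p G →
  T2Space Y ∧ ∃ (M : Atl ι Y) (g : Y → Mat ι) (S : St M g), Nonempty (Lk MX gX p S)

/-- the primitive of the Kaehler form on the covering space. -/
def PrimS : Prop := ∀ (ι X Y : Type) [Fintype ι] [DecidableEq ι] [TopologicalSpace X]
  [ChartedSpace (ι → ℂ) X] [TopologicalSpace Y] (K : Kahler ι X) (MX : Atl ι X) (gX : X → Mat ι)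
  (p : Y → X) (M : Atl ι Y) (g : Y → Mat ι) (S : St M g), atlas (ι → ℂ) X ⊆ MX.A → MX.IsK gX →
  (∀ e ∈ atlas (ι → ℂ) X, ∀ z ∈ e.target, MX.repF gX e z = K.g e z) → Lk MX gX p S →
  Exact K p → ∃ a, Prim M g a univ

/-- the volume measure. -/
def VolY : Prop := ∀ (ι Y : Type) [Fintype ι] [DecidableEq ι] [TopologicalSpace Y]
  [MeasurableSpace Y] [BorelSpace Y] (M : Atl ι Y) (g : Y → Mat ι), St M g → ∃ ν, M.IsVol g ν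

/-- the full structure. -/
def ShS : Prop := ∀ (ι Y : Type) [Fintype ι] [DecidableEq ι] [TopologicalSpace Y]
  [MeasurableSpace Y] (M : Atl ι Y) (g : Y → Mat ι) (ν : Measure Y) (S : St M g) (a : Y → Cv ι),
  M.IsVol g ν → Prim M g a univ → (∀ b, ParL (S.H b)) → ∃ S' : Sh M g ν, S'.toSt = S

/-! ### statements about one family of sheets -/

namespace Sh

variable {ι Y : Type} [Fintype ι] [DecidableEq ι] [TopologicalSpace Y] [MeasurableSpace Y]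
  {M : Atl ι Y} {g : Y → Mat ι} {ν : Measure Y} (S : Sh M g ν)

/-- integration, bounds, partitions of unity. -/
structure BasA : Prop where
  fin : IsFiniteMeasureOnCompacts ν
  pos : ν.IsOpenPosMeasure
  cpt : ∀ k, ∀ r < (4 : ℝ), IsCompact (S.B k r)
  ms : ∀ k (A : Set (V ι)), MeasurableSet A → MeasurableSet ((S.c k).source ∩ S.c k ⁻¹' A)
  lint : ∀ k (A : Set (V ι)), MeasurableSet A → A ⊆ ball 0 4 → ∀ F : Y → ℝ≥0∞,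
    ∫⁻ y in (S.c k).source ∩ S.c k ⁻¹' A, F y ∂ν =
      ∫⁻ z in A, ENNReal.ofReal (S.H (S.ty k) z).det.re * F ((S.c k).symm z)
  int : ∀ k (A : Set (V ι)), MeasurableSet A → A ⊆ ball 0 4 → ∀ F : Y → ℂ,
    ∫ y in (S.c k).source ∩ S.c k ⁻¹' A, F y ∂ν =
      ∫ z in A, ((S.H (S.ty k) z).det.re : ℂ) * F ((S.c k).symm z)
  intR : ∀ k (A : Set (V ι)), MeasurableSet A → A ⊆ ball 0 4 → ∀ F : Y → ℝ,
    ∫ y in (S.c k).source ∩ S.c k ⁻¹' A, F y ∂ν =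
      ∫ z in A, (S.H (S.ty k) z).det.re * F ((S.c k).symm z)
  bd : ∀ r < (4 : ℝ), ∃ L ≥ (1 : ℝ), ∀ a, ∀ z : V ι, ‖z‖ ≤ r → Bd L (S.H a z) ∧ Bd L (S.H a z)⁻¹ ∧
    Bd L (ric (S.H a) z) ∧ |S.ρ a z| ≤ L ∧ L⁻¹ ≤ (S.H a z).det.re ∧ (S.H a z).det.re ≤ L
  det : ∀ y, (g y).PosDef ∧ 0 < (g y).det.re ∧ g y = S.H (S.ty (S.ch y)) (S.c (S.ch y) y)
  ov : ∀ (F : Y → ℝ) (T : Finset S.κ) (A : S.κ → Set Y), Integrable F ν → (∀ y, 0 ≤ F y) →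
    (∀ k, MeasurableSet (A k) ∧ A k ⊆ (S.c k).source) →
    ∑ k ∈ T, ∫ y in A k, F y ∂ν ≤ S.n * ∫ y, F y ∂ν
  card : ∀ (T : Finset S.κ) y, (∀ k ∈ T, y ∈ (S.c k).source) → T.card ≤ S.n
  exh : ∃ K : ℕ → Finset S.κ, Monotone K ∧ ∀ k, ∃ j, k ∈ K j
  extR : ∀ k, ∀ r < (4 : ℝ), ∀ u : V ι → ℝ, ContDiff ℝ ∞ u → (∀ z, r < ‖z‖ → u z = 0) →
    M.Ck ∞ (S.extR k u) ∧ HasCompactSupport (S.extR k u) ∧ tsupport (S.extR k u) ⊆ S.B k r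
  pou : ∃ χ : S.κ → Y → ℝ, (∀ k, M.Ck ∞ (χ k) ∧ ∀ y, 0 ≤ χ k y ∧ (χ k y ≠ 0 → y ∈ S.B k 2)) ∧
    ∀ (T : Finset S.κ) y, (∀ k, y ∈ S.B k 2 → k ∈ T) → ∑ k ∈ T, χ k y = 1

/-- sections read in the sheets. -/
structure BasB : Prop where
  tr : ∀ t σ k l y, y ∈ (S.c k).source → y ∈ (S.c l).source → S.rep t σ k (S.c k y) =
    (tj (S.c k) (S.c l) y).det * cexp (t * (S.f k (S.c k y) - S.f l (S.c l y))) *
      S.rep t σ l (S.c l y)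
  self : ∀ t σ y, S.rep t σ (S.ch y) (S.c (S.ch y) y) =
    σ y * cexp (t * S.f (S.ch y) (S.c (S.ch y) y))
  zero : ∀ t σ k, ∀ y ∈ (S.c k).source, S.rep t σ k (S.c k y) = 0 ↔ σ y = 0
  ip : ∀ t σ τ k, ∀ y ∈ (S.c k).source, ((S.H (S.ty k) (S.c k y)).det.re : ℂ) * ip0 g σ τ y =
    S.rep t σ k (S.c k y) * star (S.rep t τ k (S.c k y)) *
      (Real.exp (-(t * S.ρ (S.ty k) (S.c k y))) : ℝ)
  dn : ∀ t σ k, ∀ y ∈ (S.c k).source, (S.H (S.ty k) (S.c k y)).det.re * dn g σ y =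
    ‖S.rep t σ k (S.c k y)‖ ^ 2 * Real.exp (-(t * S.ρ (S.ty k) (S.c k y)))
  sm : ∀ t σ, M.CkS ∞ 1 σ → ∀ k, ∀ z ∈ ball (0 : V ι) 4, ContDiffAt ℝ ∞ (S.rep t σ k) z
  sm_loc : ∀ t σ, (∀ y, ∃ k, y ∈ (S.c k).source ∧ ContDiffAt ℝ ∞ (S.rep t σ k) (S.c k y)) →
    M.CkS ∞ 1 σ
  hol_loc : ∀ t σ, (∀ y, ∃ k, y ∈ (S.c k).source ∧ DifferentiableAt ℂ (S.rep t σ k) (S.c k y)) →
    S.Hol t σ
  hol_an : ∀ t σ, S.Hol t σ → M.CkS ∞ 1 σ ∧ ∀ k, AnalyticOnNhd ℂ (S.rep t σ k) (ball 0 4)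
  glue : ∀ (t : ℝ) (F : S.κ → V ι → ℂ), (∀ k l y, y ∈ (S.c k).source → y ∈ (S.c l).source →
    F k (S.c k y) = (tj (S.c k) (S.c l) y).det *
      cexp (t * (S.f k (S.c k y) - S.f l (S.c l y))) * F l (S.c l y)) →
    ∃ σ, ∀ k, ∀ z ∈ ball (0 : V ι) 4, S.rep t σ k z = F k z
  lin : ∀ t (a b : ℂ) σ τ k z,
    S.rep t (fun y => a * σ y + b * τ y) k z = a * S.rep t σ k z + b * S.rep t τ k z
  mul : ∀ t (u : Y → ℂ) σ k z, S.rep t (fun y => u y * σ y) k z = u ((S.c k).symm z) * S.rep t σ k z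
  sum : ∀ t (J : Type) (T : Finset J) (σ : J → Y → ℂ) k z,
    S.rep t (fun y => ∑ j ∈ T, σ j y) k z = ∑ j ∈ T, S.rep t (σ j) k z
  ck_lin : ∀ (a b : ℂ) σ τ, M.CkS ∞ 1 σ → M.CkS ∞ 1 τ → M.CkS ∞ 1 fun y => a * σ y + b * τ y
  dc_lin : ∀ (a b : ℂ) σ τ, Dc M σ → Dc M τ → Dc M fun y => a * σ y + b * τ y
  dc_sum : ∀ (J : Type) (T : Finset J) (σ : J → Y → ℂ), (∀ j ∈ T, Dc M (σ j)) →
    Dc M fun y => ∑ j ∈ T, σ j y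
  cont : ∀ σ τ, M.CkS ∞ 1 σ → M.CkS ∞ 1 τ → Continuous (ip0 g σ τ)
  ck : ∀ σ, M.CkS ∞ 1 σ → M.Ck ∞ (AN.dn g σ) ∧ Continuous (AN.dn g σ)
  ext : ∀ t k, ∀ r < (4 : ℝ), ∀ w, Tf r w → Dc M (S.ext t k w) ∧
    (∀ z ∈ ball (0 : V ι) 4, S.rep t (S.ext t k w) k z = w z) ∧
    (∀ y, S.ext t k w y ≠ 0 → y ∈ (S.c k).source ∧ w (S.c k y) ≠ 0) ∧
    tsupport (S.ext t k w) ⊆ S.B k r
  cut : ∀ t σ k, ∀ r < (4 : ℝ), M.CkS ∞ 1 σ → (∀ y, σ y ≠ 0 → y ∈ S.B k r) →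
    Tf r ((ball (0 : V ι) 4).indicator (S.rep t σ k))

/-- the differential operators. -/
structure BasC : Prop where
  box : ∀ t ψ σ, M.Ck ∞ ψ → M.CkS ∞ 1 σ → ∀ k, ∀ z ∈ ball (0 : V ι) 4,
    S.rep t (S.box t ψ σ) k z = bx (S.Φ t ψ k) (S.H (S.ty k)) (S.rep t σ k) z
  shp : ∀ t σ, M.CkS ∞ 1 σ → ∀ k l y, y ∈ (S.c k).source → y ∈ (S.c l).source →
    tj (S.c k) (S.c l) y *ᵥ shp (S.H (S.ty k)) (S.rep t σ k) (S.c k y) =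
      ((tj (S.c k) (S.c l) y).det * cexp (t * (S.f k (S.c k y) - S.f l (S.c l y)))) •
        shp (S.H (S.ty l)) (S.rep t σ l) (S.c l y)
  ip1 : ∀ t B σ τ, M.CkS ∞ 1 σ → M.CkS ∞ 1 τ → ∀ k, ∀ y ∈ (S.c k).source,
    ((S.H (S.ty k) (S.c k y)).det.re : ℂ) * S.ip1 t B σ τ y =
      ipV (M.repF B (S.c k) (S.c k y)) (HS.shp (S.H (S.ty k)) (S.rep t σ k) (S.c k y))
        (HS.shp (S.H (S.ty k)) (S.rep t τ k) (S.c k y)) *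
          (Real.exp (-(t * S.ρ (S.ty k) (S.c k y))) : ℝ)
  cont : ∀ t B σ τ, M.SmF B → M.CkS ∞ 1 σ → M.CkS ∞ 1 τ → Continuous (S.ip1 t B σ τ)
  nn : ∀ t B σ y, (B y).PosSemidef → 0 ≤ (S.ip1 t B σ σ y).re
  off : ∀ t ψ σ y, (∀ᶠ x in 𝓝 y, σ x = 0) → S.box t ψ σ y = 0 ∧ S.U t σ y = 0
  dc : ∀ t ψ σ, M.Ck ∞ ψ → Dc M σ → Dc M (S.box t ψ σ)
  lin : ∀ t ψ (a b : ℂ) σ τ y, M.CkS ∞ 1 σ → M.CkS ∞ 1 τ →
    S.box t ψ (fun x => a * σ x + b * τ x) y = a * S.box t ψ σ y + b * S.box t ψ τ y ∧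
    S.U t (fun x => a * σ x + b * τ x) y = a • S.U t σ y + b • S.U t τ y
  levi : ∀ (t : ℝ) ψ, M.Ck ∞ ψ → ∀ k, ∀ z ∈ ball (0 : V ι) 4, ContDiffAt ℝ ∞ (S.Φ t ψ k) z ∧
    levi (fun w => (S.Φ t ψ k w : ℂ)) z = (t : ℂ) • S.H (S.ty k) z + levi (fn ψ (S.c k)) z ∧
    levi (fun w => (S.Φ t ψ k w : ℂ)) z = M.repF (fun y => (t : ℂ) • g y + M.ddc ψ y) (S.c k) z
  psd : ∀ B k, ∀ y ∈ (S.c k).source, (M.repF B (S.c k) (S.c k y)).PosSemidef ↔ (B y).PosSemidef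

/-- mean value inequalities. -/
structure BasD : Prop where
  mv : ∀ t, ∃ C ≥ (0 : ℝ), ∀ σ k (z : V ι) (τ : ℝ), 0 < τ → τ ≤ 1 / 2 → ‖z‖ ≤ 3 →
    AnalyticOnNhd ℂ (S.rep t σ k) (closedBall z τ) →
    dn g σ ((S.c k).symm z) * τ ^ (2 * Fintype.card ι) ≤
      C * ∫ y in (S.c k).source ∩ S.c k ⁻¹' closedBall z τ, dn g σ y ∂ν
  dec : ∀ t σ, S.H2 t σ → ∀ ε > (0 : ℝ), IsCompact {y | ε ≤ dn g σ y}
  h2 : ∀ t (J : Type) (T : Finset J) (d : J → ℂ) (σ : J → Y → ℂ), (∀ j ∈ T, S.H2 t (σ j)) →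
    S.H2 t fun y => ∑ j ∈ T, d j * σ j y

/-- the divergence theorem. -/
def Dv : Prop := ∀ (W : S.κ → V ι → V ι) (d : Y → ℂ) (K : Set Y), IsCompact K →
  (∀ k, ∀ z ∈ ball (0 : V ι) 4, ContDiffAt ℝ 1 (W k) z) →
  (∀ k l y, y ∈ (S.c k).source → y ∈ (S.c l).source → tj (S.c k) (S.c l) y *ᵥ W k (S.c k y) =
    ((‖(tj (S.c k) (S.c l) y).det‖ ^ 2 : ℝ) : ℂ) • W l (S.c l y)) →
  (∀ k, ∀ y ∈ (S.c k).source, y ∉ K → W k (S.c k y) = 0) →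
  (∀ y, ∑ i, dz (fun w => W (S.ch y) w i) i (S.c (S.ch y) y) = ((g y).det.re : ℂ) * d y) →
  Continuous d ∧ (∀ y ∉ K, d y = 0) ∧ ∫ y, d y ∂ν = 0

/-- the formula of Green. -/
def Grn : Prop := ∀ t ψ σ τ, M.Ck ∞ ψ → Dc M σ → Dc M τ →
  p0 g ν ψ (S.box t ψ σ) τ = -S.p1 t ψ σ τ

/-- the inequality of Bochner and Kodaira. -/
def Bk : Prop := ∀ (t c : ℝ) ψ σ, M.Ck ∞ ψ → Dc M σ →
  (∀ y, (((t - c : ℝ) : ℂ) • g y + M.ddc ψ y).PosSemidef) →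
  c * S.p1 t ψ σ σ ≤ p0 g ν ψ (S.box t ψ σ) (S.box t ψ σ)

/-- the global parametrix. -/
def Den : Prop := ∀ t ψ, M.Ck ∞ ψ → HasCompactSupport ψ → ∃ lam > (0 : ℝ), ∀ u, Dc M u →
  ∃ w, Dc M w ∧ p0 g ν ψ (fun y => lam * w y - S.box t ψ w y - u y)
    (fun y => lam * w y - S.box t ψ w y - u y) ≤ p0 g ν ψ u u / 4

/-- the estimate of Hoermander. -/
def Hor : Prop := ∀ (t c : ℝ) ψ u, 0 < c → M.Ck ∞ ψ → HasCompactSupport ψ →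
  (∀ y, (((t - c : ℝ) : ℂ) • g y + M.ddc ψ y).PosSemidef) → Dc M u → ∀ ε > (0 : ℝ),
  ∃ h, S.H2 t h ∧ Integrable (fun y => dn g (fun x => u x - h x) y * Real.exp (-ψ y)) ν ∧
    ∫ y, dn g (fun x => u x - h x) y * Real.exp (-ψ y) ∂ν ≤ 2 * (S.p1 t ψ u u / c) + ε

/-- interpolation at points of disjoint sheets. -/
def Itp (s : ℝ) : Prop := ∀ (m : ℕ) (y : Fin m → Y),
  (∀ i j x, x ∈ S.B (S.ch (y i)) 3 → x ∈ S.B (S.ch (y j)) 3 → i = j) →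
  ∃ h : Fin m → Y → ℂ, (∀ i, S.H2 s (h i)) ∧
    ∀ d : Fin m → ℂ, (∀ j, ∑ i, d i * h i (y j) = 0) → d = 0

/-- sections of high order with a compact base locus. -/
def Bs (s : ℝ) : Prop := ∀ (y : Y) (N : ℕ), ∃ (W : Set Y) (m : ℕ) (σ : Fin m → Y → ℂ),
  IsOpen W ∧ IsCompact (closure W) ∧ y ∈ W ∧ (∀ j, S.H2 s (σ j) ∧ S.Ord (dn g (σ j)) y N) ∧
    ∀ x ∈ frontier W, ∃ j, σ j x ≠ 0

/-- sums of squares of sections. -/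
def Lg : Prop := ∃ C ≥ (0 : ℝ), ∀ (t : ℝ) (m : ℕ) (σ : Fin m → Y → ℂ), (∀ j, S.Hol t (σ j)) →
  QP M g (t + C) fun y => ∑ j, dn g (σ j) y

/-- compact zero sets are finite. -/
def Fz (_S : Sh M g ν) : Prop := ∀ (s : ℝ) (P : Y → ℝ) (W : Set Y), 0 ≤ s → QP M g s P → IsOpen W →
  IsCompact (closure W) → (∀ x ∈ frontier W, P x ≠ 0) → {y ∈ W | P y = 0}.Finite

/-- sections that do not vanish at an isolated zero of high order. -/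
def Pk : Prop := ∀ (s t : ℝ) (N : ℕ) (P : Y → ℝ) (y : Y), 0 ≤ s → 0 < t → 0 < N →
  4 * Fintype.card ι * s ≤ t * N → QP M g s P → (∀ ε > (0 : ℝ), IsCompact {x | ε ≤ P x}) →
  S.Ord P y N → (∀ᶠ x in 𝓝[≠] y, 0 < P x) → ∃ h, S.H2 t h ∧ h y ≠ 0

/-- no base points. -/
def Nz : Prop := ∀ t > (0 : ℝ), ∀ y, ∃ h, S.H2 t h ∧ h y ≠ 0

end Sh

/-- the theorem. -/
def NefS : Prop := ∀ (ι X Y G : Type) [Fintype ι] [DecidableEq ι] [Nonempty ι]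
  [TopologicalSpace X] [T2Space X] [CompactSpace X] [ChartedSpace (ι → ℂ) X]
  [IsManifold 𝓘(ℂ, ι → ℂ) ω X] [TopologicalSpace Y] [ConnectedSpace Y] [Group G] [MulAction G Y]
  (K : Kahler ι X) (p : Y → X), IsQuotientCoveringMap p G → Exact K p → NefK K

end Pool.Agent.Lib.MP_813db1_ag.AN
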