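import Pool.Agent.Lib.MP_813db1_ag.AN.Par
import Pool.Agent.Lib.MP_813db1_ag.AN.Stmt
import Pool.Agent.Lib.MP_813db1_ag.AN.Flat

/-! Local parametrices with weights. -/

namespace Pool.Agent.Lib.MP_813db1_ag.AN

open Pool.Agent.Lib.MP_813db1_ag.HS
open MeasureTheory Complex Matrix Filter Topology Set Metric
open scoped ContDiff ComplexOrder

theorem bx_congr {ι : Type} [Fintype ι] [DecidableEq ι] {Φ Φ' : V ι → ℝ} {H H' : V ι → Mat ι}
    {F F' : V ι → ℂ} {z : V ι} (h1 : Φ =ᶠ[𝓝 z] Φ') (h2 : H =ᶠ[𝓝 z] H') (h3 : F =ᶠ[𝓝 z] F') :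
    bx Φ H F z = bx Φ' H' F' z := by
  have e : ∀ i, (fun w => shp H F w i) =ᶠ[𝓝 z] fun w => shp H' F' w i := fun i => by
    filter_upwards [h2, h3.eventuallyEq_nhds] with w k2 k3
    simp only [shp, k2, dzb_congr k3]
  have e' : (fun w => (Φ w : ℂ)) =ᶠ[𝓝 z] fun w => (Φ' w : ℂ) := h1.mono fun w k => by simp only [k]
  exact Finset.sum_congr rfl fun i _ => by
    rw [dz_congr (e i), dz_congr e', show shp H F z i = shp H' F' z i from (e i).self_of_nhds]

theorem resS : ResS := by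
  intro ι X _ _ _ _ _ M g e H hg he ht hH Φ hΦ ε hε
  obtain ⟨C, C0, hC⟩ := parL ι X M g hg e he 2 (5 / 2) 4 two_pos (by norm_num) (by norm_num)
    ht.ge Φ hΦ
  have s3 : closedBall (0 : V ι) 3 ⊆ ball 0 4 := closedBall_subset_ball (by norm_num)
  have cΦ : ContinuousOn Φ (closedBall 0 3) := fun z hz =>
    (hΦ z (s3 hz)).continuousAt.continuousWithinAt
  obtain ⟨P, hP⟩ := (isCompact_closedBall (0 : V ι) 3).exists_bound_of_continuousOn cΦ
  have b := fun z (hz : z ∈ ball (0 : V ι) 3) => abs_le.1 (hP z (ball_subset_closedBall hz))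
  have ii : ∀ F : V ι → ℂ, Continuous F → IntegrableOn (fun z => ‖F z‖ ^ 2) (ball 0 3) ∧
      IntegrableOn (fun z => ‖F z‖ ^ 2 * Real.exp (-Φ z)) (ball 0 3) := fun F hF =>
    ⟨(Par.isq (isCompact_closedBall _ _) fun z _ => hF.continuousAt).mono_set ball_subset_closedBall,
      (((hF.norm.pow 2).continuousOn.mul cΦ.neg.rexp).integrableOn_compact
        (isCompact_closedBall _ _)).mono_set ball_subset_closedBall⟩
  filter_upwards [eventually_ge_atTop 1,
    eventually_ge_atTop (Real.exp P * C * Real.exp P / ε)] with l l1 l2 f hf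
  obtain ⟨w, E, w1, E1, z0, q, hE⟩ := hC l (by linarith) f hf.1 fun z hz => hf.2 z (by simpa using hz)
  rw [min_eq_left (by nlinarith), ← setIntegral_eq_integral_of_forall_compl_eq_zero
    (s := ball (0 : V ι) 3) fun z hz => by
      rw [(z0 z fun k => hz (closedBall_subset_ball (by norm_num) k)).2]; simp,
    ← setIntegral_eq_integral_of_forall_compl_eq_zero (s := ball (0 : V ι) 3)
      (f := fun z => ‖f z‖ ^ 2) fun z hz => by
        rw [hf.2 z (by simp only [mem_ball_zero_iff, not_lt] at hz; linarith)]; simp] at hE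
  refine ⟨w, ⟨w1, fun z hz => (z0 z (by simpa using hz)).1⟩, ?_⟩
  have e1 : ∫ z in ball (0 : V ι) 3, ‖l * w z - bx Φ H w z - f z‖ ^ 2 * Real.exp (-Φ z) =
      ∫ z in ball (0 : V ι) 3, ‖E z‖ ^ 2 * Real.exp (-Φ z) := by
    refine setIntegral_congr_fun measurableSet_ball fun z hz => ?_
    have m := s3 (ball_subset_closedBall hz)
    have k1 : H =ᶠ[𝓝 z] M.repF g e :=
      Filter.mem_of_superset (isOpen_ball.mem_nhds m) fun y hy => (hH y hy).symm
    have k2 : _ = bx Φ (M.repF g e) w z := Flat.box_del (Φ := Φ) e.open_target (hg e he) (ht.ge m)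
      (w1.contDiffAt.of_le (by norm_cast))
    rw [bx_congr EventuallyEq.rfl k1 EventuallyEq.rfl, ← k2, q, sub_sub_cancel_left, norm_neg]
  have e2 : ∫ z in ball (0 : V ι) 3, ‖E z‖ ^ 2 * Real.exp (-Φ z) ≤
      Real.exp P * ∫ z in ball (0 : V ι) 3, ‖E z‖ ^ 2 := by
    rw [← integral_const_mul]
    refine setIntegral_mono_on (ii E E1.continuous).2 ((ii E E1.continuous).1.const_mul _)
      measurableSet_ball fun z hz => ?_
    rw [mul_comm (Real.exp P)]
    exact mul_le_mul_of_nonneg_left (Real.exp_le_exp.2 (by linarith [(b z hz).1])) (sq_nonneg _)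
  have e3 : ∫ z in ball (0 : V ι) 3, ‖f z‖ ^ 2 ≤
      Real.exp P * ∫ z in ball (0 : V ι) 3, ‖f z‖ ^ 2 * Real.exp (-Φ z) := by
    rw [← integral_const_mul]
    refine setIntegral_mono_on (ii f hf.1.continuous).1 ((ii f hf.1.continuous).2.const_mul _)
      measurableSet_ball fun z hz => ?_
    rw [mul_left_comm, ← Real.exp_add]
    exact le_mul_of_one_le_right (sq_nonneg _) (Real.one_le_exp (by linarith [(b z hz).2]))
  have p : 0 ≤ ∫ z in ball (0 : V ι) 3, ‖f z‖ ^ 2 * Real.exp (-Φ z) :=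
    integral_nonneg fun z => by positivity
  rw [div_le_iff₀ hε] at l2
  rw [e1]
  refine e2.trans (le_of_mul_le_mul_left ?_ (show 0 < l by linarith))
  calc _ = Real.exp P * (l * ∫ z in ball (0 : V ι) 3, ‖E z‖ ^ 2) := by ring
    _ ≤ Real.exp P * (C * (Real.exp P * ∫ z in ball (0 : V ι) 3, ‖f z‖ ^ 2 * Real.exp (-Φ z))) :=
        mul_le_mul_of_nonneg_left (hE.trans (mul_le_mul_of_nonneg_left e3 C0)) (Real.exp_pos _).le
    _ = Real.exp P * C * Real.exp P * ∫ z in ball (0 : V ι) 3, ‖f z‖ ^ 2 * Real.exp (-Φ z) := by ring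
    _ ≤ _ := by rw [← mul_assoc l]; gcongr

end Pool.Agent.Lib.MP_813db1_ag.AN
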