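import Pool.Agent.Lib.MP_813db1_ag.AN.Pot
import Pool.Agent.Lib.MP_813db1_ag.AN.Stmt
import Pool.Agent.Lib.MP_813db1_ag.AS.F1
import Pool.Agent.Lib.MP_caab05_ag.GB.Osg

/-! Potentials and holomorphic frames on the sheets. -/

namespace Pool.Agent.Lib.MP_813db1_ag.AN

open Pool.Agent.Lib.MP_813db1_ag.HS Pool.Agent.Lib.MP_813db1_ag.AS
open MeasureTheory Complex Matrix Filter Topology Set Metric
open scoped ContDiff ComplexOrder

theorem shS : ShS := by
  intro ι Y _ _ _ _ M g ν S a hν hP hpar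
  have hb : ball (0 : V ι) 4 ⊆ ball 0 5 := ball_subset_ball (by norm_num)
  have hD : ∀ e ∈ M.A, ∀ (U : Set (V ι)) (G : V ι → Mat ι), e.target = U →
      (∀ z ∈ U, M.repF g e z = G z) → DIm (rep1 M a e) G U := fun e he U G hU h z hz => by
    rw [← h z hz]
    exact hP e he z (hU ▸ hz) trivial
  have h0 : ∀ b, ∃ (α : V ι → Cv ι) (f : V ι → ℂ), DIm α (S.H b) (ball 0 4) ∧ ContDiff ℝ ∞ f ∧
      ∀ z ∈ ball (0 : V ι) 4, (∀ j, dzb f j z = a01 (α z) j) ∧
        levi f z + (levi f z)ᴴ = S.H b z := fun b => by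
    obtain ⟨k, rfl⟩ := S.onto b
    obtain ⟨e, he, ht, -, hr⟩ := S.big k
    have h := hD e he _ _ ht hr
    obtain ⟨f, hf⟩ := potA (r := 4) (by norm_num) (by norm_num) h
    exact ⟨_, f, fun z hz => h z (hb hz), hf⟩
  choose α f0 hα hf0 e0 using h0
  choose f hre hf using fun k => gaugeA isOpen_ball (convex_ball 0 4) (hα (S.ty k))
    (hD _ (S.mem k) _ _ (S.tgt k) (S.rep_g k)) (fun z _ => (hf0 _).contDiffAt)
    fun z hz => (e0 _ z hz).1
  refine ⟨⟨S, fun b z => 2 * (f0 b z).re, f, hν, fun b z hz => ⟨contDiffAt_const.mul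
    (reCLM.contDiff.comp (hf0 b)).contDiffAt, ?_⟩, fun k z hz => ⟨(hf k z hz).1, by rw [hre]⟩,
    fun k l y hk hl => ?_, hpar⟩, rfl⟩
  · rw [levi_two_re ((hf0 b).contDiffAt.of_le (by norm_cast)), (e0 b z hz).2]
  · refine MP_caab05_ag.GB.osg _ _ _ _ ((S.c k).isOpen_inter_preimage_symm (S.c l).open_source)
      (fun z hz => ?_) _ ⟨(S.c k).map_source hk, by simpa only [mem_preimage, (S.c k).left_inv hk]⟩
    have h1 := hf k z (S.tgt k ▸ hz.1)
    have h2 := hf l _ (S.tgt l ▸ (S.c l).map_source hz.2)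
    exact (hol_sub (τ := S.c l ∘ (S.c k).symm)
      (F1.an (S.mem k) (S.mem l) hz.1 hz.2).differentiableAt (h1.1.differentiableAt (by simp))
      (h2.1.differentiableAt (by simp))
      (fun j => by rw [h1.2, F1.rep1_tr a (S.mem k) (S.mem l) hz.1 hz.2]) h2.2).differentiableWithinAt

end Pool.Agent.Lib.MP_813db1_ag.AN
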