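import Pool.Agent.Lib.MP_813db1_ag.AN.Stmt
import Pool.Agent.Lib.MP_813db1_ag.HS.RepA
import Pool.Agent.Lib.MP_813db1_ag.HS.Mat

/-! The sheets of a normal covering of a compact Kaehler manifold. -/

namespace Pool.Agent.Lib.MP_813db1_ag.AN

open Pool.Agent.Lib.MP_813db1_ag.HS Pool.Agent.Lib.MP_813db1_ag.AS
open MeasureTheory Complex Matrix Filter Topology Set Metric
open scoped ContDiff ComplexOrder

namespace StJ

section Top

variable {X Y G : Type} [TopologicalSpace X] [TopologicalSpace Y] {p : Y → X}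

theorem t2 [T2Space X] (hp : IsCoveringMap p) : T2Space Y := by
  refine ⟨fun x y h => ?_⟩
  by_cases e : p x = p y
  · exact hp.isSeparatedMap x y e h
  · exact separated_by_continuous hp.continuous e

theorem cnt [ConnectedSpace Y] {κ : Type} (O : κ → Set Y) (ho : ∀ k, IsOpen (O k))
    (hn : ∀ k, (O k).Nonempty) (hc : ∀ y, ∃ k, y ∈ O k)
    (hf : ∀ k, {l | (O k ∩ O l).Nonempty}.Countable) : Countable κ := by
  obtain ⟨y0⟩ : Nonempty Y := inferInstance
  obtain ⟨k0, hk0⟩ := hc y0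
  let T : ℕ → Set κ := fun n => Nat.rec {k0} (fun _ s => ⋃ k ∈ s, {l | (O k ∩ O l).Nonempty}) n
  have hT : ∀ n, (T n).Countable := fun n =>
    Nat.rec (countable_singleton k0) (fun _ h => h.biUnion fun k _ => hf k) n
  have st : ∀ k l y, (∃ n, k ∈ T n) → y ∈ O k → y ∈ O l → ∃ n, l ∈ T n :=
    fun k l y ⟨n, h⟩ h1 h2 => ⟨n + 1, mem_iUnion₂.2 ⟨k, h, y, h1, h2⟩⟩
  have hA : IsClopen {y | ∃ k, (∃ n, k ∈ T n) ∧ y ∈ O k} := by
    refine ⟨isOpen_compl_iff.1 (isOpen_iff_mem_nhds.2 fun y hy => ?_),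
      isOpen_iff_mem_nhds.2 fun y ⟨k, h1, h2⟩ => ?_⟩
    · obtain ⟨l, hl⟩ := hc y
      filter_upwards [(ho l).mem_nhds hl] with z hz
      rintro ⟨k, h1, h2⟩
      exact hy ⟨l, st k l z h1 h2 hz, hl⟩
    · filter_upwards [(ho k).mem_nhds h2] with z hz
      exact ⟨k, h1, hz⟩
  have hu := hA.eq_univ ⟨y0, k0, ⟨0, rfl⟩, hk0⟩
  refine countable_univ_iff.1 ((countable_iUnion hT).mono fun l _ => ?_)
  obtain ⟨y, hy⟩ := hn l
  obtain ⟨k, h1, h2⟩ : y ∈ {y | ∃ k, (∃ n, k ∈ T n) ∧ y ∈ O k} := hu ▸ mem_univ y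
  exact mem_iUnion.2 (st k l y h1 h2 hy)

variable [Group G] [MulAction G Y]

theorem loc (hp : IsQuotientCoveringMap p G) (x : X) :
    ∃ P : OpenPartialHomeomorph Y X, x ∈ P.target ∧ (∀ y, P y = p y) ∧
      ∀ (γ : G) y, y ∈ P.source → γ • y ∈ P.source → γ = 1 := by
  obtain ⟨y, rfl⟩ := hp.surjective x
  obtain ⟨U, hU, hd⟩ := hp.disjoint y
  obtain ⟨e, he, hpe⟩ := hp.isCoveringMap.isLocalHomeomorph y
  have h1 : y ∈ (e.restrOpen (interior U) isOpen_interior).source :=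
    ⟨he, mem_interior_iff_mem_nhds.2 hU⟩
  refine ⟨e.restrOpen (interior U) isOpen_interior, ?_, fun w => (congrFun hpe w).symm,
    fun γ w h2 h3 => hd γ ⟨_, ⟨w, interior_subset h2.2, rfl⟩, interior_subset h3.2⟩⟩
  rw [hpe]
  exact (e.restrOpen (interior U) isOpen_interior).map_source h1

end Top

variable {ι X Y : Type} [Fintype ι] [DecidableEq ι] [TopologicalSpace X] [TopologicalSpace Y]

/-- the dilation of a ball. -/
noncomputable def dil (ι : Type) [Fintype ι] (r : ℝ) (hr : 0 < r) :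
    OpenPartialHomeomorph (V ι) (V ι) where
  toFun z := ((r⁻¹ : ℝ) : ℂ) • z
  invFun z := (r : ℂ) • z
  source := ball 0 (5 * r)
  target := ball 0 5
  map_source' z hz := by
    rw [mem_ball_zero_iff] at hz ⊢
    rw [norm_smul, norm_real, Real.norm_of_nonneg (inv_pos.2 hr).le, inv_mul_lt_iff₀ hr]
    linarith
  map_target' z hz := by
    rw [mem_ball_zero_iff] at hz ⊢
    rw [norm_smul, norm_real, Real.norm_of_nonneg hr.le]
    nlinarith
  left_inv' z _ := by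
    rw [smul_smul, ← ofReal_mul, mul_inv_cancel₀ hr.ne', ofReal_one, one_smul]
  right_inv' z _ := by
    rw [smul_smul, ← ofReal_mul, inv_mul_cancel₀ hr.ne', ofReal_one, one_smul]
  open_source := isOpen_ball
  open_target := isOpen_ball
  continuousOn_toFun := (continuous_const_smul _).continuousOn
  continuousOn_invFun := (continuous_const_smul _).continuousOn

theorem big (M : Atl ι X) {O : Set X} (hO : IsOpen O) {x : X} (hx : x ∈ O) :
    ∃ E ∈ M.A, E.target = ball 0 5 ∧ E.source ⊆ O ∧ x ∈ E.source ∧ E x = 0 := by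
  obtain ⟨e, he, h1, h0⟩ := RepA.center M x
  obtain ⟨r, hr, hs⟩ := Metric.mem_nhds_iff.1 ((e.isOpen_inter_preimage_symm hO).mem_nhds
    (show e x ∈ _ from ⟨e.map_source h1, by rwa [mem_preimage, e.left_inv h1]⟩))
  rw [h0] at hs
  have h5 : 0 < r / 5 := by linarith
  have e5 : 5 * (r / 5) = r := by ring
  have s1 : (dil ι _ h5).source = ball 0 r := congrArg (ball 0) e5
  refine ⟨e.trans (dil ι _ h5), RepA.trans_mem M he _
    (fun z _ => (analyticAt_const (v := (((r / 5)⁻¹ : ℝ) : ℂ))).smul analyticAt_id)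
    (fun z _ => (analyticAt_const (v := ((r / 5 : ℝ) : ℂ))).smul analyticAt_id), ?_, fun y hy => ?_, ⟨h1, ?_⟩, ?_⟩
  · refine inter_eq_left.2 fun z hz => (hs ?_).1
    rw [← s1]
    exact (dil ι _ h5).map_target hz
  · have h2 := (hs (s1 ▸ hy.2 : e y ∈ ball 0 r)).2
    rwa [mem_preimage, e.left_inv hy.1] at h2
  · change e x ∈ (dil ι _ h5).source
    rw [s1, h0]
    exact mem_ball_self hr
  · change _ • e x = 0
    rw [h0, smul_zero]

/-- the chart `d` lies over the chart `E`. -/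
def Ov (p : Y → X) (d : Ch ι Y) (E : Ch ι X) : Prop :=
  ∀ y ∈ d.source, p y ∈ E.source ∧ d y = E (p y)

variable {p : Y → X} {d d' : Ch ι Y} {E E' : Ch ι X} {y : Y}

omit [Fintype ι] [DecidableEq ι] in
theorem Ov.ev (h : Ov p d E) (h' : Ov p d' E') (hy : y ∈ d.source) (hy' : y ∈ d'.source) :
    d' ∘ d.symm =ᶠ[𝓝 (d y)] E' ∘ E.symm :=
  (RepA.ev_src hy hy').mono fun w hw => by
    have h1 := h _ (d.map_target hw.1)
    rw [d.right_inv hw.1] at h1
    rw [Function.comp_apply, Function.comp_apply, (h' _ hw.2).2]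
    conv_rhs => rw [h1.2, E.left_inv h1.1]

omit [DecidableEq ι] in
theorem Ov.an (M : Atl ι X) (hE : E ∈ M.A) (hE' : E' ∈ M.A) (h : Ov p d E) (h' : Ov p d' E')
    (hy : y ∈ d.source) (hy' : y ∈ d'.source) : AnalyticAt ℂ (d' ∘ d.symm) (d y) := by
  refine AnalyticAt.congr ?_ (h.ev h' hy hy').symm
  rw [(h y hy).2]
  exact M.hol E hE E' hE' _ (h y hy).1 (h' y hy').1

theorem Ov.tj (h : Ov p d E) (h' : Ov p d' E') (hy : y ∈ d.source) (hy' : y ∈ d'.source) :
    tj d d' y = tj E E' (p y) := by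
  rw [HS.tj, HS.tj, jac_congr (h.ev h' hy hy'), (h y hy).2]

/-- the maximal atlas of a family of preferred charts. -/
def mk (ch : Y → Ch ι Y) (hm : ∀ y, y ∈ (ch y).source)
    (ha : ∀ x, ∀ y ∈ (ch x).source, AnalyticAt ℂ (ch x ∘ (ch y).symm) (ch y y) ∧
      AnalyticAt ℂ (ch y ∘ (ch x).symm) (ch x y)) : Atl ι Y where
  A := {e | ∀ x ∈ e.source, AnalyticAt ℂ (e ∘ (ch x).symm) (ch x x) ∧
    AnalyticAt ℂ (ch x ∘ e.symm) (e x)}
  ch := ch
  ch_mem := ha
  mem := hm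
  hol _ he e' he' x hx hx' :=
    ((he' x hx').1.comp_of_eq (he x hx).2 (RepA.tr_apply _ hx)).congr
      ((RepA.ev_src hx (hm x)).mono fun _ h => congrArg e' ((ch x).left_inv h.2))
  max _ h := h

theorem cl_at {F H : V ι → Mat ι} {U : Set (V ι)} {z : V ι} (h : ClOn H U) (hz : z ∈ U)
    (e : F =ᶠ[𝓝 z] H) : ClOn F {z} := by
  have ev := fun i j => e.mono fun _ h => congrFun₂ h i j
  refine ⟨?_, ?_, ?_⟩
  · rintro _ rfl i j
    exact (h.1 _ hz i j).congr_of_eventuallyEq (ev i j)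
  · rintro _ rfl
    rw [e.self_of_nhds]
    exact h.2.1 _ hz
  · rintro _ rfl i j k
    rw [dz_congr (ev i j), dz_congr (ev k j)]
    exact h.2.2 _ hz i j k

/-- the atlas and the metric of the covering space. -/
theorem lift (MX : Atl ι X) {gX : X → Mat ι} (hK : MX.IsK gX) (ch : Y → Ch ι Y)
    (hm : ∀ y, y ∈ (ch y).source) (h : ∀ y, ∃ E ∈ MX.A, Ov p (ch y) E) :
    ∃ (M : Atl ι Y) (g : Y → Mat ι), M.ch = ch ∧ M.IsK g ∧ ∀ d, ∀ E ∈ MX.A, Ov p d E →
      d ∈ M.A ∧ ∀ z ∈ d.target, M.repF g d z = MX.repF gX E z := by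
  choose F hF ho using h
  let M : Atl ι Y := mk ch hm fun x y hy =>
    ⟨Ov.an MX (hF y) (hF x) (ho y) (ho x) (hm y) hy, Ov.an MX (hF x) (hF y) (ho x) (ho y) hy (hm y)⟩
  let g : Y → Mat ι := fun y => MX.repF gX (F y) (F y (p y))
  have key : ∀ d, ∀ E ∈ MX.A, Ov p d E →
      d ∈ M.A ∧ ∀ z ∈ d.target, M.repF g d z = MX.repF gX E z := fun d E hE h =>
    ⟨fun y hy => ⟨Ov.an MX (hF y) hE (ho y) h (hm y) hy, Ov.an MX hE (hF y) h (ho y) hy (hm y)⟩,
      RepA.tgt fun y hy => by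
        rw [RepA.repF_apply M g hy, (h y hy).2,
          RepA.repF_tr MX gX E hE _ (hF y) _ (h y hy).1 (ho y y (hm y)).1,
          ← h.tj (ho y) hy (hm y)]
        rfl⟩
  have tg : ∀ y, F y (p y) ∈ (F y).target := fun y => (F y).map_source (ho y y (hm y)).1
  refine ⟨M, g, rfl, (RepA.isK_iff M mat g).2 ⟨RepA.clF_loc M g fun y =>
    ⟨ch y, M.ch_mem y, hm y, cl_at (hK _ (hF y)).1 ((ho y y (hm y)).2 ▸ tg y) ?_⟩,
    fun y => (hK _ (hF y)).2 _ (tg y)⟩, key⟩
  exact Filter.mem_of_superset ((ch y).open_target.mem_nhds ((ch y).map_source (hm y)))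
    (key _ _ (hF y) (ho y)).2

/-- the restriction of a chart to the ball of radius four. -/
noncomputable def sm (E : Ch ι X) : Ch ι X :=
  E.trans (OpenPartialHomeomorph.ofSet (ball 0 4) isOpen_ball)

omit [DecidableEq ι] in
theorem sm_tgt (h : E.target = ball 0 5) : (sm E).target = ball 0 4 :=
  inter_eq_left.2 fun _ hz => h.ge (ball_subset_ball (by norm_num) hz)

variable {G : Type} [Group G] [MulAction G Y] [ContinuousConstSMul G Y]

/-- a sheet over the chart `E`. -/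
noncomputable def sh (P : OpenPartialHomeomorph Y X) (E : Ch ι X) (γ : G) : Ch ι Y :=
  ((Homeomorph.smul γ⁻¹).transOpenPartialHomeomorph P).trans E

end StJ

open StJ in
theorem stS : StS := by
  intro ι X Y G _ _ _ _ _ _ _ _ _ MX gX p hK hp
  have := hp.toContinuousConstSMul
  have pc : Continuous p := hp.isCoveringMap.continuous
  refine ⟨t2 hp.isCoveringMap, ?_⟩
  choose P0 hP0 hP1 hP2 using loc hp
  choose E0 hE0 hE1 hE2 hE3 hE4 using fun x => big MX (P0 x).open_target (hP0 x)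
  obtain ⟨t, ht⟩ := CompactSpace.elim_nhds_subcover
    (fun x => (E0 x).source ∩ E0 x ⁻¹' ball 0 1) fun x =>
      ((E0 x).isOpen_inter_preimage isOpen_ball).mem_nhds
        ⟨hE3 x, by rw [mem_preimage, hE4]; exact mem_ball_self one_pos⟩
  obtain ⟨n, P, E, hP, hD, hE, hT, hS, hc⟩ : ∃ (n : ℕ) (P : Fin n → OpenPartialHomeomorph Y X)
      (E : Fin n → Ch ι X), (∀ a y, P a y = p y) ∧
      (∀ a (γ : G) y, y ∈ (P a).source → γ • y ∈ (P a).source → γ = 1) ∧ (∀ a, E a ∈ MX.A) ∧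
      (∀ a, (E a).target = ball 0 5) ∧ (∀ a, (E a).source ⊆ (P a).target) ∧
      ∀ x, ∃ a, x ∈ (E a).source ∧ ‖E a x‖ < 1 := by
    refine ⟨t.card, fun a => P0 (t.equivFin.symm a), fun a => E0 (t.equivFin.symm a),
      fun a => hP1 _, fun a => hP2 _, fun a => hE0 _, fun a => hE1 _, fun a => hE2 _,
      fun x => ?_⟩
    obtain ⟨y, hy, h2, h3⟩ := mem_iUnion₂.1 (ht.ge (mem_univ x))
    refine ⟨t.equivFin ⟨y, hy⟩, ?_⟩
    simp only [Equiv.symm_apply_apply]
    exact ⟨h2, mem_ball_zero_iff.1 h3⟩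
  let C : Fin n × G → Ch ι Y := fun k => sh (P k.1) (E k.1) k.2
  have c1 : ∀ k y, C k y = E k.1 (p y) := fun k y =>
    congrArg (E k.1) ((hP k.1 _).trans (hp.map_smul _))
  have c2 : ∀ k y, y ∈ (C k).source ↔ k.2⁻¹ • y ∈ (P k.1).source ∧ p y ∈ (E k.1).source :=
    fun k y => and_congr_right' (by
      change P k.1 (k.2⁻¹ • y) ∈ (E k.1).source ↔ _
      rw [hP, hp.map_smul])
  have c3 : ∀ k, (C k).target = ball 0 5 := fun k =>
    (inter_eq_left.2 fun z hz => show (E k.1).symm z ∈ (P k.1).target from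
      hS k.1 ((E k.1).map_target hz)).trans (hT k.1)
  have c4 : ∀ k, Ov p (C k) (E k.1) := fun k y hy => ⟨((c2 k y).1 hy).2, c1 k y⟩
  have c5 : ∀ k, Ov p (sm (C k)) (E k.1) := fun k y hy => c4 k y hy.1
  have c6 : ∀ a y, p y ∈ (E a).source → ∃ γ, y ∈ (C (a, γ)).source := fun a y hy => by
    have h1 := hS a hy
    obtain ⟨γ, hγ⟩ := hp.apply_eq_iff_mem_orbit.1
      ((hP a _).symm.trans ((P a).right_inv h1)).symm
    refine ⟨γ, (c2 _ y).2 ⟨?_, hy⟩⟩
    rw [← hγ, inv_smul_smul]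
    exact (P a).map_target h1
  have c7 : ∀ k l y, k.1 = l.1 → y ∈ (C k).source → y ∈ (C l).source → k = l := by
    rintro ⟨a, γ⟩ ⟨b, δ⟩ y rfl h1 h2
    have h3 := hD a (δ⁻¹ * γ) _ ((c2 _ y).1 h1).1 (by
      rw [mul_smul, smul_inv_smul]
      exact ((c2 _ y).1 h2).1)
    rw [inv_mul_eq_one.1 h3]
  have c8 : ∀ y, ∃ k, y ∈ (sm (C k)).source ∧ ‖sm (C k) y‖ < 1 := fun y => by
    obtain ⟨a, h1, h2⟩ := hc (p y)
    obtain ⟨γ, h3⟩ := c6 a y h1
    rw [← c1 (a, γ)] at h2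
    exact ⟨(a, γ), ⟨h3, mem_ball_zero_iff.2 (h2.trans (by norm_num))⟩, h2⟩
  have c9 : ∀ K, IsCompact K → ∀ r < (4 : ℝ),
      {k | ∃ y ∈ K, y ∈ (sm (C k)).source ∧ ‖sm (C k) y‖ ≤ r}.Finite := by
    intro K hK r hr
    have hs : ∀ a, closedBall (0 : V ι) r ⊆ (E a).target := fun a =>
      (closedBall_subset_ball (hr.trans (by norm_num))).trans (hT a).ge
    have lf : LocallyFinite fun k => {y | y ∈ (sm (C k)).source ∧ ‖sm (C k) y‖ ≤ r} := by
      intro y0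
      have h1 : ∀ a, ∃ W ∈ 𝓝 y0, ∃ γ, ∀ δ, ∀ y ∈ W, y ∈ (sm (C (a, δ))).source →
          ‖sm (C (a, δ)) y‖ ≤ r → δ = γ := fun a => by
        by_cases h : p y0 ∈ (E a).source
        · obtain ⟨γ, h2⟩ := c6 a y0 h
          exact ⟨_, (C (a, γ)).open_source.mem_nhds h2, γ, fun δ y h3 h4 _ =>
            congrArg Prod.snd (c7 (a, δ) (a, γ) y rfl h4.1 h3)⟩
        · have h2 : IsClosed ((E a).symm '' closedBall 0 r) :=
            ((isCompact_closedBall _ _).image_of_continuousOn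
              ((E a).continuousOn_symm.mono (hs a))).isClosed
          refine ⟨p ⁻¹' ((E a).symm '' closedBall 0 r)ᶜ, (h2.isOpen_compl.preimage pc).mem_nhds ?_,
            1, fun δ y h3 h4 h5 => (h3 ⟨E a (p y), mem_closedBall_zero_iff.2 ?_,
              (E a).left_inv (c5 (a, δ) y h4).1⟩).elim⟩
          · rintro ⟨z, hz, e⟩
            exact h (e ▸ (E a).map_target (hs a hz))
          · rwa [(c5 (a, δ) y h4).2] at h5
      choose W hW γ hγ using h1
      refine ⟨⋂ a, W a, iInter_mem.2 hW, (finite_range fun a => (a, γ a)).subset ?_⟩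
      rintro ⟨a, δ⟩ ⟨y, ⟨h2, h3⟩, h4⟩
      exact ⟨a, by rw [hγ a δ y (mem_iInter.1 h4 a) h2 h3]⟩
    exact (lf.finite_nonempty_inter_compact hK).subset fun k ⟨y, h1, h2⟩ => ⟨y, h2, h1⟩
  have t4 : ∀ k, (sm (C k)).target = ball 0 4 := fun k => sm_tgt (c3 k)
  have ct : Countable (Fin n × G) := by
    have hs : ∀ k, closedBall (0 : V ι) 1 ⊆ (sm (C k)).target := fun k =>
      (closedBall_subset_ball (by norm_num)).trans (t4 k).ge
    refine cnt (fun k => (sm (C k)).source ∩ sm (C k) ⁻¹' ball 0 1)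
      (fun k => (sm (C k)).isOpen_inter_preimage isOpen_ball) (fun k => ?_)
      (fun y => (c8 y).imp fun k h => ⟨h.1, mem_ball_zero_iff.2 h.2⟩) fun k => ?_
    · have h0 := hs k (mem_closedBall_self zero_le_one)
      refine ⟨_, (sm (C k)).map_target h0, ?_⟩
      rw [mem_preimage, (sm (C k)).right_inv h0]
      exact mem_ball_self one_pos
    · refine (c9 _ ((isCompact_closedBall 0 1).image_of_continuousOn
        ((sm (C k)).continuousOn_symm.mono (hs k))) 1 (by norm_num)).countable.mono ?_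
      rintro l ⟨y, h1, h2⟩
      exact ⟨y, ⟨_, ball_subset_closedBall h1.2, (sm (C k)).left_inv h1.1⟩, h2.1,
        (mem_ball_zero_iff.1 h2.2).le⟩
  choose ch h1 h2 using c8
  obtain ⟨M, g, e1, e2, e3⟩ := lift (p := p) MX hK (fun y => sm (C (ch y))) h1
    fun y => ⟨_, hE _, c5 _⟩
  refine ⟨M, g, ⟨Fin n × G, n, Prod.fst, fun k => sm (C k), ch, fun a => MX.repF gX (E a), ct, e2,
    fun k => (e3 _ _ (hE _) (c5 k)).1, t4, fun y => congrFun e1 y, h2,
    fun a => hT a ▸ hK _ (hE a), fun k z hz => (e3 _ _ (hE _) (c5 k)).2 z ((t4 k).ge hz),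
    fun a => ⟨(a, 1), rfl⟩, fun k => ⟨C k, (e3 _ _ (hE _) (c4 k)).1, c3 k, fun _ _ => rfl,
      fun z hz => (e3 _ _ (hE _) (c4 k)).2 z ((c3 k).ge hz)⟩,
    fun k l y h h3 h4 => c7 k l y h h3.1 h4.1, c9⟩,
    ⟨⟨fun a => sm (E a), fun a => RepA.trans_mem MX (hE a) _ (fun _ _ => analyticAt_id)
      fun _ _ => analyticAt_id, fun a => sm_tgt (hT a), fun _ _ _ => rfl, fun k z hz => ?_,
      fun a y hy => ?_, hp.surjective⟩⟩⟩
  · have h3 := (t4 k).ge hz
    have h4 := c5 k _ ((sm (C k)).map_target h3)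
    rw [(sm (C k)).right_inv h3] at h4
    change p ((sm (C k)).symm z) = (E k.1).symm z
    conv_rhs => rw [h4.2, (E k.1).left_inv h4.1]
  · obtain ⟨γ, h3⟩ := c6 a y hy.1
    exact ⟨(a, γ), rfl, h3, show C (a, γ) y ∈ ball 0 4 from c1 (a, γ) y ▸ hy.2⟩

end Pool.Agent.Lib.MP_813db1_ag.AN
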