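import Pool.Agent.Lib.MP_813db1_ag.AN.Stmt
import Pool.Agent.Lib.MP_813db1_ag.HS.Vol
import Pool.Agent.Lib.MP_813db1_ag.HS.RepA
import Pool.Agent.Lib.MP_813db1_ag.HS.Mat

/-! The volume measure of a manifold with a countable cover by charts. -/

namespace Pool.Agent.Lib.MP_813db1_ag.AN

open Pool.Agent.Lib.MP_813db1_ag.HS
open MeasureTheory Set Function

namespace VolY

/-- a disjoint measurable refinement of a countable cover. -/
theorem part {Y κ : Type} [MeasurableSpace Y] [Countable κ] (s : κ → Set Y)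
    (hs : ∀ k, MeasurableSet (s k)) (hc : ∀ y, ∃ k, y ∈ s k) : ∃ D : κ → Set Y,
    (∀ k, MeasurableSet (D k)) ∧ (∀ k, D k ⊆ s k) ∧ Pairwise (Disjoint on D) ∧ ⋃ k, D k = univ := by
  obtain ⟨c, hi⟩ := Countable.exists_injective_nat κ
  refine ⟨fun k => s k \ ⋃ l, ⋃ _ : c l < c k, s l, fun k => (hs k).diff
    (MeasurableSet.iUnion fun l => MeasurableSet.iUnion fun _ => hs l), fun k => sdiff_subset,
    fun k l h => ?_, eq_univ_of_forall fun y => ?_⟩
  · refine Set.disjoint_left.2 fun y h1 h2 => ?_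
    rcases lt_or_gt_of_ne (hi.ne h) with t | t
    · exact h2.2 (mem_iUnion₂.2 ⟨k, t, h1.1⟩)
    · exact h1.2 (mem_iUnion₂.2 ⟨l, t, h2.1⟩)
  · obtain ⟨k, h1, h2⟩ := (InvImage.wf c wellFounded_lt).has_min {k | y ∈ s k} (hc y)
    refine mem_iUnion.2 ⟨k, h1, fun h => ?_⟩
    obtain ⟨l, t, h3⟩ := mem_iUnion₂.1 h
    exact h2 l h3 t

end VolY

theorem volY : VolY := by
  intro ι Y _ _ _ _ _ M g S
  have := S.cnt
  obtain ⟨D, h1, h2, h3, h4⟩ := VolY.part (fun k => (S.c k).source)
    (fun k => (S.c k).open_source.measurableSet) fun y => ⟨S.ch y, S.ch_eq y ▸ M.mem y⟩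
  refine ⟨Measure.sum fun k => (Vol.nu (S.c k) fun z =>
    ENNReal.ofReal (M.repF g (S.c k) z).det.re).restrict (D k), fun e he => ?_⟩
  have h : ∀ k, ((Vol.nu (S.c k) fun z =>
      ENNReal.ofReal (M.repF g (S.c k) z).det.re).restrict (D k)).restrict e.source =
      (Vol.nu e fun z => ENNReal.ofReal (M.repF g e z).det.re).restrict (D k) := fun k => by
    rw [Measure.restrict_comm e.open_source.measurableSet, Vol.compat (repA mat) mat M g he (S.mem k),
      Measure.restrict_restrict (h1 k), inter_eq_left.2 (h2 k)]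
  rw [Measure.restrict_sum _ e.open_source.measurableSet, funext h, ← Measure.restrict_iUnion h3 h1,
    h4, Measure.restrict_univ]
  rfl

end Pool.Agent.Lib.MP_813db1_ag.AN
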