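import Pool.Agent.Lib.MP_813db1_ag.AN.Ana
import Pool.Agent.Lib.MP_813db1_ag.AN.FinAll
import Pool.Agent.Lib.MP_813db1_ag.AN.St
import Pool.Agent.Lib.MP_813db1_ag.AN.Prim
import Pool.Agent.Lib.MP_813db1_ag.AN.VolY
import Pool.Agent.Lib.MP_813db1_ag.AN.Res
import Pool.Agent.Lib.MP_813db1_ag.AN.ShS
import Pool.Agent.Lib.MP_813db1_ag.HS.AYAll

/-! All steps together. -/

namespace Pool.Agent.Lib.MP_813db1_ag.AN

open Pool.Agent.Lib.MP_813db1_ag.HS AY

/-- the canonical bundle is nef when the Kaehler form becomes exact on a covering. -/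
theorem nefS : NefS :=
  main (maxAtl repA') repA' repB' mat stS primS volY resS shS (anaS finAll)

end Pool.Agent.Lib.MP_813db1_ag.AN
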