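import Pool.Agent.Lib.MP_813db1_ag.AN.Stmt
import Pool.Agent.Lib.MP_813db1_ag.HS.AYAll

set_option linter.unusedSectionVars false

/-! Integration, bounds and partitions of unity on a family of sheets. -/

namespace Pool.Agent.Lib.MP_813db1_ag.AN

open Pool.Agent.Lib.MP_813db1_ag.HS Pool.Agent.Lib.MP_813db1_ag.AS
open MeasureTheory Complex Matrix Filter Topology Set Metric
open scoped ContDiff ComplexOrder ENNReal

namespace BA

variable {ι Y : Type} [Fintype ι] [DecidableEq ι] [TopologicalSpace Y]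
  {M : Atl ι Y} {g : Y → Mat ι} (S : St M g)

theorem src (y : Y) : y ∈ (S.c (S.ch y)).source := S.ch_eq y ▸ M.mem y

theorem sub {r : ℝ} (hr : r < 4) (k : S.κ) : closedBall 0 r ⊆ (S.c k).target :=
  S.tgt k ▸ closedBall_subset_ball hr

theorem cpt (k : S.κ) {r : ℝ} (hr : r < 4) : IsCompact (S.B k r) := by
  rw [St.B, ← (S.c k).symm_image_eq_source_inter_preimage (sub S hr k)]
  exact (isCompact_closedBall _ _).image_of_continuousOn
    ((S.c k).continuousOn_symm.mono (sub S hr k))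

theorem nhd (y : Y) : S.B (S.ch y) 1 ∈ 𝓝 y :=
  inter_mem ((S.c _).open_source.mem_nhds (src S y)) ((S.c _).continuousAt (src S y)
    (mem_of_superset (isOpen_ball.mem_nhds (mem_ball_zero_iff.2 (S.ch_lt y)))
      ball_subset_closedBall))

theorem card (T : Finset S.κ) (y : Y) (h : ∀ k ∈ T, y ∈ (S.c k).source) : T.card ≤ S.n :=
  (Finset.card_le_card_of_injOn S.ty (fun _ _ => Finset.mem_univ _)
    fun k hk l hl e => S.dis k l y e (h k hk) (h l hl)).trans_eq (Finset.card_fin _)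

theorem det (y : Y) :
    (g y).PosDef ∧ 0 < (g y).det.re ∧ g y = S.H (S.ty (S.ch y)) (S.c (S.ch y) y) := by
  have A := AY.repA' ι Y M
  have h := ((A.isK_iff g).1 S.kg).2 y
  refine ⟨h, (Mat.det' h).1, ?_⟩
  rw [← S.rep_g _ _ (mem_ball_zero_iff.2 ((S.ch_lt y).trans (by norm_num))), ← S.ch_eq,
    A.repF_self]

theorem ext_ne {k : S.κ} {r : ℝ} {u : V ι → ℝ} (h0 : ∀ z, r < ‖z‖ → u z = 0) {y : Y}
    (h : S.extR k u y ≠ 0) : y ∈ S.B k r := by
  by_cases hy : y ∈ (S.c k).source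
  · rw [St.extR, if_pos hy] at h
    exact ⟨hy, mem_closedBall_zero_iff.2 (not_lt.1 fun c => h (h0 _ c))⟩
  · exact absurd (if_neg hy) h

theorem extR [T2Space Y] (k : S.κ) {r : ℝ} (hr : r < 4) {u : V ι → ℝ} (hu : ContDiff ℝ ∞ u)
    (h0 : ∀ z, r < ‖z‖ → u z = 0) :
    M.Ck ∞ (S.extR k u) ∧ HasCompactSupport (S.extR k u) ∧ tsupport (S.extR k u) ⊆ S.B k r := by
  have hK := cpt S k hr
  have h1 : tsupport (S.extR k u) ⊆ S.B k r :=
    closure_minimal (fun y hy => ext_ne S h0 hy) hK.isClosed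
  refine ⟨(AY.repA' ι Y M).ck_loc ⊤ _ fun y => ?_, hK.of_isClosed_subset isClosed_closure h1, h1⟩
  by_cases h : y ∈ (S.c k).source
  · refine ⟨_, S.mem k, h, (contDiffAt_ofReal.2 hu.contDiffAt).congr_of_eventuallyEq ?_⟩
    filter_upwards [(S.c k).open_target.mem_nhds ((S.c k).map_source h)] with z hz
    rw [fn, St.extR, if_pos ((S.c k).map_target hz), (S.c k).right_inv hz]
  · refine ⟨M.ch y, M.ch_mem y, M.mem y, (contDiffAt_const (c := 0)).congr_of_eventuallyEq ?_⟩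
    have h2 := (M.ch y).continuousAt_symm ((M.ch y).map_source (M.mem y))
    rw [ContinuousAt, (M.ch y).left_inv (M.mem y)] at h2
    filter_upwards [h2 (hK.isClosed.isOpen_compl.mem_nhds fun c => h c.1)] with z hz
    rw [fn, not_not.1 fun c => hz (ext_ne S h0 c), ofReal_zero]

theorem pou [T2Space Y] : ∃ χ : S.κ → Y → ℝ,
    (∀ k, M.Ck ∞ (χ k) ∧ ∀ y, 0 ≤ χ k y ∧ (χ k y ≠ 0 → y ∈ S.B k 2)) ∧
    ∀ (T : Finset S.κ) y, (∀ k, y ∈ S.B k 2 → k ∈ T) → ∑ k ∈ T, χ k y = 1 := by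
  let b : ContDiffBump (0 : V ι) := ⟨1, 2, one_pos, one_lt_two⟩
  have h0 : ∀ z : V ι, 2 < ‖z‖ → b z = 0 := fun z hz =>
    b.zero_of_le_dist (by rw [dist_zero_right]; exact hz.le)
  have hn : ∀ k y, 0 ≤ S.extR k b y := fun k y => by
    rw [St.extR]
    split_ifs
    exacts [b.nonneg, le_rfl]
  have hs : ∀ (T : Finset S.κ) y, (∀ k, y ∈ S.B k 2 → k ∈ T) →
      ∑ᶠ k, S.extR k b y = ∑ k ∈ T, S.extR k b y := fun T y h =>
    finsum_eq_sum_of_support_subset _ fun k hk => h k (ext_ne S h0 hk)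
  have hT : ∀ y, ∃ T : Finset S.κ, ∀ x ∈ S.B (S.ch y) 1, ∀ k, x ∈ S.B k 2 → k ∈ T := fun y =>
    ⟨(S.fin _ (cpt S (S.ch y) (r := 1) (by norm_num)) 2 (by norm_num)).toFinset,
      fun x hx k hk => (Finite.mem_toFinset _).2 ⟨x, hx, hk.1, mem_closedBall_zero_iff.1 hk.2⟩⟩
  have hp : ∀ y, 0 < ∑ᶠ k, S.extR k b y := fun y => by
    obtain ⟨T, h⟩ := hT y
    have h1 := h y (mem_of_mem_nhds (nhd S y))
    rw [hs T y h1]
    refine Finset.sum_pos' (fun k _ => hn k y) ⟨S.ch y, h1 _ ⟨src S y,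
      mem_closedBall_zero_iff.2 ((S.ch_lt y).le.trans one_le_two)⟩, ?_⟩
    rw [St.extR, if_pos (src S y)]
    exact b.pos_of_mem_ball (mem_ball_zero_iff.2 ((S.ch_lt y).trans one_lt_two))
  refine ⟨fun k y => S.extR k b y / ∑ᶠ k, S.extR k b y, fun k => ⟨fun e he z hz => ?_, fun y =>
    ⟨div_nonneg (hn k y) (hp y).le, fun h => ext_ne S h0 fun c => h (div_eq_zero_iff.2 (Or.inl c))⟩⟩,
    fun T y h => ?_⟩
  · have h7 : ∀ l, ContDiffAt ℝ ∞ (fun w => S.extR l b (e.symm w)) z := fun l =>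
      contDiffAt_ofReal.1 ((extR S l (by norm_num) b.contDiff h0).1 e he z hz)
    obtain ⟨T, h⟩ := hT (e.symm z)
    refine contDiffAt_ofReal.2 ((h7 k).div ((ContDiffAt.sum (s := T)
      fun l _ => h7 l).congr_of_eventuallyEq ?_) (hp _).ne')
    filter_upwards [e.continuousAt_symm hz (nhd S _)] with w hw
    exact hs T _ (h _ hw)
  · rw [← Finset.sum_div, ← hs T y h, div_self (hp y).ne']

theorem exh : ∃ K : ℕ → Finset S.κ, Monotone K ∧ ∀ k, ∃ j, k ∈ K j := by
  have := S.cnt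
  obtain ⟨f, hf⟩ := exists_injective_nat S.κ
  exact ⟨fun j => ((finite_Iic j).preimage hf.injOn).toFinset, fun i j h =>
    Finite.toFinset_subset_toFinset.2 (preimage_mono (Iic_subset_Iic.2 h)),
    fun k => ⟨f k, (Finite.mem_toFinset _).2 (le_refl (f k))⟩⟩

theorem ev {K : Set (V ι)} (hK : IsCompact K) {f : V ι → ℝ} (hf : ∀ z ∈ K, ContinuousAt f z) :
    ∀ᶠ L in atTop, ∀ z ∈ K, f z ≤ L := by
  obtain ⟨C, h⟩ := hK.bddAbove_image fun z hz => (hf z hz).continuousWithinAt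
  filter_upwards [eventually_ge_atTop C] with L hL z hz
  exact (h (mem_image_of_mem _ hz)).trans hL

theorem evM {K : Set (V ι)} (hK : IsCompact K) {G : V ι → Mat ι} (hG : SmM G K) :
    ∀ᶠ L in atTop, ∀ z ∈ K, Bd L (G z) := by
  filter_upwards [eventually_all.2 fun i => eventually_all.2 fun j =>
    ev hK fun z hz => (hG z hz i j).continuousAt.norm] with L hL z hz i j
  exact hL i j z hz

variable [MeasurableSpace Y] [BorelSpace Y] {ν : Measure Y}

theorem cd {e : Ch ι Y} (hg : M.IsK g) (he : e ∈ M.A) :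
    ContinuousOn (fun z => (M.repF g e z).det.re) e.target := fun _ hz =>
  (continuous_re.continuousAt.comp ((hg e he).1.1.det hz).continuousAt).continuousWithinAt

theorem rr (hν : M.IsVol g ν) {e : Ch ι Y} (he : e ∈ M.A) (A : Set (V ι)) :
    ν.restrict (e.source ∩ e ⁻¹' A) = (Vol.nu e fun z =>
      ENNReal.ofReal (M.repF g e z).det.re).restrict (e.source ∩ e ⁻¹' A) := by
  rw [← Measure.restrict_restrict_of_subset inter_subset_left, hν e he]
  rfl

theorem ap (hg : M.IsK g) (hν : M.IsVol g ν) {e : Ch ι Y} (he : e ∈ M.A) {A : Set (V ι)}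
    (hA : MeasurableSet A) (h : A ⊆ e.target) :
    ν (e.source ∩ e ⁻¹' A) = ∫⁻ z in A, ENNReal.ofReal (M.repF g e z).det.re := by
  rw [← setLIntegral_one, rr hν he, Vol.nu_lint e (cd hg he) hA h]
  simp only [mul_one]

theorem lf (hg : M.IsK g) (hν : M.IsVol g ν) : IsLocallyFiniteMeasure ν := ⟨fun x => by
  obtain ⟨K, k1, k2, k3⟩ := local_compact_nhds
    ((M.ch x).open_target.mem_nhds ((M.ch x).map_source (M.mem x)))
  refine ⟨(M.ch x).source ∩ M.ch x ⁻¹' K, inter_mem ((M.ch x).open_source.mem_nhds (M.mem x))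
    ((M.ch x).continuousAt (M.mem x) k1), ?_⟩
  rw [ap hg hν (M.ch_mem x) k3.measurableSet k2]
  exact (((cd hg (M.ch_mem x)).mono k2).integrableOn_compact k3).lintegral_lt_top⟩

theorem op (hg : M.IsK g) (hν : M.IsVol g ν) : ν.IsOpenPosMeasure := ⟨fun U hU ⟨x, hx⟩ h0 => by
  have o := (M.ch x).isOpen_inter_preimage_symm hU
  have h1 : ν ((M.ch x).source ∩ M.ch x ⁻¹' ((M.ch x).target ∩ (M.ch x).symm ⁻¹' U)) = 0 :=
    measure_mono_null (fun y hy => by
      have := hy.2.2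
      rwa [mem_preimage, (M.ch x).left_inv hy.1] at this) h0
  rw [ap hg hν (M.ch_mem x) o.measurableSet inter_subset_left, lintegral_eq_zero_iff'
    (((cd hg (M.ch_mem x)).mono inter_subset_left).aemeasurable
      o.measurableSet).ennreal_ofReal] at h1
  have h2 := (h1.and (ae_restrict_mem o.measurableSet)).mono fun z hz =>
    (ENNReal.ofReal_pos.2 (Mat.det' ((hg _ (M.ch_mem x)).2 z hz.2.1)).1).ne' hz.1
  rw [eventually_false_iff_eq_bot, ae_eq_bot, Measure.restrict_eq_zero] at h2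
  exact o.measure_ne_zero volume ⟨M.ch x x, (M.ch x).map_source (M.mem x), by
    rwa [mem_preimage, (M.ch x).left_inv (M.mem x)]⟩ h2⟩

theorem int {E : Type} [NormedAddCommGroup E] [NormedSpace ℝ E] (hν : M.IsVol g ν) (k : S.κ)
    {A : Set (V ι)} (hA : MeasurableSet A) (h : A ⊆ ball 0 4) (F : Y → E) :
    ∫ y in (S.c k).source ∩ S.c k ⁻¹' A, F y ∂ν =
      ∫ z in A, (S.H (S.ty k) z).det.re • F ((S.c k).symm z) := by
  rw [rr hν (S.mem k), Vol.nu_int _ (cd S.kg (S.mem k))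
    (fun z hz => (Mat.det' ((S.kg _ (S.mem k)).2 z hz)).1) hA (S.tgt k ▸ h)]
  exact setIntegral_congr_fun hA fun z hz => by simp only [S.rep_g k z (h hz)]

theorem ov (F : Y → ℝ) (T : Finset S.κ) (A : S.κ → Set Y) (hF : Integrable F ν)
    (h0 : ∀ y, 0 ≤ F y) (hA : ∀ k, MeasurableSet (A k) ∧ A k ⊆ (S.c k).source) :
    ∑ k ∈ T, ∫ y in A k, F y ∂ν ≤ S.n * ∫ y, F y ∂ν := by
  classical
  have hi : ∀ k ∈ T, Integrable ((A k).indicator F) ν := fun k _ => hF.indicator (hA k).1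
  simp only [← integral_indicator (hA _).1]
  rw [← integral_finsetSum T hi, ← integral_const_mul]
  refine integral_mono (integrable_finsetSum T hi) (hF.const_mul _) fun y => ?_
  simp only [indicator_apply, ← Finset.sum_filter, Finset.sum_const, nsmul_eq_mul]
  exact mul_le_mul_of_nonneg_right (Nat.cast_le.2 (card S _ y fun k hk =>
    (hA k).2 (Finset.mem_filter.1 hk).2)) (h0 y)

end BA

variable {ι Y : Type} [Fintype ι] [DecidableEq ι] [TopologicalSpace Y] [MeasurableSpace Y]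
  {M : Atl ι Y} {g : Y → Mat ι} {ν : Measure Y}

theorem basA [T2Space Y] [BorelSpace Y] (S : Sh M g ν) : S.BasA where
  fin := by
    have := BA.lf S.kg S.vol
    infer_instance
  pos := BA.op S.kg S.vol
  cpt k _ hr := BA.cpt S.toSt k hr
  ms k _ hA := Vol.ms_img (S.c k) hA
  lint k A hA h F := by
    rw [BA.rr S.vol (S.mem k), Vol.nu_lint _ (BA.cd S.kg (S.mem k)) hA (S.tgt k ▸ h)]
    exact setLIntegral_congr_fun hA fun z hz => by simp only [S.rep_g k z (h hz)]
  int k _ hA h F := BA.int S.toSt S.vol k hA h F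
  intR k _ hA h F := BA.int S.toSt S.vol k hA h F
  bd r hr := by
    have hK := isCompact_closedBall (0 : V ι) r
    have s4 : closedBall (0 : V ι) r ⊆ ball 0 4 := closedBall_subset_ball hr
    have s5 : closedBall (0 : V ι) r ⊆ ball 0 5 := closedBall_subset_ball (by linarith)
    have dp : ∀ a, ∀ z ∈ ball (0 : V ι) 5, 0 < (S.H a z).det.re := fun a z hz =>
      (Mat.det' ((S.kon a).2 z hz)).1
    have dc : ∀ a, ∀ z ∈ closedBall (0 : V ι) r, ContinuousAt (fun w => (S.H a w).det.re) z :=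
      fun a z hz => continuous_re.continuousAt.comp ((S.kon a).1.1.det (s5 hz)).continuousAt
    obtain ⟨L, h1, h2⟩ := ((eventually_ge_atTop (1 : ℝ)).and (eventually_all.2 fun a =>
      (BA.evM hK ((S.kon a).1.1.mono s5)).and ((BA.evM hK (((S.kon a).1.1.inv fun z hz =>
        ((S.kon a).2 z hz).det_pos.ne').mono s5)).and ((BA.evM hK ((SmM.levi fun z hz =>
          ((S.kon a).1.1.cd hz).lg (dp a z hz).ne').neg.mono s5)).and
        ((BA.ev hK fun z hz => (S.ρ_sm a z (s4 hz)).1.continuousAt.abs).and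
          ((BA.ev hK fun z hz => (dc a z hz).inv₀ (dp a z (s5 hz)).ne').and
            (BA.ev hK (dc a)))))))).exists
    refine ⟨L, h1, fun a z hz => ?_⟩
    have hz' := mem_closedBall_zero_iff.2 hz
    obtain ⟨a1, a2, a3, a4, a5, a6⟩ := h2 a
    exact ⟨a1 z hz', a2 z hz', a3 z hz', a4 z hz',
      inv_le_of_inv_le₀ (dp a z (s5 hz')) (a5 z hz'), a6 z hz'⟩
  det := BA.det S.toSt
  ov := BA.ov S.toSt
  card := BA.card S.toSt
  exh := BA.exh S.toSt
  extR k _ hr _ hu h0 := BA.extR S.toSt k hr hu h0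
  pou := BA.pou S.toSt

end Pool.Agent.Lib.MP_813db1_ag.AN
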