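import Pool.Agent.Lib.MP_813db1_ag.AN.Stmt
import Pool.Agent.Lib.MP_813db1_ag.HS.RepA
import Pool.Agent.Lib.MP_caab05_ag.GB.Osg

/-! Sections read in the sheets. -/

namespace Pool.Agent.Lib.MP_813db1_ag.AN

open Pool.Agent.Lib.MP_813db1_ag.HS Pool.Agent.Lib.MP_813db1_ag.AS
open MeasureTheory Complex Matrix Filter Topology Set Metric
open scoped ContDiff ComplexOrder

namespace BasB

variable {ι Y : Type} [Fintype ι] [DecidableEq ι] [TopologicalSpace Y]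
  {M : Atl ι Y} {g : Y → Mat ι}

section St

variable (S : St M g)

theorem mt {k : S.κ} {y : Y} (hy : y ∈ (S.c k).source) : S.c k y ∈ ball (0 : V ι) 4 :=
  S.tgt k ▸ (S.c k).map_source hy

theorem tg (k : S.κ) {z : V ι} (hz : z ∈ ball (0 : V ι) 4) : z ∈ (S.c k).target :=
  (S.tgt k).symm ▸ hz

theorem ms (k : S.κ) {z : V ι} (hz : z ∈ ball (0 : V ι) 4) : (S.c k).symm z ∈ (S.c k).source :=
  (S.c k).map_target (tg S k hz)

theorem ri (k : S.κ) {z : V ι} (hz : z ∈ ball (0 : V ι) 4) : S.c k ((S.c k).symm z) = z :=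
  (S.c k).right_inv (tg S k hz)

theorem src (y : Y) : y ∈ (S.c (S.ch y)).source := S.ch_eq y ▸ M.mem y

theorem on_ball {k : S.κ} {P : V ι → Prop} (h : ∀ y ∈ (S.c k).source, P (S.c k y)) :
    ∀ z ∈ ball (0 : V ι) 4, P z := fun _ hz => ri S k hz ▸ h _ (ms S k hz)

end St

theorem pos (hg : M.IsK g) {e : Ch ι Y} (he : e ∈ M.A) {z : V ι} (hz : z ∈ e.target) :
    0 < (M.repF g e z).det.re := (Complex.lt_def.1 ((hg e he).2 z hz).det_pos).1

theorem pos' (hg : M.IsK g) (y : Y) : 0 < (g y).det.re :=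
  RepA.repF_self M g y ▸ pos hg (M.ch_mem y) ((M.ch y).map_source (M.mem y))

/-- the pointwise product in a chart. -/
theorem ip_chart (hg : M.IsK g) (σ τ : Y → ℂ) {e : Ch ι Y} {y : Y} (hy : y ∈ e.source) :
    ((M.repF g e (e y)).det.re : ℂ) * ip0 g σ τ y =
      M.rep 1 σ e (e y) * star (M.rep 1 τ e (e y)) := by
  have h0 : ((g y).det.re : ℂ) ≠ 0 := ofReal_ne_zero.2 (pos' hg y).ne'
  rw [RepA.repF_apply M g hy, RepA.rep_apply M 1 σ hy, RepA.rep_apply M 1 τ hy, RepA.det_pull,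
    re_ofReal_mul, ip0, pow_one, star_mul', ofReal_mul, ofReal_pow, ← mul_conj', RCLike.star_def]
  field_simp

theorem ip_sm (hg : M.IsK g) {σ τ : Y → ℂ} (hσ : M.CkS ∞ 1 σ) (hτ : M.CkS ∞ 1 τ) {e : Ch ι Y}
    (he : e ∈ M.A) {z : V ι} (hz : z ∈ e.target) :
    ContDiffAt ℝ ∞ (fun w => ip0 g σ τ (e.symm w)) z := by
  have h1 : ContDiffAt ℝ ∞ (fun w => ((M.repF g e w).det.re : ℂ)) z :=
    contDiffAt_ofReal.2 (reCLM.contDiff.contDiffAt.comp z ((hg e he).1.1.det hz))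
  have h2 : ContDiffAt ℝ ∞ (fun w => star (M.rep 1 τ e w)) z :=
    conjCLE.contDiff.contDiffAt.comp z (hτ e he z hz)
  refine (((hσ e he z hz).mul h2).mul
    (h1.inv (ofReal_ne_zero.2 (pos hg he hz).ne'))).congr_of_eventuallyEq ?_
  filter_upwards [e.open_target.mem_nhds hz] with w hw
  have h3 := ip_chart hg σ τ (e.map_target hw)
  rw [e.right_inv hw] at h3
  exact eq_div_of_mul_eq (ofReal_ne_zero.2 (pos hg he hw).ne') ((mul_comm _ _).trans h3)

theorem cont (hg : M.IsK g) {σ τ : Y → ℂ} (hσ : M.CkS ∞ 1 σ) (hτ : M.CkS ∞ 1 τ) :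
    Continuous (ip0 g σ τ) := by
  refine continuous_iff_continuousAt.2 fun x => ?_
  have hx := M.mem x
  have h1 := (ip_sm hg hσ hτ (M.ch_mem x) ((M.ch x).map_source hx)).continuousAt
  refine (h1.comp ((M.ch x).continuousAt hx)).congr ?_
  filter_upwards [(M.ch x).open_source.mem_nhds hx] with y hy
  simp only [Function.comp_apply, (M.ch x).left_inv hy]

theorem ck (hg : M.IsK g) {σ : Y → ℂ} (hσ : M.CkS ∞ 1 σ) : M.Ck ∞ (dn g σ) := by
  intro e he z hz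
  have h : fn (dn g σ) e = fun w => (((ip0 g σ σ (e.symm w)).re : ℝ) : ℂ) :=
    funext fun w => by rw [fn, ip0_self]
  rw [h]
  exact contDiffAt_ofReal.2 (reCLM.contDiff.contDiffAt.comp z (ip_sm hg hσ hσ he hz))

theorem ck_lin (a b : ℂ) {σ τ : Y → ℂ} (hσ : M.CkS ∞ 1 σ) (hτ : M.CkS ∞ 1 τ) :
    M.CkS ∞ 1 fun y => a * σ y + b * τ y := by
  intro e he z hz
  have h : M.rep 1 (fun y => a * σ y + b * τ y) e =
      fun w => a * M.rep 1 σ e w + b * M.rep 1 τ e w := funext fun w => by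
    simp only [Atl.rep]
    ring
  rw [h]
  exact (contDiffAt_const.mul (hσ e he z hz)).add (contDiffAt_const.mul (hτ e he z hz))

theorem dc_lin (a b : ℂ) {σ τ : Y → ℂ} (hσ : Dc M σ) (hτ : Dc M τ) :
    Dc M fun y => a * σ y + b * τ y :=
  ⟨ck_lin a b hσ.1 hτ.1, (hσ.2.mul_left (f := fun _ => a)).add (hτ.2.mul_left (f := fun _ => b))⟩

theorem dc_zero : Dc M fun _ => 0 := by
  refine ⟨fun e _ z _ => ?_, HasCompactSupport.zero⟩
  have h : M.rep 1 (fun _ => 0) e = fun _ => 0 := funext fun w => mul_zero _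
  rw [h]
  exact contDiffAt_const

theorem dc_sum {J : Type} (T : Finset J) (σ : J → Y → ℂ) (h : ∀ j ∈ T, Dc M (σ j)) :
    Dc M fun y => ∑ j ∈ T, σ j y := by
  classical
  induction T using Finset.induction_on with
  | empty => simpa using dc_zero
  | insert j T hj ih =>
    have h1 := dc_lin 1 1 (h j (Finset.mem_insert_self j T))
      (ih fun i hi => h i (Finset.mem_insert_of_mem hi))
    simpa only [one_mul, Finset.sum_insert hj] using h1

theorem rep_ext {e : Ch ι Y} (he : e ∈ M.A) (G : V ι → ℂ) {z : V ι} (hz : z ∈ e.target) :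
    M.rep 1 (M.ext 1 e G) e z = G z := by
  have hy := e.map_target hz
  have h := congrArg det (RepA.tj_mul M e he _ (M.ch_mem _) e he _ hy (M.mem _) hy)
  rw [RepA.tj_self M e he _ hy, det_one, det_mul] at h
  rw [Atl.rep, Atl.ext, if_pos hy, e.right_inv hz, pow_one, pow_one]
  linear_combination -G z * h

variable [MeasurableSpace Y] {ν : Measure Y} (S : Sh M g ν)

theorem tr (t : ℝ) (σ : Y → ℂ) (k l : S.κ) (y : Y) (hk : y ∈ (S.c k).source)
    (hl : y ∈ (S.c l).source) : S.rep t σ k (S.c k y) =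
    (tj (S.c k) (S.c l) y).det * cexp (t * (S.f k (S.c k y) - S.f l (S.c l y))) *
      S.rep t σ l (S.c l y) := by
  rw [Sh.rep, Sh.rep, RepA.rep_tr M 1 σ _ (S.mem k) _ (S.mem l) y hk hl, mul_sub, exp_sub, pow_one]
  have := exp_ne_zero (t * S.f l (S.c l y))
  field_simp

theorem self (t : ℝ) (σ : Y → ℂ) (y : Y) : S.rep t σ (S.ch y) (S.c (S.ch y) y) =
    σ y * cexp (t * S.f (S.ch y) (S.c (S.ch y) y)) := by
  have h := RepA.rep_self M 1 σ y
  rw [S.ch_eq y] at h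
  rw [Sh.rep, h]

theorem zero (t : ℝ) (σ : Y → ℂ) (k : S.κ) (y : Y) (hy : y ∈ (S.c k).source) :
    S.rep t σ k (S.c k y) = 0 ↔ σ y = 0 := by
  have h := RepA.tj_det M _ (S.mem k) _ (M.ch_mem y) y hy (M.mem y)
  rw [Sh.rep, RepA.rep_apply M 1 σ hy]
  simp [h]

theorem ex (t : ℝ) (k : S.κ) {z : V ι} (hz : z ∈ ball (0 : V ι) 4) :
    cexp (t * S.f k z) * star (cexp (t * S.f k z)) *
      (Real.exp (-(t * S.ρ (S.ty k) z)) : ℝ) = 1 := by
  rw [RCLike.star_def, ← exp_conj, ofReal_exp, ← exp_add, ← exp_add, add_conj, re_ofReal_mul,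
    ← (S.f_sm k z hz).2, ← ofReal_add, show 2 * (t * (S.f k z).re) + -(t * (2 * (S.f k z).re)) = 0
      by ring, ofReal_zero, exp_zero]

theorem ip (t : ℝ) (σ τ : Y → ℂ) (k : S.κ) (y : Y) (hy : y ∈ (S.c k).source) :
    ((S.H (S.ty k) (S.c k y)).det.re : ℂ) * ip0 g σ τ y =
    S.rep t σ k (S.c k y) * star (S.rep t τ k (S.c k y)) *
      (Real.exp (-(t * S.ρ (S.ty k) (S.c k y))) : ℝ) := by
  have hz := mt S.toSt hy
  rw [← S.rep_g k _ hz, ip_chart S.kg σ τ hy, Sh.rep, Sh.rep, star_mul']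
  linear_combination -(M.rep 1 σ (S.c k) (S.c k y) * star (M.rep 1 τ (S.c k) (S.c k y))) *
    ex S t k hz

theorem dn' (t : ℝ) (σ : Y → ℂ) (k : S.κ) (y : Y) (hy : y ∈ (S.c k).source) :
    (S.H (S.ty k) (S.c k y)).det.re * dn g σ y =
    ‖S.rep t σ k (S.c k y)‖ ^ 2 * Real.exp (-(t * S.ρ (S.ty k) (S.c k y))) := by
  have h := congrArg re (ip S t σ σ k y hy)
  rwa [re_ofReal_mul, ip0_self, RCLike.star_def, mul_conj', ← ofReal_pow, ← ofReal_mul,
    ofReal_re] at h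

theorem sm (t : ℝ) {σ : Y → ℂ} (hσ : M.CkS ∞ 1 σ) (k : S.κ) {z : V ι}
    (hz : z ∈ ball (0 : V ι) 4) : ContDiffAt ℝ ∞ (S.rep t σ k) z :=
  (hσ _ (S.mem k) z (tg S.toSt k hz)).mul (contDiffAt_const.mul (S.f_sm k z hz).1).cexp

theorem sm_loc (t : ℝ) (σ : Y → ℂ)
    (h : ∀ y, ∃ k, y ∈ (S.c k).source ∧ ContDiffAt ℝ ∞ (S.rep t σ k) (S.c k y)) :
    M.CkS ∞ 1 σ := by
  refine RepA.ckS_loc M ∞ 1 σ fun y => ?_
  obtain ⟨k, hk, h1⟩ := h y
  refine ⟨_, S.mem k, hk, ?_⟩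
  have e : M.rep 1 σ (S.c k) = fun z => S.rep t σ k z * cexp (-(t * S.f k z)) := funext fun z => by
    rw [Sh.rep, mul_assoc, ← exp_add, add_neg_cancel, exp_zero, mul_one]
  rw [e]
  exact h1.mul (contDiffAt_const.mul (S.f_sm k _ (mt S.toSt hk)).1).neg.cexp

theorem tr_ev (t : ℝ) (σ : Y → ℂ) {k l : S.κ} {y : Y} (hk : y ∈ (S.c k).source)
    (hl : y ∈ (S.c l).source) : S.rep t σ k =ᶠ[𝓝 (S.c k y)] fun w =>
      (jac (S.c l ∘ (S.c k).symm) w).det * cexp (t * (S.f k w - S.f l (S.c l ((S.c k).symm w)))) *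
        S.rep t σ l ((S.c l ∘ (S.c k).symm) w) :=
  (RepA.ev_src hk hl).mono fun w h => by
    have h1 := tr S t σ k l _ ((S.c k).map_target h.1) h.2
    rwa [tj, (S.c k).right_inv h.1] at h1

theorem hol_loc (t : ℝ) (σ : Y → ℂ)
    (h : ∀ y, ∃ k, y ∈ (S.c k).source ∧ DifferentiableAt ℂ (S.rep t σ k) (S.c k y)) :
    S.Hol t σ := by
  refine fun k z hz => DifferentiableAt.differentiableWithinAt
    (on_ball S.toSt (k := k) (fun y hk => ?_) z hz)
  obtain ⟨l, hl, h1⟩ := h y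
  rw [← RepA.tr_apply (S.c l) hk] at h1
  have ha := M.hol _ (S.mem k) _ (S.mem l) y hk hl
  exact (((RepA.analyticAt_det ha).differentiableAt.fun_mul
    ((S.f_hol k l y hk hl).differentiableAt.const_mul _).cexp).fun_mul
    (h1.comp _ ha.differentiableAt)).congr_of_eventuallyEq (tr_ev S t σ hk hl)

theorem hol_an (t : ℝ) (σ : Y → ℂ) (h : S.Hol t σ) :
    M.CkS ∞ 1 σ ∧ ∀ k, AnalyticOnNhd ℂ (S.rep t σ k) (ball 0 4) :=
  have h1 : ∀ k, AnalyticOnNhd ℂ (S.rep t σ k) (ball 0 4) := fun k =>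
    MP_caab05_ag.GB.osg _ _ _ _ isOpen_ball (h k)
  ⟨sm_loc S t σ fun y => ⟨_, src S.toSt y, RepA.cd_an (h1 _ _ (mt S.toSt (src S.toSt y)))⟩, h1⟩

theorem glue (t : ℝ) (F : S.κ → V ι → ℂ)
    (h : ∀ k l y, y ∈ (S.c k).source → y ∈ (S.c l).source →
      F k (S.c k y) = (tj (S.c k) (S.c l) y).det *
        cexp (t * (S.f k (S.c k y) - S.f l (S.c l y))) * F l (S.c l y)) :
    ∃ σ, ∀ k, ∀ z ∈ ball (0 : V ι) 4, S.rep t σ k z = F k z := by
  refine ⟨fun y => F (S.ch y) (S.c (S.ch y) y) * cexp (-(t * S.f (S.ch y) (S.c (S.ch y) y))),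
    fun k => on_ball S.toSt (k := k) fun y hy => ?_⟩
  rw [tr S t _ k _ y hy (src S.toSt y), self, h k _ y hy (src S.toSt y), mul_assoc (F _ _),
    ← exp_add, neg_add_cancel, exp_zero, mul_one]

theorem rep_zero (t : ℝ) {σ : Y → ℂ} (k : S.κ) {z : V ι} (h : σ ((S.c k).symm z) = 0) :
    S.rep t σ k z = 0 := by
  rw [Sh.rep, Atl.rep, h, mul_zero, zero_mul]

theorem ext_rep (t : ℝ) (k : S.κ) (w : V ι → ℂ) {z : V ι} (hz : z ∈ ball (0 : V ι) 4) :
    S.rep t (S.ext t k w) k z = w z := by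
  rw [Sh.rep, Sh.ext, rep_ext (S.mem k) _ (tg S.toSt k hz), mul_assoc, ← exp_add, neg_add_cancel,
    exp_zero, mul_one]

theorem ext_ne (t : ℝ) (k : S.κ) (w : V ι → ℂ) (y : Y) (h : S.ext t k w y ≠ 0) :
    y ∈ (S.c k).source ∧ w (S.c k y) ≠ 0 := by
  rw [Sh.ext, Atl.ext] at h
  split_ifs at h with hy
  · exact ⟨hy, left_ne_zero_of_mul (right_ne_zero_of_mul h)⟩
  · exact (h rfl).elim

theorem ext [T2Space Y] (hA : S.BasA) (t : ℝ) (k : S.κ) (r : ℝ) (hr : r < 4) (w : V ι → ℂ)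
    (hw : Tf r w) : Dc M (S.ext t k w) ∧
    (∀ z ∈ ball (0 : V ι) 4, S.rep t (S.ext t k w) k z = w z) ∧
    (∀ y, S.ext t k w y ≠ 0 → y ∈ (S.c k).source ∧ w (S.c k y) ≠ 0) ∧
    tsupport (S.ext t k w) ⊆ S.B k r := by
  have hc := hA.cpt k r hr
  have hs : tsupport (S.ext t k w) ⊆ S.B k r := closure_minimal (fun y hy =>
    ⟨(ext_ne S t k w y hy).1, mem_closedBall_zero_iff.2
      (not_lt.1 fun h => (ext_ne S t k w y hy).2 (hw.2 _ h))⟩) hc.isClosed
  refine ⟨⟨sm_loc S t _ fun y => ?_, hc.of_isClosed_subset (isClosed_tsupport _) hs⟩,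
    fun z hz => ext_rep S t k w hz, ext_ne S t k w, hs⟩
  by_cases hy : y ∈ (S.c k).source
  · refine ⟨k, hy, hw.1.contDiffAt.congr_of_eventuallyEq ?_⟩
    filter_upwards [isOpen_ball.mem_nhds (mt S.toSt hy)] with z hz using ext_rep S t k w hz
  · have h0 : ∀ᶠ x in 𝓝 y, S.ext t k w x = 0 :=
      notMem_tsupport_iff_eventuallyEq.1 fun h => hy (hs h).1
    have h1 := src S.toSt y
    refine ⟨_, h1, (contDiffAt_const (c := (0 : ℂ))).congr_of_eventuallyEq ?_⟩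
    filter_upwards [((S.c (S.ch y)).tendsto_symm h1).eventually h0] with z hz
      using rep_zero S t _ hz

theorem cut (t : ℝ) (σ : Y → ℂ) (k : S.κ) (r : ℝ) (hr : r < 4) (hσ : M.CkS ∞ 1 σ)
    (h : ∀ y, σ y ≠ 0 → y ∈ S.B k r) : Tf r ((ball (0 : V ι) 4).indicator (S.rep t σ k)) := by
  have h0 : ∀ z, r < ‖z‖ → (ball (0 : V ι) 4).indicator (S.rep t σ k) z = 0 := fun z hz => by
    refine indicator_apply_eq_zero.2 fun hb => rep_zero S t k (by_contra fun hn => ?_)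
    have h1 := (h _ hn).2
    rw [mem_preimage, ri S.toSt k hb, mem_closedBall_zero_iff] at h1
    exact hz.not_ge h1
  refine ⟨contDiff_iff_contDiffAt.2 fun z => ?_, h0⟩
  by_cases hz : z ∈ ball (0 : V ι) 4
  · refine (sm S t hσ k hz).congr_of_eventuallyEq ?_
    filter_upwards [isOpen_ball.mem_nhds hz] with w hw using indicator_of_mem hw _
  · refine (contDiffAt_const (c := (0 : ℂ))).congr_of_eventuallyEq ?_
    have h1 : r < ‖z‖ := hr.trans_le (not_lt.1 fun h => hz (mem_ball_zero_iff.2 h))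
    filter_upwards [(isOpen_lt continuous_const continuous_norm).mem_nhds h1] with w hw
      using h0 w hw

end BasB

variable {ι Y : Type} [Fintype ι] [DecidableEq ι] [TopologicalSpace Y] [MeasurableSpace Y]
  {M : Atl ι Y} {g : Y → Mat ι} {ν : Measure Y} {S : Sh M g ν}

theorem basB [T2Space Y] (hA : S.BasA) : S.BasB where
  tr := BasB.tr S
  self := BasB.self S
  zero := BasB.zero S
  ip := BasB.ip S
  dn := BasB.dn' S
  sm t _ hσ k _ hz := BasB.sm S t hσ k hz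
  sm_loc := BasB.sm_loc S
  hol_loc := BasB.hol_loc S
  hol_an := BasB.hol_an S
  glue := BasB.glue S
  lin t a b σ τ k z := by
    simp only [Sh.rep, Atl.rep]
    ring
  mul t u σ k z := by
    simp only [Sh.rep, Atl.rep]
    ring
  sum t J T σ k z := by simp only [Sh.rep, Atl.rep, Finset.mul_sum, Finset.sum_mul]
  ck_lin a b _ _ := BasB.ck_lin a b
  dc_lin a b _ _ := BasB.dc_lin a b
  dc_sum _ := BasB.dc_sum
  cont _ _ := BasB.cont S.kg
  ck _ hσ := ⟨BasB.ck S.kg hσ, RepA.cont M _ fun e he z hz =>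
    (BasB.ck S.kg hσ e he z hz).of_le (by simp)⟩
  ext := BasB.ext S hA
  cut := BasB.cut S

end Pool.Agent.Lib.MP_813db1_ag.AN
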