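import Pool.Agent.Lib.MP_813db1_ag.AN.Flat

/-! Covariance of the weighted operators under a holomorphic transition. -/

namespace Pool.Agent.Lib.MP_813db1_ag.AN

open MeasureTheory Complex Matrix Filter Topology Set Metric
open scoped ContDiff ComplexOrder
open HS HS.Div Flat

noncomputable section

variable {ι : Type} [Fintype ι] [DecidableEq ι]

/-- a transition `φ` with the factor `D` between the weights `Φ` and `Φ'`, near `z`. -/
structure Tr (φ : V ι → V ι) (D : V ι → ℂ) (Φ Φ' : V ι → ℝ) (z : V ι) : Prop where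
  an : AnalyticAt ℂ φ z
  det : (jac φ z).det ≠ 0
  anD : AnalyticAt ℂ D z
  ne : D z ≠ 0
  wt : ∀ᶠ w in 𝓝 z, Real.exp (-Φ w) * ‖D w‖ ^ 2 = ‖(jac φ w).det‖ ^ 2 * Real.exp (-Φ' (φ w))

/-- the Jacobian density. -/
def jd (φ : V ι → V ι) (z : V ι) : ℂ := ((‖(jac φ z).det‖ ^ 2 : ℝ) : ℂ)

namespace Tr

variable {φ U U' W W' A A' : V ι → V ι} {D F F' T T' c : V ι → ℂ} {Φ Φ' : V ι → ℝ} {z : V ι}
  {H H' : V ι → Mat ι}

theorem ev (h : Tr φ D Φ Φ' z) : ∀ᶠ w in 𝓝 z, Tr φ D Φ Φ' w := by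
  filter_upwards [h.an.eventually_analyticAt, (RepB.an_det h.an).continuousAt.eventually_ne h.det,
    h.anD.eventually_analyticAt, h.anD.continuousAt.eventually_ne h.ne, h.wt.eventually_nhds]
    with w a b c d e using ⟨a, b, c, d, e⟩

theorem df (h : Tr φ D Φ Φ' z) : DifferentiableAt ℝ φ z := h.an.differentiableAt.restrictScalars ℝ

theorem dfD (h : Tr φ D Φ Φ' z) : DifferentiableAt ℝ D z := h.anD.differentiableAt.restrictScalars ℝ

theorem ew_eq (h : Tr φ D Φ Φ' z) : ew Φ z * (D z * star (D z)) = jd φ z * ew Φ' (φ z) := by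
  rw [← Green.nsq, ew, ew, jd, ← ofReal_mul, h.wt.self_of_nhds, ofReal_mul]

/-- the density of the product of sections. -/
theorem p0 (h : Tr φ D Φ Φ' z) {a a' b b' : ℂ} (ea : a = D z * a') (eb : b = D z * b') :
    ew Φ z * (a * star b) = jd φ z * (ew Φ' (φ z) * (a' * star b')) := by
  rw [← mul_assoc (jd φ z), ← h.ew_eq, ea, eb, star_mul']
  ring

/-- the density of the product of vector valued sections. -/
theorem p1 (h : Tr φ D Φ Φ' z) (B : Mat ι) {a a' b b' : V ι} (ea : jac φ z *ᵥ a = D z • a')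
    (eb : jac φ z *ᵥ b = D z • b') :
    ew Φ z * ipV (pull (jac φ z) B) a b = jd φ z * (ew Φ' (φ z) * ipV B a' b') := by
  rw [(mat.pull_pd ι _ B h.det).2.2.2.2.2.2, ea, eb, Green.ipV_smul, ← mul_assoc (jd φ z),
    ← h.ew_eq]
  ring

theorem dzb_tr (h : Tr φ D Φ Φ' z) (hF : DifferentiableAt ℝ F' (φ z))
    (e : ∀ᶠ w in 𝓝 z, F w = D w * F' (φ w)) (j : ι) :
    dzb F j z = D z * ((fun p => dzb F' p (φ z)) ᵥ* (jac φ z).map star) j := by
  rw [dzb_congr e, ← RepB.dzb_vec hF h.an]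
  exact RepB.dzb_hmul h.anD (hF.comp z h.df) j

theorem shp_tr (h : Tr φ D Φ Φ' z) (hF : DifferentiableAt ℝ F' (φ z))
    (e : ∀ᶠ w in 𝓝 z, F w = D w * F' (φ w)) (e' : H z = pull (jac φ z) (H' (φ z))) :
    jac φ z *ᵥ shp H F z = D z • shp H' F' (φ z) := by
  have k : ∀ (H : V ι → Mat ι) F z, shp H F z = (fun p => dzb F p z) ᵥ* (H z)⁻¹ := fun H F z =>
    funext fun i => Finset.sum_congr rfl fun j _ => mul_comm _ _
  rw [k, k, ← RepB.vec_pull h.det (H' (φ z)), e', show (fun p => dzb F p z) = D z •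
    ((fun p => dzb F' p (φ z)) ᵥ* (jac φ z).map star) from funext (h.dzb_tr hF e), smul_vecMul,
    mulVec_smul]

theorem shp_ev (h : Tr φ D Φ Φ' z) (hF : ∀ᶠ w in 𝓝 (φ z), DifferentiableAt ℝ F' w)
    (e : ∀ᶠ w in 𝓝 z, F w = D w * F' (φ w)) (e' : ∀ᶠ w in 𝓝 z, H w = pull (jac φ w) (H' (φ w))) :
    ∀ᶠ w in 𝓝 z, jac φ w *ᵥ shp H F w = D w • shp H' F' (φ w) := by
  filter_upwards [h.ev, h.an.continuousAt.eventually hF, e.eventually_nhds, e'] with w a b c d
    using a.shp_tr b c d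

theorem vA_tr (h : Tr φ D Φ Φ' z) (eU : jac φ z *ᵥ U z = D z • U' (φ z))
    (eT : T z = D z * T' (φ z)) : jac φ z *ᵥ vA Φ U T z = jd φ z • vA Φ' U' T' (φ z) := by
  rw [vA, vA, mulVec_smul, eU, smul_smul, smul_smul, ← mul_assoc, ← h.ew_eq, eT, star_mul']
  congr 1
  ring

theorem del_tr (h : Tr φ D Φ Φ' z) (hΦ : DifferentiableAt ℝ Φ z)
    (hΦ' : DifferentiableAt ℝ Φ' (φ z)) (hU : ∀ i, DifferentiableAt ℝ (fun w => U w i) z)
    (hU' : ∀ i, DifferentiableAt ℝ (fun w => U' w i) (φ z))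
    (e : ∀ᶠ w in 𝓝 z, jac φ w *ᵥ U w = D w • U' (φ w)) : del Φ U z = D z * del Φ' U' (φ z) := by
  have d : DifferentiableAt ℝ (ew Φ') (φ z) := ofRealCLM.differentiableAt.comp _ hΦ'.neg.exp
  have k := dv_tr (W := vA Φ U D) (W' := fun w => ew Φ' w • U' w) h.an h.det
    (differentiableAt_pi.2 fun i => d.fun_mul (hU' i)) (by
      filter_upwards [h.ev, e] with w a b
      have := a.vA_tr (T := D) (T' := fun _ => 1) b (mul_one _).symm
      simpa only [vA, star_one, mul_one, jd] using this)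
  rw [dv_vA hΦ hU h.dfD, dv_ew hΦ' hU', ← mul_assoc] at k
  simp only [dzb_hol h.anD.differentiableAt, star_zero, mul_zero, Finset.sum_const_zero,
    add_zero] at k
  have n : ew Φ z * star (D z) ≠ 0 :=
    mul_ne_zero (ofReal_ne_zero.2 (Real.exp_pos _).ne') (star_ne_zero.2 h.ne)
  refine mul_left_cancel₀ n ?_
  change _ = jd φ z * _ * _ at k
  rw [← h.ew_eq] at k
  linear_combination k

theorem dm_tr (h : Tr φ D Φ Φ' z) (hU : ∀ i, DifferentiableAt ℝ (fun w => U w i) z)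
    (hU' : ∀ i, DifferentiableAt ℝ (fun w => U' w i) (φ z))
    (e : ∀ᶠ w in 𝓝 z, jac φ w *ᵥ U w = D w • U' (φ w)) :
    jac φ z * BK.dm U z = D z • (BK.dm U' (φ z) * (jac φ z).map star) := by
  ext p k
  have := dzb_congr (f := fun w => ∑ i, jac φ w p i * U w i)
    (g := fun w => D w * ((fun w => U' w p) ∘ φ) w) (e.mono fun w q => congrFun q p) k
  rw [dzb_sum _ fun i _ => ((RepB.an_sm (n := 1) (analyticAt_jac h.an p i)).differentiableAt
    one_ne_zero).fun_mul (hU i), RepB.dzb_hmul h.anD ((hU' p).comp z h.df),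
    RepB.dzb_vec (hU' p) h.an] at this
  simp only [fun i => RepB.dzb_hmul (analyticAt_jac h.an p i) (hU i) k] at this
  exact this

theorem vB_tr (h : Tr φ D Φ Φ' z) (eU : jac φ z *ᵥ U z = D z • U' (φ z))
    (hW : ∀ i, DifferentiableAt ℝ (fun w => W w i) z)
    (hW' : ∀ i, DifferentiableAt ℝ (fun w => W' w i) (φ z))
    (e : ∀ᶠ w in 𝓝 z, jac φ w *ᵥ W w = D w • W' (φ w)) :
    jac φ z *ᵥ vB Φ U W z = jd φ z • vB Φ' U' W' (φ z) := by
  have k2 : (jac φ z).map star *ᵥ star (U z) = star (D z) • star (U' (φ z)) := by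
    rw [← star_smul, ← eU]
    funext p
    simp [mulVec, dotProduct]
  rw [vB, vB, mulVec_smul, mulVec_mulVec, h.dm_tr hW hW' e, smul_mulVec, ← mulVec_mulVec, k2,
    mulVec_smul, smul_smul, smul_smul, smul_smul, ← h.ew_eq, mul_assoc]

theorem nD_tr (h : Tr φ D Φ Φ' z) (hU : ∀ i, DifferentiableAt ℝ (fun w => U w i) z)
    (hU' : ∀ i, DifferentiableAt ℝ (fun w => U' w i) (φ z))
    (e : ∀ᶠ w in 𝓝 z, jac φ w *ᵥ U w = D w • U' (φ w)) (e' : H z = pull (jac φ z) (H' (φ z))) :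
    Real.exp (-Φ z) * nD H U z =
      ‖(jac φ z).det‖ ^ 2 * (Real.exp (-Φ' (φ z)) * nD H' U' (φ z)) := by
  rw [RepB.nD_loc h.an h.det h.anD hU hU' e e', ← mul_assoc, h.wt.self_of_nhds, mul_assoc]

theorem phi_ev (h : Tr φ D Φ Φ' z) : (fun w => (Φ w : ℂ)) =ᶠ[𝓝 z] fun w =>
    ((fun y => (Φ' y : ℂ)) ∘ φ) w + (RepB.lm D w - RepB.lm (fun y => (jac φ y).det) w) := by
  filter_upwards [h.ev] with w a
  have := congrArg Real.log a.wt.self_of_nhds
  rw [Real.log_mul (Real.exp_pos _).ne' (by simpa using a.ne),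
    Real.log_mul (by simpa using a.det) (Real.exp_pos _).ne', Real.log_exp, Real.log_exp] at this
  simp only [RepB.lm, Function.comp]
  rw [← ofReal_sub, ← ofReal_add]
  congr 1
  linarith

theorem cd_phi {n : WithTop ℕ∞} (h : Tr φ D Φ Φ' z) (hΦ' : ContDiffAt ℝ n Φ' (φ z)) :
    ContDiffAt ℝ n Φ z :=
  contDiffAt_ofReal.1 ((((contDiffAt_ofReal.2 hΦ').comp z (RepB.an_sm h.an)).add
    ((RepB.sm_lm h.anD h.ne).sub (RepB.sm_lm (RepB.an_det h.an) h.det))).congr_of_eventuallyEq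
      h.phi_ev)

theorem levi_tr (h : Tr φ D Φ Φ' z) (hΦ' : ContDiffAt ℝ 2 Φ' (φ z)) :
    levi (fun w => (Φ w : ℂ)) z = pull (jac φ z) (levi (fun w => (Φ' w : ℂ)) (φ z)) := by
  have c := contDiffAt_ofReal.2 hΦ'
  have c1 := RepB.sm_lm (n := 2) h.anD h.ne
  have c2 := RepB.sm_lm (n := 2) (RepB.an_det h.an) h.det
  rw [levi_congr h.phi_ev, levi_add (c.comp z (RepB.an_sm h.an)) (c1.sub c2), levi_sub c1 c2,
    RepB.levi_lm h.anD h.ne, RepB.levi_lm (RepB.an_det h.an) h.det, levi_comp c h.an, sub_zero,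
    add_zero]

end Tr

/-- the pairing of the differential of a function with a vector density. -/
theorem pair_tr {φ : V ι → V ι} {c c' : V ι → ℂ} {z a a' : V ι} {s : ℂ} (h : AnalyticAt ℂ φ z)
    (hc : DifferentiableAt ℝ c' (φ z)) (e : ∀ᶠ w in 𝓝 z, c w = c' (φ w))
    (ea : jac φ z *ᵥ a = s • a') : ∑ i, dz c i z * a i = s * ∑ i, dz c' i (φ z) * a' i := by
  have k : ∀ i, dz c i z = ((fun p => dz c' p (φ z)) ᵥ* jac φ z) i := fun i =>
    (dz_congr (g := c' ∘ φ) e i).trans (RepB.dz_vec hc h i)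
  simp only [k]
  change _ ⬝ᵥ a = s * ((fun p => dz c' p (φ z)) ⬝ᵥ a')
  rw [← dotProduct_mulVec, ea, dotProduct_smul, smul_eq_mul]

/-- change of variables. -/
theorem int_tr {E : Type} [NormedAddCommGroup E] [NormedSpace ℝ E] {φ : V ι → V ι} {S : Set (V ι)}
    (hS : MeasurableSet S) (h : ∀ z ∈ S, DifferentiableAt ℂ φ z) (hi : InjOn φ S) (g : V ι → E) :
    ∫ y in φ '' S, g y = ∫ z in S, ‖(jac φ z).det‖ ^ 2 • g (φ z) := by
  rw [integral_image_eq_integral_abs_det_fderiv_smul volume hS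
    (fun z hz => ((h z hz).hasFDerivAt.restrictScalars ℝ).hasFDerivWithinAt) hi]
  simp only [Vol.det_real, abs_pow, abs_norm]

theorem lint_tr {φ : V ι → V ι} {S : Set (V ι)} (hS : MeasurableSet S)
    (h : ∀ z ∈ S, DifferentiableAt ℂ φ z) (hi : InjOn φ S) (g : V ι → ENNReal) :
    ∫⁻ y in φ '' S, g y = ∫⁻ z in S, ENNReal.ofReal (‖(jac φ z).det‖ ^ 2) * g (φ z) := by
  rw [lintegral_image_eq_lintegral_abs_det_fderiv_mul volume hS
    (fun z hz => ((h z hz).hasFDerivAt.restrictScalars ℝ).hasFDerivWithinAt) hi]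
  simp only [Vol.det_real, abs_pow, abs_norm]

end

end Pool.Agent.Lib.MP_813db1_ag.AN
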