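import Pool.Agent.Lib.MP_813db1_ag.AN.Stmt
import Pool.Agent.Lib.MP_813db1_ag.AN.Tr

/-! The differential operators on the sheets. -/

namespace Pool.Agent.Lib.MP_813db1_ag.AN

open Pool.Agent.Lib.MP_813db1_ag.HS Pool.Agent.Lib.MP_813db1_ag.AS
open MeasureTheory Complex Matrix Filter Topology Set Metric
open scoped ContDiff ComplexOrder

noncomputable section

namespace BasC

variable {ι Y : Type} [Fintype ι] [DecidableEq ι] [TopologicalSpace Y] [MeasurableSpace Y]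
  {M : Atl ι Y} {g : Y → Mat ι} {ν : Measure Y} (S : Sh M g ν) {k l : S.κ} {y : Y} {z : V ι}

theorem del_lin {Φ : V ι → ℝ} {U U' : V ι → V ι} (a b : ℂ)
    (hU : ∀ i, DifferentiableAt ℝ (fun w => U w i) z)
    (hU' : ∀ i, DifferentiableAt ℝ (fun w => U' w i) z) :
    Flat.del Φ (fun w => a • U w + b • U' w) z = a * Flat.del Φ U z + b * Flat.del Φ U' z := by
  simp only [Flat.del, Pi.add_apply, Pi.smul_apply, smul_eq_mul, Finset.mul_sum,
    ← Finset.sum_add_distrib]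
  refine Finset.sum_congr rfl fun i _ => ?_
  rw [dz_add ((hU i).const_mul a) ((hU' i).const_mul b), dz_cmul a (hU i), dz_cmul b (hU' i)]
  ring

theorem shp_lin {H : V ι → Mat ι} {F F' : V ι → ℂ} (a b : ℂ) (hF : DifferentiableAt ℝ F z)
    (hF' : DifferentiableAt ℝ F' z) :
    shp H (fun w => a * F w + b * F' w) z = a • shp H F z + b • shp H F' z := by
  funext i
  simp only [shp, Pi.add_apply, Pi.smul_apply, smul_eq_mul, Finset.mul_sum,
    ← Finset.sum_add_distrib]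
  refine Finset.sum_congr rfl fun j _ => ?_
  rw [dzb_add (hF.const_mul a) (hF'.const_mul b), dzb_cmul a hF, dzb_cmul b hF']
  ring

theorem shp_zero {H : V ι → Mat ι} {F : V ι → ℂ} (h : F =ᶠ[𝓝 z] fun _ => 0) :
    shp H F =ᶠ[𝓝 z] fun _ => 0 := by
  filter_upwards [h.eventually_nhds] with w hw
  funext i
  simp [shp, fun j => dzb_congr hw j, dzb_const]

/-- the change of coordinates. -/
def ph (k l : S.κ) : V ι → V ι := S.c l ∘ (S.c k).symm

/-- the transition function. -/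
def D (t : ℝ) (k l : S.κ) (w : V ι) : ℂ :=
  (jac (ph S k l) w).det * cexp (t * (S.f k w - S.f l (ph S k l w)))

variable {S}

theorem mb (hk : y ∈ (S.c k).source) : S.c k y ∈ ball (0 : V ι) 4 :=
  S.tgt k ▸ (S.c k).map_source hk

theorem tg (hz : z ∈ ball (0 : V ι) 4) : z ∈ (S.c k).target := (S.tgt k).symm ▸ hz

theorem src (y : Y) : y ∈ (S.c (S.ch y)).source := S.ch_eq y ▸ M.mem y

theorem ph_pt (hk : y ∈ (S.c k).source) : ph S k l (S.c k y) = S.c l y := RepB.tr_pt hk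

theorem D_pt (t : ℝ) (hk : y ∈ (S.c k).source) : D S t k l (S.c k y) =
    (tj (S.c k) (S.c l) y).det * cexp (t * (S.f k (S.c k y) - S.f l (S.c l y))) := by
  rw [D, ph_pt hk]
  rfl

theorem kon (a : Fin S.n) : KOn (S.H a) (ball 0 4) := by
  have h : ball (0 : V ι) 4 ⊆ ball 0 5 := ball_subset_ball (by norm_num)
  exact ⟨⟨(S.kon a).1.1.mono h, fun z hz => (S.kon a).1.2.1 z (h hz),
    fun z hz => (S.kon a).1.2.2 z (h hz)⟩, fun z hz => (S.kon a).2 z (h hz)⟩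

/-- near a common point, the points of the chart come from common points. -/
theorem ev (hk : y ∈ (S.c k).source) (hl : y ∈ (S.c l).source) : ∀ᶠ w in 𝓝 (S.c k y),
    ∃ x ∈ (S.c k).source, x ∈ (S.c l).source ∧ S.c k x = w :=
  (RepB.ev hk hl).mono fun _ h => ⟨_, (S.c k).map_target h.1, h.2, (S.c k).right_inv h.1⟩

theorem tr (t : ℝ) (ψ : Y → ℝ) (hk : y ∈ (S.c k).source) (hl : y ∈ (S.c l).source) :
    Tr (ph S k l) (D S t k l) (S.Φ t ψ k) (S.Φ t ψ l) (S.c k y) := by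
  have an : AnalyticAt ℂ (ph S k l) (S.c k y) := M.hol _ (S.mem k) _ (S.mem l) y hk hl
  have hd : (jac (ph S k l) (S.c k y)).det ≠ 0 :=
    (AY.repA' ι Y M).tj_det _ (S.mem k) _ (S.mem l) y hk hl
  refine ⟨an, hd, (RepB.an_det an).mul (analyticAt_const.mul (S.f_hol k l y hk hl)).cexp,
    mul_ne_zero hd (exp_ne_zero _), ?_⟩
  filter_upwards [ev hk hl] with w ⟨x, h1, h2, e⟩
  subst e
  have e1 := (S.f_sm k _ (mb h1)).2
  have e2 := (S.f_sm l _ (mb h2)).2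
  rw [D, ph_pt h1, norm_mul, mul_pow, norm_exp, re_ofReal_mul, sub_re, mul_left_comm,
    ← Real.exp_nat_mul, ← Real.exp_add, Sh.Φ, Sh.Φ, (S.c k).left_inv h1, (S.c l).left_inv h2,
    ← e1, ← e2]
  congr 2
  push_cast
  ring

theorem rep_ev (hB : S.BasB) (t : ℝ) (σ : Y → ℂ) (hk : y ∈ (S.c k).source)
    (hl : y ∈ (S.c l).source) :
    ∀ᶠ w in 𝓝 (S.c k y), S.rep t σ k w = D S t k l w * S.rep t σ l (ph S k l w) := by
  filter_upwards [ev hk hl] with w ⟨x, h1, h2, e⟩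
  subst e
  rw [D_pt t h1, ph_pt h1, hB.tr t σ k l x h1 h2]

theorem H_pt (hk : y ∈ (S.c k).source) (hl : y ∈ (S.c l).source) : S.H (S.ty k) (S.c k y) =
    pull (jac (ph S k l) (S.c k y)) (S.H (S.ty l) (ph S k l (S.c k y))) := by
  rw [ph_pt hk, ← S.rep_g k _ (mb hk), ← S.rep_g l _ (mb hl)]
  exact (AY.repA' ι Y M).repF_tr g _ (S.mem k) _ (S.mem l) y hk hl

theorem H_ev (hk : y ∈ (S.c k).source) (hl : y ∈ (S.c l).source) : ∀ᶠ w in 𝓝 (S.c k y),
    S.H (S.ty k) w = pull (jac (ph S k l) w) (S.H (S.ty l) (ph S k l w)) := by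
  filter_upwards [ev hk hl] with w ⟨x, h1, h2, e⟩
  subst e
  exact H_pt h1 h2

theorem shp_ev (hB : S.BasB) (t : ℝ) {σ : Y → ℂ} (hσ : M.CkS ∞ 1 σ) (hk : y ∈ (S.c k).source)
    (hl : y ∈ (S.c l).source) : ∀ᶠ w in 𝓝 (S.c k y),
      jac (ph S k l) w *ᵥ shp (S.H (S.ty k)) (S.rep t σ k) w =
        D S t k l w • shp (S.H (S.ty l)) (S.rep t σ l) (ph S k l w) := by
  refine (tr t 0 hk hl).shp_ev ?_ (rep_ev hB t σ hk hl) (H_ev hk hl)
  rw [ph_pt hk]
  exact eventually_diff ((hB.sm t σ hσ l _ (mb hl)).of_le (by norm_cast))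

theorem cd_shp (hB : S.BasB) (t : ℝ) {σ : Y → ℂ} (hσ : M.CkS ∞ 1 σ) (hz : z ∈ ball (0 : V ι) 4)
    (i : ι) : ContDiffAt ℝ ∞ (fun w => shp (S.H (S.ty k)) (S.rep t σ k) w i) z :=
  Green.cd_shp ((kon _).1.1.cd hz) (Green.det_ne ((kon _).2 z hz)) (hB.sm t σ hσ k z hz)
    (by simp) i

theorem cd_Φ (t : ℝ) {ψ : Y → ℝ} (hψ : M.Ck ∞ ψ) (hz : z ∈ ball (0 : V ι) 4) :
    ContDiffAt ℝ ∞ (S.Φ t ψ k) z :=
  (contDiffAt_const.mul (S.ρ_sm _ z hz).1).add (contDiffAt_ofReal.1 (hψ _ (S.mem k) z (tg hz)))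

theorem box (hB : S.BasB) (t : ℝ) {ψ : Y → ℝ} {σ : Y → ℂ} (hψ : M.Ck ∞ ψ) (hσ : M.CkS ∞ 1 σ)
    (hz : z ∈ ball (0 : V ι) 4) :
    S.rep t (S.box t ψ σ) k z = bx (S.Φ t ψ k) (S.H (S.ty k)) (S.rep t σ k) z := by
  obtain ⟨y, hk, rfl⟩ : ∃ y ∈ (S.c k).source, S.c k y = z :=
    ⟨_, (S.c k).map_target (tg hz), (S.c k).right_inv (tg hz)⟩
  have hl := src (S := S) y
  have e := (tr t ψ hk hl).del_tr ((cd_Φ t hψ hz).differentiableAt (by simp))
    (by rw [ph_pt hk]; exact (cd_Φ t hψ (mb hl)).differentiableAt (by simp))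
    (fun i => (cd_shp hB t hσ hz i).differentiableAt (by simp))
    (fun i => by rw [ph_pt hk]; exact (cd_shp hB t hσ (mb hl) i).differentiableAt (by simp))
    (shp_ev hB t hσ hk hl)
  rw [hB.tr t _ k _ y hk hl, hB.self, ← D_pt t hk, Sh.box, mul_assoc (bx _ _ _ _), ← exp_add,
    neg_add_cancel, exp_zero, mul_one]
  rw [ph_pt hk] at e
  exact e.symm

theorem shp_pt (hB : S.BasB) (t : ℝ) {σ : Y → ℂ} (hσ : M.CkS ∞ 1 σ) (hk : y ∈ (S.c k).source)
    (hl : y ∈ (S.c l).source) :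
    tj (S.c k) (S.c l) y *ᵥ shp (S.H (S.ty k)) (S.rep t σ k) (S.c k y) =
      D S t k l (S.c k y) • shp (S.H (S.ty l)) (S.rep t σ l) (S.c l y) := by
  have := (shp_ev hB t hσ hk hl).self_of_nhds
  rwa [ph_pt hk] at this

theorem ex_star (t : ℝ) (hz : z ∈ ball (0 : V ι) 4) :
    cexp (-(t * S.f k z)) * star (cexp (-(t * S.f k z))) =
      (Real.exp (-(t * S.ρ (S.ty k) z)) : ℝ) := by
  rw [← Green.nsq, norm_exp, neg_re, re_ofReal_mul, ← Real.exp_nat_mul, ← (S.f_sm k z hz).2]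
  congr 2
  push_cast
  ring

theorem ip1 (hA : S.BasA) (hB : S.BasB) (t : ℝ) (B : Y → Mat ι) {σ τ : Y → ℂ} (hσ : M.CkS ∞ 1 σ)
    (hτ : M.CkS ∞ 1 τ) (hk : y ∈ (S.c k).source) :
    ((S.H (S.ty k) (S.c k y)).det.re : ℂ) * S.ip1 t B σ τ y =
      ipV (M.repF B (S.c k) (S.c k y)) (shp (S.H (S.ty k)) (S.rep t σ k) (S.c k y))
        (shp (S.H (S.ty k)) (S.rep t τ k) (S.c k y)) *
          (Real.exp (-(t * S.ρ (S.ty k) (S.c k y))) : ℝ) := by
  have hl := src (S := S) y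
  have e := (tr t 0 hk hl).p1 (B y) (shp_pt hB t hσ hk hl) (shp_pt hB t hτ hk hl)
  have e1 := Green.det_rep (AY.repA' ι Y M) mat g (S.mem k) hk
  have n : (((g y).det.re : ℝ) : ℂ) ≠ 0 := ofReal_ne_zero.2 (hA.det y).2.1.ne'
  rw [S.rep_g k _ (mb hk), S.ch_eq] at e1
  simp only [Flat.ew, Sh.Φ, Pi.zero_apply, add_zero, ph_pt hk] at e
  rw [Green.repF_eq B hk, S.ch_eq, mul_comm (ipV _ _ _), e1, Sh.ip1, Sh.U, Sh.U, Green.ipV_smul,
    ex_star t (mb hl), ofReal_mul, mul_assoc, mul_div_cancel₀ _ n]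
  exact e.symm

theorem cont (hA : S.BasA) (hB : S.BasB) (t : ℝ) {B : Y → Mat ι} {σ τ : Y → ℂ} (hF : M.SmF B)
    (hσ : M.CkS ∞ 1 σ) (hτ : M.CkS ∞ 1 τ) : Continuous (S.ip1 t B σ τ) := by
  refine continuous_iff_continuousAt.2 fun y => ?_
  have hk := src (S := S) y
  generalize S.ch y = k at hk
  have hz := mb hk
  have p : ∀ z ∈ ball (0 : V ι) 4, (((S.H (S.ty k) z).det.re : ℝ) : ℂ) ≠ 0 := fun z hz =>
    ofReal_ne_zero.2 (Green.det_pos ((kon _).2 z hz)).ne'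
  have c : ContinuousAt (fun z => ipV (M.repF B (S.c k) z) (shp (S.H (S.ty k)) (S.rep t σ k) z)
      (shp (S.H (S.ty k)) (S.rep t τ k) z) * (Real.exp (-(t * S.ρ (S.ty k) z)) : ℝ) /
        ((S.H (S.ty k) z).det.re : ℂ)) (S.c k y) :=
    ((Green.cd_ipV (((hF _ (S.mem k)).cd (tg hz)).of_le zero_le)
      (fun i => (cd_shp hB t hσ hz i).of_le zero_le)
      fun i => (cd_shp hB t hτ hz i).of_le zero_le).continuousAt.mul
      (continuous_ofReal.continuousAt.comp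
        (continuousAt_const.mul (S.ρ_sm _ _ hz).1.continuousAt).neg.rexp)).div
      (continuous_ofReal.continuousAt.comp (continuous_re.continuousAt.comp
        ((kon _).1.1.det hz).continuousAt)) (p _ hz)
  refine (c.comp ((S.c k).continuousAt hk)).congr ?_
  filter_upwards [(S.c k).open_source.mem_nhds hk] with x hx
  rw [Function.comp, ← ip1 hA hB t B hσ hτ hx, mul_div_cancel_left₀ _ (p _ (mb hx))]

theorem off (t : ℝ) (ψ : Y → ℝ) {σ : Y → ℂ} (h : ∀ᶠ x in 𝓝 y, σ x = 0) :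
    S.box t ψ σ y = 0 ∧ S.U t σ y = 0 := by
  have hk := src (S := S) y
  have e : S.rep t σ (S.ch y) =ᶠ[𝓝 (S.c (S.ch y) y)] fun _ => 0 := by
    have c := (S.c (S.ch y)).continuousAt_symm ((S.c (S.ch y)).map_source hk)
    rw [ContinuousAt, (S.c (S.ch y)).left_inv hk] at c
    filter_upwards [c.eventually h] with w hw
    rw [Sh.rep, Atl.rep, hw, mul_zero, zero_mul]
  have e2 := shp_zero (H := S.H (S.ty (S.ch y))) e
  constructor
  · have : bx (S.Φ t ψ (S.ch y)) (S.H (S.ty (S.ch y))) (S.rep t σ (S.ch y)) (S.c (S.ch y) y) = 0 :=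
      (Flat.del_congr e2).trans (Flat.del_zero _ _)
    rw [Sh.box, this, zero_mul]
  · rw [Sh.U, e2.self_of_nhds, smul_zero]

theorem dc (hB : S.BasB) (t : ℝ) {ψ : Y → ℝ} {σ : Y → ℂ} (hψ : M.Ck ∞ ψ) (hσ : Dc M σ) :
    Dc M (S.box t ψ σ) := by
  refine ⟨hB.sm_loc t _ fun y => ⟨_, src y, ?_⟩, hσ.2.mono' fun y hy => ?_⟩
  · have hz := mb (src (S := S) y)
    refine (Flat.cd_del (n := ∞) (by simp) (cd_Φ (k := S.ch y) t hψ hz)
      (cd_shp (k := S.ch y) hB t hσ.1 hz)).congr_of_eventuallyEq ?_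
    filter_upwards [isOpen_ball.mem_nhds hz] with w hw using box hB t hψ hσ.1 hw
  · by_contra hn
    exact hy (off t ψ (notMem_tsupport_iff_eventuallyEq.1 hn)).1

theorem lin (hB : S.BasB) (t : ℝ) (ψ : Y → ℝ) (a b : ℂ) {σ τ : Y → ℂ} (y : Y) (hσ : M.CkS ∞ 1 σ)
    (hτ : M.CkS ∞ 1 τ) :
    S.box t ψ (fun x => a * σ x + b * τ x) y = a * S.box t ψ σ y + b * S.box t ψ τ y ∧
      S.U t (fun x => a * σ x + b * τ x) y = a • S.U t σ y + b • S.U t τ y := by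
  have hz := mb (src (S := S) y)
  have e : S.rep t (fun x => a * σ x + b * τ x) (S.ch y) =
      fun w => a * S.rep t σ (S.ch y) w + b * S.rep t τ (S.ch y) w := funext (hB.lin t a b σ τ _)
  have e2 : shp (S.H (S.ty (S.ch y))) (S.rep t (fun x => a * σ x + b * τ x) (S.ch y))
      =ᶠ[𝓝 (S.c (S.ch y) y)] fun w => a • shp (S.H (S.ty (S.ch y))) (S.rep t σ (S.ch y)) w +
        b • shp (S.H (S.ty (S.ch y))) (S.rep t τ (S.ch y)) w := by
    filter_upwards [isOpen_ball.mem_nhds hz] with w hw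
    rw [e, shp_lin a b ((hB.sm t σ hσ _ w hw).differentiableAt (by simp))
      ((hB.sm t τ hτ _ w hw).differentiableAt (by simp))]
  constructor
  · have := (Flat.del_congr (Φ := S.Φ t ψ (S.ch y)) e2).trans (del_lin a b
      (fun i => (cd_shp hB t hσ hz i).differentiableAt (by simp))
      fun i => (cd_shp hB t hτ hz i).differentiableAt (by simp))
    change Flat.del _ _ _ * _ = a * (Flat.del _ _ _ * _) + b * (Flat.del _ _ _ * _)
    rw [this]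
    ring
  · rw [Sh.U, Sh.U, Sh.U, e2.self_of_nhds, smul_add, smul_comm a, smul_comm b]

theorem levi1 (t : ℝ) {ψ : Y → ℝ} (hψ : M.Ck ∞ ψ) (hz : z ∈ ball (0 : V ι) 4) :
    levi (fun w => (S.Φ t ψ k w : ℂ)) z = (t : ℂ) • S.H (S.ty k) z + levi (fn ψ (S.c k)) z := by
  have c1 : ContDiffAt ℝ 2 (fun w => (S.ρ (S.ty k) w : ℂ)) z :=
    contDiffAt_ofReal.2 ((S.ρ_sm _ z hz).1.of_le (by norm_cast))
  have e : (fun w => (S.Φ t ψ k w : ℂ)) =
      fun w => t * (S.ρ (S.ty k) w : ℂ) + fn ψ (S.c k) w := funext fun w => by simp [Sh.Φ, fn]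
  rw [e, levi_add (contDiffAt_const.mul c1) ((hψ _ (S.mem k) z (tg hz)).of_le (by norm_cast)),
    levi_cmul _ c1, (S.ρ_sm _ z hz).2]

theorem levi2 (t : ℝ) {ψ : Y → ℝ} (hψ : M.Ck ∞ ψ) (hz : z ∈ ball (0 : V ι) 4) :
    levi (fun w => (S.Φ t ψ k w : ℂ)) z =
      M.repF (fun y => (t : ℂ) • g y + M.ddc ψ y) (S.c k) z := by
  have h := (AY.repB' ι Y M).ddc_rep ψ _ (S.mem k) _ ((S.c k).map_target (tg hz))
  rw [(S.c k).right_inv (tg hz)] at h
  rw [levi1 t hψ hz, ← h ((hψ _ (S.mem k) z (tg hz)).of_le (by norm_cast)), ← S.rep_g k z hz]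
  simp only [Atl.repF, pull, Matrix.mul_add, Matrix.add_mul, Matrix.mul_smul, Matrix.smul_mul]

theorem psd (B : Y → Mat ι) (hk : y ∈ (S.c k).source) :
    (M.repF B (S.c k) (S.c k y)).PosSemidef ↔ (B y).PosSemidef := by
  have ha := AY.repA' ι Y M
  constructor
  · intro h
    rw [← ha.repF_self B y, ha.repF_tr B _ (M.ch_mem y) _ (S.mem k) y (M.mem y) hk]
    exact (mat.pull_pd ι _ _ (ha.tj_det _ (M.ch_mem y) _ (S.mem k) y (M.mem y) hk)).2.1 h
  · intro h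
    rw [Green.repF_eq B hk]
    exact (mat.pull_pd ι _ _ (Green.tj_ne ha (S.mem k) hk)).2.1 h

end BasC

theorem basC {ι Y : Type} [Fintype ι] [DecidableEq ι] [TopologicalSpace Y] [MeasurableSpace Y]
    {M : Atl ι Y} {g : Y → Mat ι} {ν : Measure Y} (S : Sh M g ν) (hA : S.BasA) (hB : S.BasB) :
    S.BasC where
  box t _ _ hψ hσ _ _ hz := BasC.box hB t hψ hσ hz
  shp t _ hσ _ _ _ hk hl := BasC.D_pt t hk ▸ BasC.shp_pt hB t hσ hk hl
  ip1 t B _ _ hσ hτ _ _ hk := BasC.ip1 hA hB t B hσ hτ hk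
  cont t _ _ _ hF hσ hτ := BasC.cont hA hB t hF hσ hτ
  nn t B σ y h := by
    rw [Sh.ip1, div_ofReal_re]
    exact div_nonneg (mat.nv_mono ι _ _ h) (hA.det y).2.1.le
  off t ψ _ _ h := BasC.off t ψ h
  dc t _ _ hψ hσ := BasC.dc hB t hψ hσ
  lin t ψ a b _ _ y hσ hτ := BasC.lin hB t ψ a b y hσ hτ
  levi t _ hψ _ _ hz := ⟨BasC.cd_Φ t hψ hz, BasC.levi1 t hψ hz, BasC.levi2 t hψ hz⟩
  psd B _ _ hk := BasC.psd B hk

end

end Pool.Agent.Lib.MP_813db1_ag.AN
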