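import Pool.Agent.Lib.MP_813db1_ag.AN.Stmt
import Pool.Agent.Lib.MP_bbd4b9_ag.KC.Mean

set_option linter.unusedSectionVars false

/-! Mean value inequalities for sections. -/

namespace Pool.Agent.Lib.MP_813db1_ag.AN

open Pool.Agent.Lib.MP_813db1_ag.HS Pool.Agent.Lib.MP_813db1_ag.AS
open MeasureTheory Complex Matrix Filter Topology Set Metric
open scoped ContDiff ComplexOrder ENNReal

namespace BD

variable {ι Y : Type} [Fintype ι] [DecidableEq ι]

/-- the mean value inequality with real integrals. -/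
theorem mean {f : V ι → ℂ} {z : V ι} {r : ℝ} (hr : 0 < r)
    (hf : AnalyticOnNhd ℂ f (closedBall z r)) :
    ‖f z‖ ^ 2 * r ^ (2 * Fintype.card ι) ≤ ∫ w in closedBall z r, ‖f w‖ ^ 2 := by
  have h2 := MP_bbd4b9_ag.KC.meanS ι z r f hr hf
  have hi : IntegrableOn (fun w => ‖f w‖ ^ 2) (closedBall z r) :=
    (hf.continuousOn.norm.pow 2).integrableOn_compact (isCompact_closedBall z r)
  have h3 : ∫⁻ w in closedBall z r, ‖f w‖ₑ ^ 2 =
      ENNReal.ofReal (∫ w in closedBall z r, ‖f w‖ ^ 2) := by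
    rw [ofReal_integral_eq_lintegral_ofReal hi (Eventually.of_forall fun _ => sq_nonneg _)]
    simp only [ENNReal.ofReal_pow (norm_nonneg _), ofReal_norm]
  rw [h3, ← ofReal_norm, ← ENNReal.ofReal_pow (norm_nonneg _),
    ← ENNReal.ofReal_mul (sq_nonneg _)] at h2
  refine le_trans ?_ ((ENNReal.ofReal_le_ofReal_iff (integral_nonneg fun _ => sq_nonneg _)).1 h2)
  rw [pow_mul]
  gcongr
  exact le_mul_of_one_le_left (sq_nonneg _) (by linarith [Real.pi_gt_three])

variable [TopologicalSpace Y] [MeasurableSpace Y] {M : Atl ι Y} {g : Y → Mat ι} {ν : Measure Y}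
  {S : Sh M g ν}

theorem nn (hA : S.BasA) (σ : Y → ℂ) (y : Y) : 0 ≤ dn g σ y :=
  div_nonneg (sq_nonneg _) (hA.det y).2.1.le

theorem mv (hA : S.BasA) (hB : S.BasB) (t : ℝ) : ∃ C ≥ (0 : ℝ), ∀ σ k (z : V ι) (τ : ℝ), 0 < τ →
    τ ≤ 1 / 2 → ‖z‖ ≤ 3 → AnalyticOnNhd ℂ (S.rep t σ k) (closedBall z τ) →
    dn g σ ((S.c k).symm z) * τ ^ (2 * Fintype.card ι) ≤
      C * ∫ y in (S.c k).source ∩ S.c k ⁻¹' closedBall z τ, dn g σ y ∂ν := by
  obtain ⟨L, hL, hb⟩ := hA.bd (7 / 2) (by norm_num)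
  refine ⟨L * Real.exp (|t| * L) * Real.exp (|t| * L), by positivity,
    fun σ k z τ h0 h1 hz ha => ?_⟩
  have s1 : ∀ w ∈ closedBall z τ, ‖w‖ ≤ 7 / 2 := fun w hw => by
    linarith [norm_le_norm_add_norm_sub' w z, mem_closedBall_iff_norm.1 hw]
  have s2 : closedBall z τ ⊆ ball 0 4 := fun w hw =>
    mem_ball_zero_iff.2 ((s1 w hw).trans_lt (by norm_num))
  have e : ∀ w ∈ closedBall z τ, (S.H (S.ty k) w).det.re * dn g σ ((S.c k).symm w) =
      ‖S.rep t σ k w‖ ^ 2 * Real.exp (-(t * S.ρ (S.ty k) w)) := fun w hw => by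
    have h : w ∈ (S.c k).target := S.tgt k ▸ s2 hw
    simpa only [(S.c k).right_inv h] using hB.dn t σ k _ ((S.c k).map_target h)
  have b : ∀ w ∈ closedBall z τ, |t * S.ρ (S.ty k) w| ≤ |t| * L := fun w hw => by
    rw [abs_mul]
    exact mul_le_mul_of_nonneg_left (hb _ w (s1 w hw)).2.2.2.1 (abs_nonneg t)
  have hz' := mem_closedBall_self (x := z) h0.le
  have c1 := ha.continuousOn.norm.pow 2
  have m1 : ∫ w in closedBall z τ, ‖S.rep t σ k w‖ ^ 2 ≤ Real.exp (|t| * L) *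
      ∫ y in (S.c k).source ∩ S.c k ⁻¹' closedBall z τ, dn g σ y ∂ν := by
    rw [hA.intR k _ measurableSet_closedBall s2, setIntegral_congr_fun measurableSet_closedBall e,
      ← integral_const_mul]
    refine setIntegral_mono_on (c1.integrableOn_compact (isCompact_closedBall z τ))
      (ContinuousOn.integrableOn_compact (isCompact_closedBall z τ) (continuousOn_const.mul
        (c1.mul fun w hw => ?_))) measurableSet_closedBall fun w hw => ?_
    · exact ((continuousAt_const.mul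
        (S.ρ_sm _ w (s2 hw)).1.continuousAt).neg.rexp).continuousWithinAt
    · rw [mul_left_comm, ← Real.exp_add]
      exact le_mul_of_one_le_right (sq_nonneg _)
        (Real.one_le_exp (by linarith [(abs_le.1 (b w hw)).2]))
  have m2 : dn g σ ((S.c k).symm z) ≤ L * Real.exp (|t| * L) * ‖S.rep t σ k z‖ ^ 2 := by
    have h3 := mul_le_mul_of_nonneg_right (hb (S.ty k) z (s1 z hz')).2.2.2.2.1
      (nn hA σ ((S.c k).symm z))
    rw [e z hz', inv_mul_le_iff₀ (by positivity)] at h3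
    refine h3.trans ?_
    rw [mul_assoc, mul_comm (Real.exp _)]
    gcongr
    linarith [(abs_le.1 (b z hz')).1]
  calc _ ≤ L * Real.exp (|t| * L) * ‖S.rep t σ k z‖ ^ 2 * τ ^ (2 * Fintype.card ι) := by gcongr
    _ ≤ _ := by
      rw [mul_assoc, mul_assoc (L * _)]
      exact mul_le_mul_of_nonneg_left ((mean h0 ha).trans m1) (by positivity)

theorem dec (hA : S.BasA) (hB : S.BasB) (t : ℝ) (σ : Y → ℂ) (h : S.H2 t σ) (ε : ℝ) (hε : ε > 0) :
    IsCompact {y | ε ≤ dn g σ y} := by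
  obtain ⟨C, hC, hm⟩ := mv hA hB t
  obtain ⟨h1, h2⟩ := hB.hol_an t σ h.1
  have hδ : 0 < ε * (1 / 2) ^ (2 * Fintype.card ι) := by positivity
  have hf : {k | ε * (1 / 2) ^ (2 * Fintype.card ι) ≤ C * ∫ y in S.B k 2, dn g σ y ∂ν}.Finite := by
    by_contra hi
    obtain ⟨m, hm⟩ := exists_nat_gt (C * (S.n * ∫ y, dn g σ y ∂ν) /
      (ε * (1 / 2) ^ (2 * Fintype.card ι)))
    obtain ⟨T, hT, rfl⟩ := Set.Infinite.exists_subset_card_eq hi m
    have h3 := mul_le_mul_of_nonneg_left (hA.ov _ T (fun k => S.B k 2) h.2 (nn hA σ) fun k =>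
      ⟨hA.ms k _ measurableSet_closedBall, inter_subset_left⟩) hC
    have h4 := T.card_nsmul_le_sum (fun k => C * ∫ y in S.B k 2, dn g σ y ∂ν) _ fun k hk => hT hk
    rw [div_lt_iff₀ hδ] at hm
    rw [nsmul_eq_mul, ← Finset.mul_sum] at h4
    linarith
  refine (hf.isCompact_biUnion fun k _ => hA.cpt k 1 (by norm_num)).of_isClosed_subset
    (isClosed_le continuous_const (hB.ck σ h1).2) fun y hy => ?_
  have hs : y ∈ (S.c (S.ch y)).source := S.ch_eq y ▸ M.mem y
  have hl := S.ch_lt y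
  have s2 : closedBall (S.c (S.ch y) y) (1 / 2) ⊆ closedBall 0 2 := fun w hw =>
    mem_closedBall_zero_iff.2 (by
      linarith [norm_le_norm_add_norm_sub' w (S.c (S.ch y) y), mem_closedBall_iff_norm.1 hw])
  refine mem_biUnion (x := S.ch y) ?_ ⟨hs, mem_closedBall_zero_iff.2 hl.le⟩
  have h3 := hm σ (S.ch y) _ (1 / 2) (by norm_num) le_rfl (by linarith)
    ((h2 _).mono (s2.trans (closedBall_subset_ball (by norm_num))))
  rw [(S.c _).left_inv hs] at h3
  refine (mul_le_mul_of_nonneg_right hy (by positivity)).trans (h3.trans ?_)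
  exact mul_le_mul_of_nonneg_left (setIntegral_mono_set h.2.integrableOn
    (Eventually.of_forall (nn hA σ))
    (inter_subset_inter_right _ (preimage_mono s2)).eventuallyLE) hC

theorem h2 [BorelSpace Y] (hA : S.BasA) (hB : S.BasB) (t : ℝ) (J : Type) (T : Finset J) (d : J → ℂ)
    (σ : J → Y → ℂ) (h : ∀ j ∈ T, S.H2 t (σ j)) : S.H2 t fun y => ∑ j ∈ T, d j * σ j y := by
  have h1 : S.Hol t fun y => ∑ j ∈ T, d j * σ j y := fun k => by
    have e : S.rep t (fun y => ∑ j ∈ T, d j * σ j y) k =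
        fun z => ∑ j ∈ T, d j * S.rep t (σ j) k z :=
      funext fun z => (hB.sum t J T (fun j y => d j * σ j y) k z).trans
        (Finset.sum_congr rfl fun j _ => hB.mul t (fun _ => d j) (σ j) k z)
    rw [e]
    exact DifferentiableOn.fun_sum fun j hj => ((h j hj).1 k).const_mul _
  refine ⟨h1, Integrable.mono' ((integrable_finsetSum T fun j hj =>
    (h j hj).2.const_mul (‖d j‖ ^ 2)).const_mul T.card) ?_ (Eventually.of_forall fun y => ?_)⟩
  · exact (hB.ck _ (hB.hol_an t _ h1).1).2.aestronglyMeasurable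
  · rw [Real.norm_of_nonneg (nn hA _ y)]
    simp only [dn, ← mul_div_assoc, ← Finset.sum_div, ← mul_pow, ← norm_mul]
    exact div_le_div_of_nonneg_right ((pow_le_pow_left₀ (norm_nonneg _) (norm_sum_le _ _) 2).trans
      sq_sum_le_card_mul_sum_sq) (hA.det y).2.1.le

end BD

variable {ι Y : Type} [Fintype ι] [DecidableEq ι] [TopologicalSpace Y] [MeasurableSpace Y]
  {M : Atl ι Y} {g : Y → Mat ι} {ν : Measure Y} {S : Sh M g ν}

theorem basD [BorelSpace Y] (hA : S.BasA) (hB : S.BasB) : S.BasD :=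
  ⟨BD.mv hA hB, BD.dec hA hB, BD.h2 hA hB⟩

end Pool.Agent.Lib.MP_813db1_ag.AN
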