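import Pool.Agent.Lib.MP_813db1_ag.AN.Stmt
import Pool.Agent.Lib.MP_813db1_ag.AN.Flat

/-! The inequality of Bochner and Kodaira on the covering space. -/

namespace Pool.Agent.Lib.MP_813db1_ag.AN

open Pool.Agent.Lib.MP_813db1_ag.HS Pool.Agent.Lib.MP_813db1_ag.AS
open MeasureTheory Complex Matrix Filter Topology Set Metric
open scoped ContDiff ComplexOrder
open HS.Div Flat

namespace Bk

variable {ι : Type} [Fintype ι] [DecidableEq ι]

theorem pt {Φ : V ι → ℝ} {F T : V ι → ℂ} {H : V ι → Mat ι} {O : Set (V ι)} {z : V ι}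
    (hO : IsOpen O) (hH : KOn H O) (hF : ∀ w ∈ O, ContDiffAt ℝ ∞ F w) (hz : z ∈ O)
    (hΦ : ContDiffAt ℝ 2 Φ z) (hT : T =ᶠ[𝓝 z] del Φ (shp H F)) :
    (dv (vB Φ (shp H F) (shp H F)) z).re = Real.exp (-Φ z) *
      ((ipV (H z) (shp H F z) (shp H T z)).re +
        nV (levi (fun w => (Φ w : ℂ)) z) (shp H F z) + nD H (shp H F) z) := by
  have cU := BK.cd_U hH hF hz
  have hp := hH.2 z hz
  rw [dv_vB (hΦ.differentiableAt two_ne_zero) (fun i => (cU i).differentiableAt two_ne_zero) cU,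
    crs_shp hO hH hF hz, Green.ipV_shp hp.1 (Green.det_ne hp), ew, re_ofReal_mul]
  congr 1
  have e : ∑ i, del Φ (wf (shp H F) i) z * star (shp H F z i) =
      star (∑ i, shp H F z i * star (dzb T i z)) +
        ipV (levi (fun w => (Φ w : ℂ)) z) (shp H F z) (shp H F z) := by
    rw [ipV, Finset.sum_comm, star_sum, ← Finset.sum_add_distrib]
    refine Finset.sum_congr rfl fun i _ => ?_
    rw [dzb_congr hT, dzb_del hΦ cU, star_mul', star_star, ← Finset.sum_mul]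
    ring
  rw [e]
  simp only [add_re, RCLike.star_def, conj_re, ofReal_re, nV]

omit [DecidableEq ι] in
theorem nV_sub (A B : Mat ι) (c : ℝ) (v : V ι) : nV (A - (c : ℂ) • B) v = nV A v - c * nV B v := by
  rw [nV, nV, nV, ← re_ofReal_mul, ← sub_re]
  congr 1
  simp only [ipV, Matrix.sub_apply, Matrix.smul_apply, smul_eq_mul, Finset.mul_sum,
    ← Finset.sum_sub_distrib]
  exact Finset.sum_congr rfl fun i _ => Finset.sum_congr rfl fun j _ => by ring

variable {Y : Type} [TopologicalSpace Y] [MeasurableSpace Y] {M : Atl ι Y} {g : Y → Mat ι}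
  {ν : Measure Y} {S : Sh M g ν}

theorem mem4 {k : S.κ} {y : Y} (hy : y ∈ (S.c k).source) : S.c k y ∈ ball (0 : V ι) 4 :=
  S.tgt k ▸ (S.c k).map_source hy

theorem kon4 (a : Fin S.n) : KOn (S.H a) (ball 0 4) := by
  have h := S.kon a
  have s : ball (0 : V ι) 4 ⊆ ball 0 5 := ball_subset_ball (by norm_num)
  exact ⟨⟨fun z hz => h.1.1 z (s hz), fun z hz => h.1.2.1 z (s hz), fun z hz => h.1.2.2 z (s hz)⟩,
    fun z hz => h.2 z (s hz)⟩

theorem src (y : Y) : y ∈ (S.c (S.ch y)).source := S.ch_eq y ▸ M.mem y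

/-- the vector field. -/
noncomputable def W (S : Sh M g ν) (t : ℝ) (ψ : Y → ℝ) (σ : Y → ℂ) (k : S.κ) : V ι → V ι :=
  vB (S.Φ t ψ k) (shp (S.H (S.ty k)) (S.rep t σ k)) (shp (S.H (S.ty k)) (S.rep t σ k))

theorem cov (hB : S.BasB) (hC : S.BasC) (t : ℝ) (ψ : Y → ℝ) {σ : Y → ℂ} (hσ : M.CkS ∞ 1 σ)
    (k l : S.κ) (y : Y) (hk : y ∈ (S.c k).source) (hl : y ∈ (S.c l).source) :
    tj (S.c k) (S.c l) y *ᵥ W S t ψ σ k (S.c k y) =
      ((‖(tj (S.c k) (S.c l) y).det‖ ^ 2 : ℝ) : ℂ) • W S t ψ σ l (S.c l y) := by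
  have a := M.hol _ (S.mem k) _ (S.mem l) y hk hl
  have q := BK.dm_loc (U := shp (S.H (S.ty k)) (S.rep t σ k))
    (U' := shp (S.H (S.ty l)) (S.rep t σ l)) a
    ((RepB.an_det a).fun_mul (((S.f_hol k l y hk hl).const_smul (c := (t : ℂ))).cexp'))
    (fun i => (BK.cd_U (kon4 _) (hB.sm t σ hσ k) (mem4 hk) i).differentiableAt two_ne_zero)
    (fun i => by
      rw [RepB.tr_pt hk]
      exact (BK.cd_U (kon4 _) (hB.sm t σ hσ l) (mem4 hl) i).differentiableAt two_ne_zero)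
    (by
      filter_upwards [RepB.ev hk hl] with w q
      have := hC.shp t σ hσ k l _ ((S.c k).map_target q.1) q.2
      rwa [tj, (S.c k).right_inv q.1] at this)
  rw [RepB.tr_pt hk] at q
  rw [W, W, vB, vB, mulVec_smul]
  refine (congrArg _ q).trans ?_
  rw [smul_smul, smul_smul]
  congr 1
  have e1 := (S.f_sm k _ (mem4 hk)).2
  have e2 := (S.f_sm l _ (mem4 hl)).2
  simp only [Pi.smul_apply, smul_eq_mul, (S.c k).left_inv hk, ← Green.nsq, ew, Sh.Φ,
    (S.c l).left_inv hl, norm_mul, norm_exp, re_ofReal_mul, sub_re, ← e1, ← e2, tj]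
  rw [← ofReal_mul, ← ofReal_mul, mul_pow, ← Real.exp_nat_mul, mul_left_comm, ← Real.exp_add]
  congr 3
  push_cast
  ring

theorem off (hB : S.BasB) (t : ℝ) (ψ : Y → ℝ) (σ : Y → ℂ) (k : S.κ) (y : Y)
    (hk : y ∈ (S.c k).source) (h : y ∉ tsupport σ) : W S t ψ σ k (S.c k y) = 0 := by
  have e : S.rep t σ k =ᶠ[𝓝 (S.c k y)] fun _ => 0 := by
    have h1 : ∀ᶠ x in 𝓝 y, σ x = 0 := notMem_tsupport_iff_eventuallyEq.1 h
    have h2 : Tendsto (S.c k).symm (𝓝 (S.c k y)) (𝓝 y) := by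
      simpa only [ContinuousAt, (S.c k).left_inv hk] using
        (S.c k).continuousAt_symm ((S.c k).map_source hk)
    filter_upwards [h2.eventually h1, RepB.ev hk hk] with w a b
    have := (hB.zero t σ k _ b.2).2 a
    rwa [(S.c k).right_inv b.1] at this
  have e2 : shp (S.H (S.ty k)) (S.rep t σ k) (S.c k y) = 0 := by
    funext i
    simp [shp, fun j => dzb_congr e j, dzb_const]
  rw [W, vB, e2, star_zero, mulVec_zero, smul_zero]

end Bk

variable {ι Y : Type} [Fintype ι] [DecidableEq ι] [TopologicalSpace Y] [MeasurableSpace Y]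
  [T2Space Y] [BorelSpace Y] {M : Atl ι Y} {g : Y → Mat ι} {ν : Measure Y} {S : Sh M g ν}

open Bk in
theorem bk (hA : S.BasA) (hB : S.BasB) (hC : S.BasC) (hV : S.Dv) (hG : S.Grn) : S.Bk := by
  intro t c ψ σ hψ hσ hp
  have := hA.fin
  have hτ := hC.dc t ψ σ hψ hσ
  have cψ : Continuous ψ := (repA mat ι Y M).cont ψ fun e he z hz => (hψ e he z hz).of_le (by simp)
  have hd := fun y => (hA.det y).2.1
  obtain ⟨d1, d2, d3⟩ := hV (W S t ψ σ)
    (fun y => dv (W S t ψ σ (S.ch y)) (S.c (S.ch y) y) / ((g y).det.re : ℂ)) _ hσ.2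
    (fun k z hz => contDiffAt_pi.2 (cd_vB (n := 2) le_rfl
      ((hC.levi t ψ hψ k z hz).1.of_le (by simp))
      (fun i => (BK.cd_U (kon4 _) (hB.sm t σ hσ.1 k) hz i).of_le one_le_two)
      (BK.cd_U (kon4 _) (hB.sm t σ hσ.1 k) hz)))
    (cov hB hC t ψ hσ.1) (off hB t ψ σ) fun y => by
      rw [mul_div_cancel₀ _ (ofReal_ne_zero.2 (hd y).ne')]
      rfl
  have i0 := d1.integrable_of_hasCompactSupport (μ := ν) (HasCompactSupport.intro hσ.2 d2)
  have i1 : ∀ τ, M.CkS ∞ 1 τ →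
      Integrable (fun y => (S.ip1 t g σ τ y).re * Real.exp (-ψ y)) ν := fun τ h =>
    ((continuous_re.comp (hC.cont t g σ τ (fun e he => (S.kg e he).1.1) hσ.1 h)).mul
      cψ.neg.rexp).integrable_of_hasCompactSupport (HasCompactSupport.intro hσ.2 fun y hy => by
        simp [Sh.ip1, ipV, (hC.off t ψ σ y (notMem_tsupport_iff_eventuallyEq.1 hy)).2])
  have r0 := (integral_re (𝕜 := ℂ) i0).trans (congrArg _ d3)
  simp only [RCLike.re_to_complex, zero_re] at r0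
  rw [hG t ψ σ _ hψ hσ hτ, Sh.p1, Sh.p1, ← integral_const_mul, le_neg_iff_add_nonpos_left,
    ← integral_add (i1 _ hτ.1) ((i1 _ hσ.1).const_mul c), ← r0]
  refine integral_mono ((i1 _ hτ.1).add ((i1 _ hσ.1).const_mul c)) i0.re fun y => ?_
  have hy := src (S := S) y
  have hz := mem4 hy
  obtain ⟨l1, l2, -⟩ := hC.levi t ψ hψ _ _ hz
  have e0 := pt isOpen_ball (kon4 _) (hB.sm t σ hσ.1 (S.ch y)) hz (l1.of_le (by norm_cast))
    (T := S.rep t (S.box t ψ σ) (S.ch y))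
    (by filter_upwards [isOpen_ball.mem_nhds hz] with w hw using hC.box t ψ σ hψ hσ.1 _ w hw)
  have e1 := congrArg re (hC.ip1 t g σ _ hσ.1 hτ.1 _ y hy)
  have e2 := congrArg re (hC.ip1 t g σ _ hσ.1 hσ.1 _ y hy)
  rw [S.rep_g _ _ hz, re_ofReal_mul, re_mul_ofReal] at e1 e2
  have e3 := (hA.det y).2.2
  have n1 := nD_nonneg ((kon4 (S := S) (S.ty (S.ch y))).2 _ hz)
    (shp (S.H (S.ty (S.ch y))) (S.rep t σ (S.ch y)))
  have n2 := mat.nv_mono ι _ (shp (S.H (S.ty (S.ch y))) (S.rep t σ (S.ch y)) (S.c (S.ch y) y))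
    (hp y)
  have e4 : ((t - c : ℝ) : ℂ) • g y + M.ddc ψ y =
      levi (fun w => (S.Φ t ψ (S.ch y) w : ℂ)) (S.c (S.ch y) y) -
        (c : ℂ) • S.H (S.ty (S.ch y)) (S.c (S.ch y) y) := by
    rw [l2, Atl.ddc, S.ch_eq, e3, ofReal_sub, sub_smul]
    abel
  rw [e4, nV_sub] at n2
  have e5 : Real.exp (-S.Φ t ψ (S.ch y) (S.c (S.ch y) y)) =
      Real.exp (-(t * S.ρ (S.ty (S.ch y)) (S.c (S.ch y) y))) * Real.exp (-ψ y) := by
    rw [Sh.Φ, (S.c _).left_inv hy, neg_add, Real.exp_add]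
  have h0 := hd y
  change _ ≤ (dv (W S t ψ σ (S.ch y)) (S.c (S.ch y) y) / ((g y).det.re : ℂ)).re
  rw [div_ofReal_re, le_div_iff₀ h0, W, e0, e5]
  rw [← e3] at e1 e2
  have p1 := Real.exp_pos (-(t * S.ρ (S.ty (S.ch y)) (S.c (S.ch y) y)))
  have p2 := Real.exp_pos (-ψ y)
  have k := mul_nonneg (mul_pos p1 p2).le (add_nonneg n1 n2)
  rw [← e3]
  rw [← e3] at k
  simp only [nV] at k ⊢
  linear_combination k + Real.exp (-ψ y) * e1 + c * Real.exp (-ψ y) * e2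

end Pool.Agent.Lib.MP_813db1_ag.AN
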