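import Mathlib

/-! Many holomorphic germs have a combination that vanishes to high order. -/

namespace Pool.Agent.Lib.MP_813db1_ag.AN

open Filter Topology Asymptotics

theorem fin_cml (ι : Type) [Fintype ι] (m : ℕ) :
    Module.Finite ℂ (ContinuousMultilinearMap ℂ (fun _ : Fin m => ι → ℂ) ℂ) :=
  Module.Finite.of_injective (ContinuousMultilinearMap.toMultilinearMapLinear (R' := ℂ))
    ContinuousMultilinearMap.toMultilinearMap_injective

/-- more than `c` holomorphic germs at `y` have a non trivial combination of order `N`. -/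
theorem jetS (ι : Type) [Fintype ι] (N : ℕ) : ∃ c : ℕ, ∀ (κ : Type) [Fintype κ],
    c < Fintype.card κ → ∀ (y : ι → ℂ) (F : κ → (ι → ℂ) → ℂ), (∀ i, AnalyticAt ℂ (F i) y) →
      ∃ a : κ → ℂ, a ≠ 0 ∧ ∃ C : ℝ, 0 < C ∧ ∀ᶠ z in 𝓝 y, ‖∑ i, a i * F i z‖ ≤ C * ‖z - y‖ ^ N := by
  have := fin_cml ι
  refine ⟨Module.finrank ℂ (∀ m : Fin N, ContinuousMultilinearMap ℂ (fun _ : Fin m => ι → ℂ) ℂ),
    fun κ _ hc y F hF => ?_⟩
  choose p hp using hF
  let L : (κ → ℂ) →ₗ[ℂ] ∀ m : Fin N, ContinuousMultilinearMap ℂ (fun _ : Fin m => ι → ℂ) ℂ :=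
    Fintype.linearCombination ℂ fun i m => p i m
  have hk : LinearMap.ker L ≠ ⊥ := LinearMap.ker_ne_bot_of_finrank_lt (by simpa using hc)
  obtain ⟨a, ha, ha0⟩ := (Submodule.ne_bot_iff _).1 hk
  refine ⟨a, ha0, ?_⟩
  have h1 : ∀ i, (fun w => a i * (F i (y + w) - (p i).partialSum N w)) =O[𝓝 0]
      fun w : ι → ℂ => ‖w‖ ^ N := fun i => ((hp i).isBigO_sub_partialSum_pow N).const_mul_left _
  have h2 := IsBigO.sum (s := Finset.univ) fun i _ => h1 i
  have h3 : ∀ w, ∑ i, a i * (p i).partialSum N w = 0 := fun w => by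
    simp only [FormalMultilinearSeries.partialSum, Finset.mul_sum]
    rw [Finset.sum_comm]
    refine Finset.sum_eq_zero fun m hm => ?_
    have := congrArg (fun T => T ⟨m, Finset.mem_range.1 hm⟩ fun _ => w) (LinearMap.mem_ker.1 ha)
    simpa [L, Fintype.linearCombination_apply] using this
  obtain ⟨C, hC, h4⟩ := h2.exists_pos
  have h5 : Tendsto (fun z => z - y) (𝓝 y) (𝓝 0) := by
    simpa using (continuous_sub_right y).tendsto y
  refine ⟨C, hC, (h5.eventually h4.bound).mono fun z hz => ?_⟩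
  simpa [mul_sub, h3] using hz

/-- the same with an invertible matrix of values: the combination does not vanish at some point. -/
theorem jet_ne {κ : Type} [Fintype κ] [DecidableEq κ] {A : Matrix κ κ ℂ} (hA : A.det ≠ 0)
    {a : κ → ℂ} (ha : a ≠ 0) : ∃ j, ∑ i, a i * A i j ≠ 0 := by
  by_contra h
  push Not at h
  exact ha (Matrix.eq_zero_of_vecMul_eq_zero hA (funext fun j => h j))

/-- a matrix close to the identity is invertible. -/
theorem det_ne_of_near {κ : Type} [Fintype κ] [DecidableEq κ] {A : Matrix κ κ ℂ}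
    (h : ∀ i j, (Fintype.card κ : ℝ) * ‖A i j - (1 : Matrix κ κ ℂ) i j‖ < 1) : A.det ≠ 0 := by
  rw [Ne, ← Matrix.exists_vecMul_eq_zero_iff]
  rintro ⟨a, ha, h0⟩
  obtain ⟨i0, hi0⟩ := Function.ne_iff.1 ha
  obtain ⟨j, -, hj⟩ := Finset.exists_max_image Finset.univ (fun i => ‖a i‖) ⟨i0, Finset.mem_univ _⟩
  have hpos : 0 < ‖a j‖ := (norm_pos_iff.2 hi0).trans_le (hj i0 (Finset.mem_univ _))
  have e : a j = -∑ i, a i * (A i j - (1 : Matrix κ κ ℂ) i j) := by
    have := congrFun h0 j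
    simp only [Matrix.vecMul, dotProduct, Pi.zero_apply] at this
    simp [mul_sub, Finset.sum_sub_distrib, this, Matrix.one_apply]
  have hc : (0 : ℝ) < Fintype.card κ := by
    have : Nonempty κ := ⟨j⟩
    exact_mod_cast Fintype.card_pos
  have b : ‖a j‖ < ∑ _i : κ, ‖a j‖ / Fintype.card κ := by
    calc ‖a j‖ = ‖∑ i, a i * (A i j - (1 : Matrix κ κ ℂ) i j)‖ := by rw [← norm_neg (∑ i, _), ← e]
      _ ≤ ∑ i, ‖a j‖ * ‖A i j - (1 : Matrix κ κ ℂ) i j‖ := norm_sum_le_of_le _ fun i _ => by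
          rw [norm_mul]
          exact mul_le_mul_of_nonneg_right (hj i (Finset.mem_univ _)) (norm_nonneg _)
      _ < _ := Finset.sum_lt_sum_of_nonempty ⟨j, Finset.mem_univ _⟩ fun i _ => by
          rw [lt_div_iff₀ hc]
          nlinarith [h i j]
  rw [Finset.sum_const, Finset.card_univ, nsmul_eq_mul, mul_div_cancel₀ _ hc.ne'] at b
  exact lt_irrefl _ b

end Pool.Agent.Lib.MP_813db1_ag.AN
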