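import Pool.Agent.Lib.MP_813db1_ag.HS.Stmt2

/-! Compact zero sets are finite when the Kaehler form is exact: statements. -/

namespace Pool.Agent.Lib.MP_813db1_ag.AN

open Pool.Agent.Lib.MP_813db1_ag.HS
open MeasureTheory Complex Matrix Filter Topology Set Metric
open scoped ContDiff ComplexOrder

/-- local complex potentials of `g` whose differences are holomorphic. -/
structure Pot {ι Y κ : Type} [Fintype ι] [DecidableEq ι] [TopologicalSpace Y] (M : Atl ι Y)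
    (g : Y → Mat ι) (e : κ → Ch ι Y) (O : κ → Set (V ι)) (f : κ → V ι → ℂ) : Prop where
  mem : ∀ k, e k ∈ M.A
  opn : ∀ k, IsOpen (O k) ∧ O k ⊆ (e k).target
  cov : ∀ y, ∃ k, y ∈ (e k).source ∧ e k y ∈ O k
  sm : ∀ k, ∀ z ∈ O k, ContDiffAt ℝ ∞ (f k) z
  lev : ∀ k, ∀ z ∈ O k, levi (f k) z + (levi (f k) z)ᴴ = M.repF g (e k) z
  hol : ∀ k l y, y ∈ (e k).source → y ∈ (e l).source → e k y ∈ O k → e l y ∈ O l →
    DifferentiableAt ℂ (fun z => f k z - f l (e l ((e k).symm z))) (e k y)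

/-- step 4: the zeros in `W` are finite in number. -/
def FinS : Prop := ∀ (ι Y κ : Type) [Fintype ι] [DecidableEq ι] [TopologicalSpace Y] [T2Space Y]
  (M : Atl ι Y) (g : Y → Mat ι) (e : κ → Ch ι Y) (O : κ → Set (V ι)) (f : κ → V ι → ℂ)
  (S : Y → ℝ) (s : ℝ) (W : Set Y), M.IsK g → Pot M g e O f → M.Ck ∞ S → (∀ y, 0 ≤ S y) → 0 ≤ s →
  (∀ y, 0 < S y → ((s : ℂ) • g y + M.ddc (fun x => Real.log (S x)) y).PosSemidef) →
  IsOpen W → IsCompact (closure W) → (∀ y ∈ frontier W, S y ≠ 0) → {y ∈ W | S y = 0}.Finite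

/-- inequalities for determinants. -/
structure FinMat : Prop where
  nonneg : ∀ (ι : Type) [Fintype ι] [DecidableEq ι] (B : Mat ι), B.PosSemidef → 0 ≤ B.det.re
  mono : ∀ (ι : Type) [Fintype ι] [DecidableEq ι] (B P : Mat ι), B.PosSemidef → P.PosSemidef →
    B.det.re ≤ (B + P).det.re
  up : ∀ (ι : Type) [Fintype ι] [DecidableEq ι] (B P : Mat ι), B.PosSemidef → P.PosSemidef →
    (B + P).PosDef → (B + P).det.re ≤ B.det.re + trm (B + P) P * (B + P).det.re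
  low : ∀ (ι : Type) [Fintype ι] [DecidableEq ι] (H P : Mat ι), H.PosDef → P.PosSemidef →
    trm H P * H.det.re ≤ (H + P).det.re
  rk : ∀ (ι : Type) [Fintype ι] [DecidableEq ι] (H : Mat ι) (a : V ι),
    (vecMulVec a (star a)).PosSemidef ∧ trm H (vecMulVec a (star a)) = (grL H a a).re
  cs : ∀ (ι : Type) [Fintype ι] [DecidableEq ι] (H : Mat ι) (a b : V ι) (t : ℝ), H.PosDef → 0 < t →
    2 * |(grL H a b).re| ≤ t * (grL H a a).re + (grL H b b).re / t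
  dom : ∀ (ι : Type) [Fintype ι] [DecidableEq ι] (H G : Mat ι) (a : V ι), H.PosDef → G.PosDef →
    (grL H a a).re ≤ (grL G a a).re * trm H G

/-- the functions of one real variable. -/
structure FinFun : Prop where
  rho : ∃ (ρ : ℝ → ℝ) (c : ℝ), ContDiff ℝ ∞ ρ ∧ (∀ x ≤ (-1 : ℝ), ρ x = 0) ∧
    (∀ x ≥ (1 : ℝ), ρ x = x - c) ∧ ∀ x, 0 ≤ deriv ρ x ∧ deriv ρ x ≤ 1 ∧ 0 ≤ deriv (deriv ρ) x ∧
      0 ≤ ρ x ∧ ρ x ≤ max x 0 + 1
  lam : ∃ (k l : ℝ → ℝ) (b : ℝ), ContDiff ℝ ∞ k ∧ ContDiff ℝ ∞ l ∧ (∀ x ≤ (-2 : ℝ), k x = 1) ∧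
    (∀ x ≥ (-1 : ℝ), k x = 0 ∧ l x = b * x) ∧ ∀ x, 0 ≤ k x ∧ k x ≤ 1 ∧ 0 ≤ deriv l x ∧
      deriv l x ≤ b ∧ deriv k x ^ 2 ≤ deriv (deriv l) x

/-- logarithmic poles at finitely many points. -/
def PoleS : Prop := ∀ (ι : Type) [Fintype ι] [DecidableEq ι], ∃ c > (0 : ℝ),
  ∀ (Y : Type) [TopologicalSpace Y] [T2Space Y] (M : Atl ι Y) (g : Y → Mat ι) (t : Finset Y),
  M.IsK g → ∃ (s A ρ : ℝ) (e : Y → Ch ι Y), 0 < ρ ∧
    (∀ y ∈ t, e y ∈ M.A ∧ y ∈ (e y).source ∧ e y y = 0 ∧ closedBall 0 ρ ⊆ (e y).target) ∧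
    (t : Set Y).PairwiseDisjoint (fun y => (e y).source ∩ e y ⁻¹' ball 0 ρ) ∧
    ∀ τ ∈ Ioc (0 : ℝ) ρ, ∃ v, M.Ck ∞ v ∧
      (∀ y, v y ≤ A ∧ ((s : ℂ) • g y + M.ddc v y).PosSemidef) ∧
      ∀ y ∈ t, ∀ w ∈ ball (0 : V ι) τ, Real.log τ / 2 ≤ v ((e y).symm w) ∧
        (levi (fn v (e y)) w).PosSemidef ∧
        c ≤ τ ^ (2 * Fintype.card ι) * (levi (fn v (e y)) w).det.re

/-- integration over a compact set `K`; `a` is the conjugate of the form `dbar f`. -/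
structure IntK {ι Y : Type} [Fintype ι] [DecidableEq ι] [TopologicalSpace Y] [MeasurableSpace Y]
    (M : Atl ι Y) (g : Y → Mat ι) (K : Set Y) (ν : Measure Y) (a : Y → V ι) : Prop where
  intg : ∀ F : Y → ℝ, Continuous F → Integrable F ν
  ae : ∀ᵐ y ∂ν, y ∈ K
  chart : ∀ e ∈ M.A, ∀ S : Set (V ι), MeasurableSet S → S ⊆ e.target → (∀ z ∈ S, e.symm z ∈ K) →
    ∀ F : Y → ℝ, ∫ y in e.source ∩ e ⁻¹' S, F y ∂ν = ∫ z in S, (M.repF g e z).det.re * F (e.symm z)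
  inv : ∀ B u, M.ClF B → M.Ck ∞ u → (∀ y ∉ K, u y = 0) →
    ∫ y, rat (fun x => B x + M.ddc u x) g y ∂ν = ∫ y, rat B g y ∂ν
  bd : ∃ A, ∀ y ∈ K, (grL (g y) (a y) (a y)).re ≤ A
  cont : ∀ h u, M.IsK h → M.Ck ∞ u → Continuous fun y => (grL (h y) (M.dfn u y) (a y)).re
  st : ∀ h u, M.IsK h → M.Ck ∞ u → (∀ y ∉ K, u y = 0) →
    ∫ y, (u y * trm (h y) (g y) + 2 * (grL (h y) (M.dfn u y) (a y)).re) * rat h g y ∂ν = 0

def IntKS : Prop := ∀ (ι Y κ : Type) [Fintype ι] [DecidableEq ι] [TopologicalSpace Y] [T2Space Y]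
  [MeasurableSpace Y] [BorelSpace Y] (M : Atl ι Y) (g : Y → Mat ι) (e : κ → Ch ι Y)
  (O : κ → Set (V ι)) (f : κ → V ι → ℂ) (K : Set Y), M.IsK g → Pot M g e O f → IsCompact K →
  ∃ ν a, IntK M g K ν a

end Pool.Agent.Lib.MP_813db1_ag.AN
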