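import Pool.Agent.Lib.MP_813db1_ag.AN.Dolb
import Pool.Agent.Lib.MP_813db1_ag.HS.Calc2

/-! Local complex potentials attached to a primitive of a Kaehler form. -/

namespace Pool.Agent.Lib.MP_813db1_ag.HS

open MeasureTheory Complex Matrix Filter Topology Set Metric
open scoped ContDiff ComplexOrder

noncomputable section

set_option linter.unusedSectionVars false

variable {ι : Type} [Fintype ι] [DecidableEq ι]

/-- `2 i` times the part of type `(0,1)` of a real covector. -/
def a01 (A : V ι →L[ℝ] ℝ) (j : ι) : ℂ := I * A (Pi.single j 1) - A (Pi.single j I)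

/-- `α` is smooth on `U` and `d α` is the imaginary part of `G`. -/
def DIm (α : V ι → V ι →L[ℝ] ℝ) (G : V ι → Mat ι) (U : Set (V ι)) : Prop :=
  ∀ z ∈ U, ContDiffAt ℝ ∞ α z ∧ ∀ u v, fderiv ℝ α z u v - fderiv ℝ α z v u =
    (∑ i, ∑ j, G z i j * u i * star (v j)).im

namespace Pot

variable {α β : V ι → V ι →L[ℝ] ℝ} {G : V ι → Mat ι} {U : Set (V ι)} {z : V ι}

/-- `a01` as a linear map. -/
def aL (j : ι) : (V ι →L[ℝ] ℝ) →L[ℝ] ℂ :=
  I • ofRealCLM.comp (ContinuousLinearMap.apply ℝ ℝ (Pi.single j 1)) -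
    ofRealCLM.comp (ContinuousLinearMap.apply ℝ ℝ (Pi.single j I))

theorem aL_apply (j : ι) (A : V ι →L[ℝ] ℝ) : aL j A = a01 A j := by simp [aL, a01]

theorem smooth {n : WithTop ℕ∞} (h : ContDiffAt ℝ n α z) (j : ι) :
    ContDiffAt ℝ n (fun w => a01 (α w) j) z := by
  simp only [← aL_apply]
  exact (aL j).contDiff.contDiffAt.comp z h

theorem fderiv_a (h : DifferentiableAt ℝ α z) (j : ι) (u : V ι) :
    fderiv ℝ (fun w => a01 (α w) j) z u = a01 (fderiv ℝ α z u) j := by
  simp only [← aL_apply]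
  exact congrArg (fun A => A u) ((aL j).hasFDerivAt.comp z h.hasFDerivAt).fderiv

theorem sgl (A : Mat ι) (i j : ι) (c d : ℂ) :
    ∑ p, ∑ q, A p q * (Pi.single i c : V ι) p * star ((Pi.single j d : V ι) q) =
      A i j * c * star d := by
  simp [Pi.single_apply, apply_ite star]

theorem four (h : DIm α G U) (hz : z ∈ U) (i j : ι) :
    fderiv ℝ α z (Pi.single i 1) (Pi.single j 1) =
      fderiv ℝ α z (Pi.single j 1) (Pi.single i 1) + (G z i j).im ∧
    fderiv ℝ α z (Pi.single i 1) (Pi.single j I) =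
      fderiv ℝ α z (Pi.single j I) (Pi.single i 1) - (G z i j).re ∧
    fderiv ℝ α z (Pi.single i I) (Pi.single j 1) =
      fderiv ℝ α z (Pi.single j 1) (Pi.single i I) + (G z i j).re ∧
    fderiv ℝ α z (Pi.single i I) (Pi.single j I) =
      fderiv ℝ α z (Pi.single j I) (Pi.single i I) + (G z i j).im := by
  have e := fun c d => ((h z hz).2 (Pi.single i c) (Pi.single j d)).trans
    (congrArg im (sgl (G z) i j c d))
  have e1 := e 1 1
  have e2 := e 1 I
  have e3 := e I 1
  have e4 := e I I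
  simp at e1 e2 e3 e4
  refine ⟨?_, ?_, ?_, ?_⟩ <;> linarith

theorem closed (h : DIm α G U) (hz : z ∈ U) (i j : ι) :
    dzb (fun w => a01 (α w) j) i z = dzb (fun w => a01 (α w) i) j z := by
  have hd := (h z hz).1.differentiableAt (by simp)
  obtain ⟨e1, e2, e3, e4⟩ := four h hz i j
  simp only [dzb, fderiv_a hd]
  simp only [a01]
  rw [e1, e2, e3, e4]
  apply Complex.ext <;> simp <;> ring

theorem lev (h : DIm α G U) (hz : z ∈ U) (i j : ι) :
    dz (fun w => a01 (α w) j) i z + star (dz (fun w => a01 (α w) i) j z) = G z i j := by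
  have hd := (h z hz).1.differentiableAt (by simp)
  obtain ⟨e1, e2, e3, e4⟩ := four h hz i j
  simp only [dz, fderiv_a hd]
  simp only [a01]
  rw [e1, e2, e3, e4]
  apply Complex.ext <;> simp <;> ring

end Pot

open Pot

variable {α β : V ι → V ι →L[ℝ] ℝ} {G : V ι → Mat ι} {U : Set (V ι)} {z : V ι} {f f' : V ι → ℂ}

theorem a01_sub (A B : V ι →L[ℝ] ℝ) (j : ι) : a01 (A - B) j = a01 A j - a01 B j := by
  simp only [← aL_apply, map_sub]

/-- `dbar` of `2 i u`. -/
theorem dzb_two_I {u : V ι → ℝ} (h : DifferentiableAt ℝ u z) (j : ι) :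
    dzb (fun w => 2 * I * (u w : ℂ)) j z = a01 (fderiv ℝ u z) j := by
  have e : HasFDerivAt (fun w => (u w : ℂ)) _ z := ofRealCLM.hasFDerivAt.comp z h.hasFDerivAt
  rw [dzb_cmul _ e.differentiableAt, dzb, e.fderiv, a01]
  simp only [ContinuousLinearMap.comp_apply, ofRealCLM_apply]
  linear_combination (fderiv ℝ u z (Pi.single j I) : ℂ) * I_mul_I

/-- the complex Hessian of a potential. -/
theorem levi_pot (h : DIm α G U) (hz : z ∈ U)
    (hf : ∀ᶠ w in 𝓝 z, ∀ j, dzb f j w = a01 (α w) j) : levi f z + (levi f z)ᴴ = G z := by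
  have e : ∀ i j, levi f z i j = dz (fun w => a01 (α w) j) i z := fun i j =>
    dz_congr (hf.mono fun _ e => e j) i
  ext i j
  rw [Matrix.add_apply, conjTranspose_apply, e, e, lev h hz]

/-- the complex Hessian of twice the real part. -/
theorem levi_two_re (hf : ContDiffAt ℝ 2 f z) :
    levi (fun w => ((2 * (f w).re : ℝ) : ℂ)) z = levi f z + (levi f z)ᴴ := by
  have hs : ContDiffAt ℝ 2 (fun w => star (f w)) z := conjCLE.contDiff.contDiffAt.comp z hf
  rw [← levi_star hf, ← levi_add hf hs]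
  congr 1
  funext w
  exact (add_conj _).symm

/-- a potential exists on a smaller ball. -/
theorem potA {r R : ℝ} (h0 : 0 < r) (hr : r < R) (h : DIm α G (ball 0 R)) :
    ∃ f : V ι → ℂ, ContDiff ℝ ∞ f ∧ ∀ z ∈ ball (0 : V ι) r,
      (∀ j, dzb f j z = a01 (α z) j) ∧ levi f z + (levi f z)ᴴ = G z := by
  obtain ⟨f, hf, e⟩ := dolb h0 hr (fun j w => a01 (α w) j) (fun j z hz => smooth (h z hz).1 j)
    fun i j z hz => closed h hz i j
  exact ⟨f, hf, fun z hz => ⟨fun j => e j z hz, levi_pot h (ball_subset_ball hr.le hz)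
    (mem_of_superset (isOpen_ball.mem_nhds hz) fun w hw j => e j w hw)⟩⟩

/-- a potential for a second primitive, with the same real part. -/
theorem gaugeA (hU : IsOpen U) (hc : Convex ℝ U) (h : DIm α G U) (h' : DIm β G U)
    (hf : ∀ z ∈ U, ContDiffAt ℝ ∞ f z) (e : ∀ z ∈ U, ∀ j, dzb f j z = a01 (α z) j) :
    ∃ f' : V ι → ℂ, (∀ z, (f' z).re = (f z).re) ∧ ∀ z ∈ U, ContDiffAt ℝ ∞ f' z ∧
      ∀ j, dzb f' j z = a01 (β z) j := by
  have hd : ∀ z ∈ U, DifferentiableAt ℝ α z := fun z hz => (h z hz).1.differentiableAt (by simp)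
  have hd' : ∀ z ∈ U, DifferentiableAt ℝ β z := fun z hz => (h' z hz).1.differentiableAt (by simp)
  have hD : DifferentiableOn ℝ (fun w => β w - α w) U := fun z hz =>
    ((hd' z hz).sub (hd z hz)).differentiableWithinAt
  obtain ⟨u, hu⟩ := hc.exists_forall_hasFDerivAt_of_fderiv_symmetric hU hD fun z hz x y => by
      rw [fderiv_fun_sub (hd' z hz) (hd z hz)]
      have := (h z hz).2 x y
      have := (h' z hz).2 x y
      simp only [_root_.sub_apply]
      linarith
  have hs : ContDiffOn ℝ ∞ u U := (contDiffOn_infty_iff_fderiv_of_isOpen hU).2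
    ⟨fun z hz => (hu z hz).differentiableAt.differentiableWithinAt,
      ContDiffOn.congr (fun z hz => ((h' z hz).1.sub (h z hz).1).contDiffWithinAt)
        fun z hz => (hu z hz).fderiv⟩
  refine ⟨fun w => f w + 2 * I * (u w : ℂ), fun z => by simp, fun z hz => ?_⟩
  have h2 : ContDiffAt ℝ ∞ (fun w => 2 * I * (u w : ℂ)) z := contDiffAt_const.mul
    (ofRealCLM.contDiff.contDiffAt.comp z (hs.contDiffAt (hU.mem_nhds hz)))
  refine ⟨(hf z hz).add h2, fun j => ?_⟩
  rw [dzb_add ((hf z hz).differentiableAt (by simp)) (h2.differentiableAt (by simp)), e z hz,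
    dzb_two_I (hu z hz).differentiableAt, (hu z hz).fderiv, a01_sub]
  ring

/-- the change of variables for `a01`. -/
theorem a01_comp {τ : V ι → V ι} (h : DifferentiableAt ℂ τ z) (A : V ι →L[ℝ] ℝ) (i : ι) :
    a01 (A.comp (fderiv ℝ τ z)) i = ∑ p, star (jac τ z p i) * a01 A p := by
  have hτ := h.restrictScalars ℝ
  have e : ∀ w j, dzb (fun w => 2 * I * (A w : ℂ)) j w = a01 A j := fun w j => by
    rw [dzb_two_I A.differentiableAt, A.fderiv]
  have hA : DifferentiableAt ℝ (fun w => 2 * I * (A w : ℂ)) (τ z) :=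
    (ofRealCLM.differentiableAt.comp _ A.differentiableAt).const_mul _
  rw [← (A.hasFDerivAt.comp z hτ.hasFDerivAt).fderiv, ← dzb_two_I (A.differentiableAt.comp z hτ)]
  exact (dzb_comp hA h i).trans (by simp only [e])

/-- two potentials of one primitive differ by a holomorphic function. -/
theorem hol_sub {τ : V ι → V ι} {A : V ι →L[ℝ] ℝ} (h : DifferentiableAt ℂ τ z)
    (hf : DifferentiableAt ℝ f z) (hf' : DifferentiableAt ℝ f' (τ z))
    (e : ∀ j, dzb f j z = a01 (A.comp (fderiv ℝ τ z)) j) (e' : ∀ j, dzb f' j (τ z) = a01 A j) :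
    DifferentiableAt ℂ (fun w => f w - f' (τ w)) z := by
  have hc : DifferentiableAt ℝ (f' ∘ τ) z := hf'.comp z (h.restrictScalars ℝ)
  refine differentiableAt_of_dzb (hf.sub hc) fun k => ?_
  refine (dzb_sub hf hc k).trans ?_
  rw [dzb_comp hf' h, e, a01_comp h]
  simp only [e', sub_self]

end

end Pool.Agent.Lib.MP_813db1_ag.HS
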