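import Pool.Agent.Lib.MP_813db1_ag.AN.Stmt
import Pool.Agent.Lib.MP_813db1_ag.AN.FinStmt
import Pool.Agent.Lib.MP_813db1_ag.AN.Pot

/-! Finiteness of compact zero sets on the sheets. -/

namespace Pool.Agent.Lib.MP_813db1_ag.AN

open Pool.Agent.Lib.MP_813db1_ag.HS Pool.Agent.Lib.MP_813db1_ag.AS
open MeasureTheory Complex Matrix Filter Topology Set Metric
open scoped ContDiff ComplexOrder

variable {ι Y : Type} [Fintype ι] [DecidableEq ι] [TopologicalSpace Y] [MeasurableSpace Y]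
  {M : Atl ι Y} {g : Y → Mat ι} {ν : Measure Y}

theorem Fz.pot (S : Sh M g ν) : Pot M g S.c (fun _ => ball 0 4) S.f where
  mem := S.mem
  opn k := ⟨isOpen_ball, (S.tgt k).ge⟩
  cov y := ⟨S.ch y, S.ch_eq y ▸ M.mem y, mem_ball_zero_iff.2 ((S.ch_lt y).trans (by norm_num))⟩
  sm k z hz := (S.f_sm k z hz).1
  lev k z hz := by
    rw [← levi_two_re ((S.f_sm k z hz).1.of_le (by norm_cast)), S.rep_g k z hz, ← (S.ρ_sm _ z hz).2]
    refine levi_congr ?_
    filter_upwards [isOpen_ball.mem_nhds hz] with w hw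
    rw [(S.f_sm k w hw).2]
  hol k l y hk hl _ _ := (S.f_hol k l y hk hl).differentiableAt

theorem fz [T2Space Y] {S : Sh M g ν} (h : FinS) : S.Fz :=
  fun s P W hs hP hW hc hf =>
    h ι Y S.κ M g S.c (fun _ => ball 0 4) S.f P s W S.kg (Fz.pot S) hP.1 hP.2.1 hs hP.2.2 hW hc hf

end Pool.Agent.Lib.MP_813db1_ag.AN
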