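import Pool.Agent.Lib.MP_813db1_ag.HS.En_A
import Pool.Agent.Lib.MP_bbd4b9_ag.KC.Weyl
import Pool.Agent.Lib.MP_813db1_ag.AN.Abs

/-! Limits of almost holomorphic functions are holomorphic. -/

namespace Pool.Agent.Lib.MP_813db1_ag.AN

open Pool.Agent.Lib.MP_813db1_ag.HS MeasureTheory Complex Filter Topology Set Metric
open scoped ContDiff ENNReal

variable {ι : Type} [Fintype ι] [DecidableEq ι]

omit [DecidableEq ι] in
theorem l1_le {K : Set (V ι)} (hK : IsCompact K) {g : V ι → ℂ} (hg : ContinuousOn g K) {t : ℝ}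
    (ht : 0 < t) : ∫ z in K, ‖g z‖ ≤ t * volume.real K + (∫ z in K, ‖g z‖ ^ 2) / t := by
  have i1 : IntegrableOn (fun z => ‖g z‖) K := hg.norm.integrableOn_compact hK
  have i2 : IntegrableOn (fun z => ‖g z‖ ^ 2) K := (hg.norm.pow 2).integrableOn_compact hK
  have i3 : IntegrableOn (fun _ : V ι => t) K := continuousOn_const.integrableOn_compact hK
  calc ∫ z in K, ‖g z‖ ≤ ∫ z in K, (t + ‖g z‖ ^ 2 / t) := by
        refine integral_mono i1 (i3.add (i2.div_const t)) fun z => ?_
        show ‖g z‖ ≤ t + ‖g z‖ ^ 2 / t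
        rw [← sub_le_iff_le_add', le_div_iff₀ ht]
        nlinarith [sq_nonneg (‖g z‖ - t), norm_nonneg (g z)]
    _ = _ := by
        rw [integral_add i3 (i2.div_const t), integral_div, setIntegral_const, smul_eq_mul, mul_comm]

omit [DecidableEq ι] in
/-- almost everywhere convergence with an integrable bound on a compact set. -/
theorem lim_cpt {K : Set (V ι)} (hK : IsCompact K) {F : ℕ → V ι → ℂ}
    (hF : ∀ m, ContinuousOn (F m) K) {C : ℝ}
    (h0 : ∀ m, ∫ z in K, ‖F m z - F (m + 1) z‖ ^ 2 ≤ C / 4 ^ m) :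
    ∃ b : V ι → ℝ, IntegrableOn b K ∧ ∀ᵐ z ∂(volume.restrict K), (∀ m, ‖F m z‖ ≤ b z) ∧
      Tendsto (fun m => F m z) atTop (𝓝 (limUnder atTop fun m => F m z)) := by
  have hd : ∀ m, ContinuousOn (fun z => F m z - F (m + 1) z) K := fun m => (hF m).sub (hF (m + 1))
  have hi : ∀ m, IntegrableOn (fun z => ‖F m z - F (m + 1) z‖) K := fun m =>
    (hd m).norm.integrableOn_compact hK
  have h1 : ∀ m, ∫ z in K, ‖F m z - F (m + 1) z‖ ≤ (volume.real K + C) * (1 / 2) ^ m := by
    intro m
    refine (l1_le hK (hd m) (t := (1 / 2) ^ m) (by positivity)).trans ?_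
    have e : C / 4 ^ m / (1 / 2) ^ m = C * (1 / 2 : ℝ) ^ m := by
      rw [show (4 : ℝ) = 2 * 2 by norm_num, mul_pow, one_div, inv_pow]
      field_simp
    have := div_le_div_of_nonneg_right (h0 m) (c := (1 / 2) ^ m) (by positivity)
    rw [e] at this
    linarith
  have hs : Summable fun m => ∫ z in K, ‖F m z - F (m + 1) z‖ :=
    Summable.of_nonneg_of_le (fun m => integral_nonneg fun z => norm_nonneg _) h1
      (summable_geometric_two.mul_left _)
  set g : V ι → ℝ≥0∞ := fun z => ∑' m, ENNReal.ofReal ‖F m z - F (m + 1) z‖ with hg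
  have hm : ∀ m, AEMeasurable (fun z => ENNReal.ofReal ‖F m z - F (m + 1) z‖)
      (volume.restrict K) := fun m => (hi m).aemeasurable.ennreal_ofReal
  have hgm : AEMeasurable g (volume.restrict K) := AEMeasurable.tsum hm
  have hfin : ∫⁻ z in K, g z ≠ ⊤ := by
    rw [hg, lintegral_tsum hm]
    have e : ∀ m, ∫⁻ z in K, ENNReal.ofReal ‖F m z - F (m + 1) z‖ =
        ENNReal.ofReal (∫ z in K, ‖F m z - F (m + 1) z‖) := fun m =>
      (ofReal_integral_eq_lintegral_ofReal (hi m) (ae_of_all _ fun z => norm_nonneg _)).symm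
    simp only [e]
    rw [← ENNReal.ofReal_tsum_of_nonneg (fun m => integral_nonneg fun z => norm_nonneg _) hs]
    exact ENNReal.ofReal_ne_top
  refine ⟨fun z => ‖F 0 z‖ + (g z).toReal, ((hF 0).norm.integrableOn_compact hK).add
    (integrable_toReal_of_lintegral_ne_top hgm hfin), ?_⟩
  filter_upwards [ae_lt_top' hgm hfin] with z hz
  have s1 : Summable fun m => ‖F m z - F (m + 1) z‖ := by
    simpa using ENNReal.summable_toReal hz.ne
  have s2 : (g z).toReal = ∑' m, ‖F m z - F (m + 1) z‖ := by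
    rw [hg, ENNReal.tsum_toReal_eq fun m => ENNReal.ofReal_ne_top]
    simp
  refine ⟨fun m => ?_, (cauchySeq_of_summable_dist (by simpa [dist_eq_norm] using s1)).tendsto_limUnder⟩
  have a1 := dist_le_range_sum_dist (fun m => F m z) m
  have a2 := s1.sum_le_tsum (Finset.range m) fun _ _ => norm_nonneg _
  have a3 := norm_sub_norm_le (F m z) (F 0 z)
  simp only [dist_eq_norm] at a1
  rw [norm_sub_rev] at a3
  show _ ≤ ‖F 0 z‖ + (g z).toReal
  rw [s2]
  linarith

/-- smooth functions with geometric steps in square mean and `dbar` tending to zero in square mean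
converge almost everywhere to a holomorphic function. -/
theorem limS {U : Set (V ι)} (hU : IsOpen U) {F : ℕ → V ι → ℂ}
    (hF : ∀ m, ∀ z ∈ U, ContDiffAt ℝ ∞ (F m) z)
    (h0 : ∀ K ⊆ U, IsCompact K → ∃ C : ℝ, ∀ m, ∫ z in K, ‖F m z - F (m + 1) z‖ ^ 2 ≤ C / 4 ^ m)
    (h1 : ∀ K ⊆ U, IsCompact K → ∀ j,
      Tendsto (fun m => ∫ z in K, ‖dzb (F m) j z‖ ^ 2) atTop (𝓝 0)) :
    ∃ h : V ι → ℂ, AnalyticOnNhd ℂ h U ∧
      ∀ᵐ z, z ∈ U → Tendsto (fun m => F m z) atTop (𝓝 (h z)) := by
  set f : V ι → ℂ := fun z => limUnder atTop fun m => F m z with hf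
  have hc : ∀ K ⊆ U, ∀ m, ContinuousOn (F m) K := fun K hK m z hz =>
    (hF m z (hK hz)).continuousAt.continuousWithinAt
  have key : ∀ K ⊆ U, IsCompact K → ∃ b : V ι → ℝ, IntegrableOn b K ∧
      ∀ᵐ z ∂(volume.restrict K), (∀ m, ‖F m z‖ ≤ b z) ∧
        Tendsto (fun m => F m z) atTop (𝓝 (f z)) := fun K hK hk => by
    obtain ⟨C, hC⟩ := h0 K hK hk
    exact lim_cpt hk (hc K hK) hC
  have hms : ∀ K ⊆ U, IsCompact K → ∀ m, AEStronglyMeasurable (F m) (volume.restrict K) :=
    fun K hK hk m => (hc K hK m).aestronglyMeasurable hk.measurableSet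
  have hli : LocallyIntegrableOn f U := by
    refine (locallyIntegrableOn_iff hU.isLocallyClosed).2 fun K hK hk => ?_
    obtain ⟨b, hb, hz⟩ := key K hK hk
    refine Integrable.mono' hb
      (aestronglyMeasurable_of_tendsto_ae atTop (hms K hK hk) (hz.mono fun z h => h.2)) ?_
    exact hz.mono fun z h => le_of_tendsto' h.2.norm h.1
  obtain ⟨h, ha, he⟩ := MP_bbd4b9_ag.KC.weyl hU hli fun ψ hψ hs j => by
    have hk : IsCompact (tsupport ψ) := hψ.cs
    obtain ⟨b, hb, hz⟩ := key _ hs hk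
    have hψd : Continuous (dzb ψ j) := (hψ.P I j).sm.continuous
    obtain ⟨A, hA⟩ := hk.exists_bound_of_continuousOn hψd.continuousOn
    obtain ⟨B, hB⟩ := hk.exists_bound_of_continuousOn hψ.sm.continuous.continuousOn
    have t1 : Tendsto (fun m => ∫ z in tsupport ψ, F m z * dzb ψ j z) atTop
        (𝓝 (∫ z in tsupport ψ, f z * dzb ψ j z)) := by
      refine tendsto_integral_of_dominated_convergence (fun z => b z * A)
        (fun m => (hms _ hs hk m).mul hψd.aestronglyMeasurable) (hb.mul_const A) (fun m => ?_)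
        (hz.mono fun z h => h.2.mul_const _)
      filter_upwards [hz, ae_restrict_mem hk.measurableSet] with z h h'
      rw [norm_mul]
      exact mul_le_mul (h.1 m) (hA z h') (norm_nonneg _) ((norm_nonneg _).trans (h.1 0))
    have hdc : ∀ m, ContinuousOn (dzb (F m) j) (tsupport ψ) := fun m z hz =>
      (contDiffAt_dzb (m := 0) (hF m z (hs hz)) (by norm_num) j).continuousAt.continuousWithinAt
    have e1 : ∀ m, ∫ z in tsupport ψ, F m z * dzb ψ j z =
        -∫ z in tsupport ψ, dzb (F m) j z * ψ z := fun m => by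
      have q := (En.int_dzb (k := j) (f := fun z => F m z * ψ z) hk hs
        (fun z hz => ((hF m z hz).mul hψ.sm.contDiffAt).of_le (by norm_num))
        (fun z hz => by rw [image_eq_zero_of_notMem_tsupport hz, mul_zero])).2
      have j1 : IntegrableOn (fun z => F m z * dzb ψ j z) (tsupport ψ) :=
        ((hc _ hs m).mul hψd.continuousOn).integrableOn_compact hk
      have j2 : IntegrableOn (fun z => dzb (F m) j z * ψ z) (tsupport ψ) :=
        ((hdc m).mul hψ.sm.continuous.continuousOn).integrableOn_compact hk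
      rw [eq_neg_iff_add_eq_zero, ← integral_add j1 j2, ← q]
      refine setIntegral_congr_fun hk.measurableSet fun z hz => ?_
      show _ = dzb (fun z => F m z * ψ z) j z
      rw [dzb_mul ((hF m z (hs hz)).differentiableAt (by simp))
        (hψ.sm.differentiable (by simp) z)]
      ring
    have t2 : Tendsto (fun m => ∫ z in tsupport ψ, ‖dzb (F m) j z‖) atTop (𝓝 0) := by
      refine tendsto_order.2 ⟨fun a ha => Eventually.of_forall fun m =>
        ha.trans_le (integral_nonneg fun z => norm_nonneg _), fun a ha => ?_⟩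
      have hv : 0 ≤ volume.real (tsupport ψ) := measureReal_nonneg
      set t := a / 2 / (volume.real (tsupport ψ) + 1) with ht
      have ht0 : 0 < t := by positivity
      have ht1 : t * volume.real (tsupport ψ) ≤ a / 2 := by
        rw [ht, div_mul_eq_mul_div, div_le_iff₀ (by positivity)]
        nlinarith
      filter_upwards [(h1 _ hs hk j).eventually (gt_mem_nhds (a := a / 2 * t) (by positivity))]
        with m hm
      have := l1_le hk (hdc m) ht0
      have := (div_lt_iff₀ ht0).2 hm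
      linarith
    have t3 : Tendsto (fun m => ∫ z in tsupport ψ, F m z * dzb ψ j z) atTop (𝓝 0) := by
      refine squeeze_zero_norm (a := fun m => (∫ z in tsupport ψ, ‖dzb (F m) j z‖) * B)
        (fun m => ?_) (by simpa using t2.mul_const B)
      rw [e1, norm_neg, ← integral_mul_const]
      refine norm_integral_le_of_norm_le (((hdc m).norm.integrableOn_compact hk).mul_const B) ?_
      filter_upwards [ae_restrict_mem hk.measurableSet] with z hz
      rw [norm_mul]
      exact mul_le_mul_of_nonneg_left (hB z hz) (norm_nonneg _)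
    rw [← tendsto_nhds_unique t1 t3]
    refine (setIntegral_eq_integral_of_forall_compl_eq_zero fun z hz => ?_).symm
    show f z * dzb ψ j z = 0
    rw [dzb_congr (notMem_tsupport_iff_eventuallyEq.1 hz)]
    simp [dzb]
  refine ⟨h, ha, ?_⟩
  have hall : ∀ᵐ z, z ∈ U → Tendsto (fun m => F m z) atTop (𝓝 (f z)) := by
    rw [ae_iff]
    refine measure_null_of_locally_null _ fun x hx => ?_
    have hx' : x ∈ U := (Classical.not_imp.1 hx).1
    obtain ⟨R, hR, hsub⟩ := Metric.nhds_basis_closedBall.mem_iff.1 (hU.mem_nhds hx')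
    obtain ⟨b, -, hz⟩ := key _ hsub (isCompact_closedBall x R)
    rw [ae_restrict_iff' measurableSet_closedBall] at hz
    refine ⟨_, inter_mem_nhdsWithin _ (closedBall_mem_nhds x hR),
      measure_mono_null ?_ (ae_iff.1 hz)⟩
    intro y hy h3
    exact hy.1 fun _ => (h3 hy.2).2
  rw [EventuallyEq, ae_restrict_iff' hU.measurableSet] at he
  filter_upwards [hall, he] with z a1 a2 hz
  rw [← a2 hz]
  exact a1 hz

/-- the lemma of Fatou for real integrals. -/
theorem fatou {Y : Type} [MeasurableSpace Y] {μ : Measure Y} {g : ℕ → Y → ℝ} {G : Y → ℝ} {B : ℝ}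
    (hg : ∀ m, Integrable (g m) μ) (h0 : ∀ m y, 0 ≤ g m y)
    (hl : ∀ᵐ y ∂μ, Tendsto (fun m => g m y) atTop (𝓝 (G y))) (hB : ∀ m, ∫ y, g m y ∂μ ≤ B) :
    Integrable G μ ∧ ∫ y, G y ∂μ ≤ B := by
  have hB0 : 0 ≤ B := (integral_nonneg (h0 0)).trans (hB 0)
  have hG0 : 0 ≤ᵐ[μ] G := hl.mono fun y h => ge_of_tendsto' h fun m => h0 m y
  have hm : AEStronglyMeasurable G μ :=
    aestronglyMeasurable_of_tendsto_ae atTop (fun m => (hg m).aestronglyMeasurable) hl
  have h1 : ∫⁻ y, ENNReal.ofReal (G y) ∂μ ≤ ENNReal.ofReal B := by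
    calc _ = ∫⁻ y, liminf (fun m => ENNReal.ofReal (g m y)) atTop ∂μ :=
          lintegral_congr_ae (hl.mono fun y h => (ENNReal.tendsto_ofReal h).liminf_eq.symm)
      _ ≤ liminf (fun m => ∫⁻ y, ENNReal.ofReal (g m y) ∂μ) atTop :=
          lintegral_liminf_le' fun m => (hg m).aemeasurable.ennreal_ofReal
      _ ≤ _ := by
          refine liminf_le_of_frequently_le' (Frequently.of_forall fun m => ?_)
          rw [← ofReal_integral_eq_lintegral_ofReal (hg m) (ae_of_all _ (h0 m))]
          exact ENNReal.ofReal_le_ofReal (hB m)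
  have hi : Integrable G μ :=
    ⟨hm, (hasFiniteIntegral_iff_ofReal hG0).2 (h1.trans_lt ENNReal.ofReal_lt_top)⟩
  refine ⟨hi, ?_⟩
  rw [← ofReal_integral_eq_lintegral_ofReal hi hG0] at h1
  exact (ENNReal.ofReal_le_ofReal_iff hB0).1 h1

/-- the sequence of almost closed elements with the uniform distance from the given one. -/
theorem HAbs.seq2 {E : Type} [AddCommGroup E] [Module ℝ E] {D : Submodule ℝ E}
    {p0 p1 : E → E → ℝ} {box : E → E} {c : ℝ} (H : HAbs D p0 p1 box c) {u : E} (hu : u ∈ D)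
    {ε : ℝ} (hε : 0 < ε) :
    ∃ v : ℕ → E, (∀ m, v m ∈ D) ∧ (∀ m, p0 (u - v m) (u - v m) ≤ (√(p1 u u / c) + ε) ^ 2) ∧
      (∀ m, p1 (v m) (v m) ≤ ε ^ 2 / 4 ^ m) ∧
        ∀ m, p0 (v m - v (m + 1)) (v m - v (m + 1)) ≤ ε ^ 2 / 4 ^ m := by
  obtain ⟨v, hv, a0, a1⟩ := H.seq hu (ε := ε / 3) (by positivity)
  have e : ∀ m : ℕ, (ε / 3 / 2 ^ m) ^ 2 ≤ ε ^ 2 / 4 ^ m := fun m => by
    rw [div_pow, ← pow_mul, mul_comm m 2, pow_mul, show (2 : ℝ) ^ 2 = 4 by norm_num]
    exact div_le_div_of_nonneg_right (by nlinarith) (by positivity)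
  have b : ∀ m, √(p0 (u - v m) (u - v m)) ≤ √(p1 u u / c) + ε - 2 * (ε / 3 / 2 ^ m) := by
    intro m
    induction m with
    | zero => simp only [pow_zero, div_one]; linarith
    | succ k ih =>
      have t := H.f0.tri (D.sub_mem hu (hv k)) (D.sub_mem (hv k) (hv (k + 1)))
      rw [sub_add_sub_cancel] at t
      have : 2 * (ε / 3 / 2 ^ (k + 1)) = ε / 3 / 2 ^ k := by rw [pow_succ]; field_simp
      linarith [(a1 k).2]
  refine ⟨v, hv, fun m => ?_, fun m => ((Real.sqrt_le_iff.1 (a1 m).1).2).trans (e m),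
    fun m => ((Real.sqrt_le_iff.1 (a1 m).2).2).trans (e m)⟩
  refine (Real.sqrt_le_iff.1 ((b m).trans ?_)).2
  have : 0 < ε / 3 / 2 ^ m := by positivity
  linarith

end Pool.Agent.Lib.MP_813db1_ag.AN
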