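import Pool.Agent.Lib.MP_813db1_ag.HS.Mat
import Pool.Agent.Lib.MP_813db1_ag.HS.Calc2
import Pool.Agent.Lib.MP_bbd4b9_ag.KC.Vec
import Pool.Agent.Lib.MP_bbd4b9_ag.KC.Mean
import Pool.Agent.Lib.MP_caab05_ag.GB.Osg

/-! Sums of squares of holomorphic functions. -/

namespace Pool.Agent.Lib.MP_813db1_ag.AN

open Pool.Agent.Lib.MP_813db1_ag.HS
open MeasureTheory Complex Matrix Filter Topology Set Metric
open scoped ContDiff ComplexOrder ENNReal

variable {ι κ : Type} [Fintype ι] [DecidableEq ι] {O : Set (V ι)} {F : κ → V ι → ℂ} {z : V ι}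

/-- the family is holomorphic near `z` with square summable bounds. -/
def Dom (F : κ → V ι → ℂ) (z : V ι) : Prop := ∃ R > (0 : ℝ), ∃ u : κ → ℝ,
  Summable (fun k => u k ^ 2) ∧ ∀ k, DifferentiableOn ℂ (F k) (ball z R) ∧
    ∀ w ∈ ball z R, ‖F k w‖ ≤ u k

namespace Ser

/-- the mean value inequality, uniformly near a point. -/
theorem bd (hO : IsOpen O) (hz : z ∈ O) : ∃ R > (0 : ℝ), ∃ C : ℝ, 0 ≤ C ∧ ball z R ⊆ O ∧
    ∀ f : V ι → ℂ, DifferentiableOn ℂ f O → ∫⁻ y in O, ‖f y‖ₑ ^ 2 ≠ ⊤ → ∀ w ∈ ball z R,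
      ‖f w‖ ^ 2 ≤ C * (∫⁻ y in O, ‖f y‖ₑ ^ 2).toReal := by
  obtain ⟨ε, hε, hs⟩ := Metric.isOpen_iff.1 hO z hz
  have hc : 0 < (Real.pi * (ε / 2) ^ 2) ^ Fintype.card ι := by positivity
  refine ⟨ε / 2, half_pos hε, _, (inv_pos.2 hc).le, (ball_subset_ball (half_le_self hε.le)).trans hs,
    fun f hf hi w hw => ?_⟩
  have h1 : closedBall w (ε / 2) ⊆ O := fun y hy => hs (by
    rw [mem_ball] at hw ⊢
    rw [mem_closedBall] at hy
    linarith [dist_triangle y w z])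
  have h2 := (MP_bbd4b9_ag.KC.meanS ι w (ε / 2) f (half_pos hε)
    ((MP_caab05_ag.GB.osg _ _ f O hO hf).mono h1)).trans (lintegral_mono_set h1)
  have h3 := ENNReal.toReal_mono hi h2
  rw [ENNReal.toReal_mul, ENNReal.toReal_ofReal hc.le, ENNReal.toReal_pow, toReal_enorm] at h3
  rw [inv_mul_eq_div, le_div_iff₀ hc]
  exact h3

theorem mem {u : κ → ℝ} (hu : Summable fun k => u k ^ 2) {g : κ → ℂ} {C : ℝ}
    (h : ∀ k, ‖g k‖ ≤ C * u k) : Memℓp g 2 := by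
  refine memℓp_gen ?_
  simp only [ENNReal.toReal_ofNat, Real.rpow_two]
  refine Summable.of_nonneg_of_le (fun _ => sq_nonneg _) (fun k => ?_) (hu.mul_left (C ^ 2))
  rw [← mul_pow]
  exact pow_le_pow_left₀ (norm_nonneg _) (h k) 2

theorem nsq (y : lp (fun _ : κ => ℂ) 2) : HasSum (fun k => ‖y k‖ ^ 2) (‖y‖ ^ 2) := by
  have := lp.hasSum_norm (p := 2) (by simp) y
  simpa only [ENNReal.toReal_ofNat, Real.rpow_two] using this

theorem nle {u : κ → ℝ} (hu : Summable fun k => u k ^ 2) (y : lp (fun _ : κ => ℂ) 2) {C : ℝ}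
    (hC : 0 ≤ C) (h : ∀ k, ‖y k‖ ≤ C * u k) : ‖y‖ ≤ C * √(∑' k, u k ^ 2) := by
  refine (pow_le_pow_iff_left₀ (norm_nonneg _) (by positivity) two_ne_zero).1 ?_
  rw [mul_pow, Real.sq_sqrt (tsum_nonneg fun _ => sq_nonneg _)]
  refine hasSum_le (fun k => ?_) (nsq y) (hu.hasSum.mul_left _)
  rw [← mul_pow]
  exact pow_le_pow_left₀ (norm_nonneg _) (h k) 2

open scoped Classical in
/-- the family as one vector. -/
noncomputable def vc (F : κ → V ι → ℂ) (w : V ι) : lp (fun _ : κ => ℂ) 2 :=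
  if h : Memℓp (fun k => F k w) 2 then ⟨_, h⟩ else 0

omit [Fintype ι] [DecidableEq ι] in
theorem vc_apply {w : V ι} (h : Memℓp (fun k => F k w) 2) (k : κ) : vc F w k = F k w := by
  rw [vc, dif_pos h]

omit [DecidableEq ι] in
theorem an (h : Dom F z) :
    AnalyticAt ℂ (vc F) z ∧ ∀ᶠ w in 𝓝 z, ∀ k, vc F w k = F k w := by
  obtain ⟨R, hR, u, hu, hF⟩ := h
  have m : ∀ w ∈ ball z R, ∀ k, vc F w k = F k w := fun w hw =>
    vc_apply (mem hu (C := 1) fun k => by rw [one_mul]; exact (hF k).2 w hw)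
  refine ⟨?_, mem_of_superset (ball_mem_nhds z hR) m⟩
  refine MP_caab05_ag.GB.osg _ _ _ _ isOpen_ball (fun c hc => ?_) _ (mem_ball_self hR)
  obtain ⟨r, hr, hs⟩ := Metric.isOpen_iff.1 isOpen_ball c hc
  have hd : ∀ k, DifferentiableOn ℂ (F k) (ball c r) := fun k => (hF k).1.mono hs
  have hb : ∀ k, ∀ w ∈ ball c r, ‖F k w‖ ≤ u k := fun k w hw => (hF k).2 w (hs hw)
  have b1 : ∀ v k, ‖fderiv ℂ (F k) c v‖ ≤ 2 / r * ‖v‖ * u k := fun v k =>
    ((fderiv ℂ (F k) c).le_of_opNorm_le (MP_caab05_ag.GB.OsgAux.cauchy hr (hd k) (hb k)) v).trans_eq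
      (by ring)
  let L : V ι →L[ℂ] lp (fun _ : κ => ℂ) 2 := LinearMap.mkContinuous
    { toFun := fun v => ⟨fun k => fderiv ℂ (F k) c v, mem hu (b1 v)⟩
      map_add' := fun v w => lp.ext (funext fun k => map_add _ v w)
      map_smul' := fun a v => lp.ext (funext fun k => map_smul _ a v) }
    (2 / r * √(∑' k, u k ^ 2)) fun v =>
      (nle hu _ (by positivity) (b1 v)).trans_eq (by ring)
  refine (HasFDerivAt.differentiableAt (f' := L) ?_).differentiableWithinAt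
  refine hasFDerivAt_iff_isLittleO.2 (Asymptotics.IsBigO.trans_isLittleO
    (Asymptotics.IsBigO.of_bound (4 / r ^ 2 * √(∑' k, u k ^ 2)) ?_)
    (Asymptotics.isLittleO_pow_sub_sub c one_lt_two))
  filter_upwards [ball_mem_nhds c hr] with w hw
  refine (nle hu _ (C := 4 * (‖w - c‖ / r) ^ 2) (by positivity) fun k => ?_).trans_eq ?_
  · have e : (vc F w - vc F c - L (w - c)) k = F k w - F k c - fderiv ℂ (F k) c (w - c) := by
      rw [← m w (hs hw), ← m c hc]; rfl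
    rw [e]
    exact (MP_caab05_ag.GB.OsgAux.second (hd k) (hb k) hw).trans_eq (by ring)
  · rw [Real.norm_of_nonneg (by positivity)]
    ring

theorem psd {u : V ι → ℝ} (hu : ContDiffAt ℝ 2 (fun w => (u w : ℂ)) z)
    (h : ∀ ξ, 0 ≤ MP_bc3ae6_ag.Levi u z ξ) : (levi (fun w => (u w : ℂ)) z).PosSemidef := by
  have hH := levi_herm_ofReal hu
  refine PosSemidef.of_dotProduct_mulVec_nonneg hH fun x => Complex.nonneg_iff.2
    ⟨?_, (hH.im_star_dotProduct_mulVec_self x).symm⟩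
  refine (h (star x)).trans_eq (congrArg re ?_)
  simp only [dotProduct, mulVec, Finset.mul_sum, levi_apply]
  refine Finset.sum_congr rfl fun i _ => Finset.sum_congr rfl fun j _ => ?_
  rw [dz_dzb_comm hu]
  have e : MP_bc3ae6_ag.P (-I) i (fun w => (u w : ℂ)) = dz (fun w => (u w : ℂ)) i := by
    funext w
    simp only [MP_bc3ae6_ag.P, dz, neg_mul, sub_eq_add_neg]
  rw [e]
  simp only [Pi.star_apply, RCLike.star_def, conj_conj]
  change dzb _ j z * _ * _ = _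
  ring

theorem abs {H : Type} [NormedAddCommGroup H] [InnerProductSpace ℂ H] [CompleteSpace H]
    (T : H → H) (t1 : ∀ a b, T (a + b) = T a + T b) (t2 : ∀ (c : ℂ) a, T (c • a) = star c • T a)
    (t3 : ∀ a, ‖T a‖ = ‖a‖) {x : V ι → H} (ha : AnalyticAt ℂ x z) :
    ContDiffAt ℝ ∞ (fun w => ‖x w‖ ^ 2) z ∧ (0 < ‖x z‖ ^ 2 →
      (levi (fun w => (Real.log (‖x w‖ ^ 2) : ℂ)) z).PosSemidef) := by
  have c0 : ContDiffAt ℝ ∞ x z := ha.contDiffAt.restrict_scalars ℝ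
  refine ⟨c0.norm_sq ℂ, fun hp => ?_⟩
  let S : H →L[ℝ] H := LinearMap.mkContinuous
    { toFun := T
      map_add' := t1
      map_smul' := fun c l => by
        have h1 := t2 (c : ℂ) l
        rw [Complex.coe_smul] at h1
        rw [h1]
        simp } 1 fun l => by simp [t3]
  have hS : ∀ y, S y = T y := fun _ => rfl
  have hA : MP_bbd4b9_ag.KC.Anti (fun w => S (x w)) z := by
    refine ⟨S.contDiff.contDiffAt.comp z c0, ?_⟩
    filter_upwards [ha.eventually_analyticAt] with w hw v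
    have h1 := S.hasFDerivAt.comp w (hw.differentiableAt.hasFDerivAt.restrictScalars ℝ)
    have h2 : fderiv ℝ (fun w => S (x w)) w = _ := h1.fderiv
    rw [h2]
    simp only [ContinuousLinearMap.comp_apply, ContinuousLinearMap.coe_restrictScalars', map_smul,
      hS, t2, star_I]
  have n0 : S (x z) ≠ 0 := by
    rw [hS, ← norm_pos_iff, t3]
    exact (norm_nonneg _).lt_of_ne fun h0 => hp.ne (by rw [← h0]; simp)
  have hv := fun ξ => (MP_bbd4b9_ag.KC.vecS ι _ _ (ContinuousLinearMap.id ℂ _) 1 (fun _ => 0) z hA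
    (fun _ => le_rfl) (IsSelfAdjoint.one _) contDiffAt_const n0 ξ).1
  simp only [ContinuousLinearMap.id_apply, hS, t3] at hv
  have c2 : ContDiffAt ℝ ∞ (fun w => Real.log (‖x w‖ ^ 2)) z := (c0.norm_sq ℂ).log hp.ne'
  exact psd (contDiffAt_ofReal.2 (c2.of_le (by norm_cast))) hv

end Ser

open Ser

theorem dom_of_lint (hO : IsOpen O) (hF : ∀ k, DifferentiableOn ℂ (F k) O)
    (hi : ∑' k, ∫⁻ y in O, ‖F k y‖ₑ ^ 2 ≠ ⊤) (hz : z ∈ O) : Dom F z := by
  obtain ⟨R, hR, C, hC, hs, h⟩ := bd hO hz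
  refine ⟨R, hR, fun k => √(C * (∫⁻ y in O, ‖F k y‖ₑ ^ 2).toReal), ?_, fun k =>
    ⟨(hF k).mono hs, fun w hw => Real.le_sqrt_of_sq_le
      (h _ (hF k) (ENNReal.ne_top_of_tsum_ne_top hi k) w hw)⟩⟩
  refine ((ENNReal.summable_toReal hi).mul_left C).congr fun k => ?_
  rw [Real.sq_sqrt (by positivity)]

omit [DecidableEq ι] in
theorem dom_of_finite [Finite κ] (hF : ∀ k, ∀ᶠ w in 𝓝 z, DifferentiableAt ℂ (F k) w) :
    Dom F z := by
  have h1 : ∀ k, ∀ᶠ w in 𝓝 z, ‖F k w‖ ≤ ‖F k z‖ + 1 := fun k =>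
    ((hF k).self_of_nhds.continuousAt.norm.eventually (gt_mem_nhds (lt_add_one _))).mono
      fun _ h => h.le
  obtain ⟨R, hR, h⟩ := Metric.eventually_nhds_iff_ball.1
    (eventually_all.2 fun k => (hF k).and (h1 k))
  exact ⟨R, hR, fun k => ‖F k z‖ + 1, Summable.of_finite, fun k =>
    ⟨fun w hw => (h w hw k).1.differentiableWithinAt, fun w hw => (h w hw k).2⟩⟩

/-- the sum of the squares is smooth and its logarithm is plurisubharmonic. -/
theorem Dom.ser (h : Dom F z) : Summable (fun k => ‖F k z‖ ^ 2) ∧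
    ContDiffAt ℝ ∞ (fun w => ∑' k, ‖F k w‖ ^ 2) z ∧ (0 < ∑' k, ‖F k z‖ ^ 2 →
      (levi (fun w => (Real.log (∑' k, ‖F k w‖ ^ 2) : ℂ)) z).PosSemidef) := by
  obtain ⟨ha, he⟩ := an h
  have hs : ∀ᶠ w in 𝓝 z, HasSum (fun k => ‖F k w‖ ^ 2) (‖vc F w‖ ^ 2) :=
    he.mono fun w hw => by simpa only [hw] using nsq (vc F w)
  have e : (fun w => ∑' k, ‖F k w‖ ^ 2) =ᶠ[𝓝 z] fun w => ‖vc F w‖ ^ 2 :=
    hs.mono fun w hw => hw.tsum_eq
  obtain ⟨c0, c1⟩ := Ser.abs star star_add star_smul norm_star ha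
  refine ⟨hs.self_of_nhds.summable, c0.congr_of_eventuallyEq e, fun hp => ?_⟩
  rw [levi_congr (g := fun w => (Real.log (‖vc F w‖ ^ 2) : ℂ)) (e.mono fun w hw => by
    simp only [hw])]
  exact c1 (hp.trans_eq e.self_of_nhds)

omit [DecidableEq ι] in
/-- the members of the family tend to zero uniformly on compact sets. -/
theorem dom_decay {K : Set (V ι)} (hK : IsCompact K) (h : ∀ z ∈ K, Dom F z) {ε : ℝ} (hε : 0 < ε) :
    ∀ᶠ k in cofinite, ∀ z ∈ K, ‖F k z‖ ≤ ε := by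
  refine hK.induction_on (p := fun s => ∀ᶠ k in cofinite, ∀ z ∈ s, ‖F k z‖ ≤ ε)
    (Eventually.of_forall fun _ _ h => h.elim) (fun s t hst ht => ht.mono fun k hk z hz =>
      hk z (hst hz)) (fun s t hs ht => (hs.and ht).mono fun k hk z hz =>
        hz.elim (hk.1 z) (hk.2 z)) fun z hz => ?_
  obtain ⟨R, hR, u, hu, hF⟩ := h z hz
  refine ⟨ball z R, mem_nhdsWithin_of_mem_nhds (ball_mem_nhds z hR), ?_⟩
  filter_upwards [hu.tendsto_cofinite_zero.eventually (gt_mem_nhds (pow_pos hε 2))] with k hk w hw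
  exact ((hF k).2 w hw).trans ((le_abs_self _).trans (abs_le_of_sq_le_sq hk.le hε.le))

/-- step 6 in a chart. -/
theorem serL (hO : IsOpen O) (hF : ∀ k, DifferentiableOn ℂ (F k) O)
    (hi : ∑' k, ∫⁻ y in O, ‖F k y‖ₑ ^ 2 ≠ ⊤) (hz : z ∈ O) : Summable (fun k => ‖F k z‖ ^ 2) ∧
    ContDiffAt ℝ ∞ (fun w => ∑' k, ‖F k w‖ ^ 2) z ∧ (0 < ∑' k, ‖F k z‖ ^ 2 →
      (levi (fun w => (Real.log (∑' k, ‖F k w‖ ^ 2) : ℂ)) z).PosSemidef) :=
  (dom_of_lint hO hF hi hz).ser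

/-- the finite case. -/
theorem serF [Fintype κ] (hF : ∀ k, ∀ᶠ w in 𝓝 z, DifferentiableAt ℂ (F k) w) :
    ContDiffAt ℝ ∞ (fun w => ∑ k, ‖F k w‖ ^ 2) z ∧ (0 < ∑ k, ‖F k z‖ ^ 2 →
      (levi (fun w => (Real.log (∑ k, ‖F k w‖ ^ 2) : ℂ)) z).PosSemidef) := by
  simpa only [tsum_fintype] using (dom_of_finite hF).ser.2

/-- decay on compact sets. -/
theorem decayL (hO : IsOpen O) (hF : ∀ k, DifferentiableOn ℂ (F k) O)
    (hi : ∑' k, ∫⁻ y in O, ‖F k y‖ₑ ^ 2 ≠ ⊤) {K : Set (V ι)} (hK : IsCompact K) (hs : K ⊆ O)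
    {ε : ℝ} (hε : 0 < ε) : ∀ᶠ k in cofinite, ∀ z ∈ K, ‖F k z‖ ≤ ε :=
  dom_decay hK (fun _ hz => dom_of_lint hO hF hi (hs hz)) hε

end Pool.Agent.Lib.MP_813db1_ag.AN
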