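import Pool.Agent.Lib.MP_813db1_ag.AN.Stmt
import Pool.Agent.Lib.MP_813db1_ag.AN.Ser

/-! Sums of squares of holomorphic sections. -/

namespace Pool.Agent.Lib.MP_813db1_ag.AN

open Pool.Agent.Lib.MP_813db1_ag.HS Pool.Agent.Lib.MP_813db1_ag.AS
open MeasureTheory Complex Matrix Filter Topology Set Metric
open scoped ContDiff ComplexOrder

variable {ι Y : Type} [Fintype ι] [DecidableEq ι] [TopologicalSpace Y] [MeasurableSpace Y]
  {M : Atl ι Y} {g : Y → Mat ι} {ν : Measure Y} {S : Sh M g ν}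

namespace Lg

theorem val (hB : S.BasB) (t : ℝ) {m : ℕ} (σ : Fin m → Y → ℂ) (k : S.κ) {z : V ι}
    (hz : z ∈ ball (0 : V ι) 4) :
    (S.H (S.ty k) z).det.re * ∑ j, dn g (σ j) ((S.c k).symm z) =
      (∑ j, ‖S.rep t (σ j) k z‖ ^ 2) * Real.exp (-(t * S.ρ (S.ty k) z)) := by
  have hz' : z ∈ (S.c k).target := (S.tgt k).symm ▸ hz
  rw [Finset.mul_sum, Finset.sum_mul]
  refine Finset.sum_congr rfl fun j _ => ?_
  have := hB.dn t (σ j) k _ ((S.c k).map_target hz')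
  rwa [(S.c k).right_inv hz'] at this

theorem kon (S : Sh M g ν) (a : Fin S.n) {z : V ι} (hz : z ∈ ball (0 : V ι) 4) :
    CdM ∞ (S.H a) z ∧ 0 < (S.H a z).det.re := by
  have h5 : z ∈ ball (0 : V ι) 5 := ball_subset_ball (by norm_num) hz
  exact ⟨(S.kon a).1.1.cd h5, (mat.det ι _ ((S.kon a).2 z h5)).1⟩

theorem lev (hB : S.BasB) (t : ℝ) {m : ℕ} (σ : Fin m → Y → ℂ) (hσ : ∀ j, S.Hol t (σ j)) (k : S.κ)
    {z : V ι} (hz : z ∈ ball (0 : V ι) 4) (h0 : 0 < ∑ j, dn g (σ j) ((S.c k).symm z)) :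
    (levi (fn (fun x => Real.log (∑ j, dn g (σ j) x)) (S.c k)) z + (t : ℂ) • S.H (S.ty k) z -
      ric (S.H (S.ty k)) z).PosSemidef := by
  have hn := isOpen_ball.mem_nhds hz
  obtain ⟨hs, hp⟩ := serF (F := fun j => S.rep t (σ j) k) (z := z) fun j => by
    filter_upwards [hn] with w hw
    exact (hσ j k).differentiableAt (isOpen_ball.mem_nhds hw)
  have hQ : 0 < ∑ j, ‖S.rep t (σ j) k z‖ ^ 2 := by
    have h1 := mul_pos (kon S (S.ty k) hz).2 h0
    rw [val hB t σ k hz] at h1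
    exact pos_of_mul_pos_left h1 (Real.exp_pos _).le
  have hev : ∀ᶠ w in 𝓝 z, 0 < ∑ j, ‖S.rep t (σ j) k w‖ ^ 2 :=
    hs.continuousAt.eventually (lt_mem_nhds hQ)
  have c1 : ContDiffAt ℝ 2 (fun w => (Real.log (∑ j, ‖S.rep t (σ j) k w‖ ^ 2) : ℂ)) z :=
    contDiffAt_ofReal.2 ((hs.log hQ.ne').of_le (by norm_cast))
  have c2 : ContDiffAt ℝ 2 (fun w => (S.ρ (S.ty k) w : ℂ)) z :=
    contDiffAt_ofReal.2 ((S.ρ_sm _ z hz).1.of_le (by norm_cast))
  have c3 : ContDiffAt ℝ 2 (lg (S.H (S.ty k))) z :=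
    ((kon S (S.ty k) hz).1.lg (kon S (S.ty k) hz).2.ne').of_le (by norm_cast)
  have he : fn (fun x => Real.log (∑ j, dn g (σ j) x)) (S.c k) =ᶠ[𝓝 z] fun w =>
      ((Real.log (∑ j, ‖S.rep t (σ j) k w‖ ^ 2) : ℂ) - t * (S.ρ (S.ty k) w : ℂ)) -
        lg (S.H (S.ty k)) w := by
    filter_upwards [hn, hev] with w hw hw0
    have hd := (kon S (S.ty k) hw).2
    have h1 : ∑ j, dn g (σ j) ((S.c k).symm w) = (∑ j, ‖S.rep t (σ j) k w‖ ^ 2) *
        Real.exp (-(t * S.ρ (S.ty k) w)) / (S.H (S.ty k) w).det.re := by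
      rw [← val hB t σ k hw]
      field_simp
    simp only [fn, lg]
    rw [h1, Real.log_div (mul_pos hw0 (Real.exp_pos _)).ne' hd.ne',
      Real.log_mul hw0.ne' (Real.exp_pos _).ne', Real.log_exp]
    push_cast
    ring
  rw [levi_congr he, levi_sub (c1.sub (contDiffAt_const.mul c2)) c3,
    levi_sub c1 (contDiffAt_const.mul c2), levi_cmul _ c2, (S.ρ_sm _ z hz).2]
  have hr : ric (S.H (S.ty k)) z = -levi (lg (S.H (S.ty k))) z := rfl
  rw [hr]
  convert hp hQ using 1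
  abel

theorem dom (ι : Type) [Fintype ι] [DecidableEq ι] (L : ℝ) : ∃ C ≥ (0 : ℝ), ∀ G B : Mat ι,
    G.PosDef → B.IsHermitian → Bd L G → Bd L G⁻¹ → Bd L B → ((C : ℂ) • G + B).PosSemidef := by
  obtain ⟨C, hC⟩ := mat.dom ι L
  refine ⟨max C.re 0, le_max_right _ _, fun G B hG hB b1 b2 b3 => ?_⟩
  have h1 := (hC G B hG hB b1 b2 b3).1
  have h2 : (C • G)ᴴ = C • G := by
    have := h1.1.sub hB
    rwa [add_sub_cancel_right] at this
  rw [conjTranspose_smul, hG.1.eq] at h2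
  have h3 : (C.re : ℂ) • G = C • G := by
    rw [re_eq_add_conj, div_eq_inv_mul, mul_smul, add_smul, ← RCLike.star_def, h2]
    module
  have h4 : (((max C.re 0 - C.re : ℝ) : ℂ) • G).PosSemidef :=
    hG.posSemidef.smul (zero_le_real.2 (sub_nonneg.2 (le_max_left _ 0)))
  have h5 := h1.posSemidef.add h4
  rw [← h3] at h5
  convert h5 using 1
  rw [ofReal_sub]
  module

end Lg

theorem lgS (hA : S.BasA) (hB : S.BasB) : S.Lg := by
  obtain ⟨L, -, hL⟩ := hA.bd 1 (by norm_num)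
  obtain ⟨C, h0, hC⟩ := Lg.dom ι L
  refine ⟨C, h0, fun t m σ hσ => ⟨?_, fun y => ?_, fun y hy => ?_⟩⟩
  · intro e he z hz
    have : fn (fun y => ∑ j, dn g (σ j) y) e = fun w => ∑ j, fn (dn g (σ j)) e w := by
      funext w
      simp only [fn]
      push_cast
      rfl
    rw [this]
    exact ContDiffAt.sum fun j _ => (hB.ck _ (hB.hol_an t _ (hσ j)).1).1 e he z hz
  · exact Finset.sum_nonneg fun j _ => div_nonneg (sq_nonneg _) (hA.det y).2.1.le
  · have hs : y ∈ (S.c (S.ch y)).source := S.ch_eq y ▸ M.mem y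
    have hz : S.c (S.ch y) y ∈ ball (0 : V ι) 4 :=
      mem_ball_zero_iff.2 ((S.ch_lt y).trans (by norm_num))
    have h1 := Lg.lev hB t σ hσ (S.ch y) hz (by rwa [(S.c (S.ch y)).left_inv hs])
    obtain ⟨b1, b2, b3, -⟩ := hL (S.ty (S.ch y)) _ (S.ch_lt y).le
    obtain ⟨hp, -, hg⟩ := hA.det y
    have hh : (ric (S.H (S.ty (S.ch y))) (S.c (S.ch y) y)).IsHermitian :=
      (levi_herm_ofReal (((Lg.kon S _ hz).1.lg (Lg.kon S _ hz).2.ne').of_le (by norm_cast))).neg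
    rw [← hg] at h1 b1 b2
    have h4 := h1.add (hC _ _ hp hh b1 b2 b3)
    rw [Atl.ddc, S.ch_eq y]
    convert h4 using 1
    push_cast
    module

/-- the form with the three basic hypotheses. -/
theorem lg (hA : S.BasA) (hB : S.BasB) (_hC : S.BasC) : S.Lg := lgS hA hB

end Pool.Agent.Lib.MP_813db1_ag.AN
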