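import Pool.Agent.Lib.MP_813db1_ag.AN.Stmt

/-! No base points. -/

namespace Pool.Agent.Lib.MP_813db1_ag.AN

open Pool.Agent.Lib.MP_813db1_ag.HS Pool.Agent.Lib.MP_813db1_ag.AS
open MeasureTheory Complex Matrix Filter Topology Set Metric
open scoped ContDiff ComplexOrder

theorem nz {ι Y : Type} [Fintype ι] [DecidableEq ι] [TopologicalSpace Y] [MeasurableSpace Y]
    [T2Space Y] {M : Atl ι Y} {g : Y → Mat ι} {ν : Measure Y} {S : Sh M g ν} (hA : S.BasA)
    (hB : S.BasB) (hD : S.BasD) {s : ℝ} (hs : 0 ≤ s) (hb : S.Bs s) (hl : S.Lg) (hf : S.Fz)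
    (hp : S.Pk) : S.Nz := by
  intro t ht y
  obtain ⟨C, hC, hl⟩ := hl
  obtain ⟨N, hN⟩ := exists_nat_gt (4 * Fintype.card ι * (s + C) / t)
  have h0 : (0 : ℝ) < N := lt_of_le_of_lt (by positivity) hN
  obtain ⟨W, m, σ, hW, hc, hy, hσ, hfr⟩ := hb y N
  have nn : ∀ j x, 0 ≤ dn g (σ j) x := fun j x => div_nonneg (by positivity) (hA.det x).2.1.le
  have hq := hl s m σ fun j => (hσ j).1.1
  have ct : ∀ j, Continuous (dn g (σ j)) := fun j => (hB.ck _ (hB.hol_an s _ (hσ j).1.1).1).2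
  have hfin := hf (s + C) _ W (by positivity) hq hW hc fun x hx => by
    obtain ⟨j, hj⟩ := hfr x hx
    exact (Finset.sum_pos' (fun i _ => nn i x) ⟨j, Finset.mem_univ j,
      div_pos (by positivity) (hA.det x).2.1⟩).ne'
  refine hp (s + C) t N _ y (by positivity) ht (by exact_mod_cast h0)
    (by rw [div_lt_iff₀ ht] at hN; linarith) hq (fun ε hε => ?_) ?_ ?_
  · refine (isCompact_iUnion fun j => hD.dec s _ (hσ j).1 (ε / (m + 1)) (by positivity)).of_isClosed_subset
      (isClosed_le continuous_const (continuous_finsetSum _ fun j _ => ct j)) fun x hx => ?_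
    by_contra hn
    simp only [mem_iUnion, mem_ofPred_eq, not_exists, not_le] at hn
    have h1 : ∑ j, dn g (σ j) x ≤ ∑ _j : Fin m, ε / (m + 1) :=
      Finset.sum_le_sum fun j _ => (hn j).le
    rw [Finset.sum_const, Finset.card_univ, Fintype.card_fin, nsmul_eq_mul] at h1
    have h2 : (m : ℝ) * (ε / (m + 1)) < ε := by
      rw [mul_div_assoc', div_lt_iff₀ (by positivity)]
      linarith
    exact absurd (hx.trans h1) h2.not_ge
  · choose c hc using fun j => (hσ j).2
    refine ⟨∑ j, c j, (eventually_all.2 hc).mono fun z hz => ?_⟩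
    rw [Finset.sum_mul]
    exact Finset.sum_le_sum fun j _ => hz j
  · have h1 : ∀ᶠ x in 𝓝[≠] y, x ∉ {x ∈ W | ∑ j, dn g (σ j) x = 0} :=
      nhdsNE_le_cofinite y hfin.compl_mem_cofinite
    filter_upwards [h1, nhdsWithin_le_nhds (hW.mem_nhds hy)] with x h2 h3
    exact (Finset.sum_nonneg fun j _ => nn j x).lt_of_ne fun e => h2 ⟨h3, e.symm⟩

end Pool.Agent.Lib.MP_813db1_ag.AN
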