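import Pool.Agent.Lib.MP_813db1_ag.AN.Pole
import Pool.Agent.Lib.MP_bbd4b9_ag.KC.Mean

/-! The mean value inequality with a weight, and the convex truncations of the identity. -/

namespace Pool.Agent.Lib.MP_813db1_ag.HS.Pole

open MeasureTheory Complex Matrix Filter Topology Set Metric
open scoped ContDiff ComplexOrder Real

noncomputable section

set_option linter.unusedSectionVars false

variable {ι : Type} [Fintype ι] [DecidableEq ι]

/-- the mean value inequality with a weight that is at least `a` on the polydisc. -/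
theorem meanW {c : V ι} {r a : ℝ} {f : V ι → ℂ} {w : V ι → ℝ} {U : Set (V ι)} (hr : 0 < r)
    (ha : 0 ≤ a) (hf : AnalyticOnNhd ℂ f (closedBall c r)) (hU : closedBall c r ⊆ U)
    (hw : ∀ z ∈ closedBall c r, a ≤ w z) :
    ENNReal.ofReal (a * (π * r ^ 2) ^ Fintype.card ι * ‖f c‖ ^ 2) ≤
      ∫⁻ z in U, ENNReal.ofReal (‖f z‖ ^ 2 * w z) := by
  have h := MP_bbd4b9_ag.KC.meanS ι c r f hr hf
  have e : ∀ x : ℂ, ‖x‖ₑ ^ 2 = ENNReal.ofReal (‖x‖ ^ 2) := fun x => by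
    rw [ENNReal.ofReal_pow (norm_nonneg _), ofReal_norm]
  simp only [e] at h
  rw [mul_assoc, ENNReal.ofReal_mul ha, ENNReal.ofReal_mul (by positivity),
    mul_comm (ENNReal.ofReal _) (ENNReal.ofReal (‖f c‖ ^ 2))]
  refine (mul_le_mul_right h _).trans ?_
  rw [← lintegral_const_mul' _ _ ENNReal.ofReal_ne_top]
  refine le_trans (setLIntegral_mono' measurableSet_closedBall fun z hz => ?_)
    (lintegral_mono_set hU)
  rw [← ENNReal.ofReal_mul ha, mul_comm]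
  exact ENNReal.ofReal_le_ofReal (mul_le_mul_of_nonneg_left (hw z hz) (sq_nonneg _))

/-- the same with a real integral. -/
theorem meanR {c : V ι} {r a : ℝ} {f : V ι → ℂ} {F : V ι → ℝ} {U : Set (V ι)} (hr : 0 < r)
    (ha : 0 ≤ a) (hf : AnalyticOnNhd ℂ f (closedBall c r)) (hU : closedBall c r ⊆ U)
    (hF : IntegrableOn F U) (h0 : ∀ᵐ z ∂volume.restrict U, 0 ≤ F z)
    (hw : ∀ z ∈ closedBall c r, a * ‖f z‖ ^ 2 ≤ F z) :
    a * (π * r ^ 2) ^ Fintype.card ι * ‖f c‖ ^ 2 ≤ ∫ z in U, F z := by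
  have h := meanW (w := fun _ => a) hr ha hf subset_rfl fun _ _ => le_rfl
  rw [← ENNReal.ofReal_le_ofReal_iff (integral_nonneg_of_ae h0),
    ofReal_integral_eq_lintegral_ofReal hF h0]
  refine h.trans (le_trans (setLIntegral_mono' measurableSet_closedBall fun z hz => ?_)
    (lintegral_mono_set hU))
  exact ENNReal.ofReal_le_ofReal ((mul_comm _ _).trans_le (hw z hz))

/-- a convex function with slope in `[0, 1]` keeps almost plurisubharmonic functions. -/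
theorem psd_cvx {ρ : ℝ → ℝ} {u : V ι → ℝ} {z : V ι} {B : Mat ι} (hρ : ContDiffAt ℝ 2 ρ (u z))
    (hu : ContDiffAt ℝ 2 u z) (h0 : 0 ≤ deriv ρ (u z)) (h1 : deriv ρ (u z) ≤ 1)
    (h2 : 0 ≤ deriv (deriv ρ) (u z)) (hB : B.PosSemidef)
    (h : (B + levi (fun w => (u w : ℂ)) z).PosSemidef) :
    (B + levi (fun w => (ρ (u w) : ℂ)) z).PosSemidef := by
  have e : B + levi (fun w => (ρ (u w) : ℂ)) z = ((1 - deriv ρ (u z) : ℝ) : ℂ) • B +
      ((deriv ρ (u z) : ℝ) : ℂ) • (B + levi (fun w => (u w : ℂ)) z) +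
      ((deriv (deriv ρ) (u z) : ℝ) : ℂ) • Matrix.of fun i j =>
        dz (fun w => (u w : ℂ)) i z * star (dz (fun w => (u w : ℂ)) j z) := by
    rw [levi_chain hρ hu, ofReal_sub, ofReal_one, sub_smul, one_smul, smul_add]
    abel
  rw [e]
  exact ((hB.smul (zero_le_real.2 (sub_nonneg.2 h1))).add (h.smul (zero_le_real.2 h0))).add
    ((psd_rank _).smul (zero_le_real.2 h2))

theorem le_cvx {ρ : ℝ → ℝ} {c : ℝ} (hρ : ContDiff ℝ ∞ ρ) (h1 : ∀ x ≥ (1 : ℝ), ρ x = x - c)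
    (h2 : ∀ x, deriv ρ x ≤ 1) (x : ℝ) : x - c ≤ ρ x := by
  rcases le_total 1 x with h | h
  · exact (h1 x h).ge
  · have := image_sub_le_mul_sub_of_deriv_le (hρ.differentiable (by simp)) h2 h
    rw [h1 1 le_rfl] at this
    linarith

/-- the truncated logarithm `ρ (log s + M)` as a smooth function of `s`. -/
theorem trunc {ρ : ℝ → ℝ} {c : ℝ} (hρ : ContDiff ℝ ∞ ρ) (h0 : ∀ x ≤ (-1 : ℝ), ρ x = 0)
    (h1 : ∀ x ≥ (1 : ℝ), ρ x = x - c)
    (h2 : ∀ x, 0 ≤ deriv ρ x ∧ deriv ρ x ≤ 1 ∧ 0 ≤ deriv (deriv ρ) x ∧ 0 ≤ ρ x) (M : ℝ) :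
    ∃ Φ : ℝ → ℝ, ContDiff ℝ ∞ Φ ∧ (∀ s ≤ Real.exp (-M - 1), Φ s = 0) ∧ (∀ s, 0 ≤ Φ s) ∧
      (∀ s > 0, Φ s = ρ (Real.log s + M) ∧ Real.log s + M - c ≤ Φ s) ∧
      ∀ (ι : Type) [Fintype ι] [DecidableEq ι] (S : V ι → ℝ) (z : V ι) (B : Mat ι),
        ContDiffAt ℝ 2 S z → B.PosSemidef →
        (0 < S z → (B + levi (fun w => (Real.log (S w) : ℂ)) z).PosSemidef) →
        (B + levi (fun w => (Φ (S w) : ℂ)) z).PosSemidef := by
  classical
  let Φ : ℝ → ℝ := fun s => if 0 < s then ρ (Real.log s + M) else 0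
  have p1 : ∀ s > 0, Φ s = ρ (Real.log s + M) := fun s hs => if_pos hs
  have p2 : ∀ s ≤ Real.exp (-M - 1), Φ s = 0 := fun s hs => by
    by_cases h : 0 < s
    · rw [p1 s h]
      exact h0 _ (by linarith [(Real.log_le_iff_le_exp h).2 hs])
    · exact if_neg h
  have p3 : ∀ s ≤ (0 : ℝ), Φ =ᶠ[𝓝 s] fun _ => 0 := fun s hs =>
    (gt_mem_nhds (hs.trans_lt (Real.exp_pos (-M - 1)))).mono fun t ht => p2 t ht.le
  have p4 : ∀ s > (0 : ℝ), Φ =ᶠ[𝓝 s] fun t => ρ (Real.log t + M) := fun s hs =>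
    (lt_mem_nhds hs).mono fun t ht => p1 t ht
  refine ⟨Φ, contDiff_iff_contDiffAt.2 fun s => ?_, p2, fun s => ?_, fun s hs =>
    ⟨p1 s hs, p1 s hs ▸ le_cvx hρ h1 (fun x => (h2 x).2.1) _⟩, fun ι _ _ S z B hS hB h => ?_⟩
  · rcases le_or_gt s 0 with hs | hs
    · exact contDiffAt_const.congr_of_eventuallyEq (p3 s hs)
    · exact (hρ.contDiffAt.comp s ((Real.contDiffAt_log.2 hs.ne').add
        contDiffAt_const)).congr_of_eventuallyEq (p4 s hs)
  · by_cases h : 0 < s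
    · rw [p1 s h]; exact (h2 _).2.2.2
    · exact (if_neg h).ge
  · rcases le_or_gt (S z) 0 with hs | hs
    · rw [levi_congr (g := fun _ => 0) ((hS.continuousAt.eventually (p3 _ hs)).mono
        fun w hw => by simp [hw]), levi_const, add_zero]
      exact hB
    · have hl : ContDiffAt ℝ 2 (fun w => Real.log (S w)) z := hS.log hs.ne'
      rw [levi_congr (g := fun w => (ρ (Real.log (S w) + M) : ℂ))
        ((hS.continuousAt.eventually (p4 _ hs)).mono fun w hw => by simp only [hw])]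
      refine psd_cvx (u := fun w => Real.log (S w) + M) (hρ.contDiffAt.of_le (by norm_cast))
        (hl.add contDiffAt_const) (h2 _).1 (h2 _).2.1 (h2 _).2.2.1 hB ?_
      simp only [ofReal_add]
      rw [levi_add (contDiffAt_ofReal.2 hl) contDiffAt_const, levi_const, add_zero]
      exact h hs

end

end Pool.Agent.Lib.MP_813db1_ag.HS.Pole
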