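import Pool.Agent.Lib.MP_813db1_ag.AN.Stmt
import Pool.Agent.Lib.MP_813db1_ag.AN.FinFun
import Pool.Agent.Lib.MP_813db1_ag.AN.MeanW

/-! Sections that do not vanish at an isolated zero of high order. -/

namespace Pool.Agent.Lib.MP_813db1_ag.AN

open Pool.Agent.Lib.MP_813db1_ag.HS Pool.Agent.Lib.MP_813db1_ag.AS
open MeasureTheory Complex Matrix Filter Topology Set Metric
open scoped ContDiff ComplexOrder

variable {ι Y : Type} [Fintype ι] [DecidableEq ι] [TopologicalSpace Y] [T2Space Y]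
  {M : Atl ι Y} {g : Y → Mat ι}

namespace Pk

omit [Fintype ι] [DecidableEq ι] in
theorem psd_smul {B : Mat ι} (h : B.PosSemidef) {a : ℝ} (ha : 0 ≤ a) :
    ((a : ℂ) • B).PosSemidef :=
  h.smul (by exact_mod_cast ha)

/-- the truncated weight. -/
theorem weight (hF : FinFun) : ∃ c : ℝ, ∀ (s q L : ℝ) (P : Y → ℝ), (∀ y, (g y).PosDef) → 0 ≤ s →
    0 ≤ q → QP M g s P → (∀ ε > (0 : ℝ), IsCompact {x | ε ≤ P x}) →
    ∃ ψ : Y → ℝ, M.Ck ∞ ψ ∧ HasCompactSupport ψ ∧
      (∀ y, (((q * s : ℝ) : ℂ) • g y + M.ddc ψ y).PosSemidef) ∧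
      (∀ y, P y ≤ Real.exp (-L - 1) → ψ y = 0) ∧
      ∀ y, 0 < P y → q * (Real.log (P y) + L - c) ≤ ψ y := by
  obtain ⟨ρ, c, h0, h1, h2, h3⟩ := hF.rho
  refine ⟨c, fun s q L P hg hs hq hP hK => ?_⟩
  obtain ⟨Φ, p0, p1, -, p3, p4⟩ := Pole.trunc h0 h1 h2
    (fun x => ⟨(h3 x).1, (h3 x).2.1, (h3 x).2.2.1, (h3 x).2.2.2.1⟩) L
  have sm : ∀ e ∈ M.A, ∀ z ∈ e.target, ContDiffAt ℝ ∞ (fun w => P (e.symm w)) z :=
    fun e he z hz => contDiffAt_ofReal.1 (hP.1 e he z hz)
  refine ⟨fun y => q * Φ (P y), fun e he z hz => ?_, ?_, fun y => ?_, fun y hy => ?_,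
    fun y hy => mul_le_mul_of_nonneg_left (p3 _ hy).2 hq⟩
  · exact contDiffAt_ofReal.2 (contDiffAt_const.mul (p0.contDiffAt.comp z (sm e he z hz)))
  · refine HasCompactSupport.intro (hK _ (Real.exp_pos (-L - 1))) fun x hx => ?_
    rw [p1 _ (not_le.1 hx).le, mul_zero]
  · have hz := (M.ch y).map_source (M.mem y)
    have h2' : ContDiffAt ℝ 2 (fun w => P ((M.ch y).symm w)) (M.ch y y) :=
      (sm _ (M.ch_mem y) _ hz).of_le (by norm_cast)
    have a := p4 ι (fun w => P ((M.ch y).symm w)) (M.ch y y) ((s : ℂ) • g y) h2'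
      (psd_smul (hg y).posSemidef hs) fun h => hP.2.2 y (by
        rwa [(M.ch y).left_inv (M.mem y)] at h)
    have e : M.ddc (fun y => q * Φ (P y)) y =
        (q : ℂ) • levi (fun w => (Φ (P ((M.ch y).symm w)) : ℂ)) (M.ch y y) := by
      have c2 : ContDiffAt ℝ 2 (fun w => Φ (P ((M.ch y).symm w))) (M.ch y y) :=
        (p0.contDiffAt.of_le (by norm_cast)).comp _ h2'
      rw [← levi_cmul _ (contDiffAt_ofReal.2 c2)]
      exact congrArg (levi · _) (funext fun w => by simp [fn])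
    rw [e, ofReal_mul, mul_smul, ← smul_add]
    exact psd_smul a hq
  · exact mul_eq_zero_of_right _ (p1 _ hy)

theorem dzb_loc {F : V ι → ℂ} {z : V ι} {a : ℂ} (h : ∀ᶠ w in 𝓝 z, F w = a)
    (H : V ι → Mat ι) : shp H F z = 0 := by
  funext i
  have e : ∀ j, dzb F j z = 0 := fun j =>
    ((dzb_eventuallyEq (g := fun _ => a) h j).self_of_nhds).trans (dzb_const a j z)
  simp [shp, e]

end Pk

variable [MeasurableSpace Y] [BorelSpace Y] {ν : Measure Y} (S : Sh M g ν)

theorem pk [Nonempty ι] (hA : S.BasA) (hB : S.BasB) (hC : S.BasC) (hD : S.BasD)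
    (hH : S.Hor) : S.Pk := by
  intro s t N P y hs ht hN hst hP hK ⟨C, hO⟩ hp
  obtain ⟨c0, hw⟩ := Pk.weight (M := M) (g := g) finFun
  obtain ⟨Cm, hCm, hm⟩ := hD.mv t
  have := hA.fin
  set k := S.ch y with hk
  set z0 := S.c k y with hz0
  set n := Fintype.card ι with hn
  have n0 : 0 < n := Fintype.card_pos
  have ys : y ∈ (S.c k).source := by rw [hk, ← S.ch_eq]; exact M.mem y
  have z1 : ‖z0‖ < 1 := S.ch_lt y
  have tg : ∀ z : V ι, ‖z‖ < 4 → z ∈ (S.c k).target := fun z hz => by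
    rw [S.tgt]; exact mem_ball_zero_iff.2 hz
  have sy : (S.c k).symm z0 = y := (S.c k).left_inv ys
  have hp' : ∀ᶠ z in 𝓝 z0, z ≠ z0 → 0 < P ((S.c k).symm z) := by
    have c1 : Tendsto (S.c k).symm (𝓝 z0) (𝓝 y) := by
      have := (S.c k).continuousAt_symm (tg z0 (by linarith))
      rwa [ContinuousAt, sy] at this
    filter_upwards [c1.eventually (eventually_nhdsWithin_iff.1 hp),
      (S.c k).open_target.mem_nhds (tg z0 (by linarith))] with z h1 h2 h3
    refine h1 fun h4 => h3 ?_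
    rw [← (S.c k).right_inv h2, show (S.c k).symm z = y from h4]
  obtain ⟨r0, r1, hr⟩ := Metric.eventually_nhds_iff.1 (hO.and hp')
  obtain ⟨r, r2, r3, r4⟩ : ∃ r : ℝ, 0 < r ∧ r < r0 ∧ r ≤ 1 / 2 :=
    ⟨min (r0 / 2) (1 / 2), by positivity, (min_le_left _ _).trans_lt (by linarith),
      min_le_right _ _⟩
  have nb : ∀ z : V ι, dist z z0 ≤ r → ‖z‖ < 2 := fun z hz => by
    have := norm_le_norm_add_norm_sub' z z0
    rw [dist_eq_norm] at hz
    linarith
  let b : ContDiffBump z0 := ⟨r / 2, r, by positivity, by linarith⟩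
  have tf : Tf 2 fun z => (b z : ℂ) := ⟨ofRealCLM.contDiff.comp b.contDiff, fun z hz =>
    ofReal_eq_zero.2 (b.zero_of_le_dist (not_lt.1 fun h => by linarith [nb z h.le]))⟩
  obtain ⟨du, ru, -, su⟩ := hB.ext t k 2 (by norm_num) _ tf
  set u := S.ext t k fun z => (b z : ℂ) with hu
  have ev : ∀ z : V ι, ‖z‖ < 4 → ∀ᶠ w in 𝓝 z, S.rep t u k w = b w := fun z hz =>
    Filter.mem_of_superset (isOpen_ball.mem_nhds (mem_ball_zero_iff.2 hz)) ru
  have ev1 : ∀ z : V ι, dist z z0 < r / 2 → ∀ᶠ w in 𝓝 z, S.rep t u k w = 1 := fun z hz => by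
    filter_upwards [ev z (by linarith [nb z (by linarith)]), isOpen_ball.mem_nhds hz] with w h1 h2
    rw [h1, b.one_of_mem_closedBall (ball_subset_closedBall h2), ofReal_one]
  obtain ⟨δ, d0, hδ⟩ : ∃ δ, (0 : ℝ) < δ ∧ ∀ z ∈ closedBall z0 r \ ball z0 (r / 2),
      δ ≤ P ((S.c k).symm z) := by
    refine ((isCompact_closedBall z0 r).diff isOpen_ball).exists_forall_le' (fun z hz => ?_)
      fun z hz => (hr (hz.1.trans_lt r3)).2 fun h => hz.2 (h ▸ mem_ball_self (by positivity))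
    exact (contDiffAt_ofReal.1 (hP.1 _ (S.mem k) z
      (tg z (by linarith [nb z hz.1])))).continuousAt.continuousWithinAt
  have off : ∀ x ∉ tsupport u, S.ip1 t g u u x = 0 := fun x hx => by
    rw [Sh.ip1, (hC.off t (fun _ => 0) u x (notMem_tsupport_iff_eventuallyEq.1 hx)).2]
    simp [ipV]
  have big : ∀ x, S.ip1 t g u u x ≠ 0 → δ ≤ P x := fun x hx => by
    have x1 := su (not_not.1 fun h => hx (off x h))
    have x2 : ‖S.c k x‖ ≤ 2 := mem_closedBall_zero_iff.1 x1.2
    rw [← (S.c k).left_inv x1.1]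
    refine hδ _ (not_not.1 fun h => hx ?_)
    have e : shp (S.H (S.ty k)) (S.rep t u k) (S.c k x) = 0 := by
      by_cases h1 : dist (S.c k x) z0 < r / 2
      · exact Pk.dzb_loc (ev1 _ h1) _
      · have h2 : r < dist (S.c k x) z0 := not_le.1 fun h2 => h ⟨h2, h1⟩
        refine Pk.dzb_loc (a := 0) ?_ _
        filter_upwards [ev (S.c k x) (by linarith), (continuous_id.dist
          continuous_const).continuousAt.eventually (lt_mem_nhds h2)] with w h3 h4
        exact h3.trans (ofReal_eq_zero.2 (b.zero_of_le_dist (le_of_lt h4)))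
    have f := hC.ip1 t g u u du.1 du.1 k x x1.1
    rw [e] at f
    have p := ((S.kon (S.ty k)).2 (S.c k x) (mem_ball_zero_iff.2 (by linarith))).det_pos
    refine (mul_eq_zero.1 (f.trans (by simp [ipV]))).resolve_left ?_
    exact ofReal_ne_zero.2 (Complex.lt_def.1 p).1.ne'
  have nn : ∀ x, 0 ≤ (S.ip1 t g u u x).re := fun x => hC.nn t g u x (hA.det x).1.posSemidef
  have ig : Integrable (fun x => (S.ip1 t g u u x).re) ν :=
    (continuous_re.comp (hC.cont t g u u (fun e he => (S.kg e he).1.1) du.1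
      du.1)).integrable_of_hasCompactSupport (HasCompactSupport.intro du.2 fun x hx => by
        simp [off x hx])
  set I0 := ∫ x, (S.ip1 t g u u x).re ∂ν with hI
  have I1 : 0 ≤ I0 := integral_nonneg nn
  have uy : u y ≠ 0 := fun h => by
    have := (hB.zero t u k y ys).2 h
    rw [(ev1 z0 (by rw [dist_self]; positivity)).self_of_nhds] at this
    exact one_ne_zero this
  have dp : 0 < dn g u y := div_pos (by positivity) (hA.det y).2.1
  set q : ℝ := 2 * n / N with hq
  have N0 : (0 : ℝ) < N := by exact_mod_cast hN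
  have q0 : 0 ≤ q := by positivity
  have qs : q * s ≤ t / 2 := by
    rw [hq, div_mul_eq_mul_div, div_le_iff₀ N0]; linarith
  set C1 := max C 1 with hC1
  have C2 : 0 < C1 := lt_max_of_lt_right one_pos
  set E := Real.exp (-(q * (Real.log δ - 1 - Real.log C1 - c0))) with hE
  have E0 : 0 < E := Real.exp_pos _
  set K := Cm * (2 * (E * I0 / (t / 2)) + 1) with hKK
  have K0 : 0 ≤ K := by positivity
  obtain ⟨τ, t0, t1, t2⟩ : ∃ τ : ℝ, 0 < τ ∧ τ < r / 2 ∧ K * τ < dn g u y := by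
    refine ⟨min (r / 4) (dn g u y / (K + 1)), by positivity,
      (min_le_left _ _).trans_lt (by linarith), ?_⟩
    refine (mul_le_mul_of_nonneg_left (min_le_right _ _) K0).trans_lt ?_
    rw [← mul_div_assoc, div_lt_iff₀ (by linarith)]
    linarith
  obtain ⟨ψ, s1, s2, s3, s4, s5⟩ := hw s q (-1 - Real.log C1 - (2 * N : ℕ) * Real.log τ) P
    (fun x => (hA.det x).1) hs q0 hP hK
  obtain ⟨h, h2, hi, hb⟩ := hH t (t / 2) ψ u (by positivity) s1 s2 (fun x => by
    have := (Pk.psd_smul (hA.det x).1.posSemidef (sub_nonneg.2 qs)).add (s3 x)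
    rwa [← add_assoc, ← add_smul, ← ofReal_add, show t / 2 - q * s + q * s = t - t / 2 by
      ring] at this) du (τ ^ (2 * n) * τ ^ (2 * n)) (by positivity)
  refine ⟨h, h2, fun hy => ?_⟩
  have b1 : S.p1 t ψ u u ≤ τ ^ (2 * n) * τ ^ (2 * n) * E * I0 := by
    rw [hI, ← integral_const_mul]
    refine integral_mono_of_nonneg (Eventually.of_forall fun x => mul_nonneg (nn x)
      (Real.exp_pos _).le) (ig.const_mul _) (Eventually.of_forall fun x => ?_)
    by_cases hx : S.ip1 t g u u x = 0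
    · simp [hx]
    have x1 := big x hx
    have x2 := s5 x (d0.trans_le x1)
    have x3 := mul_le_mul_of_nonneg_left (Real.log_le_log d0 x1) q0
    have e : τ ^ (2 * n) * τ ^ (2 * n) * E = Real.exp (((2 * n + 2 * n : ℕ) : ℝ) * Real.log τ +
        -(q * (Real.log δ - 1 - Real.log C1 - c0))) := by
      rw [Real.exp_add, Real.exp_nat_mul, Real.exp_log t0, pow_add]
    have e2 : q * (((2 * N : ℕ) : ℝ) * Real.log τ) = ((2 * n + 2 * n : ℕ) : ℝ) * Real.log τ := by
      rw [hq]; push_cast; field_simp; ring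
    dsimp only
    rw [mul_comm, e]
    exact mul_le_mul_of_nonneg_right (Real.exp_le_exp.2 (by linarith)) (nn x)
  have an : AnalyticOnNhd ℂ (S.rep t (fun x => u x - h x) k) (closedBall z0 τ) := fun z hz => by
    have z2 : dist z z0 < r / 2 := hz.trans_lt t1
    refine ((analyticAt_const (v := (1 : ℂ))).sub ((hB.hol_an t h h2.1).2 k z
      (mem_ball_zero_iff.2 (by linarith [nb z (by linarith)])))).congr ?_
    filter_upwards [ev1 z z2] with w hw
    have := hB.lin t 1 (-1) u h k w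
    simp only [one_mul, neg_mul, ← sub_eq_add_neg, hw] at this
    exact this.symm
  have b2 := hm (fun x => u x - h x) k z0 τ t0 (by linarith) (by linarith) an
  have b3 : ∫ x in (S.c k).source ∩ S.c k ⁻¹' closedBall z0 τ, dn g (fun x => u x - h x) x ∂ν ≤
      ∫ x, dn g (fun x => u x - h x) x * Real.exp (-ψ x) ∂ν := by
    refine le_trans (le_of_eq (setIntegral_congr_fun (hA.ms k _ measurableSet_closedBall)
      fun x hx => ?_)) (setIntegral_le_integral hi (Eventually.of_forall fun x => mul_nonneg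
        (div_nonneg (sq_nonneg _) (hA.det x).2.1.le) (Real.exp_pos _).le))
    have x1 : dist (S.c k x) z0 ≤ τ := hx.2
    have x2 := (hr (x1.trans_lt (by linarith))).1
    rw [(S.c k).left_inv hx.1, ← dist_eq_norm] at x2
    have e : Real.exp (-(-1 - Real.log C1 - (2 * N : ℕ) * Real.log τ) - 1) =
        C1 * τ ^ (2 * N) := by
      rw [show -(-1 - Real.log C1 - (2 * N : ℕ) * Real.log τ) - 1 =
        Real.log C1 + (2 * N : ℕ) * Real.log τ by ring, Real.exp_add, Real.exp_nat_mul,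
        Real.exp_log t0, Real.exp_log C2]
    rw [s4 x (e ▸ x2.trans (mul_le_mul (le_max_left _ _) (pow_le_pow_left₀ dist_nonneg x1 _)
      (by positivity) C2.le)), neg_zero, Real.exp_zero, mul_one]
  have e : dn g (fun x => u x - h x) ((S.c k).symm z0) = dn g u y := by
    rw [sy, dn, dn, hy, sub_zero]
  have T0 : 0 < τ ^ (2 * n) := by positivity
  have T1 : τ ^ (2 * n) ≤ τ := pow_le_of_le_one t0.le (by linarith) (by omega)
  have b4 : dn g u y * τ ^ (2 * n) ≤ K * τ ^ (2 * n) * τ ^ (2 * n) := by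
    rw [← e]
    refine b2.trans ((mul_le_mul_of_nonneg_left (b3.trans (hb.trans (add_le_add_left
      (mul_le_mul_of_nonneg_left (div_le_div_of_nonneg_right b1 (by positivity))
        zero_le_two) _))) hCm).trans (le_of_eq ?_))
    rw [hKK]; ring
  have b5 := le_of_mul_le_mul_right b4 T0
  linarith [mul_le_mul_of_nonneg_left T1 K0]

end Pool.Agent.Lib.MP_813db1_ag.AN
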