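import Pool.Agent.Lib.MP_813db1_ag.AN.Stmt
import Pool.Agent.Lib.MP_813db1_ag.AN.Ser
import Pool.Agent.Lib.MP_813db1_ag.HS.AYAll

/-! Sums of squares of sections, and the nefness of the canonical bundle. -/

namespace Pool.Agent.Lib.MP_813db1_ag.AN

open Pool.Agent.Lib.MP_813db1_ag.HS Pool.Agent.Lib.MP_813db1_ag.AS
open MeasureTheory Complex Matrix Filter Topology Set Metric
open scoped ContDiff ComplexOrder ENNReal

variable {ι : Type} [Fintype ι] [DecidableEq ι]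

namespace Poi

theorem loc {H : V ι → Mat ι} {U : Set (V ι)} {z : V ι} (hU : IsOpen U) (hH : KOn H U)
    (hz : z ∈ U) {ρ Q P : V ι → ℝ} {t : ℝ} (hρ : ContDiffAt ℝ ∞ ρ z)
    (hl : levi (fun w => (ρ w : ℂ)) z = H z) (hQ : ContDiffAt ℝ ∞ Q z)
    (hP : ∀ᶠ w in 𝓝 z, (H w).det.re * P w = Q w * Real.exp (-(t * ρ w))) :
    ContDiffAt ℝ ∞ P z ∧ (0 < P z ↔ 0 < Q z) ∧ (0 < Q z →
      levi (fun w => (Real.log (P w) : ℂ)) z =
        levi (fun w => (Real.log (Q w) : ℂ)) z - (t : ℂ) • H z + ric H z) := by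
  have hd : ∀ᶠ w in 𝓝 z, 0 < (H w).det.re :=
    mem_of_superset (hU.mem_nhds hz) fun w hw => (mat.det ι _ (hH.2 w hw)).1
  have e : P =ᶠ[𝓝 z] fun w => Q w * Real.exp (-(t * ρ w)) / (H w).det.re := by
    filter_upwards [hd, hP] with w h1 h2
    rw [← h2, mul_div_cancel_left₀ _ h1.ne']
  have cd : ContDiffAt ℝ ∞ (fun w => (H w).det.re) z :=
    reCLM.contDiff.contDiffAt.comp z (hH.1.1.det hz)
  have c1 : ContDiffAt ℝ ∞ (fun w => t * ρ w) z := contDiffAt_const.mul hρ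
  refine ⟨((hQ.mul c1.neg.exp).div cd hd.self_of_nhds.ne').congr_of_eventuallyEq e, ?_,
    fun h0 => ?_⟩
  · rw [← mul_pos_iff_of_pos_left hd.self_of_nhds, hP.self_of_nhds,
      mul_pos_iff_of_pos_right (Real.exp_pos _)]
  · have e2 : (fun w => (Real.log (P w) : ℂ)) =ᶠ[𝓝 z] fun w =>
        (Real.log (Q w) : ℂ) - t * (ρ w : ℂ) - (Real.log (H w).det.re : ℂ) := by
      filter_upwards [hd, e, hQ.continuousAt.eventually (lt_mem_nhds h0)] with w h1 h2 h3
      rw [h2, Real.log_div (by positivity) h1.ne', Real.log_mul h3.ne' (Real.exp_pos _).ne',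
        Real.log_exp]
      push_cast
      ring
    have two : (2 : WithTop ℕ∞) ≤ ((⊤ : ℕ∞) : WithTop ℕ∞) := by norm_cast
    have a1 := contDiffAt_ofReal.2 ((hQ.log h0.ne').of_le two)
    have a2 := contDiffAt_ofReal.2 (hρ.of_le two)
    have a3 := contDiffAt_ofReal.2 ((cd.log hd.self_of_nhds.ne').of_le two)
    rw [levi_congr e2, levi_sub (a1.sub (contDiffAt_const.mul a2)) a3,
      levi_sub a1 (contDiffAt_const.mul a2), levi_cmul _ a2, hl, ric, sub_eq_add_neg]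

variable {X : Type} [TopologicalSpace X] {M : Atl ι X}

theorem psd_of_chart (B : X → Mat ι) {e : Ch ι X} (he : e ∈ M.A) {x : X} (hx : x ∈ e.source)
    (h : (M.repF B e (e x)).PosSemidef) : (B x).PosSemidef := by
  have ha := AY.repA' ι X M
  rw [← ha.repF_self B x, ha.repF_tr B _ (M.ch_mem x) e he x (M.mem x) hx]
  exact (mat.pull_pd ι _ _ (ha.tj_det _ (M.ch_mem x) e he x (M.mem x) hx)).2.1 h

theorem psd_chart (B : X → Mat ι) {e : Ch ι X} (he : e ∈ M.A) {z : V ι} (hz : z ∈ e.target)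
    (h : (B (e.symm z)).PosSemidef) : (M.repF B e z).PosSemidef :=
  (mat.pull_pd ι _ _ ((AY.repA' ι X M).tj_det e he _ (M.ch_mem _) _ (e.map_target hz)
    (M.mem _))).2.1 h

theorem rep_nef {g : X → Mat ι} (hg : M.IsK g) {w : X → ℝ} (hw : M.Ck ∞ w) (ε : ℝ) {e : Ch ι X}
    (he : e ∈ M.A) {z : V ι} (hz : z ∈ e.target) :
    M.repF (fun x => -M.ricF g x + M.ddc w x + (ε : ℂ) • g x) e z =
      -ric (M.repF g e) z + levi (fn w e) z + (ε : ℂ) • M.repF g e z := by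
  have hb := AY.repB' ι X M
  have h1 := hb.ddc_rep w e he _ (e.map_target hz) (by
    rw [e.right_inv hz]; exact (hw e he z hz).of_le (by norm_cast))
  rw [e.right_inv hz] at h1
  rw [← hb.ric_rep g hg e he z hz, ← h1]
  simp only [Atl.repF, pull, Matrix.mul_add, Matrix.add_mul, Matrix.mul_neg, Matrix.neg_mul,
    Matrix.mul_smul, Matrix.smul_mul]

theorem ric_cg {G H : V ι → Mat ι} {z : V ι} (h : G =ᶠ[𝓝 z] H) : ric G z = ric H z := by
  rw [ric, ric, levi_congr (h.mono fun w hw => by rw [hw])]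

end Poi

open Poi

variable {Y : Type} [TopologicalSpace Y] [MeasurableSpace Y] {M : Atl ι Y} {g : Y → Mat ι}
  {ν : Measure Y}

namespace Sh

variable (S : Sh M g ν)

theorem poi_kon4 (a : Fin S.n) : KOn (S.H a) (ball 0 4) :=
  have h : ball (0 : V ι) 4 ⊆ ball 0 5 := ball_subset_ball (by norm_num)
  ⟨⟨fun z hz => (S.kon a).1.1 z (h hz), fun z hz => (S.kon a).1.2.1 z (h hz),
    fun z hz => (S.kon a).1.2.2 z (h hz)⟩, fun z hz => (S.kon a).2 z (h hz)⟩

theorem poi_src (k : S.κ) {z : V ι} (hz : z ∈ ball (0 : V ι) 4) :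
    (S.c k).symm z ∈ (S.c k).source ∧ S.c k ((S.c k).symm z) = z :=
  ⟨(S.c k).map_target (S.tgt k ▸ hz), (S.c k).right_inv (S.tgt k ▸ hz)⟩

theorem poi_ch_src (y : Y) : y ∈ (S.c (S.ch y)).source := S.ch_eq y ▸ M.mem y

theorem poi_ch_ball (y : Y) {r : ℝ} (hr : 1 ≤ r) : S.c (S.ch y) y ∈ ball (0 : V ι) r :=
  mem_ball_zero_iff.2 ((S.ch_lt y).trans_le hr)

theorem poi_dn_loc (hB : S.BasB) (t : ℝ) (σ : Y → ℂ) (k : S.κ) {z : V ι} (hz : z ∈ ball (0 : V ι) 4) :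
    (S.H (S.ty k) z).det.re * dn g σ ((S.c k).symm z) =
      ‖S.rep t σ k z‖ ^ 2 * Real.exp (-(t * S.ρ (S.ty k) z)) := by
  have := hB.dn t σ k _ (S.poi_src k hz).1
  rwa [(S.poi_src k hz).2] at this

variable {X : Type} [TopologicalSpace X] {MX : Atl ι X} {gX : X → Mat ι} {p : Y → X}

theorem poi_lk_src (L : Lk MX gX p S.toSt) (y : Y) (k : S.κ) (hy : y ∈ (S.c k).source) :
    p y ∈ (L.e (S.ty k)).source ∧ L.e (S.ty k) (p y) = S.c k y := by
  have hz : S.c k y ∈ ball (0 : V ι) 4 := S.tgt k ▸ (S.c k).map_source hy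
  have e := L.pr k _ hz
  rw [(S.c k).left_inv hy] at e
  rw [e]
  exact ⟨(L.e _).map_target (L.tgt _ ▸ hz), (L.e _).right_inv (L.tgt _ ▸ hz)⟩

/-- the fibres of the covering. -/
theorem poi_fib (L : Lk MX gX p S.toSt) (a : Fin S.n) {z : V ι} (hz : z ∈ ball (0 : V ι) 4) :
    ∃ E : {k // S.ty k = a} ≃ {y // p y = (L.e a).symm z}, ∀ k, (E k).1 = (S.c k.1).symm z := by
  refine ⟨Equiv.ofBijective (fun k => ⟨(S.c k.1).symm z, by rw [L.pr _ z hz, k.2]⟩)
    ⟨fun k l h => ?_, fun y => ?_⟩, fun _ => rfl⟩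
  · have h1 : (S.c k.1).symm z = (S.c l.1).symm z := congrArg Subtype.val h
    exact Subtype.ext (S.dis _ _ _ (k.2.trans l.2.symm) (S.poi_src _ hz).1 (h1 ▸ (S.poi_src _ hz).1))
  · obtain ⟨y, hy⟩ := y
    have hz' : z ∈ (L.e a).target := by rw [L.tgt]; exact hz
    obtain ⟨k, rfl, hk⟩ := L.on a y (by rw [hy]; exact (L.e a).map_target hz')
    refine ⟨⟨k, rfl⟩, Subtype.ext ?_⟩
    have e := (S.poi_lk_src L y k hk).2
    rw [hy, (L.e _).right_inv hz'] at e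
    exact (congrArg (S.c k).symm e).trans ((S.c k).left_inv hk)

theorem poi_lint_fin (hA : S.BasA) (hB : S.BasB) {t : ℝ} {σ : Y → ℂ} (hσ : S.H2 t σ) (a : Fin S.n) :
    ∑' k : {k // S.ty k = a}, ∫⁻ z in ball (0 : V ι) 3, ‖S.rep t σ k.1 z‖ₑ ^ 2 ≠ ⊤ := by
  obtain ⟨L, -, hL⟩ := hA.bd 3 (by norm_num)
  have := S.cnt
  have s34 : ball (0 : V ι) 3 ⊆ ball 0 4 := ball_subset_ball (by norm_num)
  have h1 : ∀ k : S.κ, ∫⁻ z in ball (0 : V ι) 3, ‖S.rep t σ k z‖ₑ ^ 2 ≤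
      ENNReal.ofReal (Real.exp (|t| * L)) *
        ∫⁻ y in (S.c k).source ∩ S.c k ⁻¹' ball 0 3, ENNReal.ofReal (dn g σ y) ∂ν := fun k => by
    rw [hA.lint k _ measurableSet_ball s34, ← lintegral_const_mul' _ _ ENNReal.ofReal_ne_top]
    refine setLIntegral_mono' measurableSet_ball fun z hz => ?_
    rw [← ENNReal.ofReal_mul (mat.det ι _ ((S.poi_kon4 _).2 z (s34 hz))).1.le, S.poi_dn_loc hB t σ k (s34 hz),
      ← ENNReal.ofReal_mul (Real.exp_pos _).le, ← ofReal_norm,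
      ← ENNReal.ofReal_pow (norm_nonneg _), mul_left_comm, ← Real.exp_add]
    refine ENNReal.ofReal_le_ofReal (le_mul_of_one_le_right (sq_nonneg _) (Real.one_le_exp ?_))
    have := mul_le_mul_of_nonneg_left (hL (S.ty k) z (mem_ball_zero_iff.1 hz).le).2.2.2.1
      (abs_nonneg t)
    rw [← abs_mul] at this
    linarith [le_abs_self (t * S.ρ (S.ty k) z)]
  refine ne_top_of_le_ne_top ?_ (ENNReal.tsum_le_tsum fun k => h1 k.1)
  rw [ENNReal.tsum_mul_left, ← lintegral_iUnion (fun k => hA.ms _ _ measurableSet_ball)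
    fun k l hkl => disjoint_left.2 fun y hk hl =>
      hkl (Subtype.ext (S.dis _ _ y (k.2.trans l.2.symm) hk.1 hl.1))]
  exact ENNReal.mul_ne_top ENNReal.ofReal_ne_top
    ((setLIntegral_le_lintegral _ _).trans_lt hσ.2.lintegral_lt_top).ne

/-- step 6. -/
theorem poi0 [CompactSpace X] (L : Lk MX gX p S.toSt) (hg : MX.IsK gX) (hA : S.BasA)
    (hB : S.BasB) (hz : S.Nz) : NefA MX gX := by
  intro t ht
  have s34 : ball (0 : V ι) 3 ⊆ ball 0 4 := ball_subset_ball (by norm_num)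
  choose q hq using L.sur
  choose h h1 h2 using fun x => hz t ht (q x)
  obtain ⟨T, -, hT⟩ := isCompact_univ.elim_nhds_subcover
    (fun x => {x' | ∃ y, p y = x' ∧ h x y ≠ 0}) fun x _ => by
      obtain ⟨a1, a2⟩ := S.poi_lk_src L (q x) _ (S.poi_ch_src (q x))
      rw [hq] at a1 a2
      have b := S.poi_ch_ball (q x) (r := 4) (by norm_num)
      have c1 := ((hB.hol_an t _ (h1 x).1).2 _ _ b).continuousAt.eventually_ne
        (mt (hB.zero t _ _ _ (S.poi_ch_src (q x))).1 (h2 x))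
      rw [← a2] at b c1
      filter_upwards [(L.e _).open_source.mem_nhds a1,
        ((L.e _).continuousAt a1).eventually (c1.and (isOpen_ball.mem_nhds b))] with x' x1 x2
      refine ⟨(S.c _).symm (L.e _ x'), by rw [L.pr _ _ x2.2, (L.e _).left_inv x1], fun h0 => ?_⟩
      have := (hB.zero t _ _ _ (S.poi_src _ x2.2).1).2 h0
      rw [(S.poi_src _ x2.2).2] at this
      exact x2.1 this
  let P : X → ℝ := fun x => ∑' j : T × {y // p y = x}, dn g (h j.1) j.2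
  have key := fun (a : Fin S.n) (z : V ι) (hz : z ∈ ball (0 : V ι) 3) =>
    serL (F := fun j : T × {k // S.ty k = a} => S.rep t (h j.1) j.2.1) isOpen_ball
      (fun j => ((h1 j.1).1 j.2.1).mono s34) (by
        rw [ENNReal.tsum_prod', tsum_fintype]
        exact ENNReal.sum_ne_top.2 fun j _ => S.poi_lint_fin hA hB (h1 j.1) a) hz
  have lc := fun (a : Fin S.n) (z : V ι) (hz : z ∈ ball (0 : V ι) 3) =>
    loc (P := fun w => P ((L.e a).symm w)) (t := t) isOpen_ball (S.poi_kon4 a) (s34 hz)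
      (S.ρ_sm _ z (s34 hz)).1 (S.ρ_sm _ z (s34 hz)).2 (key a z hz).2.1
      (mem_of_superset (isOpen_ball.mem_nhds (s34 hz)) fun w hw => by
        obtain ⟨E, hE⟩ := S.poi_fib L a hw
        simp only [mem_ofPred_eq, P]
        rw [← (Equiv.prodCongr (Equiv.refl T) E).tsum_eq, ← tsum_mul_left, ← tsum_mul_right]
        refine tsum_congr fun j => ?_
        have := S.poi_dn_loc hB t (h j.1) j.2.1 hw
        rw [j.2.2, ← hE] at this
        exact this)
  have cov : ∀ x, ∃ a, x ∈ (L.e a).source ∧ L.e a x ∈ ball (0 : V ι) 3 ∧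
      0 < ∑' j : T × {k // S.ty k = a}, ‖S.rep t (h j.1) j.2.1 (L.e a x)‖ ^ 2 := fun x => by
    obtain ⟨a1, a2⟩ := S.poi_lk_src L (q x) _ (S.poi_ch_src (q x))
    rw [hq] at a1 a2
    have b : L.e _ x ∈ ball (0 : V ι) 3 := a2 ▸ S.poi_ch_ball (q x) (by norm_num)
    refine ⟨_, a1, b, ?_⟩
    obtain ⟨x0, hx0, y, rfl, hy⟩ := mem_iUnion₂.1 (hT (mem_univ x))
    obtain ⟨k, hk, hk'⟩ := L.on _ y a1
    refine (key _ _ b).1.tsum_pos (fun _ => sq_nonneg _) (⟨x0, hx0⟩, ⟨k, hk⟩) ?_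
    have e := (S.poi_lk_src L y k hk').2
    rw [hk] at e
    rw [e]
    exact pow_pos (norm_pos_iff.2 (mt (hB.zero t _ _ _ hk').1 hy)) 2
  have hw : MX.Ck ∞ fun x => Real.log (P x) := (AY.repA' ι X MX).ck_loc ⊤ _ fun x => by
    obtain ⟨a, a1, a2, a3⟩ := cov x
    obtain ⟨c1, c2, -⟩ := lc a _ a2
    exact ⟨_, L.mem a, a1, contDiffAt_ofReal.2 (c1.log (c2.2 a3).ne')⟩
  refine ⟨_, hw, fun x => ?_⟩
  obtain ⟨a, a1, a2, a3⟩ := cov x
  refine psd_of_chart (M := MX) (fun x => -MX.ricF gX x + MX.ddc (fun x => Real.log (P x)) x +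
    (t : ℂ) • gX x) (L.mem a) a1 ?_
  have e : levi (fn (fun x => Real.log (P x)) (L.e a)) (L.e a x) = _ := (lc a _ a2).2.2 a3
  rw [rep_nef hg hw t (L.mem a) ((L.e a).map_source a1), e, L.rep a _ (s34 a2),
    ric_cg (mem_of_superset (isOpen_ball.mem_nhds (s34 a2)) fun y hy => L.rep a y hy)]
  refine (congrArg PosSemidef ?_).mp ((key a _ a2).2.2 a3)
  abel

end Sh

/-- step 6 in the form of the plan. -/
theorem poi {S : Sh M g ν} {X : Type} [TopologicalSpace X] [CompactSpace X] {MX : Atl ι X}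
    {gX : X → Mat ι} {p : Y → X} (L : Lk MX gX p S.toSt) (hg : MX.IsK gX) (hA : S.BasA)
    (hB : S.BasB) (_hD : S.BasD) (hz : S.Nz) : NefA MX gX :=
  S.poi0 L hg hA hB hz

end Pool.Agent.Lib.MP_813db1_ag.AN
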