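import Pool.Agent.Lib.MP_813db1_ag.AN.Main
import Pool.Agent.Lib.MP_813db1_ag.AN.BasA
import Pool.Agent.Lib.MP_813db1_ag.AN.BasB
import Pool.Agent.Lib.MP_813db1_ag.AN.BasC
import Pool.Agent.Lib.MP_813db1_ag.AN.BasD
import Pool.Agent.Lib.MP_813db1_ag.AN.Dv
import Pool.Agent.Lib.MP_813db1_ag.AN.Grn
import Pool.Agent.Lib.MP_813db1_ag.AN.Bk
import Pool.Agent.Lib.MP_813db1_ag.AN.Den
import Pool.Agent.Lib.MP_813db1_ag.AN.Hor
import Pool.Agent.Lib.MP_813db1_ag.AN.Itp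
import Pool.Agent.Lib.MP_813db1_ag.AN.Bs
import Pool.Agent.Lib.MP_813db1_ag.AN.Lg
import Pool.Agent.Lib.MP_813db1_ag.AN.Fz
import Pool.Agent.Lib.MP_813db1_ag.AN.Nz
import Pool.Agent.Lib.MP_813db1_ag.AN.Poi
import Pool.Agent.Lib.MP_813db1_ag.AN.Pk

/-! The analytic steps together. -/

namespace Pool.Agent.Lib.MP_813db1_ag.AN

theorem anaS (hF : FinS) : AnaS := by
  intro ι X Y _ _ _ _ _ _ _ _ _ _ MX gX p M g ν S hg L
  have hA := basA S
  have hB := basB hA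
  have hC := basC S hA hB
  have hD := basD hA hB
  have hV := dv hA
  have hG := grn hA hB hC hV
  have hH := hor hA hB hC hG (bk hA hB hC hV hG) (den hA hB hC)
  obtain ⟨s, hs, hI⟩ := itp hA hB hC hD hH
  exact poi L hg hA hB hD
    (nz hA hB hD hs (bs hA hB hD hI) (lg hA hB hC) (fz hF) (pk S hA hB hC hD hH))

end Pool.Agent.Lib.MP_813db1_ag.AN
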