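import Pool.Agent.Lib.MP_813db1_ag.HS.StmtAY
import Pool.Agent.Lib.MP_813db1_ag.AS.FDefs
import Pool.Agent.Lib.MP_813db1_ag.AS.SolDefs

/-! Sheets of a covering space, real powers of a line bundle, and twisted canonical sections. -/

namespace Pool.Agent.Lib.MP_813db1_ag.AN

open Pool.Agent.Lib.MP_813db1_ag.HS Pool.Agent.Lib.MP_813db1_ag.AS
open MeasureTheory Complex Matrix Filter Topology Set Metric
open scoped ContDiff ComplexOrder

noncomputable section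

variable {ι : Type} [Fintype ι] [DecidableEq ι]

/-- the weighted divergence. -/
def dlt (Φ : V ι → ℝ) (U : V ι → V ι) (z : V ι) : ℂ :=
  ∑ i, (dz (fun w => U w i) i z - dz (fun w => (Φ w : ℂ)) i z * U z i)

/-- minus the `dbar` Laplacian for the density `exp (-Φ)`. -/
def bx (Φ : V ι → ℝ) (H : V ι → Mat ι) (F : V ι → ℂ) (z : V ι) : ℂ := dlt Φ (shp H F) z

/-- smooth functions that vanish outside the closed ball of radius `r`. -/
def Tf (r : ℝ) (f : V ι → ℂ) : Prop := ContDiff ℝ ∞ f ∧ ∀ z, r < ‖z‖ → f z = 0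

/-- local parametrices. -/
def ParL (H : V ι → Mat ι) : Prop := ∀ Φ : V ι → ℝ, (∀ z ∈ ball (0 : V ι) 4, ContDiffAt ℝ ∞ Φ z) →
  ∀ ε > (0 : ℝ), ∀ᶠ lam : ℝ in atTop, ∀ f : V ι → ℂ, Tf 2 f → ∃ w : V ι → ℂ, Tf (5 / 2) w ∧
    ∫ z in ball (0 : V ι) 3, ‖lam * w z - bx Φ H w z - f z‖ ^ 2 * Real.exp (-Φ z) ≤
      ε * ∫ z in ball (0 : V ι) 3, ‖f z‖ ^ 2 * Real.exp (-Φ z)

variable {Y : Type} [TopologicalSpace Y]

/-- a locally finite cover by coordinate balls of finitely many types. -/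
structure St (M : Atl ι Y) (g : Y → Mat ι) where
  κ : Type
  n : ℕ
  ty : κ → Fin n
  c : κ → Ch ι Y
  ch : Y → κ
  H : Fin n → V ι → Mat ι
  cnt : Countable κ
  kg : M.IsK g
  mem : ∀ k, c k ∈ M.A
  tgt : ∀ k, (c k).target = ball 0 4
  ch_eq : ∀ y, M.ch y = c (ch y)
  ch_lt : ∀ y, ‖c (ch y) y‖ < 1
  kon : ∀ a, KOn (H a) (ball 0 5)
  rep_g : ∀ k, ∀ z ∈ ball (0 : V ι) 4, M.repF g (c k) z = H (ty k) z
  onto : ∀ a, ∃ k, ty k = a
  big : ∀ k, ∃ e ∈ M.A, e.target = ball 0 5 ∧ (∀ z ∈ ball (0 : V ι) 4, e.symm z = (c k).symm z) ∧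
    ∀ z ∈ ball (0 : V ι) 5, M.repF g e z = H (ty k) z
  dis : ∀ k l y, ty k = ty l → y ∈ (c k).source → y ∈ (c l).source → k = l
  fin : ∀ K, IsCompact K → ∀ r < (4 : ℝ), {k | ∃ y ∈ K, y ∈ (c k).source ∧ ‖c k y‖ ≤ r}.Finite

/-- the sheets are the lifts of coordinate balls of the base. -/
structure Lk {X : Type} [TopologicalSpace X] (MX : Atl ι X) (gX : X → Mat ι) (p : Y → X)
    {M : Atl ι Y} {g : Y → Mat ι} (S : St M g) where
  e : Fin S.n → Ch ι X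
  mem : ∀ a, e a ∈ MX.A
  tgt : ∀ a, (e a).target = ball 0 4
  rep : ∀ a, ∀ z ∈ ball (0 : V ι) 4, MX.repF gX (e a) z = S.H a z
  pr : ∀ k, ∀ z ∈ ball (0 : V ι) 4, p ((S.c k).symm z) = (e (S.ty k)).symm z
  on : ∀ a y, p y ∈ (e a).source → ∃ k, S.ty k = a ∧ y ∈ (S.c k).source
  sur : Function.Surjective p

/-- smooth sections of the canonical bundle with compact support. -/
def Dc (M : Atl ι Y) (σ : Y → ℂ) : Prop := M.CkS ∞ 1 σ ∧ HasCompactSupport σ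

/-- the pointwise product of two sections. -/
def ip0 (g : Y → Mat ι) (σ τ : Y → ℂ) (y : Y) : ℂ := σ y * star (τ y) / ((g y).det.re : ℂ)

/-- the squared pointwise norm of a section. -/
def dn (g : Y → Mat ι) (σ : Y → ℂ) (y : Y) : ℝ := ‖σ y‖ ^ 2 / (g y).det.re

/-- smooth nonnegative functions with quasi-plurisubharmonic logarithm. -/
def QP (M : Atl ι Y) (g : Y → Mat ι) (s : ℝ) (P : Y → ℝ) : Prop :=
  M.Ck ∞ P ∧ (∀ y, 0 ≤ P y) ∧
    ∀ y, 0 < P y → ((s : ℂ) • g y + M.ddc (fun x => Real.log (P x)) y).PosSemidef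

namespace St

variable {M : Atl ι Y} {g : Y → Mat ι} (S : St M g)

/-- the part of the sheet `k` over the closed ball of radius `r`. -/
def B (k : S.κ) (r : ℝ) : Set Y := (S.c k).source ∩ S.c k ⁻¹' closedBall 0 r

open Classical in
/-- a real function on a sheet, extended by zero. -/
def extR (k : S.κ) (u : V ι → ℝ) (y : Y) : ℝ := if y ∈ (S.c k).source then u (S.c k y) else 0

/-- `P` vanishes to order `2 N` at `y`. -/
def Ord (P : Y → ℝ) (y : Y) (N : ℕ) : Prop := ∃ C : ℝ, ∀ᶠ z in 𝓝 (S.c (S.ch y) y),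
  P ((S.c (S.ch y)).symm z) ≤ C * ‖z - S.c (S.ch y) y‖ ^ (2 * N)

end St

variable [MeasurableSpace Y]

/-- the weighted real product of two sections. -/
def p0 (g : Y → Mat ι) (ν : Measure Y) (ψ : Y → ℝ) (σ τ : Y → ℂ) : ℝ :=
  ∫ y, (ip0 g σ τ y).re * Real.exp (-ψ y) ∂ν

/-- sheets with potentials, holomorphic frames, the volume measure and local parametrices. -/
structure Sh (M : Atl ι Y) (g : Y → Mat ι) (ν : Measure Y) extends St M g where
  ρ : Fin n → V ι → ℝ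
  f : κ → V ι → ℂ
  vol : M.IsVol g ν
  ρ_sm : ∀ a, ∀ z ∈ ball (0 : V ι) 4,
    ContDiffAt ℝ ∞ (ρ a) z ∧ levi (fun w => (ρ a w : ℂ)) z = H a z
  f_sm : ∀ k, ∀ z ∈ ball (0 : V ι) 4, ContDiffAt ℝ ∞ (f k) z ∧ 2 * (f k z).re = ρ (ty k) z
  f_hol : ∀ k l y, y ∈ (c k).source → y ∈ (c l).source →
    AnalyticAt ℂ (fun z => f k z - f l (c l ((c k).symm z))) (c k y)
  par : ∀ a, ParL (H a)

namespace Sh

variable {M : Atl ι Y} {g : Y → Mat ι} {ν : Measure Y} (S : Sh M g ν)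

/-- a section (values in the preferred charts, unitary frame) in the holomorphic frame of `k`. -/
def rep (t : ℝ) (σ : Y → ℂ) (k : S.κ) (z : V ι) : ℂ := M.rep 1 σ (S.c k) z * cexp (t * S.f k z)

/-- holomorphic sections. -/
def Hol (t : ℝ) (σ : Y → ℂ) : Prop := ∀ k, DifferentiableOn ℂ (S.rep t σ k) (ball 0 4)

/-- square integrable holomorphic sections. -/
def H2 (t : ℝ) (σ : Y → ℂ) : Prop := S.Hol t σ ∧ Integrable (dn g σ) ν

/-- the local weight. -/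
def Φ (t : ℝ) (ψ : Y → ℝ) (k : S.κ) (z : V ι) : ℝ := t * S.ρ (S.ty k) z + ψ ((S.c k).symm z)

/-- minus the Laplacian on sections. -/
def box (t : ℝ) (ψ : Y → ℝ) (σ : Y → ℂ) (y : Y) : ℂ :=
  bx (S.Φ t ψ (S.ch y)) (S.H (S.ty (S.ch y))) (S.rep t σ (S.ch y)) (S.c (S.ch y) y) *
    cexp (-(t * S.f (S.ch y) (S.c (S.ch y) y)))

/-- the vector dual to `dbar σ`. -/
def U (t : ℝ) (σ : Y → ℂ) (y : Y) : V ι :=
  cexp (-(t * S.f (S.ch y) (S.c (S.ch y) y))) •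
    shp (S.H (S.ty (S.ch y))) (S.rep t σ (S.ch y)) (S.c (S.ch y) y)

/-- the form `B` evaluated on `dbar σ` and `dbar τ`. -/
def ip1 (t : ℝ) (B : Y → Mat ι) (σ τ : Y → ℂ) (y : Y) : ℂ :=
  ipV (B y) (S.U t σ y) (S.U t τ y) / ((g y).det.re : ℂ)

/-- the weighted real product of `dbar σ` and `dbar τ`. -/
def p1 (t : ℝ) (ψ : Y → ℝ) (σ τ : Y → ℂ) : ℝ :=
  ∫ y, (S.ip1 t g σ τ y).re * Real.exp (-ψ y) ∂ν

/-- the section with coefficient `w` on the sheet `k`, extended by zero. -/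
def ext (t : ℝ) (k : S.κ) (w : V ι → ℂ) : Y → ℂ :=
  M.ext 1 (S.c k) fun z => w z * cexp (-(t * S.f k z))

end Sh

omit [TopologicalSpace Y] [MeasurableSpace Y] in
theorem ip0_self (g : Y → Mat ι) (σ : Y → ℂ) (y : Y) : (ip0 g σ σ y).re = dn g σ y := by
  rw [ip0, dn, div_ofReal_re, RCLike.star_def, mul_conj', ← ofReal_pow, ofReal_re]

omit [TopologicalSpace Y] in
theorem p0_self (g : Y → Mat ι) (ν : Measure Y) (ψ : Y → ℝ) (σ : Y → ℂ) :
    p0 g ν ψ σ σ = ∫ y, dn g σ y * Real.exp (-ψ y) ∂ν := by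
  simp only [p0, ip0_self]

end

end Pool.Agent.Lib.MP_813db1_ag.AN
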