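import Pool.Agent.Lib.MP_813db1_ag.HS.Calc

/-! The Dolbeault lemma on polydiscs. -/

namespace Pool.Agent.Lib.MP_813db1_ag.HS

namespace Dolb

open MeasureTheory Complex Filter Topology Set Metric
open scoped ContDiff Convolution

set_option linter.unusedSectionVars false

/-- the unit vector of angle `θ`. -/
noncomputable def un (θ : ℝ) : ℂ := Real.cos θ + Real.sin θ * I

theorem un_eq (θ : ℝ) : un θ = exp (θ * I) := by
  rw [un, exp_mul_I, ofReal_cos, ofReal_sin]

theorem norm_un (θ : ℝ) : ‖un θ‖ = 1 := by rw [un_eq, norm_exp_ofReal_mul_I]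

theorem cont_un : Continuous un := by unfold un; fun_prop

theorem deriv_un (θ : ℝ) : HasDerivAt un (I * un θ) θ := by
  have h : HasDerivAt (fun t : ℝ => exp (t * I)) (exp (θ * I) * (1 * I)) θ :=
    (((hasDerivAt_id (θ : ℂ)).mul_const I).cexp).comp_ofReal
  rw [show un = fun t : ℝ => exp (t * I) from funext un_eq]
  convert h using 1
  ring

theorem lin_un (A : ℂ →L[ℝ] ℂ) (θ : ℝ) :
    A (un θ) + I * A (I * un θ) = (un θ)⁻¹ * (A 1 + I * A I) := by
  have h0 : un θ ≠ 0 := fun h => by simpa [h] using norm_un θ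
  have e1 : un θ = Real.cos θ • (1 : ℂ) + Real.sin θ • I := by simp [un]
  have e2 : I * un θ = (-Real.sin θ) • (1 : ℂ) + Real.cos θ • I := by
    simp only [un, real_smul, ofReal_neg]
    linear_combination (Real.sin θ : ℂ) * I_mul_I
  have e3 : ((Real.cos θ : ℂ)) ^ 2 + (Real.sin θ : ℂ) ^ 2 = 1 := by
    exact_mod_cast Real.cos_sq_add_sin_sq θ
  have a1 : A (un θ) = Real.cos θ * A 1 + Real.sin θ * A I := by
    rw [e1, map_add, map_smul, map_smul, real_smul, real_smul]
  have a2 : A (I * un θ) = -Real.sin θ * A 1 + Real.cos θ * A I := by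
    rw [e2, map_add, map_smul, map_smul, real_smul, real_smul, ofReal_neg]
  rw [eq_inv_mul_iff_mul_eq₀ h0, a1, a2, un]
  linear_combination (A 1 + I * A I) * e3 +
    (-(Real.sin θ : ℂ) ^ 2 * A 1 + (Real.sin θ : ℂ) * Real.cos θ * A I) * I_mul_I

theorem intOn {F : ℝ × ℝ → ℂ} (hF : Continuous F) {R : ℝ} (h0 : ∀ p : ℝ × ℝ, R < p.1 → F p = 0) :
    Integrable F ((volume.restrict (Ioi (0 : ℝ))).prod (volume.restrict (Ioo (-Real.pi) Real.pi))) := by
  rw [Measure.prod_restrict]
  refine IntegrableOn.of_forall_sdiff_eq_zero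
    (s := Icc (0 : ℝ) R ×ˢ Icc (-Real.pi) Real.pi)
    (hF.continuousOn.integrableOn_compact (isCompact_Icc.prod isCompact_Icc))
    (measurableSet_Ioi.prod measurableSet_Ioo) fun p hp => h0 p ?_
  by_contra h
  exact hp.2 ⟨⟨le_of_lt hp.1.1, not_lt.1 h⟩, Ioo_subset_Icc_self hp.1.2⟩

/-- the formula of Cauchy and Pompeiu for functions with compact support. -/
theorem pomp {ψ : ℂ → ℂ} (hψ : ContDiff ℝ 1 ψ) (hc : HasCompactSupport ψ) :
    ∫ w : ℂ, w⁻¹ * (fderiv ℝ ψ w 1 + I * fderiv ℝ ψ w I) = -(2 * Real.pi) * ψ 0 := by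
  obtain ⟨R, hR⟩ := hc.isCompact.isBounded.subset_closedBall 0
  have hd := hψ.continuous_fderiv one_ne_zero
  have hdf := hψ.differentiable one_ne_zero
  have hm : Continuous fun p : ℝ × ℝ => (p.1 : ℂ) * un p.2 :=
    (continuous_ofReal.comp continuous_fst).mul (cont_un.comp continuous_snd)
  have hz : ∀ p : ℝ × ℝ, R < p.1 → fderiv ℝ ψ (p.1 * un p.2) = 0 := fun p hp =>
    fderiv_of_notMem_tsupport ℝ fun h => by
      have := mem_closedBall_zero_iff.1 (hR h)
      rw [norm_mul, norm_un, mul_one, norm_real, Real.norm_eq_abs] at this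
      exact absurd ((le_abs_self _).trans this) (not_le.2 hp)
  have iA := intOn (F := fun p => fderiv ℝ ψ (p.1 * un p.2) (un p.2))
    ((hd.comp hm).clm_apply (cont_un.comp continuous_snd)) (R := R) fun p hp => by simp [hz p hp]
  have iB := intOn (F := fun p => fderiv ℝ ψ (p.1 * un p.2) (I * un p.2))
    ((hd.comp hm).clm_apply (continuous_const.mul (cont_un.comp continuous_snd))) (R := R)
    fun p hp => by simp [hz p hp]
  have hA : ∀ θ : ℝ, ∫ r in Ioi (0 : ℝ), fderiv ℝ ψ (r * un θ) (un θ) = -ψ 0 := fun θ => by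
    have h1 : ∀ r : ℝ, HasDerivAt (fun r : ℝ => ψ (r * un θ)) (fderiv ℝ ψ (r * un θ) (un θ)) r :=
      fun r => (hdf _).hasFDerivAt.comp_hasDerivAt r
        (by simpa using (ofRealCLM.hasDerivAt (x := r)).mul_const (un θ))
    have h2 : HasCompactSupport fun r : ℝ => ψ (r * un θ) :=
      HasCompactSupport.intro (isCompact_closedBall 0 R) fun r hr =>
        image_eq_zero_of_notMem_tsupport fun h => hr (by
          have := mem_closedBall_zero_iff.1 (hR h)
          rwa [norm_mul, norm_un, mul_one, norm_real, ← mem_closedBall_zero_iff] at this)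
    have := HasCompactSupport.integral_Ioi_deriv_eq (f := fun r : ℝ => ψ (r * un θ))
      (hψ.comp (ofRealCLM.contDiff.mul contDiff_const)) h2 0
    rw [show (deriv fun r : ℝ => ψ (r * un θ)) = _ from funext fun r => (h1 r).deriv] at this
    simpa using this
  have hB : ∀ r ∈ Ioi (0 : ℝ),
      ∫ θ in Ioo (-Real.pi) Real.pi, fderiv ℝ ψ (r * un θ) (I * un θ) = 0 := fun r hr => by
    have hr0 : (r : ℂ) ≠ 0 := ofReal_ne_zero.2 (ne_of_gt hr)
    have h1 : ∀ θ : ℝ, HasDerivAt (fun θ : ℝ => (r : ℂ)⁻¹ * ψ (r * un θ))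
        (fderiv ℝ ψ (r * un θ) (I * un θ)) θ := fun θ => by
      have := ((hdf _).hasFDerivAt.comp_hasDerivAt θ ((deriv_un θ).const_mul (r : ℂ))).const_mul
        (r : ℂ)⁻¹
      rwa [← real_smul (x := r) (z := I * un θ), map_smul, real_smul,
        inv_mul_cancel_left₀ hr0] at this
    rw [← integral_Ioc_eq_integral_Ioo,
      ← intervalIntegral.integral_of_le (by linarith [Real.pi_pos]),
      intervalIntegral.integral_eq_sub_of_hasDerivAt (fun θ _ => h1 θ)
        (Continuous.intervalIntegrable ((hd.comp (continuous_const.mul cont_un)).clm_apply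
          (continuous_const.mul cont_un)) _ _)]
    simp [un]
  rw [← Complex.integral_comp_polarCoord_symm, polarCoord_target,
    setIntegral_congr_fun (measurableSet_Ioi.prod measurableSet_Ioo)
      (g := fun p : ℝ × ℝ => fderiv ℝ ψ (p.1 * un p.2) (un p.2) +
        I * fderiv ℝ ψ (p.1 * un p.2) (I * un p.2)) fun p hp => by
      have hr0 : (p.1 : ℂ) ≠ 0 := ofReal_ne_zero.2 (ne_of_gt hp.1)
      simp only [Complex.polarCoord_symm_apply]
      rw [lin_un, real_smul]
      change _ * (((p.1 : ℂ) * un p.2)⁻¹ * _) = _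
      rw [mul_inv, ← mul_assoc, ← mul_assoc, mul_inv_cancel₀ hr0, one_mul]
      rfl,
    Measure.volume_eq_prod, ← Measure.prod_restrict, integral_add iA (iB.const_mul I),
    integral_const_mul, integral_prod_symm _ iA, integral_prod _ iB,
    setIntegral_congr_fun measurableSet_Ioi (g := fun _ => (0 : ℂ)) hB]
  simp only [hA, integral_const, integral_zero, mul_zero, add_zero, MeasurableSet.univ,
    measureReal_restrict_apply, univ_inter, Real.volume_real_Ioo, real_smul]
  rw [max_eq_left (by linarith [Real.pi_pos])]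
  push_cast
  ring

variable {ι : Type} [Fintype ι] [DecidableEq ι]

theorem loc_inv : LocallyIntegrable (fun w : ℂ => w⁻¹) volume :=
  locallyIntegrable_of_norm_le_rpow (C := 1) (α := 1) (by simp) (by simp)
    (Eventually.of_forall fun w => by simp [Real.rpow_neg_one])
    (measurable_inv.aestronglyMeasurable)

/-- the map `(z, w) ↦ z + w e_k`. -/
noncomputable def lin (k : ι) : V ι × ℂ →L[ℝ] V ι :=
  ContinuousLinearMap.fst ℝ _ _ +
    (ContinuousLinearMap.single ℝ (fun _ : ι => ℂ) k).comp (ContinuousLinearMap.snd ℝ _ _)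

theorem lin_apply (k : ι) (z : V ι) (w : ℂ) : lin k (z, w) = z + Pi.single k w := by simp [lin]

/-- the Cauchy transform in the variable `k`. -/
noncomputable def T (k : ι) (φ : V ι → ℂ) (z : V ι) : ℂ :=
  ((fun w : ℂ => w⁻¹) ⋆[ContinuousLinearMap.mul ℝ ℂ, volume] fun w => φ (lin k (z, w))) 0

theorem far {k : ι} {z : V ι} {w : ℂ} {R ρ : ℝ} (hz : z ∈ ball (0 : V ι) ρ)
    (hw : w ∉ closedBall (0 : ℂ) (R + ρ)) : lin k (z, w) ∉ closedBall (0 : V ι) R := fun h => by
  refine hw (mem_closedBall_zero_iff.2 ?_)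
  have h1 := (norm_le_pi_norm _ k).trans (mem_closedBall_zero_iff.1 h)
  have h2 := (norm_le_pi_norm _ k).trans (mem_ball_zero_iff.1 hz).le
  rw [lin_apply, Pi.add_apply, Pi.single_eq_same] at h1
  calc ‖w‖ = ‖(z k + w) - z k‖ := by simp
    _ ≤ _ := (norm_sub_le _ _).trans (add_le_add h1 h2)

theorem cpt {G : Type} [Zero G] {φ : V ι → G} (hc : HasCompactSupport φ) (k : ι) (z : V ι) :
    HasCompactSupport fun w => φ (lin k (z, w)) := by
  obtain ⟨R, hR⟩ := hc.isCompact.isBounded.subset_closedBall 0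
  exact HasCompactSupport.intro (isCompact_closedBall 0 (R + (‖z‖ + 1))) fun w hw =>
    image_eq_zero_of_notMem_tsupport fun h =>
      far (mem_ball_zero_iff.2 (lt_add_one _)) hw (hR h)

variable {φ : V ι → ℂ}

theorem T_smooth (hφ : ContDiff ℝ ∞ φ) (hc : HasCompactSupport φ) (k : ι) :
    ContDiff ℝ ∞ (T k φ) := by
  obtain ⟨R, hR⟩ := hc.isCompact.isBounded.subset_closedBall 0
  refine contDiff_iff_contDiffAt.2 fun z => ?_
  exact (contDiffOn_convolution_right_with_param_comp (ContinuousLinearMap.mul ℝ ℂ)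
    (s := ball 0 (‖z‖ + 1)) (v := fun _ => (0 : ℂ)) contDiffOn_const
    (g := fun p w => φ (lin k (p, w))) isOpen_ball (isCompact_closedBall 0 (R + (‖z‖ + 1)))
    (fun p w hp hw => image_eq_zero_of_notMem_tsupport fun h => far hp hw (hR h)) loc_inv
    (hφ.comp (lin k).contDiff).contDiffOn).contDiffAt
      (isOpen_ball.mem_nhds (mem_ball_zero_iff.2 (lt_add_one _)))

theorem T_fderiv (hφ : ContDiff ℝ ∞ φ) (hc : HasCompactSupport φ) (k : ι) (z v : V ι) :
    fderiv ℝ (T k φ) z v = T k (fun y => fderiv ℝ φ y v) z := by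
  obtain ⟨R, hR⟩ := hc.isCompact.isBounded.subset_closedBall 0
  have h1 : ContDiff ℝ 1 φ := hφ.of_le (by simp)
  have h := HasFDerivAt.comp (𝕜 := ℝ) (f := fun e : V ι => (e, (0 : ℂ))) z
    (hasFDerivAt_convolution_right_with_param (ContinuousLinearMap.mul ℝ ℂ)
    (s := ball 0 (‖z‖ + 1)) (g := fun p w => φ (lin k (p, w))) isOpen_ball
    (isCompact_closedBall 0 (R + (‖z‖ + 1)))
    (fun p w hp hw => image_eq_zero_of_notMem_tsupport fun h => far hp hw (hR h)) loc_inv
    (h1.comp (lin k).contDiff).contDiffOn (z, 0) (mem_ball_zero_iff.2 (lt_add_one _)))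
      (hasFDerivAt_prodMk_left z (0 : ℂ))
  have e : ∀ w : ℂ, fderiv ℝ (↿fun p w => φ (lin k (p, w))) (z, w) =
      (fderiv ℝ φ (lin k (z, w))).comp (lin k) := fun w =>
    (((h1.differentiable one_ne_zero) _).hasFDerivAt.comp (z, w) (lin k).hasFDerivAt).fderiv
  have hcd : Continuous fun w : ℂ => fderiv ℝ φ (lin k (z, w)) :=
    (h1.continuous_fderiv one_ne_zero).comp ((lin k).continuous.comp (Continuous.prodMk_right z))
  rw [show fderiv ℝ (T k φ) z = _ from h.fderiv, ContinuousLinearMap.comp_apply]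
  simp only [e]
  have hcs : HasCompactSupport fun x : ℂ => (fderiv ℝ φ (lin k (z, x))).comp (lin k) :=
    (cpt (hc.fderiv ℝ) k z).comp_left (g := fun A : V ι →L[ℝ] ℂ => A.comp (lin k)) (by simp)
  rw [convolution_precompR_apply _ loc_inv hcs (hcd.clm_comp continuous_const)]
  simp [T, lin_apply]

theorem T_eq (k : ι) (φ : V ι → ℂ) (z : V ι) :
    T k φ z = -∫ w : ℂ, w⁻¹ * φ (lin k (z, w)) := by
  rw [T, convolution_def, ← integral_neg_eq_self, ← integral_neg]
  simp

theorem T_dzb (hφ : ContDiff ℝ ∞ φ) (hc : HasCompactSupport φ) (k l : ι) (z : V ι) :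
    dzb (T k φ) l z = -∫ w : ℂ, w⁻¹ * dzb φ l (lin k (z, w)) := by
  have hi : ∀ v, Integrable fun w : ℂ => w⁻¹ * fderiv ℝ φ (lin k (z, w)) v := fun v =>
    loc_inv.integrable_smul_right_of_hasCompactSupport
      (((hφ.continuous_fderiv (by simp)).comp
        ((lin k).continuous.comp (Continuous.prodMk_right z))).clm_apply continuous_const)
      ((cpt (hc.fderiv ℝ) k z).comp_left (g := fun A : V ι →L[ℝ] ℂ => A v) (by simp))
  rw [dzb, T_fderiv hφ hc, T_fderiv hφ hc, T_eq, T_eq, mul_neg, ← neg_add, neg_div,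
    ← integral_const_mul, ← integral_add (hi _) ((hi _).const_mul I), ← integral_div]
  simp only [dzb]
  congr 2
  funext w
  ring

theorem T_self (hφ : ContDiff ℝ ∞ φ) (hc : HasCompactSupport φ) (k : ι) (z : V ι) :
    dzb (T k φ) k z = Real.pi * φ z := by
  have h1 : ContDiff ℝ 1 φ := hφ.of_le (by simp)
  have e : ∀ w v : ℂ, fderiv ℝ (fun w => φ (lin k (z, w))) w v =
      fderiv ℝ φ (lin k (z, w)) (Pi.single k v) := fun w v => by
    have := (((h1.differentiable one_ne_zero) _).hasFDerivAt.comp w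
      ((lin k).hasFDerivAt.comp w (hasFDerivAt_prodMk_right z w))).fderiv
    rw [show fderiv ℝ (fun w => φ (lin k (z, w))) w = _ from this]
    simp [lin_apply]
  have h := pomp (ψ := fun w => φ (lin k (z, w)))
    (h1.comp ((lin k).contDiff.comp (contDiff_const.prodMk contDiff_id))) (cpt hc k z)
  simp only [e] at h
  rw [T_dzb hφ hc]
  simp only [dzb, ← mul_div_assoc]
  rw [integral_div, h, lin_apply]
  simp
  ring

theorem step {r R : ℝ} (h0 : 0 < r) (hr : r < R) (k : ι) {b : V ι → ℂ}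
    (hb : ∀ z ∈ ball (0 : V ι) R, ContDiffAt ℝ ∞ b z) : ∃ f : V ι → ℂ, ContDiff ℝ ∞ f ∧
      (∀ z ∈ ball (0 : V ι) r, dzb f k z = b z) ∧
      ∀ l, l ≠ k → (∀ z ∈ ball (0 : V ι) R, dzb b l z = 0) →
        ∀ z ∈ ball (0 : V ι) r, dzb f l z = 0 := by
  let β : ContDiffBump (0 : ℂ) := ⟨r, (r + R) / 2, h0, by linarith⟩
  have hβ : ∀ j, ContDiff ℝ ∞ fun x : V ι => (β (x j) : ℂ) := fun j =>
    ofRealCLM.contDiff.comp (β.contDiff.comp (contDiff_apply ℝ ℂ j))
  have hχ : ∀ s : Finset ι, ContDiff ℝ ∞ fun x : V ι => ∏ j ∈ s, (β (x j) : ℂ) := fun s =>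
    contDiff_prod fun j _ => hβ j
  set φ : V ι → ℂ := fun x => (∏ j, (β (x j) : ℂ)) * b x with hφ
  have hz : ∀ x ∉ closedBall (0 : V ι) ((r + R) / 2), φ x = 0 := fun x hx => by
    rw [mem_closedBall_zero_iff, pi_norm_le_iff_of_nonneg (by linarith), not_forall] at hx
    obtain ⟨j, hj⟩ := hx
    rw [hφ]
    simp only
    rw [Finset.prod_eq_zero (Finset.mem_univ j), zero_mul]
    rw [β.zero_of_le_dist (by simpa using (not_le.1 hj).le), ofReal_zero]
  have hev : ∀ x ∉ ball (0 : V ι) R, φ =ᶠ[𝓝 x] fun _ => 0 := fun x hx =>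
    eventually_of_mem (isClosed_closedBall.isOpen_compl.mem_nhds
      fun h => hx (closedBall_subset_ball (by linarith) h)) hz
  have hs : ContDiff ℝ ∞ φ := contDiff_iff_contDiffAt.2 fun x => by
    by_cases hx : x ∈ ball (0 : V ι) R
    · exact (hχ _).contDiffAt.mul (hb x hx)
    · exact contDiffAt_const.congr_of_eventuallyEq (hev x hx)
  have hc : HasCompactSupport φ := HasCompactSupport.intro (isCompact_closedBall _ _) hz
  have hT := T_smooth hs hc k
  have hone : ∀ w ∈ ball (0 : ℂ) r, (β w : ℂ) = 1 := fun w hw => by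
    rw [β.one_of_mem_closedBall (ball_subset_closedBall hw), ofReal_one]
  have hpi : (Real.pi : ℂ) ≠ 0 := ofReal_ne_zero.2 Real.pi_ne_zero
  have hco : ∀ z ∈ ball (0 : V ι) r, ∀ j, z j ∈ ball (0 : ℂ) r := fun z h j =>
    mem_ball_zero_iff.2 ((norm_le_pi_norm z j).trans_lt (mem_ball_zero_iff.1 h))
  refine ⟨fun z => (Real.pi : ℂ)⁻¹ * T k φ z, contDiff_const.mul hT, fun z h => ?_,
    fun l hl hb0 z h => ?_⟩
  · rw [dzb_cmul _ (hT.differentiable (by simp) z), T_self hs hc, inv_mul_cancel_left₀ hpi, hφ]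
    simp only
    rw [Finset.prod_eq_one fun j _ => hone _ (hco z h j), one_mul]
  · rw [dzb_cmul _ (hT.differentiable (by simp) z), T_dzb hs hc]
    have key : ∀ y : V ι, y l ∈ ball (0 : ℂ) r → dzb φ l y = 0 := fun y hy => by
      by_cases hx : y ∈ ball (0 : V ι) R
      · have e : φ =ᶠ[𝓝 y] fun x => (∏ j ∈ Finset.univ.erase l, (β (x j) : ℂ)) * b x := by
          filter_upwards [(continuous_apply l).continuousAt.preimage_mem_nhds
            (isOpen_ball.mem_nhds hy)] with x hx
          rw [hφ]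
          simp only
          rw [← Finset.mul_prod_erase _ _ (Finset.mem_univ l), hone _ hx, one_mul]
        have hd := (hχ (Finset.univ.erase l)).differentiable (by simp) y
        have hv : ∀ c : ℂ, fderiv ℝ (fun x : V ι => ∏ j ∈ Finset.univ.erase l, (β (x j) : ℂ)) y
            (Pi.single l c) = 0 := fun c => by
          rw [← hd.lineDeriv_eq_fderiv, lineDeriv]
          have : (fun t : ℝ => ∏ j ∈ Finset.univ.erase l,
              (β ((y + t • (Pi.single l c : V ι)) j) : ℂ)) =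
              fun _ => ∏ j ∈ Finset.univ.erase l, (β (y j) : ℂ) := by
            funext t
            refine Finset.prod_congr rfl fun j hj => ?_
            simp [Pi.single_eq_of_ne (Finset.ne_of_mem_erase hj)]
          rw [this, deriv_const]
        rw [dzb_congr e, dzb_mul hd ((hb y hx).differentiableAt (by simp)), hb0 y hx, dzb, hv, hv]
        simp
      · rw [dzb_congr (hev y hx), dzb_const]
    have : ∀ w : ℂ, dzb φ l (lin k (z, w)) = 0 := fun w => key _ (by
      rw [lin_apply, Pi.add_apply, Pi.single_eq_of_ne hl, add_zero]; exact hco z h l)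
    simp [this]

theorem ind (s : Finset ι) : ∀ {r R : ℝ}, 0 < r → r < R → ∀ a : ι → V ι → ℂ,
    (∀ j, ∀ z ∈ ball (0 : V ι) R, ContDiffAt ℝ ∞ (a j) z) →
    (∀ i j, ∀ z ∈ ball (0 : V ι) R, dzb (a j) i z = dzb (a i) j z) →
    (∀ j ∉ s, ∀ z ∈ ball (0 : V ι) R, a j z = 0) →
    ∃ f : V ι → ℂ, ContDiff ℝ ∞ f ∧ ∀ j, ∀ z ∈ ball (0 : V ι) r, dzb f j z = a j z := by
  induction s using Finset.induction_on with
  | empty =>
    intro r R _ hr a _ _ h
    exact ⟨fun _ => 0, contDiff_const, fun j z hz => by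
      rw [dzb_const, h j (by simp) z (ball_subset_ball hr.le hz)]⟩
  | insert k s _ ih =>
    intro r R h0 hr a ha hc h
    have h1 : r < (r + R) / 2 := by linarith
    have h2 : (r + R) / 2 < R := by linarith
    have hs := ball_subset_ball (x := (0 : V ι)) h2.le
    obtain ⟨f, hf, e1, e2⟩ := step (h0.trans h1) h2 k (ha k)
    have hd : ∀ j z, ContDiffAt ℝ ∞ (dzb f j) z := fun j z => contDiffAt_dzb_top hf.contDiffAt j
    obtain ⟨f', hf', e⟩ := ih h0 h1 (fun j z => a j z - dzb f j z)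
      (fun j z hz => (ha j z (hs hz)).sub (hd j z))
      (fun i j z hz => by
        rw [dzb_sub ((ha j z (hs hz)).differentiableAt (by simp))
            ((hd j z).differentiableAt (by simp)),
          dzb_sub ((ha i z (hs hz)).differentiableAt (by simp))
            ((hd i z).differentiableAt (by simp)), hc i j z (hs hz),
          dzb_dzb_comm (hf.contDiffAt.of_le (WithTop.coe_le_coe.2 le_top))])
      fun j hj z hz => by
        by_cases hk : j = k
        · rw [hk, e1 z hz, sub_self]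
        · have hj' : j ∉ insert k s := by simp [hk, hj]
          rw [h j hj' z (hs hz), e2 j hk (fun y hy => by
            rw [hc j k y hy, dzb_congr (g := fun _ => 0)
              (eventually_of_mem (isOpen_ball.mem_nhds hy) (h j hj')), dzb_const]) z hz, sub_self]
    refine ⟨fun z => f z + f' z, hf.add hf', fun j z hz => ?_⟩
    rw [dzb_add (hf.differentiable (by simp) z) (hf'.differentiable (by simp) z), e j z hz]
    ring

end Dolb

open Metric
open scoped ContDiff

/-- the Dolbeault lemma: a smooth `dbar` closed `(0,1)` form on a polydisc is `dbar` exact on every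
smaller polydisc. -/
theorem dolb {ι : Type} [Fintype ι] [DecidableEq ι] {r R : ℝ} (h0 : 0 < r) (hr : r < R)
    (a : ι → V ι → ℂ) (ha : ∀ j, ∀ z ∈ ball (0 : V ι) R, ContDiffAt ℝ ∞ (a j) z)
    (hc : ∀ i j, ∀ z ∈ ball (0 : V ι) R, dzb (a j) i z = dzb (a i) j z) :
    ∃ f : V ι → ℂ, ContDiff ℝ ∞ f ∧ ∀ j, ∀ z ∈ ball (0 : V ι) r, dzb f j z = a j z :=
  Dolb.ind Finset.univ h0 hr a ha hc fun j hj => absurd (Finset.mem_univ j) hj

end Pool.Agent.Lib.MP_813db1_ag.HS
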