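import Pool.Agent.Lib.MP_813db1_ag.AN.FinA
import Pool.Agent.Lib.MP_813db1_ag.HS.Vol

/-! Compact zero sets are finite when the Kaehler form is exact. -/

namespace Pool.Agent.Lib.MP_813db1_ag.AN

open Pool.Agent.Lib.MP_813db1_ag.HS
open MeasureTheory Complex Matrix Filter Topology Set Metric
open scoped ContDiff ComplexOrder

namespace FinA

variable {ι Y : Type} [Fintype ι] [DecidableEq ι] [TopologicalSpace Y] {M : Atl ι Y}
  {g : Y → Mat ι}

/-- the regularised maximum of `x` and zero. -/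
structure Rho (ρ : ℝ → ℝ) (c : ℝ) : Prop where
  sm : ContDiff ℝ ∞ ρ
  lo : ∀ x ≤ (-1 : ℝ), ρ x = 0
  hi : ∀ x ≥ (1 : ℝ), ρ x = x - c
  bd : ∀ x, 0 ≤ deriv ρ x ∧ deriv ρ x ≤ 1 ∧ 0 ≤ deriv (deriv ρ) x ∧ 0 ≤ ρ x ∧ ρ x ≤ max x 0 + 1

variable {ρ : ℝ → ℝ} {c : ℝ}

theorem Rho.shift (h : Rho ρ c) (R x : ℝ) : ContDiff ℝ ∞ (fun t => ρ (t + R)) ∧
    deriv (fun t => ρ (t + R)) x = deriv ρ (x + R) ∧
    deriv (deriv fun t => ρ (t + R)) x = deriv (deriv ρ) (x + R) :=
  ⟨h.sm.comp (contDiff_id.add contDiff_const), deriv_comp_add_const _ _ _, by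
    rw [show deriv (fun t => ρ (t + R)) = fun t => deriv ρ (t + R) from
      funext fun t => deriv_comp_add_const _ _ _, deriv_comp_add_const]⟩

/-- the regularised maximum of two functions. -/
theorem regmax (hb : RepB' M) (hM : FinMat) (h : Rho ρ c) {u v : Y → ℝ} (hu : M.Ck ∞ u)
    (hv : M.Ck ∞ v) (R s : ℝ) : M.Ck ∞ (fun y => v y + -1 * u y) ∧
    M.Ck ∞ (fun y => u y + 1 * ρ (v y + -1 * u y + R)) ∧ ∀ x,
    ((s : ℂ) • g x + M.ddc u x).PosSemidef → ((s : ℂ) • g x + M.ddc v x).PosSemidef →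
    ((s : ℂ) • g x + M.ddc (fun y => u y + 1 * ρ (v y + -1 * u y + R)) x).PosSemidef := by
  have lin : ∀ (d : ℝ) {u v : Y → ℝ}, M.Ck ∞ u → M.Ck ∞ v → M.Ck ∞ fun y => u y + d * v y :=
    fun d u v hu hv => (hb.ck_add ⊤ u _ hu
      (hb.ck_comp ⊤ v (fun t => d * t) hv fun _ => contDiffAt_const.mul contDiffAt_id)).1
  have c1 := lin (-1) hv hu
  have c2 := hb.ck_comp ⊤ _ _ c1 fun _ => (h.shift R 0).1.contDiffAt
  refine ⟨c1, lin 1 hu c2, fun x p1 p2 => ?_⟩
  rw [hb.ddc_add u _ (ck2 hu) (ck2 c2), ddc_comp (h.shift R 0).1.contDiffAt (at_ch c1 x),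
    (h.shift R _).2.1, (h.shift R _).2.2, hb.ddc_add v u (ck2 hv) (ck2 hu)]
  obtain ⟨b1, b2, b3, -⟩ := h.bd (v x + -1 * u x + R)
  convert ((psd_smul p1 (sub_nonneg.2 b2)).add (psd_smul p2 b1)).add
    (psd_smul (hM.rk ι 1 (M.dfn (fun y => v y + -1 * u y) x)).1 b3) using 1
  push_cast
  module

open Classical in
/-- the truncated logarithm. -/
noncomputable def mu (ρ : ℝ → ℝ) (S : Y → ℝ) (T : ℝ) (y : Y) : ℝ :=
  if S y = 0 then -T else -T + ρ (Real.log (S y) + T)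

theorem mu_sm (ha : RepA' M) (hM : FinMat) (hg : M.IsK g) (h : Rho ρ c) {S : Y → ℝ} {s : ℝ}
    (hS : M.Ck ∞ S) (h0 : ∀ y, 0 ≤ S y) (hs : 0 ≤ s)
    (hp : ∀ y, 0 < S y → ((s : ℂ) • g y + M.ddc (fun x => Real.log (S x)) y).PosSemidef) (T : ℝ)
    (x : Y) : ContDiffAt ℝ ∞ (fn (mu ρ S T) (M.ch x)) (M.ch x x) ∧
      ((s : ℂ) • g x + M.ddc (mu ρ S T) x).PosSemidef := by
  have cS := (cont ha hS).continuousAt (x := x)
  have pg := (Green.pd ha hg x).posSemidef
  rcases (h0 x).eq_or_lt with k | k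
  · have e : mu ρ S T =ᶠ[𝓝 x] fun _ => -T := by
      filter_upwards [cS.eventually_lt_const (k ▸ Real.exp_pos (-1 - T))] with y hy
      rw [mu]
      split_ifs with k'
      · rfl
      · have := (Real.log_lt_iff_lt_exp ((h0 y).lt_of_ne' k')).2 hy
        rw [h.lo _ (by linarith), add_zero]
    refine ⟨contDiffAt_const.congr_of_eventuallyEq (fn_congr e), ?_⟩
    rw [ddc_congr e, show M.ddc (fun _ => -T) x = 0 from levi_const _ _, add_zero]
    exact psd_smul pg hs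
  · have e : mu ρ S T =ᶠ[𝓝 x] fun y => -T + ρ (Real.log (S y) + T) := by
      filter_upwards [cS.eventually_const_lt k] with y hy
      rw [mu, if_neg hy.ne']
    have c1 : ContDiffAt ℝ ∞ (fn (fun y => Real.log (S y)) (M.ch x)) (M.ch x x) :=
      contDiffAt_ofReal.2 ((contDiffAt_ofReal.1 (at_ch hS x)).log (by
        rw [(M.ch x).left_inv (M.mem x)]
        exact k.ne'))
    have c2 : ContDiff ℝ ∞ fun t => -T + ρ (t + T) := contDiff_const.add (h.shift T 0).1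
    refine ⟨(contDiffAt_ofReal.2 (c2.contDiffAt.comp _
      (contDiffAt_ofReal.1 c1))).congr_of_eventuallyEq (fn_congr e), ?_⟩
    rw [ddc_congr e, ddc_comp (Φ := fun t => -T + ρ (t + T)) c2.contDiffAt c1,
      deriv_const_add', (h.shift T _).2.1, (h.shift T _).2.2]
    obtain ⟨b1, b2, b3, -⟩ := h.bd (Real.log (S x) + T)
    convert ((psd_smul (psd_smul pg hs) (sub_nonneg.2 b2)).add (psd_smul (hp x k) b1)).add
      (psd_smul (hM.rk ι 1 (M.dfn (fun y => Real.log (S y)) x)).1 b3) using 1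
    push_cast
    module

omit [TopologicalSpace Y] in
theorem mu_bd (h : Rho ρ c) (S : Y → ℝ) (T : ℝ) (y : Y) : -T ≤ mu ρ S T y ∧
    (Real.exp (1 - T) ≤ S y → mu ρ S T y = Real.log (S y) - c) ∧
    ∀ E, -T ≤ E → 0 ≤ S y → S y ≤ Real.exp E → mu ρ S T y ≤ E + 1 := by
  rw [mu]
  split_ifs with k
  · exact ⟨le_rfl, fun k' => absurd (k ▸ k') (Real.exp_pos _).not_ge, fun E e _ _ => by linarith⟩
  · obtain ⟨-, -, -, b1, b2⟩ := h.bd (Real.log (S y) + T)
    refine ⟨by linarith, fun k' => ?_, fun E e e0 e1 => ?_⟩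
    · have := (Real.le_log_iff_exp_le ((Real.exp_pos _).trans_le k')).2 k'
      rw [h.hi _ (by linarith)]
      ring
    · have := (Real.log_le_iff_le_exp (e0.lt_of_ne' k)).2 e1
      have := max_le (show Real.log (S y) + T ≤ E + T by linarith) (show 0 ≤ E + T by linarith)
      linarith

omit [DecidableEq ι] in
theorem small {f : V ι → ℝ} (hf : DifferentiableAt ℝ f 0) (h0 : f 0 = 0) {δ : ℝ} (hδ : 0 < δ)
    {P : V ι → Prop} (hP : ∀ᶠ w in 𝓝 0, P w) :
    ∀ᶠ η in 𝓝[>] (0 : ℝ), ∀ w ∈ ball (0 : V ι) (η ^ 2), P w ∧ f w ≤ δ * η := by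
  obtain ⟨C, C0, hC⟩ := hf.isBigO_sub.exists_pos
  obtain ⟨r, r0, hr⟩ := Metric.eventually_nhds_iff_ball.1 (hP.and hC.bound)
  have t1 : Tendsto (fun η : ℝ => η ^ 2) (𝓝[>] 0) (𝓝 0) :=
    tendsto_nhdsWithin_of_tendsto_nhds (Continuous.tendsto' (by fun_prop) _ _ (by simp))
  filter_upwards [t1.eventually_le_const r0, Ioc_mem_nhdsGT (div_pos hδ C0)] with η e1 e2 w hw
  obtain ⟨k1, k2⟩ := hr w (ball_subset_ball e1 hw)
  rw [h0, sub_zero, sub_zero] at k2
  have k3 := mem_ball_zero_iff.1 hw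
  have k4 := (le_div_iff₀ C0).1 e2.2
  refine ⟨k1, (le_abs_self _).trans (k2.trans ?_)⟩
  nlinarith [e2.1]

variable [MeasurableSpace Y] [BorelSpace Y] {K : Set Y} {ν : Measure Y} {a : Y → V ι}

theorem lower (ha : RepA' M) (hb : RepB' M) (hM : FinMat) (hg : M.IsK g)
    (hI : IntK M g K ν a) (h : Rho ρ c) {k : ℝ → ℝ} (ck : ContDiff ℝ ∞ k)
    (k0 : ∀ x, 0 ≤ k x) (k1 : ∀ x ≤ (-2 : ℝ), k x = 1) {u v : Y → ℝ} (hu : M.Ck ∞ u)
    (hv : M.Ck ∞ v) {s r A τ m : ℝ} (hs : 0 ≤ s) (hr : 0 < r) (hτ : 0 < τ)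
    (pu : ∀ y, ((s : ℂ) • g y + M.ddc u y).PosSemidef)
    (pv : ∀ y, v y ≤ A ∧ ((s : ℂ) • g y + M.ddc v y).PosSemidef) (off : ∀ y ∉ K, -r ≤ u y)
    {t : Finset Y} {e : Y → Ch ι Y} (e1 : ∀ y ∈ t, e y ∈ M.A ∧ closedBall 0 τ ⊆ (e y).target)
    (e2 : (t : Set Y).PairwiseDisjoint fun y => (e y).source ∩ e y ⁻¹' ball 0 τ)
    (e3 : ∀ y ∈ t, ∀ w ∈ ball (0 : V ι) τ, (e y).symm w ∈ K ∧
      u ((e y).symm w) ≤ v ((e y).symm w) - (A + 2 * r + 2) ∧ (levi (fn v (e y)) w).PosSemidef ∧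
      m ≤ τ ^ (2 * Fintype.card ι) * (levi (fn v (e y)) w).det.re) :
    t.card * (m * volume.real (ball (0 : V ι) 1)) ≤
      ∫ y, k (u y / r) * rat (fun x => (s : ℂ) • g x + M.ddc u x) g y ∂ν := by
  obtain ⟨c1, c2, c3⟩ := regmax (g := g) hb hM h hu hv (-(A + 2 * r + 1)) s
  set w := fun y => u y + 1 * ρ (v y + -1 * u y + -(A + 2 * r + 1)) with hw
  have cκ := cont ha (hb.ck_comp ⊤ u (fun x => k (x / r)) hu fun _ =>
    (ck.comp (contDiff_id.div_const _)).contDiffAt)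
  have i := fun {u : Y → ℝ} (hu : M.Ck ∞ u) => cont_rat ha hg (cl_add ha hb hg s hu)
  have z1 : ∀ y, -(2 * r) < u y → w =ᶠ[𝓝 y] u := fun y hy => by
    filter_upwards [(cont ha hu).continuousAt.eventually_const_lt hy] with x hx
    rw [hw]
    beta_reduce
    rw [h.lo _ (by linarith [(pv x).1]), mul_zero, add_zero]
  have q1 : ∫ y, k (u y / r) * rat (fun x => (s : ℂ) • g x + M.ddc w x) g y ∂ν =
      ∫ y, k (u y / r) * rat (fun x => (s : ℂ) • g x + M.ddc u x) g y ∂ν := by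
    have := inv2 ha hb hg hI s c2 hu fun y hy => (z1 y (by linarith [off y hy])).self_of_nhds
    rw [← sub_eq_zero, ← integral_sub (hI.intg _ (i c2)) (hI.intg _ (i hu))] at this
    rw [← sub_eq_zero, ← integral_sub (hI.intg _ (cκ.fun_mul (i c2)))
      (hI.intg _ (cκ.fun_mul (i hu))), ← this]
    refine integral_congr_ae (Eventually.of_forall fun y => ?_)
    beta_reduce
    rcases lt_or_ge (-(2 * r)) (u y) with k2 | k2
    · simp only [rat, ddc_congr (z1 y k2), sub_self]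
    · rw [k1 _ ((div_le_iff₀ hr).2 (by linarith)), one_mul, one_mul]
  have iw := hI.intg _ (cκ.fun_mul (i c2))
  rw [← q1]
  refine le_trans ?_ (setIntegral_le_integral
    (s := ⋃ y ∈ t, (e y).source ∩ e y ⁻¹' ball 0 τ) iw (Eventually.of_forall fun y => mul_nonneg
      (k0 _) (div_nonneg (hM.nonneg ι _ (c3 y (pu y) (pv y).2))
        (Green.det_pos (Green.pd ha hg y)).le)))
  rw [integral_biUnion_finset t (fun y _ => Vol.ms_img _ measurableSet_ball) e2
    fun y _ => iw.integrableOn, ← nsmul_eq_mul]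
  refine Finset.card_nsmul_le_sum _ _ _ fun y hy => ?_
  obtain ⟨he, sub'⟩ := e1 y hy
  have sub := ball_subset_closedBall.trans sub'
  have key : ∀ z ∈ ball (0 : V ι) τ, (M.repF g (e y) z).det.re * (k (u ((e y).symm z) / r) *
      rat (fun x => (s : ℂ) • g x + M.ddc w x) g ((e y).symm z)) =
      ((s : ℂ) • M.repF g (e y) z + levi (fn v (e y)) z).det.re := fun z hz => by
    have hx := (e y).map_target (sub hz)
    have a1 := (e3 y hy z hz).2.1
    have a2 : w =ᶠ[𝓝 ((e y).symm z)] fun x => v x + (-(A + 2 * r + 1) - c) * (1 : ℝ) := by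
      filter_upwards [((e y).isOpen_inter_preimage isOpen_ball).mem_nhds
        (show _ ∈ (e y).source ∩ e y ⁻¹' ball 0 τ from
          ⟨hx, by rwa [mem_preimage, (e y).right_inv (sub hz)]⟩)] with x k2
      have := (e3 y hy _ k2.2).2.1
      rw [(e y).left_inv k2.1] at this
      rw [hw]
      beta_reduce
      rw [h.hi _ (by linarith)]
      ring
    have a3 := ha.rat_rep (fun x => (s : ℂ) • g x + M.ddc v x) g _ he _ hx
    have a4 := hb.ddc_rep v _ he _ hx (by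
      rw [(e y).right_inv (sub hz)]
      exact ck2 hv _ he _ (sub hz))
    rw [(e y).right_inv (sub hz)] at a3 a4
    rw [k1 _ ((div_le_iff₀ hr).2 (by linarith [(pv ((e y).symm z)).1])), one_mul, rat,
      ddc_congr a2, hb.ddc_add v (fun _ => 1) (ck2 hv) (fun _ _ _ _ => contDiffAt_const),
      hb.ddc_const, smul_zero, add_zero, ← a4]
    rw [rat] at a3
    rw [← a3, mul_div_cancel₀ _ (Green.det_pos ((hg _ he).2 z (sub hz))).ne']
    simp only [Atl.repF, pull, Matrix.mul_add, Matrix.add_mul, Matrix.mul_smul, Matrix.smul_mul]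
  have q2 : m * volume.real (ball (0 : V ι) 1) =
      ∫ _ in ball (0 : V ι) τ, m / τ ^ (2 * Fintype.card ι) := by
    rw [setIntegral_const, smul_eq_mul, Measure.real, Measure.real,
      Measure.addHaar_ball_of_pos volume 0 hτ, ENNReal.toReal_mul,
      ENNReal.toReal_ofReal (pow_pos hτ _).le, Module.finrank_pi_fintype]
    simp only [finrank_real_complex, Finset.sum_const, Finset.card_univ, smul_eq_mul, mul_comm _ 2]
    field_simp
  rw [hI.chart _ he _ measurableSet_ball sub fun z hz => (e3 y hy z hz).1,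
    setIntegral_congr_fun measurableSet_ball key, q2]
  refine setIntegral_mono_on (integrableOn_const measure_ball_lt_top.ne)
    ((ContinuousOn.integrableOn_compact (isCompact_closedBall 0 τ) fun z hz => ?_).mono_set
      ball_subset_closedBall) measurableSet_ball fun z hz => ?_
  · exact (continuous_re.continuousAt.comp (((CdM.smul contDiffAt_const
      ((hg _ he).1.1.cd (sub' hz))).add fun i j =>
        contDiffAt_levi_top (hv _ he _ (sub' hz)) i j).det.continuousAt)).continuousWithinAt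
  · rw [div_le_iff₀' (pow_pos hτ _)]
    refine (e3 y hy z hz).2.2.2.trans (mul_le_mul_of_nonneg_left ?_ (pow_pos hτ _).le)
    rw [add_comm]
    exact hM.mono ι _ _ (e3 y hy z hz).2.2.1 (psd_smul ((hg _ he).2 z (sub hz)).posSemidef hs)

end FinA

open FinA in
theorem finS (ha : RepA) (hb : RepB) (hm : MatS) (hM : FinMat) (hF : FinFun) (hP : PoleS)
    (hI : IntKS) : FinS := by
  intro ι Y κ _ _ _ _ M g e O f S s W hg hp hS h0 hs hq hW hc hfr
  classical
  borelize Y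
  have ha := ha ι Y M
  have hb := hb ι Y M
  obtain ⟨ρ, c, r1, r2, r3, r4⟩ := hF.rho
  have h : Rho ρ c := ⟨r1, r2, r3, r4⟩
  obtain ⟨k, l, b, ck, cl, k1, k2, k3⟩ := hF.lam
  obtain ⟨m, m0, hP⟩ := hP ι
  have cS := cont ha hS
  obtain ⟨T0, hT0⟩ : ∃ T0 : ℝ, ∀ y ∈ frontier W, Real.exp (1 - T0) < S y := by
    obtain ⟨δ, d0, hd⟩ := (hc.of_isClosed_subset isClosed_frontier
      frontier_subset_closure).exists_forall_le' cS.continuousOn (a := 0)
        fun y hy => (h0 y).lt_of_ne' (hfr y hy)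
    refine ⟨1 - Real.log (δ / 2), fun y hy => ?_⟩
    rw [sub_sub_cancel, Real.exp_log (half_pos d0)]
    exact (half_lt_self d0).trans_le (hd y hy)
  have hK : IsCompact (closure W ∩ {y | S y ≤ Real.exp (1 - T0)}) :=
    hc.inter_right (isClosed_le cS continuous_const)
  set K := closure W ∩ {y | S y ≤ Real.exp (1 - T0)} with eK
  have KW : K ⊆ W := fun y hy => by
    by_contra k
    exact (hT0 y ⟨hy.1, by rwa [hW.interior_eq]⟩).not_ge hy.2
  obtain ⟨ν, a, hI⟩ := hI ι Y κ M g e O f K hg hp hK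
  have sm := mu_sm ha hM hg h hS h0 hs hq
  have fam : ∀ T ≥ T0, ∃ u, M.Ck ∞ u ∧ (∀ y, ((s : ℂ) • g y + M.ddc u y).PosSemidef) ∧
      (∀ y ∉ K, u y = mu ρ S T0 y) ∧ ∀ y ∈ W, u y = mu ρ S T y := fun T hT => by
    have o1 : ∀ y ∉ K, W.piecewise (mu ρ S T) (mu ρ S T0) y = mu ρ S T0 y := fun y hy => by
      by_cases k : y ∈ W
      · have k' : Real.exp (1 - T0) ≤ S y := (not_le.1 fun k' => hy ⟨subset_closure k, k'⟩).le
        rw [piecewise_eq_of_mem _ _ _ k, (mu_bd h S T0 y).2.1 k', (mu_bd h S T y).2.1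
          ((Real.exp_le_exp.2 (by linarith)).trans k')]
      · exact piecewise_eq_of_notMem _ _ _ k
    have o2 : ∀ x, ∃ T', W.piecewise (mu ρ S T) (mu ρ S T0) =ᶠ[𝓝 x] mu ρ S T' := fun x => by
      by_cases k : x ∈ W
      · exact ⟨T, mem_of_superset (hW.mem_nhds k) fun y hy => piecewise_eq_of_mem _ _ _ hy⟩
      · exact ⟨T0, mem_of_superset (hK.isClosed.isOpen_compl.mem_nhds fun k' => k (KW k')) o1⟩
    refine ⟨_, ck_of ha fun x => ?_, fun x => ?_, o1, fun y hy => piecewise_eq_of_mem _ _ _ hy⟩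
    · obtain ⟨T', k⟩ := o2 x
      exact ⟨_, k, (sm T' x).1⟩
    · obtain ⟨T', k⟩ := o2 x
      rw [ddc_congr k]
      exact (sm T' x).2
  obtain ⟨C, hC⟩ := upper ha hb hm hM hg hI ck cl k2 k3
    (ck_of ha fun x => ⟨_, EventuallyEq.rfl, (sm T0 x).1⟩) hs fun y _ => (mu_bd h S T0 y).1
  have v0 : 0 < m * volume.real (ball (0 : V ι) 1) :=
    mul_pos m0 (ENNReal.toReal_pos (measure_ball_pos _ _ one_pos).ne' measure_ball_lt_top.ne)
  obtain ⟨N, hN⟩ := exists_nat_gt (C / (m * volume.real (ball (0 : V ι) 1)))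
  by_contra inf
  obtain ⟨t, t1, t2⟩ := Set.Infinite.exists_subset_card_eq inf N
  obtain ⟨s', A, ρ0, E, p0, p1, p2, p3⟩ := hP Y M g t hg
  obtain ⟨r, r0, rT, hr⟩ := hC (max s s' + 1) ((le_max_left _ _).trans_lt (lt_add_one _))
  have up : ∀ {s1 : ℝ} {u : Y → ℝ} (y : Y), s1 ≤ max s s' → ((s1 : ℂ) • g y + M.ddc u y).PosSemidef →
      (((max s s' + 1 : ℝ) : ℂ) • g y + M.ddc u y).PosSemidef := fun {s1 u} y k k' => by
    convert (psd_smul (Green.pd ha hg y).posSemidef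
      (show 0 ≤ max s s' + 1 - s1 by linarith)).add k' using 1
    push_cast
    module
  have ev : ∀ᶠ η in 𝓝[>] (0 : ℝ), ∀ y ∈ t, ∀ w ∈ ball (0 : V ι) (η ^ 2),
      ((E y).symm w ∈ W ∧ S ((E y).symm w) ≤ Real.exp (1 - T0)) ∧
        S ((E y).symm w) ≤ Real.exp (-(A + 2 * r + 3)) * η := (eventually_all_finset t).2
    fun y hy => by
      obtain ⟨a1, a2, a3, -⟩ := p1 y hy
      have a4 : (E y).symm 0 = y := a3 ▸ (E y).left_inv a2
      have a5 : (0 : V ι) ∈ (E y).target := a3 ▸ (E y).map_source a2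
      have a6 := (contDiffAt_ofReal.1 (hS _ a1 _ a5)).differentiableAt (by simp)
      have a7 : S ((E y).symm 0) = 0 := a4.symm ▸ (t1 hy).2
      exact small a6 a7 (Real.exp_pos _) ((((E y).continuousAt_symm a5).eventually_mem
        (hW.mem_nhds (a4.symm ▸ (t1 hy).1))).and ((a6.continuousAt.eventually_lt_const
          (a7.trans_lt (Real.exp_pos _))).mono fun _ => le_of_lt))
  have t3 : Tendsto (fun η : ℝ => η ^ 2) (𝓝[>] 0) (𝓝 0) :=
    tendsto_nhdsWithin_of_tendsto_nhds (Continuous.tendsto' (by fun_prop) _ _ (by simp))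
  obtain ⟨η, ⟨n1, n2⟩, n3⟩ := ((ev.and (t3.eventually_le_const p0)).and self_mem_nhdsWithin).exists
  have n4 : 0 < η ^ 2 := pow_pos n3 2
  obtain ⟨v, v1, v2, v3⟩ := p3 _ ⟨n4, n2⟩
  obtain ⟨u, u1, u2, u3, u4⟩ := fam (max T0 (A + 2 * r + 3 - Real.log η)) (le_max_left _ _)
  have low := lower ha hb hM hg hI h ck (fun x => (k3 x).1) k1 u1 v1 (m := m) (t := t) (e := E)
    (add_nonneg (le_max_of_le_left hs) zero_le_one) r0 n4 (fun y => up y (le_max_left _ _) (u2 y))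
    (fun y => ⟨(v2 y).1, up y (le_max_right _ _) (v2 y).2⟩)
    (fun y hy => by rw [u3 y hy]; linarith [(mu_bd h S T0 y).1])
    (fun y hy => ⟨(p1 y hy).1, (closedBall_subset_closedBall n2).trans (p1 y hy).2.2.2⟩)
    (p2.mono fun y => inter_subset_inter_right _ (preimage_mono (ball_subset_ball n2)))
    fun y hy w hw => by
      obtain ⟨⟨b1, b2⟩, b3⟩ := n1 y hy w hw
      obtain ⟨b4, b5, b6⟩ := v3 y hy w hw
      refine ⟨⟨subset_closure b1, b2⟩, ?_, b5, b6⟩
      have := (mu_bd h S (max T0 (A + 2 * r + 3 - Real.log η)) ((E y).symm w)).2.2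
        (-(A + 2 * r + 3) + Real.log η) (by linarith [le_max_right T0 (A + 2 * r + 3 - Real.log η)])
        (h0 _) (by rwa [Real.exp_add, Real.exp_log n3])
      rw [Real.log_pow] at b4
      rw [u4 _ b1]
      push_cast at b4
      linarith
  rw [div_lt_iff₀ v0, ← t2] at hN
  exact hN.not_ge (low.trans (hr u u1 u2 u3))

end Pool.Agent.Lib.MP_813db1_ag.AN
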