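import Pool.Agent.Lib.MP_813db1_ag.AN.FinStmt
import Pool.Agent.Lib.MP_813db1_ag.AN.Pole
import Pool.Agent.Lib.MP_813db1_ag.HS.Green

/-! The upper bound for the mass near the zeros. -/

namespace Pool.Agent.Lib.MP_813db1_ag.AN

open Pool.Agent.Lib.MP_813db1_ag.HS
open MeasureTheory Complex Matrix Filter Topology Set Metric
open scoped ContDiff ComplexOrder

namespace FinA

variable {ι Y : Type} [Fintype ι] [DecidableEq ι] [TopologicalSpace Y] {M : Atl ι Y}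
  {g : Y → Mat ι}

omit [DecidableEq ι] in
theorem fn_congr {u v : Y → ℝ} {x : Y} (h : u =ᶠ[𝓝 x] v) :
    fn u (M.ch x) =ᶠ[𝓝 (M.ch x x)] fn v (M.ch x) := by
  have := (M.ch x).continuousAt_symm ((M.ch x).map_source (M.mem x))
  rw [ContinuousAt, (M.ch x).left_inv (M.mem x)] at this
  exact (this.eventually h).mono fun w hw => congrArg ofReal hw

theorem ddc_congr {u v : Y → ℝ} {x : Y} (h : u =ᶠ[𝓝 x] v) : M.ddc u x = M.ddc v x :=
  levi_congr (fn_congr h)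

theorem ck_of (ha : RepA' M) {u : Y → ℝ} (h : ∀ x, ∃ v, u =ᶠ[𝓝 x] v ∧
    ContDiffAt ℝ ∞ (fn v (M.ch x)) (M.ch x x)) : M.Ck ∞ u := ha.ck_loc ⊤ u fun x =>
  let ⟨_, h1, h2⟩ := h x
  ⟨_, M.ch_mem x, M.mem x, h2.congr_of_eventuallyEq (fn_congr h1)⟩

omit [DecidableEq ι] in
theorem at_ch {k : WithTop ℕ∞} {u : Y → ℝ} (h : M.Ck k u) (x : Y) :
    ContDiffAt ℝ k (fn u (M.ch x)) (M.ch x x) := h _ (M.ch_mem x) _ ((M.ch x).map_source (M.mem x))

omit [DecidableEq ι] in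
theorem ck2 {u : Y → ℝ} (h : M.Ck ∞ u) : M.Ck 2 u := fun e he z hz =>
  (h e he z hz).of_le (by norm_cast)

theorem cont (ha : RepA' M) {u : Y → ℝ} (h : M.Ck ∞ u) : Continuous u :=
  ha.cont u fun e he z hz => (h e he z hz).of_le zero_le

theorem ddc_comp {u : Y → ℝ} {Φ : ℝ → ℝ} {x : Y} (hΦ : ContDiffAt ℝ ∞ Φ (u x))
    (hu : ContDiffAt ℝ ∞ (fn u (M.ch x)) (M.ch x x)) : M.ddc (fun y => Φ (u y)) x =
      ((deriv Φ (u x) : ℝ) : ℂ) • M.ddc u x + ((deriv (deriv Φ) (u x) : ℝ) : ℂ) •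
        vecMulVec (M.dfn u x) (star (M.dfn u x)) := by
  have := Pole.levi_chain (Φ := Φ) (u := fun z => u ((M.ch x).symm z)) (z := M.ch x x)
    (by rw [(M.ch x).left_inv (M.mem x)]; exact hΦ.of_le (by norm_cast))
    ((contDiffAt_ofReal.1 hu).of_le (by norm_cast))
  rw [(M.ch x).left_inv (M.mem x)] at this
  exact this

omit [DecidableEq ι] [Fintype ι] in
theorem psd_smul {A : Mat ι} (h : A.PosSemidef) {c : ℝ} (hc : 0 ≤ c) : ((c : ℂ) • A).PosSemidef :=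
  h.smul (zero_le_real.2 hc)

theorem trm_smul (H B : Mat ι) (c : ℝ) : trm H ((c : ℂ) • B) = c * trm H B := by
  rw [trm, trm, Matrix.smul_mul, trace_smul, smul_eq_mul, re_ofReal_mul]

theorem grL_smul (H : Mat ι) (a : V ι) (c : ℝ) :
    (grL H ((c : ℂ) • a) ((c : ℂ) • a)).re = c ^ 2 * (grL H a a).re := by
  rw [← re_ofReal_mul, grL, grL]
  simp only [Finset.mul_sum, Pi.smul_apply, smul_eq_mul, star_mul', RCLike.star_def, conj_ofReal]
  congr 1
  exact Finset.sum_congr rfl fun i _ => Finset.sum_congr rfl fun j _ => by push_cast; ring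

theorem cl_add (ha : RepA' M) (hb : RepB' M) (hg : M.IsK g) (s : ℝ) {u : Y → ℝ} (hu : M.Ck ∞ u) :
    M.ClF fun y => (s : ℂ) • g y + M.ddc u y :=
  ha.clF_add _ _ (ha.clF_smul s g ((ha.isK_iff g).1 hg).1) (hb.ddc_cl u hu)

theorem cont_rat (ha : RepA' M) (hg : M.IsK g) {B : Y → Mat ι} (hB : M.ClF B) :
    Continuous (rat B g) := cont ha (ha.ck_rat B g (fun e he => (hB e he).1) hg)

/-- the pointwise inequality. -/
theorem point (hm : MatS) (hM : FinMat) {G D : Mat ι} {d a : V ι} {s s1 b A t k k' l' l'' : ℝ}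
    (hG : G.PosDef) (hD : ((s1 : ℂ) • G + D).PosSemidef) (h1 : 0 ≤ s1) (hs : s1 < s) (ht : 0 < t)
    (k0 : 0 ≤ k) (k1 : k ≤ 1) (l0 : 0 ≤ l') (l1 : l' ≤ b) (l2 : k' ^ 2 ≤ l'')
    (hA : (grL G a a).re ≤ A) : ((s : ℂ) • G + D).PosDef ∧
    k * ((s : ℂ) • G + D).det.re ≤ ((s1 : ℂ) • G + D).det.re +
      s * ((k * trm ((s : ℂ) • G + D) G +
        2 * (grL ((s : ℂ) • G + D) (((k' / t ^ 2 : ℝ) : ℂ) • d) a).re) * ((s : ℂ) • G + D).det.re) +
      s / t * ((((s + b * s1 : ℝ) : ℂ) • G + (((1 + l' : ℝ) : ℂ) • D +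
        ((l'' / t ^ 2 : ℝ) : ℂ) • vecMulVec d (star d))).det.re +
        A * (((s + 1 : ℝ) : ℂ) • G + D).det.re) := by
  have e1 : (s : ℂ) • G + D = ((s1 : ℂ) • G + D) + ((s - s1 : ℝ) : ℂ) • G := by
    push_cast
    module
  have pP := psd_smul hG.posSemidef (sub_pos.2 hs).le
  have hH : ((s : ℂ) • G + D).PosDef := by
    rw [e1]
    exact PosDef.posSemidef_add hD (hG.smul (zero_lt_real.2 (sub_pos.2 hs)))
  refine ⟨hH, ?_⟩
  have a1 := hM.up ι _ _ hD pP (e1 ▸ hH)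
  rw [← e1, trm_smul] at a1
  have e2 : ((s + 1 : ℝ) : ℂ) • G + D = ((s : ℂ) • G + D) + G := by
    push_cast
    module
  have e3 : ((s + b * s1 : ℝ) : ℂ) • G + (((1 + l' : ℝ) : ℂ) • D +
      ((l'' / t ^ 2 : ℝ) : ℂ) • vecMulVec d (star d)) =
      (((s : ℂ) • G + D) + ((l'' / t ^ 2 : ℝ) : ℂ) • vecMulVec d (star d)) +
        ((((b - l') * s1 : ℝ) : ℂ) • G + (l' : ℂ) • ((s1 : ℂ) • G + D)) := by
    push_cast
    module
  rw [e2, e3]
  generalize (s : ℂ) • G + D = H at *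
  have q0 : 0 ≤ l'' / t ^ 2 := div_nonneg ((sq_nonneg _).trans l2) (sq_nonneg _)
  have pR := psd_smul (hM.rk ι H d).1 q0
  have a2 := (hM.low ι H _ hH pR).trans (hM.mono ι _ _ (hH.posSemidef.add pR)
    ((psd_smul hG.posSemidef (mul_nonneg (sub_nonneg.2 l1) h1)).add (psd_smul hD l0)))
  rw [trm_smul, (hM.rk ι H d).2] at a2
  have a3 := hM.low ι H G hH hG.posSemidef
  have a4 := hM.dom ι H G a hH hG
  have a5 := hM.cs ι H (((k' / t ^ 2 : ℝ) : ℂ) • d) a t hH ht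
  rw [grL_smul] at a5
  have a6 := hM.nonneg ι _ hD
  have a7 := (hm.det ι H hH).1
  have a8 := hm.trm_nonneg ι H G hH hG.posSemidef
  have a9 : 0 ≤ (grL H d d).re := (hM.rk ι H d).2 ▸ hm.trm_nonneg ι H _ hH (hM.rk ι H d).1
  have a10 : 0 ≤ (grL G a a).re := (hM.rk ι G a).2 ▸ hm.trm_nonneg ι G _ hG (hM.rk ι G a).1
  generalize (H + ((l'' / t ^ 2 : ℝ) : ℂ) • vecMulVec d (star d) +
    ((((b - l') * s1 : ℝ) : ℂ) • G + (l' : ℂ) • ((s1 : ℂ) • G + D))).det.re = X at *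
  generalize (grL H (((k' / t ^ 2 : ℝ) : ℂ) • d) a).re = p at *
  generalize (H + G).det.re = Z at *
  generalize ((s1 : ℂ) • G + D).det.re = B at *
  generalize H.det.re = h at *
  generalize trm H G = T at *
  generalize (grL H d d).re = n at *
  generalize (grL H a a).re = m at *
  have b1 : k * h ≤ B + s * (k * T * h) := by
    have := mul_le_mul_of_nonneg_left a1 k0
    have := mul_le_mul_of_nonneg_right k1 a6
    have := mul_nonneg h1 (mul_nonneg (mul_nonneg k0 a8) a7.le)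
    nlinarith
  have b2 : t * ((k' / t ^ 2) ^ 2 * n) * h ≤ X / t := by
    rw [le_div_iff₀ ht]
    refine le_trans (le_of_eq_of_le (b := k' ^ 2 / t ^ 2 * n * h) (by field_simp) ?_) a2
    gcongr
  have b3 : m / t * h ≤ A * Z / t := by
    rw [div_mul_eq_mul_div]
    refine div_le_div_of_nonneg_right ?_ ht.le
    calc m * h ≤ A * T * h :=
          mul_le_mul_of_nonneg_right (a4.trans (mul_le_mul_of_nonneg_right hA a8)) a7.le
      _ ≤ A * Z := by rw [mul_assoc]; exact mul_le_mul_of_nonneg_left a3 (a10.trans hA)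
  have b4 : -(2 * p) * h ≤ (X + A * Z) / t := by
    have := mul_le_mul_of_nonneg_right
      ((show -(2 * p) ≤ 2 * |p| by linarith [neg_abs_le p]).trans a5) a7.le
    rw [add_div]
    linarith
  have b5 := mul_le_mul_of_nonneg_left b4 (h1.trans hs.le)
  have : s / t * (X + A * Z) = s * ((X + A * Z) / t) := by ring
  linarith

variable [MeasurableSpace Y] {K : Set Y} {ν : Measure Y} {a : Y → V ι}

theorem inv2 (ha : RepA' M) (hb : RepB' M) (hg : M.IsK g) (hI : IntK M g K ν a) (s : ℝ)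
    {u v : Y → ℝ} (hu : M.Ck ∞ u) (hv : M.Ck ∞ v) (h : ∀ y ∉ K, u y = v y) :
    ∫ y, rat (fun x => (s : ℂ) • g x + M.ddc u x) g y ∂ν =
      ∫ y, rat (fun x => (s : ℂ) • g x + M.ddc v x) g y ∂ν := by
  have c : M.Ck ∞ fun y => u y + -1 * v y := (hb.ck_add ⊤ u _ hu
    (hb.ck_comp ⊤ v (fun t => -1 * t) hv fun _ => contDiffAt_const.mul contDiffAt_id)).1
  rw [← hI.inv _ _ (cl_add ha hb hg s hv) c fun y hy => by rw [h y hy]; ring]
  refine congrArg (fun B => ∫ y, rat B g y ∂ν) (funext fun x => ?_)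
  rw [hb.ddc_add u v (ck2 hu) (ck2 hv)]
  push_cast
  module

theorem upper (ha : RepA' M) (hb : RepB' M) (hm : MatS) (hM : FinMat) (hg : M.IsK g)
    (hI : IntK M g K ν a) {k l : ℝ → ℝ} {b : ℝ} (ck : ContDiff ℝ ∞ k) (cl : ContDiff ℝ ∞ l)
    (k1 : ∀ x ≥ (-1 : ℝ), k x = 0 ∧ l x = b * x) (k2 : ∀ x, 0 ≤ k x ∧ k x ≤ 1 ∧ 0 ≤ deriv l x ∧
      deriv l x ≤ b ∧ deriv k x ^ 2 ≤ deriv (deriv l) x) {u0 : Y → ℝ} (h0 : M.Ck ∞ u0) {s1 T : ℝ}
    (h1 : 0 ≤ s1) (hT : ∀ y ∉ K, -T ≤ u0 y) : ∃ C, ∀ s > s1, ∃ r > (0 : ℝ), T ≤ r ∧ ∀ u,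
      M.Ck ∞ u → (∀ y, ((s1 : ℂ) • g y + M.ddc u y).PosSemidef) → (∀ y ∉ K, u y = u0 y) →
      ∫ y, k (u y / r) * rat (fun x => (s : ℂ) • g x + M.ddc u x) g y ∂ν ≤ C := by
  refine ⟨∫ y, rat (fun x => (s1 : ℂ) • g x + M.ddc u0 x) g y ∂ν + 1, fun s hs => ?_⟩
  obtain ⟨A, hA⟩ := hI.bd
  have c0 : M.Ck ∞ fun y => (1 + b) * u0 y :=
    hb.ck_comp ⊤ u0 (fun t => (1 + b) * t) h0 fun _ => contDiffAt_const.mul contDiffAt_id
  set C1 := ∫ y, rat (fun x => ((s + b * s1 : ℝ) : ℂ) • g x +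
    M.ddc (fun y => (1 + b) * u0 y) x) g y ∂ν with hC1
  set C2 := ∫ y, rat (fun x => ((s + 1 : ℝ) : ℂ) • g x + M.ddc u0 x) g y ∂ν with hC2
  obtain ⟨t, t1, t2, t3⟩ : ∃ t : ℝ, 1 ≤ t ∧ T ≤ t ∧ s * (C1 + A * C2) ≤ t :=
    ⟨max 1 (max T _), le_max_left _ _, le_max_of_le_right (le_max_left _ _),
      le_max_of_le_right (le_max_right _ _)⟩
  have t0 : 0 < t := one_pos.trans_le t1
  have r0 : 0 < t ^ 2 := pow_pos t0 2
  have r1 : T ≤ t ^ 2 := by nlinarith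
  refine ⟨t ^ 2, r0, r1, fun u hu hp he => ?_⟩
  have off : ∀ y ∉ K, -1 ≤ u y / t ^ 2 := fun y hy => by
    rw [le_div_iff₀ r0, he y hy]
    linarith [hT y hy]
  have d1 : ∀ {f : ℝ → ℝ}, ContDiff ℝ ∞ f → ∀ x,
      HasDerivAt (fun x => f (x / t ^ 2)) (deriv f (x / t ^ 2) / t ^ 2) x := fun hf x => by
    have := (hf.differentiable (by simp) (x / t ^ 2)).hasDerivAt.comp x
      ((hasDerivAt_id' x).div_const (t ^ 2))
    rwa [mul_one_div] at this
  have c1 : ContDiff ℝ ∞ fun x => k (x / t ^ 2) := ck.comp (contDiff_id.div_const _)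
  have c2 : ContDiff ℝ ∞ fun x => x + t ^ 2 * l (x / t ^ 2) :=
    contDiff_id.add (contDiff_const.mul (cl.comp (contDiff_id.div_const _)))
  have d2 : deriv (fun x => x + t ^ 2 * l (x / t ^ 2)) = fun x => 1 + deriv l (x / t ^ 2) :=
    funext fun x => by
      rw [((hasDerivAt_id' x).fun_add ((d1 cl x).const_mul (t ^ 2))).deriv,
        mul_div_cancel₀ _ r0.ne']
  have d3 : ∀ x, deriv (fun x => 1 + deriv l (x / t ^ 2)) x =
      deriv (deriv l) (x / t ^ 2) / t ^ 2 := fun x =>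
    ((d1 (contDiff_infty_iff_deriv.1 cl).2 x).const_add 1).deriv
  have cκ := hb.ck_comp ⊤ u _ hu fun _ => c1.contDiffAt
  have cΛ := hb.ck_comp ⊤ u _ hu fun _ => c2.contDiffAt
  have pt := fun y (hy : (grL (g y) (a y) (a y)).re ≤ A) => point hm hM (d := M.dfn u y)
    (Green.pd ha hg y) (hp y) h1 hs t0 (k2 (u y / t ^ 2)).1 (k2 _).2.1 (k2 (u y / t ^ 2)).2.2.1
    (k2 _).2.2.2.1 (k2 (u y / t ^ 2)).2.2.2.2 hy
  have hh : M.IsK fun x => (s : ℂ) • g x + M.ddc u x := (ha.isK_iff _).2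
    ⟨cl_add ha hb hg s hu, fun y => (point hm hM (d := 0) (a := 0) (Green.pd ha hg y) (hp y) h1 hs
      t0 le_rfl zero_le_one le_rfl le_rfl (le_refl ((0 : ℝ) ^ 2)) le_rfl).1⟩
  have i := fun (s : ℝ) {u : Y → ℝ} (hu : M.Ck ∞ u) => cont_rat ha hg (cl_add ha hb hg s hu)
  have i1 := hI.intg _ (i s1 hu)
  have i2 := (hI.intg _ ((((cont ha cκ).mul (cont ha (ha.ck_trm _ g hh
    fun e he => (hg e he).1.1))).add (continuous_const (y := (2 : ℝ)).mul
      (hI.cont _ _ hh cκ))).mul (i s hu))).const_mul s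
  have i3 := hI.intg _ (i (s + b * s1) cΛ)
  have i4 := (hI.intg _ (i (s + 1) hu)).const_mul A
  refine (integral_mono_ae (hI.intg _ ((cont ha cκ).mul (i s hu)))
    ((i1.add i2).add ((i3.add i4).const_mul (s / t))) (hI.ae.mono fun y hy => ?_)).trans ?_
  · have := div_le_div_of_nonneg_right (pt y (hA y hy)).2
      (Green.det_pos (Green.pd ha hg y)).le
    simp only [Pi.add_apply, Pi.mul_apply, rat]
    rw [ddc_comp c2.contDiffAt (at_ch hu y), d2, d3, hb.dfn_comp u _ y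
      (fun e he z hz => (hu e he z hz).of_le (by norm_cast)) (d1 ck _).differentiableAt,
      (d1 ck _).deriv]
    refine (le_of_eq ?_).trans (this.trans (le_of_eq ?_)) <;> ring
  · have st := hI.st _ _ hh cκ fun y hy => (k1 _ (off y hy)).1
    rw [integral_add' (i1.add i2) ((i3.add i4).const_mul (s / t)), integral_add' i1 i2,
      integral_const_mul, integral_const_mul, integral_add' i3 i4, integral_const_mul]
    simp only [Pi.add_apply, Pi.mul_apply]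
    rw [st, inv2 ha hb hg hI s1 hu h0 he, inv2 ha hb hg hI (s + 1) hu h0 he,
      inv2 ha hb hg hI (s + b * s1) cΛ c0 fun y hy => by
        rw [(k1 _ (off y hy)).2, he y hy]
        field_simp, ← hC1, ← hC2, mul_zero, add_zero, div_mul_eq_mul_div]
    exact add_le_add le_rfl ((div_le_one t0).2 t3)

end FinA

end Pool.Agent.Lib.MP_813db1_ag.AN
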