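import Pool.Agent.Lib.MP_813db1_ag.AN.FinStmt
import Pool.Agent.Lib.MP_813db1_ag.HS.Vol
import Pool.Agent.Lib.MP_813db1_ag.HS.Div
import Pool.Agent.Lib.MP_813db1_ag.HS.Green
import Pool.Agent.Lib.MP_813db1_ag.HS.Cov

/-! The volume measure of a compact set and the divergence theorem for fields that vanish off it. -/

namespace Pool.Agent.Lib.MP_813db1_ag.AN

open Pool.Agent.Lib.MP_813db1_ag.HS
open MeasureTheory Complex Matrix Filter Topology Set Metric
open scoped ContDiff ComplexOrder ENNReal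

namespace IntA

variable {ι Y : Type} [Fintype ι] [DecidableEq ι] [TopologicalSpace Y] [T2Space Y]
  [MeasurableSpace Y] [BorelSpace Y] {M : Atl ι Y} {g : Y → Mat ι} {K : Set Y} {ν : Measure Y}

/-- the volume measure of `K`. -/
structure VolK (M : Atl ι Y) (g : Y → Mat ι) (K : Set Y) (ν : Measure Y) : Prop where
  intg : ∀ F : Y → ℂ, Continuous F → Integrable F ν
  intgR : ∀ F : Y → ℝ, Continuous F → Integrable F ν
  ae : ∀ᵐ y ∂ν, y ∈ K
  chart : ∀ e ∈ M.A, ∀ S : Set (V ι), MeasurableSet S → S ⊆ e.target → (∀ z ∈ S, e.symm z ∈ K) →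
    ∀ F : Y → ℂ, ∫ y in e.source ∩ e ⁻¹' S, F y ∂ν =
      ∫ z in S, ((M.repF g e z).det.re : ℂ) * F (e.symm z)
  chartR : ∀ e ∈ M.A, ∀ S : Set (V ι), MeasurableSet S → S ⊆ e.target → (∀ z ∈ S, e.symm z ∈ K) →
    ∀ F : Y → ℝ, ∫ y in e.source ∩ e ⁻¹' S, F y ∂ν = ∫ z in S, (M.repF g e z).det.re * F (e.symm z)

omit [T2Space Y] in
theorem exists_mu (ha : RepA) (hm : MatS) (M : Atl ι Y) (g : Y → Mat ι) (s : Finset Y) :
    ∃ μ : Measure Y, ∀ e ∈ M.A, μ.restrict e.source =
      (Vol.nu e fun z => ENNReal.ofReal (M.repF g e z).det.re).restrict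
        (⋃ x ∈ s, (M.ch x).source) := by
  classical
  induction s using Finset.induction_on with
  | empty => exact ⟨0, fun e _ => by simp⟩
  | insert a s _ ih =>
    obtain ⟨μ, h⟩ := ih
    have mU : MeasurableSet (⋃ x ∈ s, (M.ch x).source) :=
      (isOpen_biUnion fun x _ => (M.ch x).open_source).measurableSet
    refine ⟨μ + (Vol.nu (M.ch a) fun z =>
      ENNReal.ofReal (M.repF g (M.ch a) z).det.re).restrict (⋃ x ∈ s, (M.ch x).source)ᶜ,
      fun e he => ?_⟩
    rw [Measure.restrict_add, h e he, Measure.restrict_comm e.open_source.measurableSet,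
      Vol.compat ha hm M g he (M.ch_mem a), Measure.restrict_restrict mU.compl,
      ← Measure.restrict_union (disjoint_compl_right.mono_right inter_subset_left)
        (mU.compl.inter (M.ch a).open_source.measurableSet), Finset.set_biUnion_insert,
      union_inter_distrib_left, union_compl_self, univ_inter, union_comm]

theorem volK (ha : RepA) (hm : MatS) (hg : M.IsK g) (hK : IsCompact K) : ∃ ν, VolK M g K ν := by
  obtain ⟨t, ht⟩ := hK.elim_finite_subcover (fun x => (M.ch x).source)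
    (fun x => (M.ch x).open_source) fun x _ => mem_iUnion.2 ⟨x, M.mem x⟩
  obtain ⟨μ, hμ⟩ := exists_mu ha hm M g t
  have cd : ∀ e ∈ M.A, ContinuousOn (fun z => (M.repF g e z).det.re) e.target :=
    fun e he z hz => (continuous_re.continuousAt.comp
      ((hg e he).1.1.det hz).continuousAt).continuousWithinAt
  have pd : ∀ e ∈ M.A, ∀ z ∈ e.target, 0 < (M.repF g e z).det.re := fun e he z hz =>
    (hm.det ι _ ((hg e he).2 z hz)).1
  have rr : ∀ e ∈ M.A, ∀ S : Set (V ι), MeasurableSet S → (∀ z ∈ S, e.symm z ∈ K) →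
      (μ.restrict K).restrict (e.source ∩ e ⁻¹' S) =
      (Vol.nu e fun z => ENNReal.ofReal (M.repF g e z).det.re).restrict (e.source ∩ e ⁻¹' S) :=
    fun e he S _ h => by
      have s1 : e.source ∩ e ⁻¹' S ⊆ K := fun y hy => by
        have := h _ hy.2
        rwa [e.left_inv hy.1] at this
      rw [Measure.restrict_restrict_of_subset s1,
        ← Measure.restrict_restrict_of_subset (μ := μ) inter_subset_left, hμ e he,
        Measure.restrict_restrict_of_subset (s1.trans ht)]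
  have : IsLocallyFiniteMeasure μ := ⟨fun x => by
    obtain ⟨L, k1, k2, k3⟩ := local_compact_nhds
      ((M.ch x).open_target.mem_nhds ((M.ch x).map_source (M.mem x)))
    refine ⟨(M.ch x).source ∩ M.ch x ⁻¹' L, inter_mem ((M.ch x).open_source.mem_nhds (M.mem x))
      ((M.ch x).continuousAt (M.mem x) k1), ?_⟩
    rw [← Measure.restrict_eq_self μ inter_subset_left, hμ _ (M.ch_mem x)]
    refine (Measure.restrict_apply_le _ _).trans_lt ?_
    rw [← setLIntegral_one, Vol.nu_lint _ (cd _ (M.ch_mem x)) k3.measurableSet k2]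
    simp only [mul_one]
    exact (((cd _ (M.ch_mem x)).mono k2).integrableOn_compact k3).lintegral_lt_top⟩
  exact ⟨μ.restrict K, fun F hF => hF.continuousOn.integrableOn_compact hK,
    fun F hF => hF.continuousOn.integrableOn_compact hK, ae_restrict_mem hK.measurableSet,
    fun e he S hS h h' F => by rw [rr e he S hS h', Vol.nu_int e (cd e he) (pd e he) hS h]; rfl,
    fun e he S hS h h' F => by rw [rr e he S hS h', Vol.nu_int e (cd e he) (pd e he) hS h]; rfl⟩

/-- vector densities. -/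
def Fld (M : Atl ι Y) (W : Ch ι Y → V ι → V ι) : Prop :=
  (∀ e ∈ M.A, ∀ z ∈ e.target, ContDiffAt ℝ 1 (W e) z) ∧
    ∀ e ∈ M.A, ∀ e' ∈ M.A, ∀ x ∈ e.source, x ∈ e'.source →
      tj e e' x *ᵥ W e (e x) = ((‖(tj e e' x).det‖ ^ 2 : ℝ) : ℂ) • W e' (e' x)

/-- the divergence. -/
def IsDv (M : Atl ι Y) (g : Y → Mat ι) (W : Ch ι Y → V ι → V ι) (d : Y → ℂ) : Prop :=
  Continuous d ∧ ∀ e ∈ M.A, ∀ x ∈ e.source,
    Div.dv (W e) (e x) = ((M.repF g e (e x)).det.re : ℂ) * d x

omit [T2Space Y] [MeasurableSpace Y] [BorelSpace Y] in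
theorem Fld.ex (ha : RepA' M) (hm : MatS) (hg : M.IsK g) {W : Ch ι Y → V ι → V ι} (h : Fld M W) :
    ∃ d, IsDv M g W d := by
  obtain ⟨d, d1, d2⟩ := Div.exists_d (O := fun e => e.target) ha hm hg subset_rfl
    (fun e _ => ⟨e.open_target, subset_rfl⟩)
    (fun x => ⟨_, M.ch_mem x, M.mem x, (M.ch x).map_source (M.mem x)⟩) W h.1
    fun e he e' he' x hx hx' _ _ => h.2 e he e' he' x hx hx'
  exact ⟨d, d1, fun e he x hx => d2 e he x hx (e.map_source hx)⟩

omit [T2Space Y] [MeasurableSpace Y] [BorelSpace Y] [DecidableEq ι] in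
theorem cd_fn {b : Y → ℝ} (hb : M.Ck ∞ b) {e : Ch ι Y} (he : e ∈ M.A) {z : V ι}
    (hz : z ∈ e.target) : ContDiffAt ℝ 1 (fn b e) z := (hb e he z hz).of_le (by norm_cast)

omit [T2Space Y] [MeasurableSpace Y] [BorelSpace Y] in
theorem Fld.smul {W : Ch ι Y → V ι → V ι} (h : Fld M W) {b : Y → ℝ} (hb : M.Ck ∞ b) :
    Fld M fun e w => fn b e w • W e w :=
  ⟨fun e he z hz => (cd_fn hb he hz).smul (h.1 e he z hz), fun e he e' he' x hx hx' => by
    rw [mulVec_smul, h.2 e he e' he' x hx hx', smul_comm]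
    simp only [fn, e.left_inv hx, e'.left_inv hx']⟩

omit [T2Space Y] [MeasurableSpace Y] [BorelSpace Y] in
theorem IsDv.zero (hm : MatS) (hg : M.IsK g) {W : Ch ι Y → V ι → V ι} {d : Y → ℂ}
    (h : IsDv M g W d) {x : Y} {L : Set Y} (hL : IsClosed L) (hx : x ∉ L)
    (h0 : ∀ y ∈ (M.ch x).source, y ∉ L → W (M.ch x) (M.ch x y) = 0) : d x = 0 := by
  have hz := (M.ch x).map_source (M.mem x)
  refine (mul_eq_zero.1 ((h.2 _ (M.ch_mem x) x (M.mem x)).symm.trans
    ((Div.dv_congr ?_).trans (Div.dv_zero _)))).resolve_left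
    (ofReal_ne_zero.2 (hm.det ι _ ((hg _ (M.ch_mem x)).2 _ hz)).1.ne')
  have n1 : ∀ᶠ w in 𝓝 (M.ch x x), (M.ch x).symm w ∈ Lᶜ :=
    ((M.ch x).continuousAt_symm hz).eventually_mem
      (hL.isOpen_compl.mem_nhds (by rw [(M.ch x).left_inv (M.mem x)]; exact hx))
  filter_upwards [n1, (M.ch x).open_target.mem_nhds hz] with w w1 w2
  have := h0 _ ((M.ch x).map_target w2) w1
  rwa [(M.ch x).right_inv w2] at this

omit [BorelSpace Y] in
theorem one_chart (hm : MatS) (hg : M.IsK g) (hv : VolK M g K ν) {W : Ch ι Y → V ι → V ι}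
    {d : Y → ℂ} (hW : Fld M W) (h : IsDv M g W d) {L : Set Y} (hL : IsCompact L) (hK : L ⊆ K)
    {c : Ch ι Y} (hc : c ∈ M.A) (hs : L ⊆ c.source)
    (h0 : ∀ e ∈ M.A, ∀ y ∈ e.source, y ∉ L → W e (e y) = 0) : ∫ x, d x ∂ν = 0 := by
  have k1 : IsCompact (c '' L) := hL.image_of_continuousOn (c.continuousOn.mono hs)
  have k2 : c '' L ⊆ c.target := by
    rintro _ ⟨x, k, rfl⟩
    exact c.map_source (hs k)
  have z0 : ∀ x ∉ c.source ∩ c ⁻¹' (c '' L), d x = 0 := fun x hx =>
    h.zero hm hg hL.isClosed (fun k => hx ⟨hs k, x, k, rfl⟩) (h0 _ (M.ch_mem x))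
  have w0 : ∀ z ∈ c.target, z ∉ c '' L → W c z = 0 := fun z hz hk => by
    have := h0 c hc _ (c.map_target hz) fun k => hk ⟨_, k, c.right_inv hz⟩
    rwa [c.right_inv hz] at this
  rw [← setIntegral_eq_integral_of_forall_compl_eq_zero z0,
    hv.chart c hc _ k1.measurableSet k2 (by
      rintro _ ⟨x, k, rfl⟩
      rw [c.left_inv (hs k)]
      exact hK k),
    setIntegral_congr_fun (g := Div.dv (W c)) k1.measurableSet fun z hz => by
      have := h.2 c hc _ (c.map_target (k2 hz))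
      rw [c.right_inv (k2 hz)] at this
      exact this.symm,
    ← Div.int_dv c.open_target k1 k2 (hW.1 c hc) w0]
  refine (setIntegral_eq_of_subset_of_forall_sdiff_eq_zero c.open_target.measurableSet k2
    fun z hz => (Div.dv_congr ?_).trans (Div.dv_zero z)).symm
  filter_upwards [c.open_target.mem_nhds hz.1, k1.isClosed.isOpen_compl.mem_nhds hz.2] with w w1 w2
    using w0 w w1 w2

omit [BorelSpace Y] in
theorem div_fld (ha : RepA' M) (hb : RepB' M) (hm : MatS) (hg : M.IsK g) (hK : IsCompact K)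
    (hv : VolK M g K ν) {W : Ch ι Y → V ι → V ι} {d : Y → ℂ} (hW : Fld M W) (h : IsDv M g W d)
    (h0 : ∀ e ∈ M.A, ∀ y ∈ e.source, y ∉ K → W e (e y) = 0) : ∫ x, d x ∂ν = 0 := by
  classical
  have h1 : ∀ x, ∃ (b : Y → ℝ) (L : Set Y), M.Ck ∞ b ∧ IsClosed L ∧ L ⊆ (M.ch x).source ∧
      (∀ y ∉ L, b y = 0) ∧ ∀ᶠ y in 𝓝 x, b y = 1 := fun x => by
    obtain ⟨χ, L, c1, -, c3, c4, c5, c6⟩ := CovJ.bump ha (M.ch x).open_source (M.mem x)
    refine ⟨fun y => Real.smoothTransition (2 * χ y / χ x), L, hb.ck_comp ⊤ χ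
      (fun t => Real.smoothTransition (2 * t / χ x)) c1 fun y =>
        (Real.smoothTransition.contDiff.comp
          ((contDiff_const.mul contDiff_id).div_const _)).contDiffAt, c4, c5, fun y hy => ?_, ?_⟩
    · simp only [c6 y hy, mul_zero, zero_div, Real.smoothTransition.zero]
    · have := (ha.cont χ fun e he z hz => (c1 e he z hz).of_le zero_le).continuousAt (x := x)
      filter_upwards [this.eventually_const_lt (half_lt_self c3)] with y hy
      exact Real.smoothTransition.one_of_one_le ((one_le_div c3).2 (by linarith))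
  choose b L b1 b2 b3 b4 b5 using h1
  obtain ⟨t, -, ht⟩ := hK.elim_nhds_subcover (fun x => {y | b x y = 1}) fun x _ => b5 x
  have key : ∀ s : Finset Y, ∀ (W : Ch ι Y → V ι → V ι) (d : Y → ℂ), Fld M W → IsDv M g W d →
      (∀ e ∈ M.A, ∀ y ∈ e.source, (y ∉ K ∨ ∀ i ∈ s, b i y ≠ 1) → W e (e y) = 0) →
      ∫ x, d x ∂ν = 0 := by
    intro s
    induction s using Finset.induction_on with
    | empty =>
      intro W d hW h h0
      rw [show d = fun _ => 0 from funext fun x => h.zero hm hg isClosed_empty (notMem_empty x)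
        fun y hy _ => h0 _ (M.ch_mem x) y hy (Or.inr (by simp)), integral_zero]
    | insert i s _ ih =>
      intro W d hW h h0
      have c2 : M.Ck ∞ fun y => 1 - b i y :=
        hb.ck_comp ⊤ (b i) (fun t => 1 - t) (b1 i) fun _ => contDiffAt_const.sub contDiffAt_id
      obtain ⟨d1, e1⟩ := (hW.smul (b1 i)).ex ha hm hg
      obtain ⟨d2, e2⟩ := (hW.smul c2).ex ha hm hg
      have sum : d = fun x => d1 x + d2 x := funext fun x => by
        have he := M.ch_mem x
        have hz := (M.ch x).map_source (M.mem x)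
        refine mul_left_cancel₀ (ofReal_ne_zero.2 (hm.det ι _ ((hg _ he).2 _ hz)).1.ne') ?_
        rw [← h.2 _ he x (M.mem x), mul_add, ← e1.2 _ he x (M.mem x), ← e2.2 _ he x (M.mem x)]
        unfold Div.dv
        rw [← Finset.sum_add_distrib]
        refine Finset.sum_congr rfl fun j _ => ?_
        rw [← dz_add ((contDiffAt_pi.1 ((hW.smul (b1 i)).1 _ he _ hz) j).differentiableAt
          one_ne_zero) ((contDiffAt_pi.1 ((hW.smul c2).1 _ he _ hz) j).differentiableAt one_ne_zero)]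
        congr 1
        funext w
        simp only [Pi.smul_apply, smul_eq_mul, fn, ofReal_sub, ofReal_one]
        ring
      rw [sum, integral_add (hv.intg _ e1.1) (hv.intg _ e2.1),
        one_chart hm hg hv (hW.smul (b1 i)) e1 (hK.inter_right (b2 i)) inter_subset_left
          (M.ch_mem i) (inter_subset_right.trans (b3 i)) fun e he y hy hn => ?_,
        ih _ d2 (hW.smul c2) e2 fun e he y hy hn => ?_, add_zero]
      · by_cases k : b i y = 1
        · simp only [fn, e.left_inv hy, k, sub_self, ofReal_zero, zero_smul]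
        · rw [h0 e he y hy (hn.imp_right fun k' j hj => by
            rcases Finset.mem_insert.1 hj with rfl | hj
            exacts [k, k' j hj]), smul_zero]
      · by_cases k : y ∈ K
        · simp only [fn, e.left_inv hy, b4 i y fun k' => hn ⟨k, k'⟩, ofReal_zero, zero_smul]
        · rw [h0 e he y hy (Or.inl k), smul_zero]
  refine key t W d hW h fun e he y hy hn => h0 e he y hy fun k => ?_
  obtain ⟨i, hi, k'⟩ := mem_iUnion₂.1 (ht k)
  exact hn.elim (fun c => c k) fun c => c i hi k'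

omit [BorelSpace Y] in
theorem div0 (ha : RepA' M) (hb : RepB' M) (hm : MatS) (hg : M.IsK g) (hK : IsCompact K)
    (hv : VolK M g K ν) (W : Ch ι Y → V ι → V ι) (w : Y → V ι) (F : Y → ℂ)
    (h1 : ∀ e ∈ M.A, ∀ z ∈ e.target, ∀ i, ContDiffAt ℝ 1 (fun y => W e y i) z)
    (h2 : ∀ e ∈ M.A, ∀ x ∈ e.source, tj e (M.ch x) x *ᵥ W e (e x) =
      ((‖(tj e (M.ch x) x).det‖ ^ 2 : ℝ) : ℂ) • w x)
    (h3 : ∀ x, ∑ i, dz (fun y => W (M.ch x) y i) i (M.ch x x) = ((g x).det.re : ℂ) * F x)
    (h4 : ∀ x ∉ K, w x = 0) : Continuous F ∧ ∫ x, F x ∂ν = 0 := by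
  have inj : ∀ e ∈ M.A, ∀ x ∈ e.source, Function.Injective (tj e (M.ch x) x).mulVec :=
    fun e he x hx => mulVec_injective_iff_isUnit.2
      ((isUnit_iff_isUnit_det _).2 (Green.tj_ne ha he hx).isUnit)
  have hW : Fld M W := ⟨fun e he z hz => contDiffAt_pi.2 (h1 e he z hz),
    fun e he e' he' x hx hx' => by
      have e1 := h2 e he x hx
      have e2 := h2 e' he' x hx'
      rw [ha.tj_mul e he e' he' _ (M.ch_mem x) x hx hx' (M.mem x), ← mulVec_mulVec, det_mul,
        norm_mul, mul_pow, ofReal_mul, mul_comm, mul_smul, ← e2, ← mulVec_smul] at e1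
      exact inj e' he' x hx' e1⟩
  obtain ⟨d, hd⟩ := hW.ex ha hm hg
  have e : F = d := funext fun x => by
    have e1 := hd.2 _ (M.ch_mem x) x (M.mem x)
    rw [Div.dv, h3, ha.repF_self] at e1
    exact mul_left_cancel₀ (ofReal_ne_zero.2 (Green.det_pos (Green.pd ha hg x)).ne') e1
  rw [e]
  exact ⟨hd.1, div_fld ha hb hm hg hK hv hW hd fun e he y hy k => inj e he y hy (by
    rw [h2 e he y hy, h4 y k, smul_zero, mulVec_zero])⟩

end IntA

end Pool.Agent.Lib.MP_813db1_ag.AN
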