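import Pool.Agent.Lib.MP_813db1_ag.AN.Top
import Pool.Agent.Lib.MP_813db1_ag.AN.Stmt
import Pool.Agent.Lib.MP_813db1_ag.AS.EssOf
import Pool.Agent.Lib.MP_813db1_ag.AS.All2

/-! The theorem without a hypothesis on the canonical bundle. -/

namespace Pool.Agent.Lib.MP_813db1_ag.AN

open Pool.Agent.Lib.MP_813db1_ag.HS Pool.Agent.Lib.MP_813db1_ag.AS Pf
open MeasureTheory Filter Topology Set Function Matrix
open scoped ContDiff ComplexOrder Manifold

variable {ι X Y G : Type} [Fintype ι] [DecidableEq ι] [TopologicalSpace X]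
  [ChartedSpace (ι → ℂ) X] [TopologicalSpace Y] {K : Kahler ι X} {p : Y → X}

theorem KEss.exact [SMul G Y] (h : KEss G K p) : Exact K p := by
  obtain ⟨α, u, h1, h2⟩ := h
  exact ⟨α, h1, fun e he z hz s s1 s2 => (h2 e he z hz s s1 s2).1⟩

theorem KEss.ess [T2Space X] [CompactSpace X] [Nonempty X] [MeasurableSpace X] [BorelSpace X]
    [IsManifold 𝓘(ℂ, ι → ℂ) ω X] [SMul G Y] (h : KEss G K p) : Ess G K p := by
  obtain ⟨α, u, h1, h2⟩ := h
  obtain ⟨M, g, hA, -, hg, hr⟩ := maxAtl AY.repA' ι X K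
  obtain ⟨⟨μ, hμ⟩, hV⟩ := AY.volS' ι X M g hg
  refine ⟨fun e z a b => (ipV (K.g e z) a b).im, α, u, μ, h1, h2, fun e he => ?_, ?_⟩
  · rw [hμ e (hA he)]
    congr 1
    refine withDensity_congr_ae ?_
    filter_upwards [ae_restrict_mem e.open_target.measurableSet] with z hz
    rw [hr e he z hz]
  · have := (hV μ hμ).fin
    have := (hV μ hμ).pos
    have e : ∀ x, topF (fun a b => (ipV (K.g (chartAt (ι → ℂ) x) (chartAt (ι → ℂ) x x)) a b).im) /
        (K.g (chartAt (ι → ℂ) x) (chartAt (ι → ℂ) x x)).det.re =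
        2 ^ Fintype.card ι * ((-1 / 2) ^ Fintype.card ι * c0 ι) := fun x => by
      have hp := K.pos _ (chart_mem_atlas _ x) _ (mem_chart_target _ x)
      obtain ⟨B, hB⟩ := half_bil hp.1
      rw [F3.top_eq hB, mul_div_assoc, F3.P_form hp hB]
    simp only [e, integral_const, smul_eq_mul]
    exact mul_ne_zero (ENNReal.toReal_pos (isOpen_univ.measure_pos μ univ_nonempty).ne'
      (measure_ne_top μ _)).ne' (mul_ne_zero (pow_ne_zero _ (by norm_num))
        (mul_ne_zero (pow_ne_zero _ (by norm_num)) c0_pos.ne'))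

theorem kmain (hn : NefS) [Nonempty ι] [T2Space X] [CompactSpace X] [ConnectedSpace X]
    [IsManifold 𝓘(ℂ, ι → ℂ) ω X] [ConnectedSpace Y] [Group G] [MulAction G Y]
    (hp : IsQuotientCoveringMap p G) (h : KEss G K p) (hG : NoAb G ∨ FinRep G) :
    ∃ c : ℝ, 0 < c ∧ ∀ᶠ a : ℕ in atTop, ∃ (Q : ℕ)
      (s : Fin Q → OpenPartialHomeomorph X (ι → ℂ) → (ι → ℂ) → ℂ),
      c * (a : ℝ) ^ Fintype.card ι ≤ Q ∧ (∀ j, IsPluri a (s j)) ∧ Indep s := by
  borelize X
  exact mainAll2 ι X Y G K p hp (hn ι X Y G K p hp h.exact) h.ess hG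

end Pool.Agent.Lib.MP_813db1_ag.AN
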