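import Pool.Agent.Lib.MP_813db1_ag.HS.Stmt2

/-! Integration over a relatively compact open set of a Kaehler manifold: statements. -/

namespace Pool.Agent.Lib.MP_813db1_ag.AN

open MeasureTheory Complex Matrix Filter Topology Set Metric HS
open scoped ContDiff ComplexOrder

variable {ι Y : Type} [Fintype ι] [DecidableEq ι] [TopologicalSpace Y]

/-- a global form `a` of type `(0,1)`, given on the parts `O k` of charts `e k` covering `Y`,
with `g = d a + conjugate`. -/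
structure Prm (M : Atl ι Y) (g : Y → Mat ι) {κ : Type} (e : κ → Ch ι Y) (O : κ → Set (V ι))
    (a : κ → V ι → V ι) : Prop where
  mem : ∀ k, e k ∈ M.A
  opn : ∀ k, IsOpen (O k) ∧ O k ⊆ (e k).target
  cover : ∀ x, ∃ k, x ∈ (e k).source ∧ e k x ∈ O k
  smooth : ∀ k, ∀ z ∈ O k, ContDiffAt ℝ 1 (a k) z
  tr : ∀ k l, ∀ x ∈ (e k).source, x ∈ (e l).source → e k x ∈ O k → e l x ∈ O l →
    a k (e k x) = a l (e l x) ᵥ* (tj (e k) (e l) x).map star
  eq : ∀ k, ∀ z ∈ O k, ∀ i j, M.repF g (e k) z i j =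
    dz (fun w => a k w j) i z + star (dz (fun w => a k w i) j z)

/-- `μ` is the volume measure of `g` on `W`; `C` bounds the primitive of `g` on `W`. -/
structure LV [MeasurableSpace Y] (M : Atl ι Y) (g : Y → Mat ι) (W : Set Y) (μ : Measure Y)
    (C : ℝ) : Prop where
  pos : 0 ≤ C
  intg : ∀ f : Y → ℝ, Continuous f → Integrable f μ
  ae : ∀ᵐ x ∂μ, x ∈ W
  meas : ∀ e : Ch ι Y, ∀ S : Set (V ι), MeasurableSet S → MeasurableSet (e.source ∩ e ⁻¹' S)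
  chart : ∀ e ∈ M.A, ∀ S : Set (V ι), MeasurableSet S → S ⊆ e.target → (∀ z ∈ S, e.symm z ∈ W) →
    ∀ f : Y → ℝ, ∫ x in e.source ∩ e ⁻¹' S, f x ∂μ =
      ∫ z in S, (M.repF g e z).det.re * f (e.symm z)
  inv : ∀ (B : Y → Mat ι) (u u' : Y → ℝ), M.ClF B → M.Ck ∞ u → M.Ck ∞ u' →
    (∀ x ∈ frontier W, u =ᶠ[𝓝 x] u') →
    ∫ x, rat (fun y => B y + M.ddc u y) g x ∂μ = ∫ x, rat (fun y => B y + M.ddc u' y) g x ∂μ
  green : ∀ (h : Y → Mat ι) (v : Y → ℝ) (t : ℝ), M.IsK h → M.Ck ∞ v →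
    (∀ x ∈ frontier W, v =ᶠ[𝓝 x] fun _ => 0) → 0 < t →
    ∫ x, v x * trm (h x) (g x) * rat h g x ∂μ ≤ t * ∫ x, M.grad h v v x * rat h g x ∂μ +
      C / t * ∫ x, rat (fun y => h y + g y) g x ∂μ

/-- the measure exists. -/
def LVolS : Prop := ∀ (ι Y κ : Type) [Fintype ι] [DecidableEq ι] [TopologicalSpace Y] [T2Space Y]
  [MeasurableSpace Y] [BorelSpace Y] (M : Atl ι Y) (g : Y → Mat ι) (e : κ → Ch ι Y)
  (O : κ → Set (V ι)) (a : κ → V ι → V ι) (W : Set Y), M.IsK g → Prm M g e O a → IsOpen W →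
  IsCompact (closure W) → ∃ μ C, LV M g W μ C

/-- step 4 on a manifold. -/
def FinS : Prop := ∀ (ι Y κ : Type) [Fintype ι] [DecidableEq ι] [TopologicalSpace Y] [T2Space Y]
  (M : Atl ι Y) (g : Y → Mat ι) (e : κ → Ch ι Y) (O : κ → Set (V ι)) (a : κ → V ι → V ι)
  (S : Y → ℝ) (s : ℝ) (W : Set Y), M.IsK g → Prm M g e O a → M.Ck ∞ S → (∀ x, 0 ≤ S x) →
  (∀ x, 0 < S x → ((s : ℂ) • g x + M.ddc (fun y => Real.log (S y)) x).PosSemidef) → IsOpen W →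
  IsCompact (closure W) → (∀ x ∈ frontier W, S x ≠ 0) → {x | x ∈ W ∧ S x = 0}.Finite

end Pool.Agent.Lib.MP_813db1_ag.AN
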