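import Pool.Agent.Lib.MP_813db1_ag.AN.Stmt
import Pool.Agent.Lib.MP_813db1_ag.HS.Main

/-! Assembly. -/

namespace Pool.Agent.Lib.MP_813db1_ag.AN

open Pool.Agent.Lib.MP_813db1_ag.HS Pool.Agent.Lib.MP_813db1_ag.AS
open MeasureTheory Complex Matrix Filter Topology Set Metric
open scoped ContDiff ComplexOrder Manifold

/-- the analytic part. -/
def AnaS : Prop := ∀ (ι X Y : Type) [Fintype ι] [DecidableEq ι] [Nonempty ι] [TopologicalSpace X]
  [T2Space X] [CompactSpace X] [TopologicalSpace Y] [T2Space Y] [MeasurableSpace Y] [BorelSpace Y]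
  (MX : Atl ι X) (gX : X → Mat ι) (p : Y → X) (M : Atl ι Y) (g : Y → Mat ι) (ν : Measure Y)
  (S : Sh M g ν), MX.IsK gX → Lk MX gX p S.toSt → NefA MX gX

theorem nefK_of {ι X : Type} [Fintype ι] [DecidableEq ι] [TopologicalSpace X]
    [ChartedSpace (ι → ℂ) X] (ha : RepA) (hb : RepB) (hm : MatS) (K : Kahler ι X) (M : Atl ι X)
    (g : X → Mat ι) (hA : atlas (ι → ℂ) X ⊆ M.A) (hg : M.IsK g)
    (hrep : ∀ e ∈ atlas (ι → ℂ) X, ∀ z ∈ e.target, M.repF g e z = K.g e z) (h : NefA M g) :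
    NefK K := by
  intro ε hε
  obtain ⟨w, hw, h⟩ := h ε hε
  have ha := ha ι X M
  have hb := hb ι X M
  refine ⟨w, fun e he => ⟨fun z hz => ?_, fun z hz => ?_⟩⟩
  · exact (reCLM.contDiff.contDiffAt.comp z (hw e (hA he) z hz)).contDiffWithinAt
  · have hx := e.map_target hz
    have e1 : ric (K.g e) z = M.repF (M.ricF g) e z := by
      rw [hb.ric_rep g hg e (hA he) z hz]
      refine Main.ric_cg ?_
      filter_upwards [e.open_target.mem_nhds hz] with w hw using (hrep e he w hw).symm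
    have e2 := hb.ddc_rep w e (hA he) _ hx (by
      rw [e.right_inv hz]; exact (hw e (hA he) z hz).of_le (by norm_cast))
    rw [e.right_inv hz] at e2
    have := ((hm.pull_pd ι _ _ (ha.tj_det e (hA he) _ (M.ch_mem _) _ hx (M.mem _))).2.1
      (h (e.symm z)))
    convert this using 1
    rw [e1, ← hrep e he z hz]
    change _ + levi (fn w e) z + _ = _
    rw [← e2]
    simp only [Atl.repF, pull, Matrix.mul_add, Matrix.add_mul, Matrix.mul_neg, Matrix.neg_mul,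
      Matrix.mul_smul, Matrix.smul_mul]

theorem main (hmax : MaxAtlS) (ha : RepA) (hb : RepB) (hm : MatS) (h1 : StS) (h2 : PrimS)
    (h3 : VolY) (h4 : ResS) (h5 : ShS) (h6 : AnaS) : NefS := by
  intro ι X Y G _ _ _ _ _ _ _ _ _ _ _ _ K p hp hE
  obtain ⟨MX, gX, hA, -, hg, hrep⟩ := hmax ι X K
  obtain ⟨_, M, g, S, ⟨L⟩⟩ := h1 ι X Y G MX gX p hg hp
  borelize Y
  obtain ⟨a, hP⟩ := h2 ι X Y K MX gX p M g S hA hg hrep L hE
  obtain ⟨ν, hν⟩ := h3 ι Y M g S
  obtain ⟨S', rfl⟩ := h5 ι Y M g ν S a hν hP fun b =>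
    h4 ι X MX gX (L.e b) _ hg (L.mem b) (L.tgt b) (L.rep b)
  exact nefK_of ha hb hm K MX gX hA hg hrep (h6 ι X Y MX gX p M g ν S' hg L)

end Pool.Agent.Lib.MP_813db1_ag.AN
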