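import Pool.Agent.Lib.MP_813db1_ag.AN.ParA
import Pool.Agent.Lib.MP_813db1_ag.AS.Big

/-! The local resolvent with an error that is small in the mean square. -/

namespace Pool.Agent.Lib.MP_813db1_ag.AN.Par

open Pool.Agent.Lib.MP_813db1_ag.HS
open MeasureTheory Complex Matrix Filter Topology Set Metric L2 TL2
open scoped ContDiff ComplexOrder

variable {ι X : Type} [Fintype ι] [DecidableEq ι] [TopologicalSpace X] {M : Atl ι X}
  {g h : X → Mat ι} {φ : X → ℝ} {a : ℕ} {e : Ch ι X} {K : Set (V ι)}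

theorem scale (hg : M.IsK g) {l : ℝ} (hl : 0 < l) (v : X → ℂ) (x : X) :
    M.boxT a (fun y => (l : ℂ) • g y) φ v x = (l : ℂ)⁻¹ * M.boxT a g φ v x := by
  have l0 : (l : ℂ) ≠ 0 := ofReal_ne_zero.2 hl.ne'
  have k := hg _ (M.ch_mem x)
  have hz := (M.ch x).map_source (M.mem x)
  simp only [Atl.boxT, repF_smul]
  generalize M.repF g (M.ch x) = G at *
  generalize M.ch x x = z at *
  have d0 := (k.2 z hz).det_pos.ne'
  have e1 : ((l : ℂ) • G z)⁻¹ = (l : ℂ)⁻¹ • (G z)⁻¹ := Matrix.inv_eq_right_inv (by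
    rw [Matrix.smul_mul, Matrix.mul_smul, smul_smul, mul_inv_cancel₀ l0, one_smul,
      mul_nonsing_inv _ d0.isUnit])
  have e2 : lg (fun w => (l : ℂ) • G w) =ᶠ[𝓝 z]
      fun w => (Real.log (l ^ Fintype.card ι) : ℂ) + lg G w := by
    filter_upwards [(M.ch x).open_target.mem_nhds hz] with w hw
    simp only [lg]
    rw [det_smul, ← ofReal_pow, re_ofReal_mul, Real.log_mul (by positivity)
      (Green.det_pos (k.2 w hw)).ne', ofReal_add]
  have e3 : ∀ i, dz (lg fun w => (l : ℂ) • G w) i z = dz (lg G) i z := fun i => by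
    rw [dz_congr e2, dz_add (differentiableAt_const _) (((k.1.1.cd hz).lg
      (Green.det_pos (k.2 z hz)).ne').differentiableAt (by simp)), dz_const, zero_add]
  simp only [boxG, Green.lapL_eq, cfT, e1, e3, Matrix.smul_apply, smul_eq_mul]
  rw [mul_sub]
  simp only [Finset.mul_sum, mul_assoc]

theorem isK_smul (hg : M.IsK g) {l : ℝ} (hl : 0 < l) : M.IsK fun y => (l : ℂ) • g y := by
  have A := AY.repA' ι X M
  obtain ⟨g1, g2⟩ := (A.isK_iff g).1 hg
  exact (A.isK_iff _).2 ⟨A.clF_smul l g g1, fun x => (g2 x).smul (zero_lt_real.2 hl)⟩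

variable [T2Space X]

theorem extk (C : Cov M) (m : ℕ) (he : e ∈ M.A) (hK : IsCompact K) (hs : K ⊆ e.target)
    {F : V ι → ℂ} (hF : ContDiff ℝ ∞ F) (h0 : ∀ z ∉ K, F z = 0) :
    M.CkS ∞ m (M.ext m e F) ∧ ∀ z ∈ e.target, M.rep m (M.ext m e F) e =ᶠ[𝓝 z] F := by
  obtain ⟨K0, -, hx⟩ := extS AY.repA' ι X M C m e he _ hK hs
  obtain ⟨x1, x2, -⟩ := hx F h0
  refine ⟨(AY.repA' ι X M).ckS_loc ⊤ _ _ fun x => ?_, fun z hz => ?_⟩
  · by_cases k : x ∈ e.source
    · exact ⟨e, he, k, hF.contDiffAt.congr_of_eventuallyEq (x1 x k)⟩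
    · have := rep_congr (M := M) (a := m) (τ := fun _ => 0) (M.mem x) (x2 x fun k' => (k k').elim)
      rw [rep_zero] at this
      exact ⟨_, M.ch_mem x, M.mem x, contDiffAt_const.congr_of_eventuallyEq this⟩
  · have := x1 _ (e.map_target hz)
    rwa [e.right_inv hz] at this

variable [CompactSpace X] [MeasurableSpace X] [BorelSpace X] {μ : Measure X}

theorem energy {η : ℝ} {v : X → ℂ} (h1 : M.IsK g) (hφ : M.Ck ∞ φ) (h3 : M.IsVol g μ) (hη : 0 ≤ η)
    (hv : M.CkS 2 a v) :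
    η ^ 2 * (M.ip0T μ a g g φ v v).re + 2 * η * (M.ip1T μ a g g φ v v).re ≤
      (M.ip0T μ a g g φ (fun x => (η : ℂ) * v x - M.boxT a g φ v x)
        (fun x => (η : ℂ) * v x - M.boxT a g φ v x)).re := by
  have hg := AS.greenTS
  have := ((AY.volS' ι X M g h1).2 μ h3).fin
  have v1 : M.CkS 1 a v := ckS_le hv (by norm_num)
  have v0 : M.CkS 0 a v := ckS_le hv (by norm_num)
  obtain ⟨b0, gr⟩ := hg.sec ι X M g g φ μ a v v h1 h1 hφ h3 hv v1
  have f0 : M.CkS 0 a fun x => (η : ℂ) * v x - M.boxT a g φ v x := fun e he z hz =>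
    rep_sub (M := M) e ▸ (ckS_cmul (η : ℂ) v0 e he z hz).sub (b0 e he z hz)
  have hw := (hg.cont ι X M g g φ a v v h1 h1 hφ).2.2.2
  have i1 : Integrable (fun x => ‖v x‖ ^ 2 * wtT a g g φ x) μ := integ (cont_sq hg h1 h1 hφ v0)
  have i2 : Integrable (fun x => M.boxT a g φ v x * star (v x) * (wtT a g g φ x : ℂ)) μ :=
    integ ((hg.cont ι X M g g φ a _ v h1 h1 hφ).1 b0 v0)
  have i2' : Integrable (fun x => (M.boxT a g φ v x * star (v x) * (wtT a g g φ x : ℂ)).re) μ :=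
    i2.re
  have p2 : ∫ x, (M.boxT a g φ v x * star (v x) * (wtT a g g φ x : ℂ)).re ∂μ =
      -(M.ip1T μ a g g φ v v).re := by
    rw [← neg_re, ← gr]
    exact integral_re i2
  have p3 := integral_mono ((i1.const_mul (η ^ 2)).sub (i2'.const_mul (2 * η)))
    (integ (μ := μ) (cont_sq hg h1 h1 hφ f0)) fun x => by
      have := mul_le_mul_of_nonneg_right (sq_le η (v x) (M.boxT a g φ v x)) (hw x).le
      simp only [Pi.sub_apply, re_mul_ofReal]
      linarith
  rw [TL2.ip0_re, TL2.ip0_re]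
  refine le_trans ?_ p3
  rw [integral_sub' (i1.const_mul (η ^ 2)) (i2'.const_mul (2 * η)), integral_const_mul,
    integral_const_mul, p2]
  linarith

theorem solve (C : Cov M) (hg : M.IsK g) (hφ : M.Ck ∞ φ) (hμ : M.IsVol g μ) {l : ℝ} (hl : 0 < l)
    {f : X → ℂ} (hf : M.CkS ∞ a f) :
    ∃ v, M.CkS ∞ a v ∧ ∀ x, (l : ℂ) * v x - M.boxT a g φ v x = f x := by
  have l0 : (l : ℂ) ≠ 0 := ofReal_ne_zero.2 hl.ne'
  obtain ⟨C2, -, h2⟩ := lin2T repT regT smoT (linET repT locT) (l2T AS.greenTS) ι X M g _ φ μ C a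
    hg (isK_smul hg hl) hφ hμ
  have f' := ckS_cmul (l : ℂ)⁻¹ hf
  obtain ⟨B, -, hB⟩ := (smo AY.repA' AY.curvS' mat ι X M C a).2.1 _ f'
  obtain ⟨v, B', -, v2, v3⟩ := (h2 1 ⟨one_pos, le_rfl⟩).2 _ B hB.sh
  refine ⟨v, v3 f', fun x => ?_⟩
  have := v2 x
  rw [scale hg hl] at this
  field_simp at this
  simpa [mul_comm] using this

theorem trans (hg : M.IsK g) (hμ : M.IsVol g μ) (he : e ∈ M.A) (hK : IsCompact K)
    (hs : K ⊆ e.target) {f : X → ℝ} (hf : Continuous f) (f0 : ∀ x, 0 ≤ f x) {f' : V ι → ℝ}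
    (i' : IntegrableOn f' K) (hle : ∀ z ∈ K, f' z ≤ (M.repF g e z).det.re * f (e.symm z)) :
    ∫ z in K, f' z ≤ ∫ x, f x ∂μ := by
  have hv := (AY.volS' ι X M g hg).2 μ hμ
  have := hv.fin
  refine (setIntegral_mono_on i' (ContinuousOn.integrableOn_compact hK ?_) hK.measurableSet
    hle).trans ?_
  · exact ((det_cont hg he).mono hs).mul
      (hf.comp_continuousOn (e.continuousOn_symm.mono hs))
  · rw [← hv.intR e he K hK.measurableSet hs f]
    exact setIntegral_le_integral (integ hf) (Eventually.of_forall f0)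

theorem low (hg : M.IsK g) (hφ : M.Ck ∞ φ) (hμ : M.IsVol g μ) (he : e ∈ M.A) (hK : IsCompact K)
    (hs : K ⊆ e.target) (b : ℕ) : ∃ m > (0 : ℝ), ∀ v, M.CkS ∞ (b + 1) v →
      m * ∫ z in K, ‖M.rep (b + 1) v e z‖ ^ 2 ≤
        (M.ip0T μ (b + 1) g g (fun x => b * φ x) v v).re ∧
      m * ∑ j, ∫ z in K, ‖dzb (M.rep (b + 1) v e) j z‖ ^ 2 ≤
        (M.ip1T μ (b + 1) g g (fun x => b * φ x) v v).re := by
  have dd := dictT ι X M g g φ hg hg hφ e he
  have k := hg e he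
  have hG := AS.greenTS
  have hb : M.Ck ∞ fun x => b * φ x := fun e he z hz =>
    contDiffAt_ofReal.2 (contDiffAt_const.mul (contDiffAt_ofReal.1 (hφ e he z hz)))
  have := ((AY.volS' ι X M g hg).2 μ hμ).fin
  obtain ⟨P, hP⟩ := hK.exists_bound_of_continuousOn (f := fun z => -b * M.psi g φ e z) fun z hz =>
    (continuousAt_const.mul (dd z (hs hz)).1.continuousAt).continuousWithinAt
  have iv := k.1.1.inv fun y hy => (k.2 y hy).det_pos.ne'
  obtain ⟨L, hL⟩ := En.bdd hK (fun (o : Bool × ι × ι) z =>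
      (if o.1 then M.repF g e z else (M.repF g e z)⁻¹) o.2.1 o.2.2) fun ⟨s, i, j⟩ y hy => by
    cases s
    · exact (iv y (hs hy) i j).continuousAt
    · exact (k.1.1 y (hs hy) i j).continuousAt
  obtain ⟨c, c0, hc⟩ := mat.nv ι L
  obtain ⟨D, hD⟩ : ∃ D : ℝ, D = Fintype.card ι * (Fintype.card ι * L) ^ 2 + c := ⟨_, rfl⟩
  have D0 : 0 < D := hD ▸ by positivity
  have cD : c / D ≤ 1 := (div_le_one D0).2 (hD ▸ le_add_of_nonneg_left (by positivity))
  have ex : ∀ z ∈ K, Real.exp (-P) ≤ Real.exp (-b * M.psi g φ e z) := fun z hz =>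
    Real.exp_le_exp.2 (abs_le.1 (hP z hz)).1
  refine ⟨c / D * Real.exp (-P), by positivity, fun v hv => ⟨?_, ?_⟩⟩
  · rw [TL2.ip0_re, ← integral_const_mul]
    refine trans hg hμ he hK hs (cont_sq hG hg hg hb (ckS_le hv zero_le)) (fun x => mul_nonneg
      (sq_nonneg _) ((hG.cont ι X M g g _ (b + 1) v v hg hg hb).2.2.2 x).le)
      ((isq hK fun z hz => (hv e he z (hs hz)).continuousAt).const_mul _) fun z hz => ?_
    rw [((dd z (hs hz)).2.2 b v).1, mul_comm]
    refine mul_le_mul_of_nonneg_left (le_trans ?_ (ex z hz)) (sq_nonneg _)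
    exact mul_le_of_le_one_left (Real.exp_pos _).le cD
  · have v1 : M.CkS 1 (b + 1) v := ckS_le hv (by simp)
    obtain ⟨-, c1, -, hw⟩ := hG.cont ι X M g g _ (b + 1) v v hg hg hb
    have c2 := c1 v1 v1 _ fun e he => (hg e he).1.1
    have i2 := fun j => isq hK fun z hz => (contDiffAt_dzb_top (hv e he z (hs hz)) j).continuousAt
    rw [Atl.ip1T, ← RCLike.re_to_complex, ← integral_re (integ c2),
      ← integral_finsetSum _ fun j _ => i2 j, ← integral_const_mul]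
    refine trans hg hμ he hK hs (continuous_re.comp c2) (fun x => ?_)
      ((integrable_finsetSum _ fun j _ => i2 j).const_mul _) fun z hz => ?_
    · rw [Function.comp_apply, re_mul_ofReal]
      exact mul_nonneg (mat.nv_mono ι _ _ (Green.pd (AY.repA' ι X M) hg x).posSemidef) (hw x).le
    · have pd := k.2 z (hs hz)
      rw [Function.comp_apply, re_mul_ofReal, ← nV, (((dd z (hs hz)).2.2 b v).2
        ((hv e he z (hs hz)).of_le (by norm_cast))).1]
      have q1 := (hc _ pd (fun i j => hL z hz (true, i, j)) (fun i j => hL z hz (false, i, j))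
        (shp (M.repF g e) (M.rep (b + 1) v e) z)).1
      have q2 : ∀ j, ‖dzb (M.rep (b + 1) v e) j z‖ ≤
          Fintype.card ι * L * ‖shp (M.repF g e) (M.rep (b + 1) v e) z‖ := fun j => by
        have := Green.ipV_shp (T := M.rep (b + 1) v e) pd.1 pd.det_pos.ne' (Pi.single j 1)
        simp only [ipV, Pi.single_apply, mul_ite, ite_mul, mul_one, mul_zero, zero_mul, one_mul,
          Finset.sum_ite_eq', Finset.mem_univ, if_true, Finset.sum_ite_irrel,
          Finset.sum_const_zero] at this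
        rw [← norm_star, ← this, mul_assoc, ← nsmul_eq_mul, ← Finset.card_univ, ← Finset.sum_const]
        refine norm_sum_le_of_le _ fun i _ => ?_
        rw [norm_mul, norm_star]
        exact mul_le_mul (hL z hz (true, j, i)) (norm_le_pi_norm _ i) (norm_nonneg _)
          ((norm_nonneg _).trans (hL z hz (true, j, i)))
      have q3 : ∑ j, ‖dzb (M.rep (b + 1) v e) j z‖ ^ 2 ≤
          D * ‖shp (M.repF g e) (M.rep (b + 1) v e) z‖ ^ 2 := by
        refine (Finset.sum_le_sum fun j _ => pow_le_pow_left₀ (norm_nonneg _) (q2 j) 2).trans ?_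
        rw [Finset.sum_const, Finset.card_univ, nsmul_eq_mul, mul_pow, hD, add_mul, mul_assoc]
        exact le_add_of_nonneg_right (by positivity)
      calc _ ≤ c / D * Real.exp (-P) * (D * ‖shp (M.repF g e) (M.rep (b + 1) v e) z‖ ^ 2) := by
            gcongr
        _ = c * ‖shp (M.repF g e) (M.rep (b + 1) v e) z‖ ^ 2 * Real.exp (-P) := by field_simp
        _ ≤ _ := mul_le_mul q1 (ex z hz) (Real.exp_pos _).le (le_trans (by positivity) q1)

end Pool.Agent.Lib.MP_813db1_ag.AN.Par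

namespace Pool.Agent.Lib.MP_813db1_ag.AN

open Pool.Agent.Lib.MP_813db1_ag.HS Par
open MeasureTheory Complex Matrix Filter Topology Set Metric
open scoped ContDiff ComplexOrder

/-- the local resolvent. -/
theorem parL (ι X : Type) [Fintype ι] [DecidableEq ι] [TopologicalSpace X] [T2Space X]
    [CompactSpace X] (M : Atl ι X) (g : X → Mat ι) (hg : M.IsK g) (e : Ch ι X) (he : e ∈ M.A)
    (r1 r2 R : ℝ) (h0 : 0 < r1) (h1 : r1 < r2) (h2 : r2 < R) (hR : ball 0 R ⊆ e.target)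
    (Φ : V ι → ℝ) (hΦ : ∀ z ∈ ball (0 : V ι) R, ContDiffAt ℝ ∞ Φ z) : ∃ C0 ≥ (0 : ℝ), ∀ l > (0 : ℝ),
    ∀ f : V ι → ℂ, ContDiff ℝ ∞ f → (∀ z ∉ closedBall (0 : V ι) r1, f z = 0) → ∃ w E : V ι → ℂ,
      ContDiff ℝ ∞ w ∧ ContDiff ℝ ∞ E ∧ (∀ z ∉ closedBall (0 : V ι) r2, w z = 0 ∧ E z = 0) ∧
      (∀ z, (l : ℂ) * w z - boxG (fun i y => dz (lg (M.repF g e)) i y + dz (fun y => (Φ y : ℂ)) i y)
        (M.repF g e) w z = f z - E z) ∧
      min l (l ^ 2) * ∫ z, ‖E z‖ ^ 2 ≤ C0 * ∫ z, ‖f z‖ ^ 2 := by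
  borelize X
  obtain ⟨μ, hμ⟩ := (AY.volS' ι X M g hg).1
  obtain ⟨C, -⟩ := covS ι X M (fun _ => True) fun x => by
    obtain ⟨e, h1, h2⟩ := (AY.repA' ι X M).center x
    exact ⟨e, h1, trivial, h2⟩
  have k := hg e he
  obtain ⟨r3, h3, h4⟩ := exists_between h2
  obtain ⟨χ, χ1, χ2, χ3⟩ := bump (ι := ι) h0 h1
  obtain ⟨θ, θ1, θ2, θ3⟩ := bump (ι := ι) (h0.trans h1) h3
  have s1 : closedBall (0 : V ι) r1 ⊆ closedBall 0 r2 := closedBall_subset_closedBall h1.le
  have s2 : closedBall (0 : V ι) r2 ⊆ closedBall 0 r3 := closedBall_subset_closedBall h3.le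
  have s3 : closedBall (0 : V ι) r3 ⊆ ball 0 R := closedBall_subset_ball h4
  have K1 := isCompact_closedBall (0 : V ι) r1
  have K2 := isCompact_closedBall (0 : V ι) r2
  have K3 := isCompact_closedBall (0 : V ι) r3
  have cl : ∀ z ∈ e.target, ContDiffAt ℝ ∞ (lg (M.repF g e)) z := fun z hz =>
    (k.1.1.cd hz).lg (Green.det_pos (k.2 z hz)).ne'
  have cχ : ContDiff ℝ ∞ fun z => (χ z : ℂ) := ofRealCLM.contDiff.comp χ1
  have cθ : ContDiff ℝ ∞ fun z => (θ z : ℂ) := ofRealCLM.contDiff.comp θ1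
  have eθ : ∀ z ∈ closedBall (0 : V ι) r2, (fun z => (θ z : ℂ)) =ᶠ[𝓝 z] fun _ => 1 := fun z hz =>
    (θ2 z hz).mono fun w hw => by simp [hw]
  have zθ : ∀ z ∉ closedBall (0 : V ι) r3, (θ z : ℂ) = 0 := fun z hz => by simp [θ3 z hz]
  obtain ⟨p1, p2⟩ := extk C 0 he K3 (s3.trans hR)
    (F := fun z => (θ z : ℂ) * (lg (M.repF g e) z - Φ z))
    (glob K3 (fun z hz => cθ.contDiffAt.mul ((cl z (hR (s3 hz))).sub
      (contDiffAt_ofReal.2 (hΦ z (s3 hz))))) fun z hz => by rw [zθ z hz, zero_mul])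
    fun z hz => by rw [zθ z hz, zero_mul]
  obtain ⟨φ, hφ'⟩ : ∃ φ : X → ℝ, M.ext 0 e (fun z => (θ z : ℂ) * (lg (M.repF g e) z - Φ z)) =
      fun x => (φ x : ℂ) := by
    refine ⟨fun x => (M.ext 0 e (fun z => (θ z : ℂ) * (lg (M.repF g e) z - Φ z)) x).re,
      funext fun x => ?_⟩
    simp only [Atl.ext, lg]
    split_ifs
    · rw [pow_zero, one_mul, ← ofReal_sub, ← ofReal_mul, ofReal_re]
    · simp
  rw [hφ'] at p1 p2
  rw [rep_real] at p2
  have hφ : M.Ck ∞ φ := fun e he z hz => rep_real (M := M) φ e ▸ p1 e he z hz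
  have hb : M.Ck ∞ fun x => ((1 : ℕ) : ℝ) * φ x := by simpa using hφ
  obtain ⟨c, hc⟩ : ∃ c : ι → V ι → ℂ,
      c = fun i y => dz (lg (M.repF g e)) i y + dz (fun y => (Φ y : ℂ)) i y := ⟨_, rfl⟩
  rw [← hc]
  have cc : ∀ z ∈ ball (0 : V ι) R, ∀ i, ContDiffAt ℝ ∞ (c i) z := fun z hz i =>
    hc ▸ (contDiffAt_dz_top (cl z (hR hz)) i).add
      (contDiffAt_dz_top (contDiffAt_ofReal.2 (hΦ z hz)) i)
  have ce : ∀ z ∈ closedBall (0 : V ι) r2, ∀ i,
      cfT (1 + 1) (M.repF g e) (fn (fun x => ((1 : ℕ) : ℝ) * φ x) e) i z = c i z := fun z hz i => by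
    have m := s3 (s2 hz)
    have : fn φ e =ᶠ[𝓝 z] fun z => lg (M.repF g e) z - Φ z := by
      filter_upwards [p2 z (hR m), eθ z hz] with w k1 k2
      rw [k1, k2, one_mul]
    simp only [cfT, Nat.cast_one, one_mul, hc]
    rw [dz_congr this, dz_sub ((cl z (hR m)).differentiableAt (by simp))
      ((contDiffAt_ofReal.2 (hΦ z m)).differentiableAt (by simp))]
    push_cast
    ring
  obtain ⟨A, A0, hA⟩ := err (c := c) (H := M.repF g e) K2 K3 s2
    (fun z hz => ⟨k.1.1.cd (hR (s3 (s2 hz))), k.2 z (hR (s3 (s2 hz)))⟩)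
    (fun z hz => cc z (s3 (s2 hz))) cχ cθ eθ zθ
  obtain ⟨m, m0, hm⟩ := low hg hφ hμ he K3 (s3.trans hR) 1
  obtain ⟨P, hP⟩ := K1.exists_bound_of_continuousOn (f := fun z => -((1 : ℕ) : ℝ) * M.psi g φ e z)
    fun z hz => (continuousAt_const.mul (dictT ι X M g g φ hg hg hφ e he z
      (hR (s3 (s2 (s1 hz))))).1.continuousAt).continuousWithinAt
  refine ⟨A / m * Real.exp P, by positivity, fun l l0 f hf f0 => ?_⟩
  have hs : HasCompactSupport f := HasCompactSupport.intro K1 f0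
  have ts : tsupport f ⊆ closedBall 0 r1 :=
    closure_minimal (Function.support_subset_iff'.2 f0) isClosed_closedBall
  obtain ⟨q1, q2, -⟩ := TPeak.key dictT AS.greenTS C hg hμ hg hφ he 1 hf hs
    (ts.trans (s1.trans (s2.trans (s3.trans hR))))
  have q3 := (extk C (1 + 1) he K1 (s1.trans (s2.trans (s3.trans hR))) hf f0).2
  obtain ⟨v, v1, v2⟩ := solve C hg hb hμ l0 q1
  have en := energy hg hb hμ l0.le (L2.ckS_le v1 (l := 2) (by norm_cast))
  rw [funext v2, q2, ofReal_re] at en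
  obtain ⟨n1, n2⟩ := hm v v1
  have vs := v1 e he
  have ve : ∀ z ∈ closedBall (0 : V ι) r2,
      l * M.rep (1 + 1) v e z - boxG c (M.repF g e) (M.rep (1 + 1) v e) z = f z := fun z hz => by
    have m := hR (s3 (s2 hz))
    have a1 := (boxT_ev repT hg hb (L2.ckS_le v1 (l := 2) (by norm_cast)) he m).self_of_nhds
    have a2 := (q3 z m).self_of_nhds
    rw [← funext v2, rep_sub, rep_cmul] at a2
    simp only [a1, boxG, ce z hz] at a2
    exact a2
  generalize M.rep (1 + 1) v e = F at *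
  have w0 : ∀ z ∉ closedBall (0 : V ι) r2, (χ z : ℂ) * F z = 0 := fun z hz => by simp [χ3 z hz]
  have cw : ContDiff ℝ ∞ fun z => (χ z : ℂ) * F z :=
    glob K2 (fun z hz => cχ.contDiffAt.mul (vs z (hR (s3 (s2 hz))))) w0
  have E0 : ∀ z ∉ closedBall (0 : V ι) r2, f z - (l * ((χ z : ℂ) * F z) -
      boxG c (M.repF g e) (fun z => (χ z : ℂ) * F z) z) = 0 := fun z hz => by
    rw [boxG_congr (ev0 K2 w0 hz), boxG_zero, w0 z hz, f0 z fun k => hz (s1 k)]
    simp
  refine ⟨_, fun z => f z - (l * ((χ z : ℂ) * F z) -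
      boxG c (M.repF g e) (fun z => (χ z : ℂ) * F z) z), cw, glob K2 (fun z hz => ?_) E0,
    fun z hz => ⟨w0 z hz, E0 z hz⟩, fun z => by ring, ?_⟩
  · have m := s3 (s2 hz)
    exact hf.contDiffAt.sub ((contDiffAt_const.mul cw.contDiffAt).sub
      (cd_boxG (k.1.1.cd (hR m)) (k.2 z (hR m)) (cc z m) cw.contDiffAt))
  have e1 : ∫ z, ‖f z - (l * ((χ z : ℂ) * F z) -
      boxG c (M.repF g e) (fun z => (χ z : ℂ) * F z) z)‖ ^ 2 = ∫ z in closedBall (0 : V ι) r2,
      ‖boxG c (M.repF g e) (fun w => χ w * F w) z - χ z * boxG c (M.repF g e) F z‖ ^ 2 := by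
    rw [← setIntegral_eq_integral_of_forall_compl_eq_zero (s := closedBall (0 : V ι) r2)
      fun z hz => by rw [E0 z hz]; simp]
    refine setIntegral_congr_fun K2.measurableSet fun z hz => ?_
    have : f z = χ z * f z := by
      by_cases k : z ∈ closedBall (0 : V ι) r1
      · simp [(χ2 z k).self_of_nhds]
      · simp [f0 z k]
    rw [this, ← ve z hz]
    congr 2
    ring
  have e2 : ∫ y, ‖f y‖ ^ 2 * Real.exp (-((1 : ℕ) : ℝ) * M.psi g φ e y) ≤
      Real.exp P * ∫ y, ‖f y‖ ^ 2 := by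
    rw [← integral_const_mul]
    refine integral_mono_of_nonneg (Eventually.of_forall fun y => by positivity)
      (((hf.continuous.norm.pow 2).integrable_of_hasCompactSupport
        (HasCompactSupport.intro K1 fun z hz => by simp [f0 z hz])).const_mul _)
      (Eventually.of_forall fun y => ?_)
    by_cases k : y ∈ closedBall (0 : V ι) r1
    · simp only [mul_comm (Real.exp P)]
      exact mul_le_mul_of_nonneg_left (Real.exp_le_exp.2 (abs_le.1 (hP y k)).2) (sq_nonneg _)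
    · simp [f0 y k]
  have e3 := hA F fun z hz => vs z (hR (s3 hz))
  have p1 : 0 ≤ ∫ z in closedBall (0 : V ι) r3, ‖F z‖ ^ 2 := integral_nonneg fun z => by positivity
  have p2 : 0 ≤ ∑ j, ∫ z in closedBall (0 : V ι) r3, ‖dzb F j z‖ ^ 2 :=
    Finset.sum_nonneg fun j _ => integral_nonneg fun z => by positivity
  rw [e1]
  have l1 := min_le_left l (l ^ 2)
  have l2 := min_le_right l (l ^ 2)
  have l3 : 0 < min l (l ^ 2) := lt_min l0 (by positivity)
  generalize min l (l ^ 2) = s at *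
  generalize ∫ z in closedBall (0 : V ι) r3, ‖F z‖ ^ 2 = x1 at *
  generalize ∑ j, ∫ z in closedBall (0 : V ι) r3, ‖dzb F j z‖ ^ 2 = x2 at *
  have e4 : m * (s * (x1 + x2)) ≤ Real.exp P * ∫ y, ‖f y‖ ^ 2 := by
    have a1 := mul_le_mul_of_nonneg_left n1 (sq_nonneg l)
    have a2 := mul_le_mul_of_nonneg_left n2 (show 0 ≤ 2 * l by positivity)
    have a3 := mul_le_mul_of_nonneg_right l2 (mul_nonneg m0.le p1)
    have a4 := mul_le_mul_of_nonneg_right l1 (mul_nonneg m0.le p2)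
    nlinarith [mul_nonneg l0.le (mul_nonneg m0.le p2)]
  calc _ ≤ s * (A * (x1 + x2)) := mul_le_mul_of_nonneg_left e3 l3.le
    _ = A / m * (m * (s * (x1 + x2))) := by field_simp
    _ ≤ A / m * (Real.exp P * ∫ y, ‖f y‖ ^ 2) := by gcongr
    _ = _ := by ring

end Pool.Agent.Lib.MP_813db1_ag.AN
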