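import Pool.Agent.Lib.MP_813db1_ag.AS.S2Alg
import Pool.Agent.Lib.MP_813db1_ag.HS.En

/-! Flat estimates for the local resolvent. -/

namespace Pool.Agent.Lib.MP_813db1_ag.AN.Par

open Pool.Agent.Lib.MP_813db1_ag.HS
open MeasureTheory Complex Matrix Filter Topology Set Metric
open scoped ContDiff ComplexOrder

variable {ι : Type} [Fintype ι] [DecidableEq ι] {K K' U : Set (V ι)} {u χ F : V ι → ℂ}

omit [DecidableEq ι] in
theorem ev0 (hK : IsCompact K) (h0 : ∀ z ∉ K, u z = 0) {z : V ι} (hz : z ∉ K) :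
    u =ᶠ[𝓝 z] fun _ => 0 := by
  filter_upwards [hK.isClosed.isOpen_compl.mem_nhds hz] with w hw using h0 w hw

omit [DecidableEq ι] in
theorem glob (hK : IsCompact K) (hu : ∀ z ∈ K, ContDiffAt ℝ ∞ u z) (h0 : ∀ z ∉ K, u z = 0) :
    ContDiff ℝ ∞ u := contDiff_iff_contDiffAt.2 fun z => by
  by_cases hz : z ∈ K
  · exact hu z hz
  · exact contDiffAt_const.congr_of_eventuallyEq (ev0 hK h0 hz)

omit [DecidableEq ι] in
theorem isq (hK : IsCompact K) (hu : ∀ z ∈ K, ContinuousAt u z) :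
    IntegrableOn (fun z => ‖u z‖ ^ 2) K :=
  ContinuousOn.integrableOn_compact hK fun z hz => ((hu z hz).norm.pow 2).continuousWithinAt

theorem flat (hK : IsCompact K) (hu : ContDiff ℝ ∞ u) (h0 : ∀ z ∉ K, u z = 0) (i : ι) :
    ∫ z in K, ‖dz u i z‖ ^ 2 = ∫ z in K, ‖dzb u i z‖ ^ 2 := by
  have c1 := fun z => contDiffAt_dz_top (hu.contDiffAt (x := z)) i
  have c2 := fun z => contDiffAt_dzb_top (hu.contDiffAt (x := z)) i
  obtain ⟨a1, a2⟩ := En.int_dz (k := i) (f := fun w => u w * star (dz u i w)) hK (subset_univ K)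
    (fun z _ => (hu.contDiffAt.mul (En.cd_star (c1 z))).of_le (by simp))
    fun z hz => by simp [h0 z hz]
  obtain ⟨b1, b2⟩ := En.int_dzb (k := i) (f := fun w => u w * star (dzb u i w)) hK (subset_univ K)
    (fun z _ => (hu.contDiffAt.mul (En.cd_star (c2 z))).of_le (by simp))
    fun z hz => by simp [h0 z hz]
  have e : ∀ z, dz (fun w => u w * star (dz u i w)) i z - dzb (fun w => u w * star (dzb u i w)) i z =
      ((‖dz u i z‖ ^ 2 - ‖dzb u i z‖ ^ 2 : ℝ) : ℂ) := fun z => by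
    have d := hu.differentiable (by simp) z
    rw [dz_mul d ((En.cd_star (c1 z)).differentiableAt (by simp)),
      dzb_mul d ((En.cd_star (c2 z)).differentiableAt (by simp)), dz_star, dzb_star,
      dz_dzb_comm (hu.contDiffAt.of_le (by norm_cast)), ofReal_sub, Green.nsq, Green.nsq]
    ring
  have := integral_sub a1 b1
  simp only [e] at this
  rw [a2, b2, sub_zero, integral_complex_ofReal, ofReal_eq_zero,
    integral_sub (isq hK fun z _ => (c1 z).continuousAt) (isq hK fun z _ => (c2 z).continuousAt)]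
    at this
  linarith

theorem nsq2 (a b : ℂ) : ‖a + b‖ ^ 2 ≤ 2 * ‖a‖ ^ 2 + 2 * ‖b‖ ^ 2 := by
  have := pow_le_pow_left₀ (norm_nonneg _) (norm_add_le a b) 2
  nlinarith [sq_nonneg (‖a‖ - ‖b‖)]

theorem grad (hK : IsCompact K) (hK' : IsCompact K') (hs : K ⊆ K') (hχ : ContDiff ℝ ∞ χ)
    (h1 : ∀ z ∈ K, χ =ᶠ[𝓝 z] fun _ => 1) (h0 : ∀ z ∉ K', χ z = 0) : ∃ A ≥ (0 : ℝ),
    ∀ F : V ι → ℂ, (∀ z ∈ K', ContDiffAt ℝ ∞ F z) → ∀ i, ∫ z in K, ‖dz F i z‖ ^ 2 ≤
      A * ((∫ z in K', ‖F z‖ ^ 2) + ∫ z in K', ‖dzb F i z‖ ^ 2) := by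
  obtain ⟨A, hA⟩ := En.bdd hK' (fun o : Option ι => o.elim χ fun i => dzb χ i) fun o y _ => by
    cases o
    · exact hχ.continuous.continuousAt
    · exact (contDiffAt_dzb_top hχ.contDiffAt _).continuousAt
  refine ⟨2 * A ^ 2, by positivity, fun F hF i => ?_⟩
  have z0 : ∀ z ∉ K', χ z * F z = 0 := fun z hz => by rw [h0 z hz, zero_mul]
  have cu : ContDiff ℝ ∞ fun z => χ z * F z := glob hK' (fun z hz => hχ.contDiffAt.mul (hF z hz)) z0
  have i1 := isq hK' fun z hz => (hF z hz).continuousAt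
  have i2 := isq hK' fun z hz => (contDiffAt_dzb_top (hF z hz) i).continuousAt
  calc _ = ∫ z in K, ‖dz (fun z => χ z * F z) i z‖ ^ 2 := by
        refine setIntegral_congr_fun hK.measurableSet fun z hz => ?_
        have : (fun z => χ z * F z) =ᶠ[𝓝 z] F := (h1 z hz).mono fun w hw => by simp [hw]
        simp only [dz_congr this]
    _ ≤ ∫ z in K', ‖dz (fun z => χ z * F z) i z‖ ^ 2 :=
        setIntegral_mono_set (isq hK' fun z _ => (contDiffAt_dz_top cu.contDiffAt i).continuousAt)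
          (Eventually.of_forall fun z => by positivity) hs.eventuallyLE
    _ = ∫ z in K', ‖dzb (fun z => χ z * F z) i z‖ ^ 2 := flat hK' cu z0 i
    _ ≤ ∫ z in K', 2 * A ^ 2 * (‖F z‖ ^ 2 + ‖dzb F i z‖ ^ 2) := by
        refine setIntegral_mono_on
          (isq hK' fun z _ => (contDiffAt_dzb_top cu.contDiffAt i).continuousAt)
          ((i1.add i2).const_mul _) hK'.measurableSet fun z hz => ?_
        rw [dzb_mul (hχ.differentiable (by simp) z) ((hF z hz).differentiableAt (by simp))]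
        refine (nsq2 _ _).trans ?_
        have k1 := pow_le_pow_left₀ (norm_nonneg _) (hA z hz none) 2
        have k2 := pow_le_pow_left₀ (norm_nonneg _) (hA z hz (some i)) 2
        simp only [Option.elim] at k1 k2
        rw [norm_mul, norm_mul, mul_pow, mul_pow]
        nlinarith [mul_le_mul_of_nonneg_right k1 (sq_nonneg ‖dzb F i z‖),
          mul_le_mul_of_nonneg_right k2 (sq_nonneg ‖F z‖)]
    _ = _ := by rw [integral_const_mul, integral_add i1 i2]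

theorem comm (c : ι → V ι → ℂ) (H : V ι → Mat ι) {z : V ι} (hχ : ContDiffAt ℝ 2 χ z)
    (hF : ContDiffAt ℝ 2 F z) : boxG c H (fun w => χ w * F w) z - χ z * boxG c H F z =
      boxG c H χ z * F z + ∑ j, (∑ i, (H z)⁻¹ j i * dz χ i z) * dzb F j z +
        ∑ i, (∑ j, (H z)⁻¹ j i * dzb χ j z) * dz F i z := by
  have e := fun i j => levi_mul hχ hF i j
  simp only [levi_apply] at e
  simp only [boxG, Green.lapL_eq, e, dzb_mul (hχ.differentiableAt two_ne_zero)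
    (hF.differentiableAt two_ne_zero), Finset.sum_mul, Finset.mul_sum, sub_mul, mul_sub]
  rw [Finset.sum_comm (f := fun j i => (H z)⁻¹ j i * dz χ i z * dzb F j z)]
  simp only [← Finset.sum_sub_distrib, ← Finset.sum_add_distrib]
  exact Finset.sum_congr rfl fun i _ => Finset.sum_congr rfl fun j _ => by ring

omit [DecidableEq ι] in
theorem lin (a x : ℂ) (b c y w : ι → ℂ) {A : ℝ} (ha : ‖a‖ ≤ A) (hb : ∀ i, ‖b i‖ ≤ A)
    (hc : ∀ i, ‖c i‖ ≤ A) : ‖a * x + ∑ j, b j * y j + ∑ i, c i * w i‖ ^ 2 ≤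
      4 * (Fintype.card ι + 1) * A ^ 2 * (‖x‖ ^ 2 + ∑ j, ‖y j‖ ^ 2 + ∑ i, ‖w i‖ ^ 2) := by
  have A0 : 0 ≤ A := (norm_nonneg _).trans ha
  have s : ∀ b y : ι → ℂ, (∀ i, ‖b i‖ ≤ A) → ‖∑ j, b j * y j‖ ^ 2 ≤
      Fintype.card ι * A ^ 2 * ∑ j, ‖y j‖ ^ 2 := fun b y hb => by
    have k1 : ‖∑ j, b j * y j‖ ≤ A * ∑ j, ‖y j‖ := by
      rw [Finset.mul_sum]
      exact norm_sum_le_of_le _ fun j _ => by rw [norm_mul]; gcongr; exact hb j
    have k2 := sq_sum_le_card_mul_sum_sq (s := Finset.univ) (f := fun j => ‖y j‖)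
    rw [Finset.card_univ] at k2
    refine (pow_le_pow_left₀ (norm_nonneg _) k1 2).trans ?_
    rw [mul_pow]
    nlinarith [mul_le_mul_of_nonneg_left k2 (sq_nonneg A)]
  have k0 : ‖a * x‖ ^ 2 ≤ A ^ 2 * ‖x‖ ^ 2 := by
    rw [norm_mul, mul_pow]; gcongr
  have k1 := s b y hb
  have k2 := s c w hc
  have k3 := nsq2 (a * x + ∑ j, b j * y j) (∑ i, c i * w i)
  have k4 := nsq2 (a * x) (∑ j, b j * y j)
  have p1 : 0 ≤ A ^ 2 * ‖x‖ ^ 2 := by positivity
  have p2 : 0 ≤ A ^ 2 * ∑ j, ‖y j‖ ^ 2 := by positivity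
  have p3 : 0 ≤ A ^ 2 * ∑ j, ‖w j‖ ^ 2 := by positivity
  have n0 : (0 : ℝ) ≤ Fintype.card ι := by positivity
  nlinarith [mul_nonneg n0 p1, mul_nonneg n0 p2, mul_nonneg n0 p3]

/-- the commutator with a cutoff function is of first order. -/
theorem err {c : ι → V ι → ℂ} {H : V ι → Mat ι} {χ' : V ι → ℂ} (hK : IsCompact K)
    (hK' : IsCompact K') (hs : K ⊆ K') (hH : ∀ z ∈ K, CdM ∞ H z ∧ (H z).PosDef)
    (hc : ∀ z ∈ K, ∀ i, ContDiffAt ℝ ∞ (c i) z) (hχ : ContDiff ℝ ∞ χ) (hχ' : ContDiff ℝ ∞ χ')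
    (h1 : ∀ z ∈ K, χ' =ᶠ[𝓝 z] fun _ => 1) (h0 : ∀ z ∉ K', χ' z = 0) : ∃ A ≥ (0 : ℝ),
    ∀ F : V ι → ℂ, (∀ z ∈ K', ContDiffAt ℝ ∞ F z) →
      ∫ z in K, ‖boxG c H (fun w => χ w * F w) z - χ z * boxG c H F z‖ ^ 2 ≤
        A * ((∫ z in K', ‖F z‖ ^ 2) + ∑ j, ∫ z in K', ‖dzb F j z‖ ^ 2) := by
  obtain ⟨A, A0, hA⟩ := grad hK hK' hs hχ' h1 h0
  have iv := fun z hz => (hH z hz).1.inv (hH z hz).2.det_pos.ne'
  obtain ⟨B, hB⟩ := En.bdd hK (fun o : Option (ι ⊕ ι) => o.elim (boxG c H χ) fun s => s.elim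
      (fun j z => ∑ i, (H z)⁻¹ j i * dz χ i z) fun i z => ∑ j, (H z)⁻¹ j i * dzb χ j z)
    fun o y hy => by
      rcases o with _ | j | i
      · exact (cd_boxG (hH y hy).1 (hH y hy).2 (hc y hy) hχ.contDiffAt).continuousAt
      · exact (ContDiffAt.sum fun i _ =>
          (iv y hy j i).mul (contDiffAt_dz_top hχ.contDiffAt i)).continuousAt
      · exact (ContDiffAt.sum fun j _ =>
          (iv y hy j i).mul (contDiffAt_dzb_top hχ.contDiffAt j)).continuousAt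
  obtain ⟨D, hD⟩ : ∃ D : ℝ, D = 4 * (Fintype.card ι + 1) * B ^ 2 := ⟨_, rfl⟩
  have D0 : 0 ≤ D := hD ▸ by positivity
  refine ⟨D * (1 + A * (Fintype.card ι + 1)), by positivity, fun F hF => ?_⟩
  have i1 := isq hK' fun z hz => (hF z hz).continuousAt
  have i2 := fun i => isq hK' fun z hz => (contDiffAt_dzb_top (hF z hz) i).continuousAt
  have i3 := fun i => isq hK fun z hz => (contDiffAt_dz_top (hF z (hs hz)) i).continuousAt
  have j1 := i1.mono_set hs
  have j2 := integrable_finsetSum Finset.univ fun i _ => (i2 i).mono_set hs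
  have j3 := integrable_finsetSum Finset.univ fun i _ => i3 i
  have m : ∀ {f : V ι → ℂ}, IntegrableOn (fun z => ‖f z‖ ^ 2) K' →
      ∫ z in K, ‖f z‖ ^ 2 ≤ ∫ z in K', ‖f z‖ ^ 2 := fun h =>
    setIntegral_mono_set h (Eventually.of_forall fun z => by positivity) hs.eventuallyLE
  have k1 : ∫ z in K, ‖boxG c H (fun w => χ w * F w) z - χ z * boxG c H F z‖ ^ 2 ≤
      ∫ z in K, D * (‖F z‖ ^ 2 + ∑ j, ‖dzb F j z‖ ^ 2 + ∑ i, ‖dz F i z‖ ^ 2) := by
    refine setIntegral_mono_on (isq hK fun z hz => ?_) (((j1.add j2).add j3).const_mul _)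
      hK.measurableSet fun z hz => ?_
    · exact ((cd_boxG (hH z hz).1 (hH z hz).2 (hc z hz) (hχ.contDiffAt.mul (hF z (hs hz)))).sub
        (hχ.contDiffAt.mul (cd_boxG (hH z hz).1 (hH z hz).2 (hc z hz) (hF z (hs hz))))).continuousAt
    · rw [comm c H (hχ.contDiffAt.of_le (by norm_cast)) ((hF z (hs hz)).of_le (by norm_cast)), hD]
      exact lin _ _ _ _ _ _ (hB z hz none) (fun j => hB z hz (some (.inl j)))
        fun i => hB z hz (some (.inr i))
  have j4 : Integrable (fun z => ‖F z‖ ^ 2 + ∑ j, ‖dzb F j z‖ ^ 2) (volume.restrict K) := j1.add j2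
  rw [integral_const_mul, integral_add j4 j3, integral_add j1 j2,
    integral_finsetSum _ fun i _ => (i2 i).mono_set hs, integral_finsetSum _ fun i _ => i3 i] at k1
  have k2 := m i1
  have k3 := Finset.sum_le_sum (s := Finset.univ) fun i _ => m (i2 i)
  have k4 := Finset.sum_le_sum (s := Finset.univ) fun i _ => hA F hF i
  simp only [mul_add, Finset.sum_add_distrib, Finset.sum_const, Finset.card_univ, nsmul_eq_mul,
    ← Finset.mul_sum] at k4
  have p1 : 0 ≤ ∫ z in K', ‖F z‖ ^ 2 := integral_nonneg fun z => by positivity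
  have p2 : 0 ≤ ∑ j, ∫ z in K', ‖dzb F j z‖ ^ 2 :=
    Finset.sum_nonneg fun j _ => integral_nonneg fun z => by positivity
  have n0 : (0 : ℝ) ≤ Fintype.card ι := by positivity
  refine k1.trans ?_
  rw [mul_assoc]
  refine mul_le_mul_of_nonneg_left ?_ D0
  nlinarith [mul_nonneg A0 p1, mul_nonneg (mul_nonneg A0 n0) p2]

omit [DecidableEq ι] in
theorem bump {a b : ℝ} (ha : 0 < a) (hab : a < b) : ∃ χ : V ι → ℝ, ContDiff ℝ ∞ χ ∧
    (∀ z ∈ closedBall (0 : V ι) a, χ =ᶠ[𝓝 z] fun _ => 1) ∧ ∀ z ∉ closedBall (0 : V ι) b, χ z = 0 := by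
  let f : ContDiffBump (0 : V ι) := ⟨(a + b) / 2, b, by linarith, by linarith⟩
  refine ⟨f, f.contDiff, fun z hz => ?_, fun z hz => f.zero_of_le_dist ?_⟩
  · exact f.eventuallyEq_one_of_mem_ball (closedBall_subset_ball (show a < (a + b) / 2 by linarith) hz)
  · exact (not_le.1 hz).le

end Pool.Agent.Lib.MP_813db1_ag.AN.Par
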