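import Pool.Agent.Lib.MP_813db1_ag.AN.Pot

/-! Local Kaehler potentials. -/

namespace Pool.Agent.Lib.MP_813db1_ag.AN

open Pool.Agent.Lib.MP_813db1_ag.HS
open MeasureTheory Complex Matrix Filter Topology Set Metric
open scoped ContDiff ComplexOrder

set_option linter.unusedSectionVars false

namespace PotL

section param

variable {E : Type} [NormedAddCommGroup E] [NormedSpace ℝ E] [FiniteDimensional ℝ E]
  {F : E × ℝ → ℂ}

theorem has (hF : ContDiff ℝ 1 F) (p : E) : HasFDerivAt (fun q : E => ∫ t in (0 : ℝ)..1, F (q, t))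
    (∫ t in (0 : ℝ)..1, (fderiv ℝ F (p, t)).comp (ContinuousLinearMap.inl ℝ E ℝ)) p := by
  have : ProperSpace E := FiniteDimensional.proper_real E
  have hd : Continuous fun x : E × ℝ => (fderiv ℝ F x).comp (ContinuousLinearMap.inl ℝ E ℝ) :=
    (hF.continuous_fderiv one_ne_zero).clm_comp continuous_const
  obtain ⟨C, hC⟩ := ((isCompact_closedBall p 1).prod
    (isCompact_uIcc (a := (0 : ℝ)) (b := 1))).exists_bound_of_continuousOn hd.continuousOn
  have h1 : ∀ q : E, Continuous fun t : ℝ => F (q, t) := fun q =>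
    hF.continuous.comp (Continuous.prodMk_right q)
  exact intervalIntegral.hasFDerivAt_integral_of_dominated_of_fderiv_le
    (F := fun q t => F (q, t))
    (F' := fun q t => (fderiv ℝ F (q, t)).comp (ContinuousLinearMap.inl ℝ E ℝ))
    (bound := fun _ => C) (closedBall_mem_nhds p one_pos)
    (Eventually.of_forall fun q => (h1 q).aestronglyMeasurable) ((h1 p).intervalIntegrable 0 1)
    (hd.comp (Continuous.prodMk_right p)).aestronglyMeasurable
    (Eventually.of_forall fun t ht q hq => hC (q, t) ⟨hq, uIoc_subset_uIcc ht⟩)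
    (continuous_const.intervalIntegrable 0 1) (Eventually.of_forall fun t _ q _ =>
      (hF.differentiable one_ne_zero _).hasFDerivAt.comp q (hasFDerivAt_prodMk_left q t))

theorem fd (hF : ContDiff ℝ 1 F) (p v : E) :
    fderiv ℝ (fun q : E => ∫ t in (0 : ℝ)..1, F (q, t)) p v =
      ∫ t in (0 : ℝ)..1, fderiv ℝ F (p, t) (v, 0) := by
  have h2 : Continuous fun t : ℝ => (fderiv ℝ F (p, t)).comp (ContinuousLinearMap.inl ℝ E ℝ) :=
    ((hF.continuous_fderiv one_ne_zero).comp (Continuous.prodMk_right p)).clm_comp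
      continuous_const
  rw [(has hF p).fderiv, ContinuousLinearMap.intervalIntegral_apply (h2.intervalIntegrable 0 1)]
  simp

theorem nat (n : ℕ) : ∀ {F : E × ℝ → ℂ}, ContDiff ℝ ∞ F →
    ContDiff ℝ n fun q : E => ∫ t in (0 : ℝ)..1, F (q, t) := by
  induction n with
  | zero =>
    intro F hF
    have : Differentiable ℝ fun q : E => ∫ t in (0 : ℝ)..1, F (q, t) := fun p =>
      (has (hF.of_le (by simp)) p).differentiableAt
    simpa using this.continuous
  | succ n ih =>
    intro F hF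
    have h1 : ContDiff ℝ 1 F := hF.of_le (by simp)
    rw [Nat.cast_succ, contDiff_succ_iff_fderiv_apply]
    refine ⟨fun p => (has h1 p).differentiableAt, by simp, fun v => ?_⟩
    simp only [fd h1]
    exact ih (F := fun x => fderiv ℝ F x (v, 0))
      ((hF.fderiv_right (m := ∞) (by simp)).clm_apply contDiff_const)

theorem smooth (hF : ContDiff ℝ ∞ F) : ContDiff ℝ ∞ fun q : E => ∫ t in (0 : ℝ)..1, F (q, t) :=
  contDiff_infty.2 fun n => nat n hF

theorem slice (hF : ContDiff ℝ 1 F) (p v : E) (t : ℝ) :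
    fderiv ℝ (fun q => F (q, t)) p v = fderiv ℝ F (p, t) (v, 0) :=
  congrArg (fun A => A v) (((hF.differentiable one_ne_zero _).hasFDerivAt.comp p
    (hasFDerivAt_prodMk_left p t)).fderiv)

theorem ci (hF : ContDiff ℝ 1 F) (p v : E) :
    Continuous fun t : ℝ => fderiv ℝ F (p, t) (v, 0) :=
  ((hF.continuous_fderiv one_ne_zero).comp (Continuous.prodMk_right p)).clm_apply continuous_const

end param

variable {ι : Type} [Fintype ι] [DecidableEq ι] {F : V ι × ℝ → ℂ}

theorem dz_c (hF : ContDiff ℝ 1 F) (k : ι) (z : V ι) :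
    Continuous fun t : ℝ => dz (fun q => F (q, t)) k z := by
  simp only [dz, slice hF]
  exact ((ci hF _ _).sub (continuous_const.mul (ci hF _ _))).div_const _

theorem dz_int (hF : ContDiff ℝ 1 F) (k : ι) (z : V ι) :
    dz (fun q => ∫ t in (0 : ℝ)..1, F (q, t)) k z =
      ∫ t in (0 : ℝ)..1, dz (fun q => F (q, t)) k z := by
  simp only [dz, slice hF, fd hF]
  rw [intervalIntegral.integral_div, intervalIntegral.integral_sub
    ((ci hF _ _).intervalIntegrable _ _) (((ci hF _ _).intervalIntegrable _ _).const_mul I),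
    intervalIntegral.integral_const_mul]

theorem dzb_int (hF : ContDiff ℝ 1 F) (k : ι) (z : V ι) :
    dzb (fun q => ∫ t in (0 : ℝ)..1, F (q, t)) k z =
      ∫ t in (0 : ℝ)..1, dzb (fun q => F (q, t)) k z := by
  simp only [dzb, slice hF, fd hF]
  rw [intervalIntegral.integral_div, intervalIntegral.integral_add
    ((ci hF _ _).intervalIntegrable _ _) (((ci hF _ _).intervalIntegrable _ _).const_mul I),
    intervalIntegral.integral_const_mul]

theorem fd_smul {u : V ι → ℂ} (hu : Differentiable ℝ u) (t : ℝ) (z v : V ι) :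
    fderiv ℝ (fun q => u (t • q)) z v = t * fderiv ℝ u (t • z) v := by
  have := ((hu (t • z)).hasFDerivAt.comp z ((hasFDerivAt_id z).const_smul t)).fderiv
  rw [show fderiv ℝ (fun q => u (t • q)) z = _ from this]
  simp

/-- the integrand of the homotopy formula. -/
noncomputable def W (G : V ι → Mat ι) (j : ι) (x : V ι × ℝ) : ℂ :=
  x.2 * ∑ i, x.1 i * G (x.2 • x.1) i j

variable {G : V ι → Mat ι}

theorem W_sm (hG : ∀ i j, ContDiff ℝ ∞ fun z => G z i j) (j : ι) : ContDiff ℝ ∞ (W G j) :=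
  (ofRealCLM.contDiff.comp contDiff_snd).mul (ContDiff.sum fun i _ =>
    ((contDiff_apply ℝ ℂ i).comp contDiff_fst).mul ((hG i j).comp (contDiff_snd.smul contDiff_fst)))

theorem W_fd (hG : ∀ i j, ContDiff ℝ ∞ fun z => G z i j) (j : ι) (t : ℝ) (z v : V ι) :
    fderiv ℝ (fun q => W G j (q, t)) z v = t * ∑ i, (v i * G (t • z) i j +
      z i * (t * fderiv ℝ (fun w => G w i j) (t • z) v)) := by
  have hd : ∀ i, Differentiable ℝ fun w => G w i j := fun i => (hG i j).differentiable (by simp)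
  have h1 : ∀ i, DifferentiableAt ℝ (fun q : V ι => G (t • q) i j) z := fun i =>
    (hd i _).comp z (differentiableAt_id.const_smul t)
  have h2 : ∀ i, HasFDerivAt (fun q : V ι => q i) _ z := fun i => hasFDerivAt_apply (𝕜 := ℝ) i z
  have := (HasFDerivAt.fun_sum (u := Finset.univ) fun i _ =>
    (h2 i).mul (h1 i).hasFDerivAt).const_mul (t : ℂ)
  rw [show fderiv ℝ (fun q => W G j (q, t)) z = _ from this.fderiv]
  simp only [_root_.smul_apply, _root_.sum_apply, _root_.add_apply, smul_eq_mul,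
    ContinuousLinearMap.proj_apply, fd_smul (hd _)]
  congr 1
  exact Finset.sum_congr rfl fun i _ => by ring

theorem W_dz (hG : ∀ i j, ContDiff ℝ ∞ fun z => G z i j) (j k : ι) (t : ℝ) (z : V ι) :
    dz (fun q => W G j (q, t)) k z = t * G (t • z) k j +
      t ^ 2 * ∑ i, z i * dz (fun w => G w i j) k (t • z) := by
  simp only [dz, W_fd hG, Finset.sum_add_distrib, Pi.single_apply, ite_mul, zero_mul,
    Finset.sum_ite_eq', Finset.mem_univ, if_true, mul_div_assoc', mul_sub, ← Finset.sum_div,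
    Finset.sum_sub_distrib, mul_left_comm (z _), ← Finset.mul_sum]
  linear_combination (-(t * G (t • z) k j) / 2) * I_mul_I

theorem W_dzb (hG : ∀ i j, ContDiff ℝ ∞ fun z => G z i j) (j k : ι) (t : ℝ) (z : V ι) :
    dzb (fun q => W G j (q, t)) k z = t ^ 2 * ∑ i, z i * dzb (fun w => G w i j) k (t • z) := by
  simp only [dzb, W_fd hG, Finset.sum_add_distrib, Pi.single_apply, ite_mul, zero_mul,
    Finset.sum_ite_eq', Finset.mem_univ, if_true, mul_div_assoc', mul_add, ← Finset.sum_div,
    mul_left_comm (z _), ← Finset.mul_sum]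
  linear_combination ((t * G (t • z) k j) / 2) * I_mul_I

theorem bar {U : Set (V ι)} (hU : IsOpen U) (h : ClOn G U) {z : V ι} (hz : z ∈ U) (i j k : ι) :
    dzb (fun w => G w i j) k z = star (dz (fun w => G w j i) k z) := by
  rw [← dzb_star]
  exact dzb_congr (mem_of_superset (hU.mem_nhds hz) fun w hw => ((h.2.1 w hw).apply i j).symm) k

theorem pot {r R : ℝ} (h0 : 0 < r) (hr : r < R) (hG : ∀ i j, ContDiff ℝ ∞ fun z => G z i j)
    (h : ClOn G (ball 0 R)) : ∃ f : V ι → ℂ, ContDiff ℝ ∞ f ∧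
      ∀ z ∈ ball (0 : V ι) r, levi f z + (levi f z)ᴴ = G z := by
  have h1 : ∀ j, ContDiff ℝ 1 (W G j) := fun j => (W_sm hG j).of_le (by simp)
  have hm : ∀ z ∈ ball (0 : V ι) R, ∀ t ∈ uIcc (0 : ℝ) 1, t • z ∈ ball (0 : V ι) R :=
    fun z hz t ht => by
      rw [uIcc_of_le zero_le_one] at ht
      exact (convex_ball 0 R).smul_mem_of_zero_mem (mem_ball_self (h0.trans hr)) hz ht
  obtain ⟨f, hf, e⟩ := dolb h0 hr (fun j q => ∫ t in (0 : ℝ)..1, W G j (q, t))
    (fun j z _ => (smooth (W_sm hG j)).contDiffAt) fun i j z hz => by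
      rw [dzb_int (h1 _), dzb_int (h1 _)]
      refine intervalIntegral.integral_congr fun t ht => ?_
      simp only [W_dzb hG, bar isOpen_ball h (hm z hz t ht)]
      congr 1
      exact Finset.sum_congr rfl fun p _ => by rw [h.2.2 _ (hm z hz t ht)]
  refine ⟨f, hf, fun z hz => ?_⟩
  have hz' := ball_subset_ball hr.le hz
  have e1 : ∀ i j, levi f z i j = ∫ t in (0 : ℝ)..1, dz (fun q => W G j (q, t)) i z := fun i j =>
    (dz_congr (mem_of_superset (isOpen_ball.mem_nhds hz) fun w hw => e j w hw) i).trans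
      (dz_int (h1 j) i z)
  ext i j
  have hd : ∀ t : ℝ, HasDerivAt (fun s : ℝ => (s : ℂ) ^ 2 * G (s • z) i j)
      (2 * t * G (t • z) i j + t ^ 2 * fderiv ℝ (fun w => G w i j) (t • z) z) t := fun t => by
    have a := (((hG i j).differentiable (by simp)) (t • z)).hasFDerivAt.comp_hasDerivAt t
      ((hasDerivAt_id t).smul_const z)
    have b : HasDerivAt (fun s : ℝ => (s : ℂ) ^ 2) (2 * t) t := by
      simpa using (hasDerivAt_pow 2 (t : ℂ)).comp_ofReal
    exact (b.mul a).congr_deriv (by simp)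
  have c1 := (dz_c (h1 j) i z).intervalIntegrable (μ := volume) 0 1
  have c2 : IntervalIntegrable (fun t : ℝ => starRingEnd ℂ (dz (fun q => W G i (q, t)) j z))
    volume 0 1 := (continuous_conj.comp (dz_c (h1 i) j z)).intervalIntegrable 0 1
  rw [Matrix.add_apply, conjTranspose_apply, e1, e1, RCLike.star_def,
    ← intervalIntegral.intervalIntegral_conj, ← intervalIntegral.integral_add c1 c2,
    intervalIntegral.integral_eq_sub_of_hasDerivAt (f := fun s : ℝ => (s : ℂ) ^ 2 * G (s • z) i j)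
      (fun t ht => ?_) (c1.add c2)]
  · simp
  · refine (hd t).congr_deriv (Eq.symm ?_)
    have hw := hm z hz' t ht
    rw [W_dz hG, W_dz hG, fderiv_eq_dz, ← RCLike.star_def]
    have ht' : star (t : ℂ) = t := conj_ofReal t
    simp only [star_add, star_mul', star_sum, star_pow, Finset.sum_add_distrib, ht',
      (h.2.1 _ hw).apply, bar isOpen_ball h hw, h.2.2 _ hw _ j i, h.2.2 _ hw _ i j,
      mul_comm (z _), mul_comm (star (z _))]
    ring

end PotL

theorem potL {ι : Type} [Fintype ι] [DecidableEq ι] (G : V ι → Mat ι) (h : ClOn G (ball 0 5)) :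
    ∃ ρ : V ι → ℝ, ∀ z ∈ ball (0 : V ι) 4,
      ContDiffAt ℝ ∞ ρ z ∧ levi (fun w => (ρ w : ℂ)) z = G z := by
  let β : ContDiffBump (0 : V ι) := ⟨9 / 2, 19 / 4, by norm_num, by norm_num⟩
  have hs : ∀ i j, ContDiff ℝ ∞ fun z => ((β z : ℂ) • G z) i j := fun i j =>
    contDiff_iff_contDiffAt.2 fun z => by
      by_cases hz : z ∈ ball (0 : V ι) 5
      · exact (ofRealCLM.contDiff.comp β.contDiff).contDiffAt.mul (h.1 z hz i j)
      · refine (contDiffAt_const (c := (0 : ℂ))).congr_of_eventuallyEq ?_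
        have : (closedBall (0 : V ι) (19 / 4))ᶜ ∈ 𝓝 z := isClosed_closedBall.isOpen_compl.mem_nhds
          fun a => hz (closedBall_subset_ball (by norm_num) a)
        filter_upwards [this] with w hw
        rw [β.zero_of_le_dist (not_le.1 fun a => hw a).le]
        simp
  have he : ∀ z ∈ ball (0 : V ι) (9 / 2), (β z : ℂ) • G z = G z := fun z hz => by
    rw [β.one_of_mem_closedBall (ball_subset_closedBall hz), ofReal_one, one_smul]
  have hv : ∀ z ∈ ball (0 : V ι) (9 / 2), ∀ i j,
      (fun w => ((β w : ℂ) • G w) i j) =ᶠ[𝓝 z] fun w => G w i j := fun z hz i j =>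
    mem_of_superset (isOpen_ball.mem_nhds hz) fun w hw => congrFun (congrFun (he w hw) i) j
  have hb : ball (0 : V ι) (9 / 2) ⊆ ball 0 5 := ball_subset_ball (by norm_num)
  obtain ⟨f, hf, e⟩ := PotL.pot (r := 4) (R := 9 / 2) (by norm_num) (by norm_num) hs
    ⟨fun z _ i j => (hs i j).contDiffAt, fun z hz => by
      simp only [he z hz]; exact h.2.1 z (hb hz),
      fun z hz i j k => by rw [dz_congr (hv z hz i j), dz_congr (hv z hz k j), h.2.2 z (hb hz)]⟩
  refine ⟨fun z => 2 * (f z).re, fun z hz => ⟨contDiffAt_const.mul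
    (reCLM.contDiff.comp hf).contDiffAt, ?_⟩⟩
  rw [levi_two_re (hf.contDiffAt.of_le (by norm_cast)), e z hz,
    he z (ball_subset_ball (by norm_num) hz)]

end Pool.Agent.Lib.MP_813db1_ag.AN
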