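import Pool.Agent.Lib.MP_813db1_ag.AN.Defs

/-! Separation, countability and the atlas of a family of sheets. -/

namespace Pool.Agent.Lib.MP_813db1_ag.AN.StCnt

open Pool.Agent.Lib.MP_813db1_ag.HS
open Filter Topology Set

theorem t2 {X Y G : Type} [TopologicalSpace X] [T2Space X] [TopologicalSpace Y] [Group G]
    [MulAction G Y] {p : Y → X} (h : IsQuotientCoveringMap p G) : T2Space Y := by
  refine ⟨fun a b hab => ?_⟩
  by_cases e : p a = p b
  · exact h.isCoveringMap.isSeparatedMap a b e hab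
  · exact separated_by_continuous h.continuous e

theorem cnt {Y κ : Type} [TopologicalSpace Y] [PreconnectedSpace Y] (O : κ → Set Y)
    (ho : ∀ k, IsOpen (O k)) (hc : ∀ y, ∃ k, y ∈ O k) (hn : ∀ k, (O k).Nonempty)
    (hm : ∀ k, {l | (O k ∩ O l).Nonempty}.Countable) : Countable κ := by
  rcases isEmpty_or_nonempty κ with h | ⟨⟨k0⟩⟩
  · infer_instance
  let S : ℕ → Set κ := fun n => Nat.rec {k0} (fun _ T => ⋃ k ∈ T, {l | (O k ∩ O l).Nonempty}) n
  have s1 : ∀ n, (S n).Countable := fun n => by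
    induction n with
    | zero => exact countable_singleton k0
    | succ n ih => exact ih.biUnion fun k _ => hm k
  have s2 : ∀ k ∈ ⋃ n, S n, ∀ l, (O k ∩ O l).Nonempty → l ∈ ⋃ n, S n := fun k hk l hl => by
    obtain ⟨n, hn⟩ := mem_iUnion.1 hk
    exact mem_iUnion.2 ⟨n + 1, mem_biUnion hn hl⟩
  rw [← countable_univ_iff]
  refine (countable_iUnion s1).mono fun l _ => by_contra fun hl => ?_
  obtain ⟨y, -, h1, h2⟩ := isPreconnected_univ (α := Y) (⋃ k ∈ ⋃ n, S n, O k)
    (⋃ k ∈ (⋃ n, S n)ᶜ, O k) (isOpen_biUnion fun k _ => ho k) (isOpen_biUnion fun k _ => ho k)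
    (fun y _ => by
      obtain ⟨k, hk⟩ := hc y
      by_cases h : k ∈ ⋃ n, S n
      · exact Or.inl (mem_biUnion h hk)
      · exact Or.inr (mem_biUnion h hk))
    ((hn k0).mono fun y hy => ⟨trivial, mem_biUnion (mem_iUnion.2 ⟨0, rfl⟩) hy⟩)
    ((hn l).mono fun y hy => ⟨trivial, mem_biUnion hl hy⟩)
  obtain ⟨a, ha, h3⟩ := mem_iUnion₂.1 h1
  obtain ⟨b, hb, h4⟩ := mem_iUnion₂.1 h2
  exact hb (s2 a ha b ⟨y, h3, h4⟩)

variable {ι Y κ : Type} [Fintype ι] [TopologicalSpace Y]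

/-- charts of countably many types, those of one type pairwise disjoint. -/
theorem cntC [PreconnectedSpace Y] {τ : Type} [Countable τ] (c : κ → Ch ι Y) (ty : κ → τ)
    (hc : ∀ y, ∃ k, y ∈ (c k).source) (hn : ∀ k, (c k).source.Nonempty)
    (hd : ∀ k l y, ty k = ty l → y ∈ (c k).source → y ∈ (c l).source → k = l) : Countable κ := by
  refine cnt (fun k => (c k).source) (fun k => (c k).open_source) hc hn fun k => ?_
  refine (countable_iUnion fun a : τ => PairwiseDisjoint.countable_of_isOpen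
    (s := fun l => (c k).target ∩ (c k).symm ⁻¹' (c l).source)
    (a := {l | ty l = a ∧ ((c k).source ∩ (c l).source).Nonempty})
    (fun l hl m hm hlm => disjoint_left.2 fun z h1 h2 =>
      hlm (hd l m _ (hl.1.trans hm.1.symm) h1.2 h2.2))
    (fun l _ => (c k).isOpen_inter_preimage_symm (c l).open_source) fun l hl => ?_).mono
    fun l hl => mem_iUnion.2 ⟨ty l, And.intro rfl hl⟩
  obtain ⟨y, h1, h2⟩ := hl.2
  exact ⟨c k y, (c k).map_source h1, by rwa [mem_preimage, (c k).left_inv h1]⟩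

/-- the maximal atlas of a family of charts. -/
theorem mkAtl (c : κ → Ch ι Y) (ch : Y → κ) (hm : ∀ y, y ∈ (c (ch y)).source)
    (hol : ∀ k l y, y ∈ (c k).source → y ∈ (c l).source →
      AnalyticAt ℂ (c l ∘ (c k).symm) (c k y)) :
    ∃ M : Atl ι Y, (∀ y, M.ch y = c (ch y)) ∧ ∀ k, c k ∈ M.A := by
  refine ⟨⟨{e | ∀ x ∈ e.source, AnalyticAt ℂ (e ∘ (c (ch x)).symm) (c (ch x) x) ∧
    AnalyticAt ℂ (c (ch x) ∘ e.symm) (e x)}, fun y => c (ch y),
    fun y x hx => ⟨hol _ _ x (hm x) hx, hol _ _ x hx (hm x)⟩, hm, fun e he e' he' x h1 h2 => ?_,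
    fun e he => he⟩, fun _ => rfl, fun k x hx => ⟨hol _ _ x (hm x) hx, hol _ _ x hx (hm x)⟩⟩
  refine ((he' x h2).1.comp_of_eq (he x h1).2 (by simp [e.left_inv h1])).congr ?_
  have := e.continuousAt_symm (e.map_source h1)
  rw [ContinuousAt, e.left_inv h1] at this
  filter_upwards [this.eventually ((c (ch x)).open_source.mem_nhds (hm x))] with z hz
  simp [(c (ch x)).left_inv hz]

end Pool.Agent.Lib.MP_813db1_ag.AN.StCnt
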