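import Pool.Agent.Lib.MP_813db1_ag.AS.Top

/-! Kaehler classes that come from the group of a covering. -/

namespace Pool.Agent.Lib.MP_813db1_ag.AN

open Pool.Agent.Lib.MP_813db1_ag.HS Filter Topology
open scoped ContDiff

variable {ι X : Type} [Fintype ι] [DecidableEq ι] [TopologicalSpace X] [ChartedSpace (ι → ℂ) X]

/-- there are a smooth real one-form `α` on `Y` whose differential is the pull back of the Kaehler
form and smooth functions `u g` on `Y` with `d (u g) = g^* α - α`. Here `α e y` is the value of `α`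
at `y` in the chart `e ∘ p`, and `s` runs over the local inverses of `e ∘ p`. -/
def KEss {Y : Type} [TopologicalSpace Y] (G : Type) [SMul G Y] (K : Kahler ι X) (p : Y → X) :
    Prop :=
  ∃ (α : OpenPartialHomeomorph X (ι → ℂ) → Y → (ι → ℂ) →L[ℝ] ℝ) (u : G → Y → ℝ),
    (∀ e ∈ atlas (ι → ℂ) X, ∀ e' ∈ atlas (ι → ℂ) X, ∀ y, p y ∈ e.source → p y ∈ e'.source →
      α e y = (α e' y).comp (fderiv ℝ (e' ∘ e.symm) (e (p y)))) ∧
    ∀ e ∈ atlas (ι → ℂ) X, ∀ z ∈ e.target, ∀ s : (ι → ℂ) → Y, ContinuousAt s z →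
      (∀ᶠ w in 𝓝 z, p (s w) = e.symm w) → (ContDiffAt ℝ ∞ (fun w => α e (s w)) z ∧
        ∀ a b, fderiv ℝ (fun w => α e (s w)) z a b - fderiv ℝ (fun w => α e (s w)) z b a =
          (∑ i, ∑ j, K.g e z i j * a i * star (b j)).im) ∧
        ∀ g, ContDiffAt ℝ ∞ (fun w => u g (s w)) z ∧
          fderiv ℝ (fun w => u g (s w)) z = α e (g • s z) - α e (s z)

end Pool.Agent.Lib.MP_813db1_ag.AN
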